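import Pool.Agent.Lib.MP_33f9c4_lc.T.Mac

set_option autoImplicit false

/-!
MODULE Clk. A normalised machine is run with a clock on its own stacks (above markers).

Choose `N₀ = V.S + V.Q`, `sy g = .e g`, states `q ↦ .e (V.S + q)` (as elements of `Fin N`). During the run stack `k`
contains `(u.get k).map sy ++ mk :: fr.get k`; on top of stack `c` there are in addition
`state letter :: bw κ ++ hs ::` (or the letter `re` instead of the state letter: finished).
BODY (loop on stack `c`, condition: top letter is a state letter): pop the state letter `q`; decrement the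
clock: push `hs` on `d`, while the top of `c` is `o` pop it and push `i` on `d`; pop the next letter `v` of `c`: if `v = i`
push `o` on `c`, then move the letters `i` of `d` back to `c` (until `hs`, pop it), and execute `ins q`; if `v = hs` (the
clock was 0) push `hs` on `c`, move back, push `re` (finished).
`ins q = push k g q'`, `k ≠ c`: push `sy g` on `k`, push the letter of `q'` on `c`. `k = c`: move the clock from `c` to `d` (push
`hs` on `d`, move the bits, pop `hs` of `c`), operate, move it back. `pop k f`: pop the top letter: `sy g` ↦ next state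
`f (some g)`; `mk` ↦ push it back, next state `f none`; `peek`: also push `sy g` back. `halt`: push `re`.
The program is a `LP.pop .c (fun v => ...)` with a case distinction over all letters (`Fin N` of the state):
everything is a finite function, no recursion. After the loop: pop `re`, delete the clock bits, pop `hs`.
Every turn costs at most `C (κ.length + 1)` and decreases `lval κ` by one (or finishes); a halting machine does
not change any more, so the final stacks are those of `V.step^[lval κ]`.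
-/

namespace Pool.Agent.Lib.MP_33f9c4_lc.TT

variable {m N : ℕ}

/-- the layout: the coded stacks `u` of a machine above the marker above the frame `fr` -/
def lay {S : ℕ} (sy : Fin S → Lt N) (u : Sta m (Fin S)) (fr : Sta m (Lt N)) : Sta m (Lt N) :=
  (u.map sy).app (fr.mark .mk)

section clk

variable {A : Type}

/-- clock on top of `c` -/
private def Clk_Y (κ : List Bool) (s : Sta m (Lt N)) : Sta m (Lt N) :=
  ⟨s.a, s.b, bw κ ++ .hs :: s.c, s.d, s.x⟩

/-- letter and clock on top of `c` -/
private def Clk_Z (v : Lt N) (κ : List Bool) (s : Sta m (Lt N)) : Sta m (Lt N) :=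
  ⟨s.a, s.b, v :: (bw κ ++ .hs :: s.c), s.d, s.x⟩

/-- reversed clock on top of `d` -/
private def Clk_W (κ : List Bool) (s : Sta m (Lt N)) : Sta m (Lt N) :=
  ⟨s.a, s.b, s.c, (bw κ).reverse ++ .hs :: s.d, s.x⟩

private theorem Clk_bw (κ : List Bool) (w : Lt N) (hw : w ∈ (bw κ : List (Lt N))) :
    isB w = true := by
  obtain ⟨b, _, rfl⟩ := List.mem_map.1 hw
  exact isB_bt b

private theorem Clk_bw_rev (κ : List Bool) (w : Lt N) (hw : w ∈ (bw κ : List (Lt N)).reverse) :
    isB w = true := Clk_bw κ w (List.mem_reverse.1 hw)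

private theorem Clk_len (κ : List Bool) : (bw κ : List (Lt N)).length = κ.length :=
  List.length_map _

/-- the clock away -/
private def Clk_aw : LP m (Lt N) := .seq (.push .d .hs) (.seq (mv .c .d isB id) (pop1 .c))

/-- the clock back -/
private def Clk_bk : LP m (Lt N) := .seq (.push .c .hs) (.seq (mv .d .c isB id) (pop1 .d))

private theorem Clk_aw_run (κ : List Bool) (s : Sta m (Lt N)) :
    LR Clk_aw (Clk_Y κ s) (Clk_W κ s) (3 * κ.length + 4) := by
  obtain ⟨a, b, c, d, x⟩ := s
  have h1 : LR (.push .d .hs) (⟨a, b, bw κ ++ .hs :: c, d, x⟩ : Sta m (Lt N))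
      ⟨a, b, bw κ ++ .hs :: c, .hs :: d, x⟩ 1 := LR.push _ _ _
  have h2 : LR (mv .c .d isB id) (⟨a, b, bw κ ++ .hs :: c, .hs :: d, x⟩ : Sta m (Lt N))
      ⟨a, b, .hs :: c, ((bw κ).map id).reverse ++ .hs :: d, x⟩
      (3 * (bw κ : List (Lt N)).length + 1) :=
    mv_run (k := .c) (k' := .d) (by simp) id (s := ⟨a, b, bw κ ++ .hs :: c, .hs :: d, x⟩)
      (l := bw κ) (v := .hs) (r := c) rfl (Clk_bw κ) rfl
  rw [List.map_id, Clk_len] at h2
  have h3 : LR (pop1 .c) (⟨a, b, .hs :: c, (bw κ).reverse ++ .hs :: d, x⟩ : Sta m (Lt N))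
      ⟨a, b, c, (bw κ).reverse ++ .hs :: d, x⟩ 2 :=
    pop1_run (k := .c) (s := ⟨a, b, .hs :: c, (bw κ).reverse ++ .hs :: d, x⟩) (v := .hs) (r := c)
      rfl
  exact (h1.seq (h2.seq h3)).mono (by omega)

private theorem Clk_bk_run (κ : List Bool) (s : Sta m (Lt N)) :
    LR Clk_bk (Clk_W κ s) (Clk_Y κ s) (3 * κ.length + 4) := by
  obtain ⟨a, b, c, d, x⟩ := s
  have h1 : LR (.push .c .hs) (⟨a, b, c, (bw κ).reverse ++ .hs :: d, x⟩ : Sta m (Lt N))
      ⟨a, b, .hs :: c, (bw κ).reverse ++ .hs :: d, x⟩ 1 := LR.push _ _ _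
  have h2 : LR (mv .d .c isB id) (⟨a, b, .hs :: c, (bw κ).reverse ++ .hs :: d, x⟩ : Sta m (Lt N))
      ⟨a, b, (((bw κ).reverse).map id).reverse ++ .hs :: c, .hs :: d, x⟩
      (3 * (bw κ : List (Lt N)).reverse.length + 1) :=
    mv_run (k := .d) (k' := .c) (by simp) id (s := ⟨a, b, .hs :: c, (bw κ).reverse ++ .hs :: d, x⟩)
      (l := (bw κ).reverse) (v := .hs) (r := d) rfl (Clk_bw_rev κ) rfl
  rw [List.map_id, List.length_reverse, Clk_len, List.reverse_reverse] at h2
  have h3 : LR (pop1 .d) (⟨a, b, bw κ ++ .hs :: c, .hs :: d, x⟩ : Sta m (Lt N))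
      ⟨a, b, bw κ ++ .hs :: c, d, x⟩ 2 :=
    pop1_run (k := .d) (s := ⟨a, b, bw κ ++ .hs :: c, .hs :: d, x⟩) (v := .hs) (r := d) rfl
  exact (h1.seq (h2.seq h3)).mono (by omega)

private def Clk_M (k : Ix m) (κ : List Bool) (s : Sta m (Lt N)) : Sta m (Lt N) :=
  if k = .c then Clk_W κ s else Clk_Y κ s

private theorem Clk_M_get (k : Ix m) (κ : List Bool) (s : Sta m (Lt N)) :
    (Clk_M k κ s).get k = s.get k := by
  unfold Clk_M
  cases k <;> simp [Clk_W, Clk_Y, Sta.get]

private theorem Clk_M_set (k : Ix m) (κ : List Bool) (s : Sta m (Lt N)) (l : List (Lt N)) :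
    (Clk_M k κ s).set k l = Clk_M k κ (s.set k l) := by
  unfold Clk_M
  cases k <;> simp [Clk_W, Clk_Y, Sta.set]

private def Clk_AW (k : Ix m) : LP m (Lt N) := if k = .c then Clk_aw else .skip

private def Clk_BK (k : Ix m) : LP m (Lt N) := if k = .c then Clk_bk else .skip

private theorem Clk_AW_run (k : Ix m) (κ : List Bool) (s : Sta m (Lt N)) :
    LR (Clk_AW k) (Clk_Y κ s) (Clk_M k κ s) (3 * κ.length + 4) := by
  unfold Clk_AW Clk_M
  by_cases h : k = .c
  · rw [if_pos h, if_pos h]
    exact Clk_aw_run κ s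
  · rw [if_neg h, if_neg h]
    exact (LR.skip _).mono (by omega)

private theorem Clk_BK_run (k : Ix m) (κ : List Bool) (s : Sta m (Lt N)) :
    LR (Clk_BK k) (Clk_M k κ s) (Clk_Y κ s) (3 * κ.length + 4) := by
  unfold Clk_BK Clk_M
  by_cases h : k = .c
  · rw [if_pos h, if_pos h]
    exact Clk_bk_run κ s
  · rw [if_neg h, if_neg h]
    exact (LR.skip _).mono (by omega)

private theorem Clk_put (v : Lt N) (κ : List Bool) (s : Sta m (Lt N)) :
    LR (.push .c v) (Clk_Y κ s) (Clk_Z v κ s) 1 := LR.push _ _ _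

private theorem Clk_lay_get {S : ℕ} (sy : Fin S → Lt N) (u : Sta m (Fin S)) (fr : Sta m (Lt N))
    (k : Ix m) : (lay sy u fr).get k = (u.get k).map sy ++ .mk :: fr.get k := by
  unfold lay
  rw [Sta.get_app, Sta.get_map, Sta.get_mark]

private theorem Clk_lay_set {S : ℕ} (sy : Fin S → Lt N) (u : Sta m (Fin S)) (fr : Sta m (Lt N))
    (k : Ix m) (l : List (Fin S)) :
    (lay sy u fr).set k (l.map sy ++ .mk :: fr.get k) = lay sy (u.set k l) fr := by
  ext j : 1
  by_cases h : j = k
  · subst h
    rw [Sta.get_set_self, Clk_lay_get, Sta.get_set_self]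
  · rw [Sta.get_set_of_ne _ h, Clk_lay_get, Clk_lay_get, Sta.get_set_of_ne _ h]

/-! the instructions -/

private def Clk_ins {V : NM m} (sy : Fin V.S → Lt N) (st : Fin V.Q → Lt N)
    (ds : Lt N → Option (Fin V.S)) : NI m (Fin V.S) (Fin V.Q) → LP m (Lt N)
  | .push k g q => .seq (Clk_AW k) (.seq (.push k (sy g)) (.seq (Clk_BK k) (.push .c (st q))))
  | .pop k f => .seq (Clk_AW k) (.pop k fun v =>
      .seq (if v = .mk then .push k .mk else .skip) (.seq (Clk_BK k) (.push .c (st (f (ds v))))))
  | .peek k f => .seq (Clk_AW k) (.pop k fun v =>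
      .seq (.push k v) (.seq (Clk_BK k) (.push .c (st (f (ds v))))))
  | .halt => .push .c .re

private theorem Clk_ins_run {V : NM m} {sy : Fin V.S → Lt N} {st : Fin V.Q → Lt N}
    {ds : Lt N → Option (Fin V.S)} (h1 : ∀ g, ds (sy g) = some g) (h2 : ds .mk = none)
    (h3 : ∀ g, sy g ≠ .mk) (κ : List Bool) (q : Fin V.Q) (u : Sta m (Fin V.S))
    (fr : Sta m (Lt N)) :
    (V.ins q = .halt ∧ LR (Clk_ins sy st ds (V.ins q)) (Clk_Y κ (lay sy u fr))
      (Clk_Z .re κ (lay sy u fr)) (6 * κ.length + 20)) ∨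
    LR (Clk_ins sy st ds (V.ins q)) (Clk_Y κ (lay sy u fr))
      (Clk_Z (st (V.step (q, u)).1) κ (lay sy (V.step (q, u)).2 fr)) (6 * κ.length + 20) := by
  rcases hi : V.ins q with ⟨k, g, q'⟩ | ⟨k, f⟩ | ⟨k, f⟩ | _
  · right
    have e : V.step (q, u) = (q', u.set k (g :: u.get k)) := by
      unfold NM.step
      simp only [hi]
    rw [e]
    have a1 := Clk_AW_run k κ (lay sy u fr)
    have a2 := LR.push k (sy g) (Clk_M k κ (lay sy u fr))
    rw [Clk_M_get, Clk_M_set, Clk_lay_get] at a2
    have e2 : (lay sy u fr).set k (sy g :: ((u.get k).map sy ++ .mk :: fr.get k)) =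
        lay sy (u.set k (g :: u.get k)) fr := by
      rw [← Clk_lay_set]
      rfl
    rw [e2] at a2
    have a3 := Clk_BK_run k κ (lay sy (u.set k (g :: u.get k)) fr)
    have a4 := Clk_put (st q') κ (lay sy (u.set k (g :: u.get k)) fr)
    exact (a1.seq (a2.seq (a3.seq a4))).mono (by omega)
  · right
    have e : V.step (q, u) = (f (u.get k).head?, u.set k (u.get k).tail) := by
      unfold NM.step
      simp only [hi]
    rw [e]
    have a1 := Clk_AW_run k κ (lay sy u fr)
    rcases hu : u.get k with _ | ⟨g, r⟩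
    · have e2 : u.set k ([] : List (Fin V.S)).tail = u := by
        show u.set k [] = u
        rw [← hu, Sta.set_get]
      have hg : (Clk_M k κ (lay sy u fr)).get k = .mk :: fr.get k := by
        rw [Clk_M_get, Clk_lay_get, hu]
        rfl
      have a3 : LR (if (.mk : Lt N) = .mk then .push k .mk else .skip)
          ((Clk_M k κ (lay sy u fr)).set k (fr.get k)) (Clk_M k κ (lay sy u fr)) 1 := by
        rw [if_pos rfl]
        have := LR.push k (.mk : Lt N) ((Clk_M k κ (lay sy u fr)).set k (fr.get k))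
        rwa [Sta.get_set_self, Sta.set_set, ← hg, Sta.set_get] at this
      have a4 := Clk_BK_run k κ (lay sy u fr)
      have a5 := Clk_put (st (f none)) κ (lay sy u fr)
      rw [← h2] at a5
      have a6 : LR (.pop k fun v =>
        .seq (if v = .mk then .push k .mk else .skip)
          (.seq (Clk_BK k) (.push .c (st (f (ds v)))))) (Clk_M k κ (lay sy u fr))
          (Clk_Z (st (f (ds .mk))) κ (lay sy u fr)) (1 + ((3 * κ.length + 4) + 1) + 1) :=
        LR.pop hg (a3.seq (a4.seq a5))
      rw [h2] at a6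
      rw [e2]
      exact (a1.seq a6).mono (by omega)
    · have hg : (Clk_M k κ (lay sy u fr)).get k = sy g :: (r.map sy ++ .mk :: fr.get k) := by
        rw [Clk_M_get, Clk_lay_get, hu]
        rfl
      have a3 : LR (if sy g = .mk then .push k .mk else .skip)
          ((Clk_M k κ (lay sy u fr)).set k (r.map sy ++ .mk :: fr.get k))
          (Clk_M k κ (lay sy (u.set k r) fr)) 1 := by
        rw [if_neg (h3 g), Clk_M_set, Clk_lay_set]
        exact LR.skip _
      have a4 := Clk_BK_run k κ (lay sy (u.set k r) fr)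
      have a5 := Clk_put (st (f (some g))) κ (lay sy (u.set k r) fr)
      rw [← h1 g] at a5
      have a6 : LR (.pop k fun v =>
        .seq (if v = .mk then .push k .mk else .skip)
          (.seq (Clk_BK k) (.push .c (st (f (ds v)))))) (Clk_M k κ (lay sy u fr))
          (Clk_Z (st (f (ds (sy g)))) κ (lay sy (u.set k r) fr))
          (1 + ((3 * κ.length + 4) + 1) + 1) :=
        LR.pop hg (a3.seq (a4.seq a5))
      rw [h1 g] at a6
      exact (a1.seq a6).mono (by omega)
  · right
    have e : V.step (q, u) = (f (u.get k).head?, u) := by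
      unfold NM.step
      simp only [hi]
    rw [e]
    have a1 := Clk_AW_run k κ (lay sy u fr)
    obtain ⟨v, l, hvl, hdv⟩ : ∃ (v : Lt N) (l : List (Lt N)),
        (Clk_M k κ (lay sy u fr)).get k = v :: l ∧ ds v = (u.get k).head? := by
      rw [Clk_M_get, Clk_lay_get]
      rcases hu : u.get k with _ | ⟨g, r⟩
      · exact ⟨_, _, rfl, h2⟩
      · exact ⟨_, _, rfl, h1 g⟩
    have a3 : LR (.push k v) ((Clk_M k κ (lay sy u fr)).set k l)
        (Clk_M k κ (lay sy u fr)) 1 := by
      have := LR.push k v ((Clk_M k κ (lay sy u fr)).set k l)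
      rwa [Sta.get_set_self, Sta.set_set, ← hvl, Sta.set_get] at this
    have a4 := Clk_BK_run k κ (lay sy u fr)
    have a5 := Clk_put (st (f (ds v))) κ (lay sy u fr)
    have a6 : LR (.pop k fun v =>
      .seq (.push k v) (.seq (Clk_BK k) (.push .c (st (f (ds v)))))) (Clk_M k κ (lay sy u fr))
        (Clk_Z (st (f (ds v))) κ (lay sy u fr)) (1 + ((3 * κ.length + 4) + 1) + 1) :=
      LR.pop hvl (a3.seq (a4.seq a5))
    rw [hdv] at a6
    exact (a1.seq a6).mono (by omega)
  · left
    exact ⟨rfl, (Clk_put .re κ (lay sy u fr)).mono (by omega)⟩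

/-! the clock -/

private def Clk_o (v : Lt N) : Bool := decide (v = .o)

private def Clk_i (v : Lt N) : Bool := decide (v = .i)

/-- decrement, then execute `P`; if the clock was zero push `re` -/
private def Clk_dec (P : LP m (Lt N)) : LP m (Lt N) :=
  .seq (.push .d .hs) (.seq (mv .c .d Clk_o (fun _ => .i)) (.pop .c fun v =>
    if v = .i then .seq (.push .c .o) (.seq (mv .d .c Clk_i id) (.seq (pop1 .d) P))
    else .seq (.push .c .hs) (.seq (mv .d .c Clk_i id) (.seq (pop1 .d) (.push .c .re)))))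

private theorem Clk_case : ∀ κ : List Bool,
    (κ = List.replicate κ.length false ∧ lval κ = 0) ∨
    ∃ j κ2, κ = List.replicate j false ++ true :: κ2 ∧
      lval κ = lval (List.replicate j true ++ false :: κ2) + 1 ∧
      (List.replicate j true ++ false :: κ2).length = κ.length
  | [] => Or.inl ⟨rfl, rfl⟩
  | true :: κ => Or.inr ⟨0, κ, rfl, by
      simp only [List.replicate_zero, List.nil_append, lval, Bool.toNat_true, Bool.toNat_false]
      omega, rfl⟩
  | false :: κ => by
    rcases Clk_case κ with ⟨h1, h2⟩ | ⟨j, κ2, h1, h2, h3⟩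
    · left
      constructor
      · rw [List.length_cons, List.replicate_succ, ← h1]
      · simp only [lval, h2, Bool.toNat_false]
    · right
      refine ⟨j + 1, κ2, ?_, ?_, ?_⟩
      · rw [List.replicate_succ, List.cons_append, ← h1]
      · rw [List.replicate_succ, List.cons_append]
        simp only [lval, Bool.toNat_true, Bool.toNat_false]
        omega
      · rw [List.replicate_succ, List.cons_append, List.length_cons, h3, List.length_cons]

private theorem Clk_rep_o (j : ℕ) : (bw (List.replicate j false) : List (Lt N)) =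
    List.replicate j .o := by
  unfold bw
  rw [List.map_replicate]
  rfl

private theorem Clk_rep_i (j : ℕ) : (bw (List.replicate j true) : List (Lt N)) =
    List.replicate j .i := by
  unfold bw
  rw [List.map_replicate]
  rfl

private theorem Clk_dec_zero (P : LP m (Lt N)) (j : ℕ) (s : Sta m (Lt N)) :
    LR (Clk_dec P) (Clk_Y (List.replicate j false) s) (Clk_Z .re (List.replicate j true) s)
      (6 * j + 20) := by
  obtain ⟨a, b, c, d, x⟩ := s
  unfold Clk_Y Clk_Z
  rw [Clk_rep_o, Clk_rep_i]
  have h1 : LR (.push .d .hs) (⟨a, b, List.replicate j .o ++ .hs :: c, d, x⟩ : Sta m (Lt N))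
      ⟨a, b, List.replicate j .o ++ .hs :: c, .hs :: d, x⟩ 1 := LR.push _ _ _
  have h2 : LR (mv .c .d Clk_o (fun _ => .i))
      (⟨a, b, List.replicate j .o ++ .hs :: c, .hs :: d, x⟩ : Sta m (Lt N))
      ⟨a, b, .hs :: c, ((List.replicate j (.o : Lt N)).map fun _ => .i).reverse ++ .hs :: d, x⟩
      (3 * (List.replicate j (.o : Lt N)).length + 1) :=
    mv_run (k := .c) (k' := .d) (by simp) _
      (s := ⟨a, b, List.replicate j .o ++ .hs :: c, .hs :: d, x⟩)
      (l := List.replicate j .o) (v := .hs) (r := c) rfl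
      (fun u hu => by rw [List.eq_of_mem_replicate hu]; rfl) rfl
  rw [List.map_replicate, List.reverse_replicate, List.length_replicate] at h2
  have h3 : LR (.push .c .hs) (⟨a, b, c, List.replicate j .i ++ .hs :: d, x⟩ : Sta m (Lt N))
      ⟨a, b, .hs :: c, List.replicate j .i ++ .hs :: d, x⟩ 1 := LR.push _ _ _
  have h4 : LR (mv .d .c Clk_i id)
      (⟨a, b, .hs :: c, List.replicate j .i ++ .hs :: d, x⟩ : Sta m (Lt N))
      ⟨a, b, ((List.replicate j (.i : Lt N)).map id).reverse ++ .hs :: c, .hs :: d, x⟩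
      (3 * (List.replicate j (.i : Lt N)).length + 1) :=
    mv_run (k := .d) (k' := .c) (by simp) id
      (s := ⟨a, b, .hs :: c, List.replicate j .i ++ .hs :: d, x⟩)
      (l := List.replicate j .i) (v := .hs) (r := d) rfl
      (fun u hu => by rw [List.eq_of_mem_replicate hu]; rfl) rfl
  rw [List.map_id, List.reverse_replicate, List.length_replicate] at h4
  have h5 : LR (pop1 .d)
      (⟨a, b, List.replicate j .i ++ .hs :: c, .hs :: d, x⟩ : Sta m (Lt N))
      ⟨a, b, List.replicate j .i ++ .hs :: c, d, x⟩ 2 :=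
    pop1_run (k := .d) (s := ⟨a, b, List.replicate j .i ++ .hs :: c, .hs :: d, x⟩) (v := .hs)
      (r := d) rfl
  have h6 : LR (.push .c .re)
      (⟨a, b, List.replicate j .i ++ .hs :: c, d, x⟩ : Sta m (Lt N))
      ⟨a, b, .re :: (List.replicate j .i ++ .hs :: c), d, x⟩ 1 := LR.push _ _ _
  have h7 : LR (.pop .c fun v =>
      if v = .i then .seq (.push .c .o) (.seq (mv .d .c Clk_i id) (.seq (pop1 .d) P))
      else .seq (.push .c .hs) (.seq (mv .d .c Clk_i id) (.seq (pop1 .d) (.push .c .re))))
      (⟨a, b, .hs :: c, List.replicate j .i ++ .hs :: d, x⟩ : Sta m (Lt N))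
      ⟨a, b, .re :: (List.replicate j .i ++ .hs :: c), d, x⟩ (1 + ((3 * j + 1) + (2 + 1)) + 1) :=
    LR.pop (k := .c) (s := ⟨a, b, .hs :: c, List.replicate j .i ++ .hs :: d, x⟩) (v := .hs)
      (l := c) rfl (h3.seq (h4.seq (h5.seq h6)))
  exact (h1.seq (h2.seq h7)).mono (by omega)

private theorem Clk_dec_succ (P : LP m (Lt N)) (j : ℕ) (κ2 : List Bool) (s z : Sta m (Lt N))
    (t : ℕ) (hP : LR P (Clk_Y (List.replicate j true ++ false :: κ2) s) z t) :
    LR (Clk_dec P) (Clk_Y (List.replicate j false ++ true :: κ2) s) z (6 * j + 20 + t) := by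
  obtain ⟨a, b, c, d, x⟩ := s
  have e1 : Clk_Y (List.replicate j false ++ true :: κ2) (⟨a, b, c, d, x⟩ : Sta m (Lt N)) =
      ⟨a, b, List.replicate j .o ++ .i :: (bw κ2 ++ .hs :: c), d, x⟩ := by
    unfold Clk_Y
    rw [← Clk_rep_o]
    simp [bw, bt]
  have e2 : Clk_Y (List.replicate j true ++ false :: κ2) (⟨a, b, c, d, x⟩ : Sta m (Lt N)) =
      ⟨a, b, List.replicate j .i ++ .o :: (bw κ2 ++ .hs :: c), d, x⟩ := by
    unfold Clk_Y
    rw [← Clk_rep_i]
    simp [bw, bt]
  rw [e2] at hP
  rw [e1]
  generalize (bw κ2 ++ .hs :: c : List (Lt N)) = w at hP ⊢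
  have h1 : LR (.push .d .hs) (⟨a, b, List.replicate j .o ++ .i :: w, d, x⟩ : Sta m (Lt N))
      ⟨a, b, List.replicate j .o ++ .i :: w, .hs :: d, x⟩ 1 := LR.push _ _ _
  have h2 : LR (mv .c .d Clk_o (fun _ => .i))
      (⟨a, b, List.replicate j .o ++ .i :: w, .hs :: d, x⟩ : Sta m (Lt N))
      ⟨a, b, .i :: w, ((List.replicate j (.o : Lt N)).map fun _ => .i).reverse ++ .hs :: d, x⟩
      (3 * (List.replicate j (.o : Lt N)).length + 1) :=
    mv_run (k := .c) (k' := .d) (by simp) _
      (s := ⟨a, b, List.replicate j .o ++ .i :: w, .hs :: d, x⟩)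
      (l := List.replicate j .o) (v := .i) (r := w) rfl
      (fun u hu => by rw [List.eq_of_mem_replicate hu]; rfl) rfl
  rw [List.map_replicate, List.reverse_replicate, List.length_replicate] at h2
  have h3 : LR (.push .c .o) (⟨a, b, w, List.replicate j .i ++ .hs :: d, x⟩ : Sta m (Lt N))
      ⟨a, b, .o :: w, List.replicate j .i ++ .hs :: d, x⟩ 1 := LR.push _ _ _
  have h4 : LR (mv .d .c Clk_i id)
      (⟨a, b, .o :: w, List.replicate j .i ++ .hs :: d, x⟩ : Sta m (Lt N))
      ⟨a, b, ((List.replicate j (.i : Lt N)).map id).reverse ++ .o :: w, .hs :: d, x⟩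
      (3 * (List.replicate j (.i : Lt N)).length + 1) :=
    mv_run (k := .d) (k' := .c) (by simp) id
      (s := ⟨a, b, .o :: w, List.replicate j .i ++ .hs :: d, x⟩)
      (l := List.replicate j .i) (v := .hs) (r := d) rfl
      (fun u hu => by rw [List.eq_of_mem_replicate hu]; rfl) rfl
  rw [List.map_id, List.reverse_replicate, List.length_replicate] at h4
  have h5 : LR (pop1 .d)
      (⟨a, b, List.replicate j .i ++ .o :: w, .hs :: d, x⟩ : Sta m (Lt N))
      ⟨a, b, List.replicate j .i ++ .o :: w, d, x⟩ 2 :=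
    pop1_run (k := .d) (s := ⟨a, b, List.replicate j .i ++ .o :: w, .hs :: d, x⟩) (v := .hs)
      (r := d) rfl
  have h7 : LR (.pop .c fun v =>
      if v = .i then .seq (.push .c .o) (.seq (mv .d .c Clk_i id) (.seq (pop1 .d) P))
      else .seq (.push .c .hs) (.seq (mv .d .c Clk_i id) (.seq (pop1 .d) (.push .c .re))))
      (⟨a, b, .i :: w, List.replicate j .i ++ .hs :: d, x⟩ : Sta m (Lt N))
      z (1 + ((3 * j + 1) + (2 + t)) + 1) :=
    LR.pop (k := .c) (s := ⟨a, b, .i :: w, List.replicate j .i ++ .hs :: d, x⟩) (v := .i)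
      (l := w) rfl (h3.seq (h4.seq (h5.seq hP)))
  exact (h1.seq (h2.seq h7)).mono (by omega)

/-! the loop -/

private def Clk_body {V : NM m} (sy : Fin V.S → Lt N) (st : Fin V.Q → Lt N)
    (ds : Lt N → Option (Fin V.S)) (dq : Lt N → Option (Fin V.Q)) : LP m (Lt N) :=
  .pop .c fun v => match dq v with
    | some q => Clk_dec (Clk_ins sy st ds (V.ins q))
    | none => .skip

private theorem Clk_loop {V : NM m} {sy : Fin V.S → Lt N} {st : Fin V.Q → Lt N}
    {ds : Lt N → Option (Fin V.S)} {dq : Lt N → Option (Fin V.Q)}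
    (h1 : ∀ g, ds (sy g) = some g) (h2 : ds .mk = none) (h3 : ∀ g, sy g ≠ .mk)
    (h4 : ∀ q, dq (st q) = some q) (h5 : dq .re = none) (fr : Sta m (Lt N)) :
    ∀ (n : ℕ) (κ : List Bool) (q : Fin V.Q) (u : Sta m (Fin V.S)), lval κ = n →
    ∃ κ' : List Bool, κ'.length = κ.length ∧
      LR (.loop .c (fun v => (dq v).isSome) (Clk_body sy st ds dq))
        (Clk_Z (st q) κ (lay sy u fr)) (Clk_Z .re κ' (lay sy (V.step^[n] (q, u)).2 fr))
        ((n + 1) * (12 * κ.length + 44)) := by
  intro n
  induction n with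
  | zero =>
    intro κ q u hn
    rcases Clk_case κ with ⟨e1, _⟩ | ⟨j, κ2, _, e2, _⟩
    · refine ⟨List.replicate κ.length true, List.length_replicate, ?_⟩
      have a1 : LR (Clk_body sy st ds dq) (Clk_Z (st q) κ (lay sy u fr))
          (Clk_Z .re (List.replicate κ.length true) (lay sy u fr)) (6 * κ.length + 20 + 1) := by
        refine LR.pop (k := .c) (v := st q) (l := bw κ ++ .hs :: (lay sy u fr).c) rfl ?_
        simp only [h4]
        have := Clk_dec_zero (Clk_ins sy st ds (V.ins q)) κ.length (lay sy u fr)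
        rw [← e1] at this
        exact this
      have a2 : LR (.loop .c (fun v => (dq v).isSome) (Clk_body sy st ds dq))
          (Clk_Z .re (List.replicate κ.length true) (lay sy u fr))
          (Clk_Z .re (List.replicate κ.length true) (lay sy u fr)) 1 :=
        LR.loopF (k := .c) (v := .re) (l := bw (List.replicate κ.length true) ++ .hs :: _) rfl
          (by rw [h5]; rfl)
      exact (LR.loopT (k := .c) (v := st q) (l := bw κ ++ .hs :: (lay sy u fr).c) rfl
        (by rw [h4]; rfl) a1 a2).mono (by omega)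
    · omega
  | succ n ih =>
    intro κ q u hn
    rcases Clk_case κ with ⟨_, e1⟩ | ⟨j, κ2, e1, e2, e3⟩
    · omega
    · have hj : j ≤ κ.length := by
        rw [← e3, List.length_append, List.length_replicate]
        omega
      have hn' : lval (List.replicate j true ++ false :: κ2) = n := by omega
      have hins := Clk_ins_run (st := st) h1 h2 h3 (List.replicate j true ++ false :: κ2) q u fr
      rw [e3] at hins
      rcases hins with ⟨hh, hins⟩ | hins
      · -- halted
        have hstep : ∀ k, V.step^[k] (q, u) = (q, u) := by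
          intro k
          apply Function.iterate_fixed
          unfold NM.step
          simp only [hh]
        refine ⟨List.replicate j true ++ false :: κ2, e3, ?_⟩
        rw [hstep]
        have a1 : LR (Clk_body sy st ds dq) (Clk_Z (st q) κ (lay sy u fr))
            (Clk_Z .re (List.replicate j true ++ false :: κ2) (lay sy u fr))
            (6 * j + 20 + (6 * κ.length + 20) + 1) := by
          refine LR.pop (k := .c) (v := st q) (l := bw κ ++ .hs :: (lay sy u fr).c) rfl ?_
          simp only [h4]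
          have := Clk_dec_succ _ _ _ _ _ _ hins
          rw [← e1] at this
          exact this
        have a2 : LR (.loop .c (fun v => (dq v).isSome) (Clk_body sy st ds dq))
            (Clk_Z .re (List.replicate j true ++ false :: κ2) (lay sy u fr))
            (Clk_Z .re (List.replicate j true ++ false :: κ2) (lay sy u fr)) 1 :=
          LR.loopF (k := .c) (v := .re)
            (l := bw (List.replicate j true ++ false :: κ2) ++ .hs :: _) rfl (by rw [h5]; rfl)
        refine (LR.loopT (k := .c) (v := st q) (l := bw κ ++ .hs :: (lay sy u fr).c) rfl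
          (by rw [h4]; rfl) a1 a2).mono ?_
        have : 12 * κ.length + 44 ≤ (n + 1 + 1) * (12 * κ.length + 44) :=
          Nat.le_mul_of_pos_left _ (by omega)
        omega
      · obtain ⟨κ', hκ', a2⟩ := ih (List.replicate j true ++ false :: κ2) (V.step (q, u)).1
          (V.step (q, u)).2 hn'
        refine ⟨κ', by rw [hκ', e3], ?_⟩
        rw [Function.iterate_succ_apply]
        have a1 : LR (Clk_body sy st ds dq) (Clk_Z (st q) κ (lay sy u fr))
            (Clk_Z (st (V.step (q, u)).1) (List.replicate j true ++ false :: κ2)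
              (lay sy (V.step (q, u)).2 fr))
            (6 * j + 20 + (6 * κ.length + 20) + 1) := by
          refine LR.pop (k := .c) (v := st q) (l := bw κ ++ .hs :: (lay sy u fr).c) rfl ?_
          simp only [h4]
          have := Clk_dec_succ _ _ _ _ _ _ hins
          rw [← e1] at this
          exact this
        refine (LR.loopT (k := .c) (v := st q) (l := bw κ ++ .hs :: (lay sy u fr).c) rfl
          (by rw [h4]; rfl) a1 a2).mono ?_
        rw [e3]
        have : (n + 1 + 1) * (12 * κ.length + 44) =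
          (n + 1) * (12 * κ.length + 44) + (12 * κ.length + 44) := by ring
        omega

end clk

theorem clk_run (V : NM m) : ∃ N₀ : ℕ, ∀ N, N₀ ≤ N → ∃ (sy : Fin V.S → Lt N) (P : LP m (Lt N))
    (C : ℕ), Function.Injective sy ∧ (∀ g, ∃ n, sy g = .e n) ∧
    ∀ (κ : List Bool) (u : Sta m (Fin V.S)) (fr : Sta m (Lt N)),
      LR P ((lay sy u fr).set .c (bw κ ++ .hs :: (lay sy u fr).c))
        (lay sy (V.step^[lval κ] (V.q0, u)).2 fr) (C * ((κ.length + 1) * (lval κ + 1))) := by
  classical
  refine ⟨V.S + V.Q, fun N hN => ?_⟩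
  have hS : ∀ g : Fin V.S, (g : ℕ) < N := fun g => by have := g.2; omega
  have hQ : ∀ q : Fin V.Q, V.S + (q : ℕ) < N := fun q => by have := q.2; omega
  set sy : Fin V.S → Lt N := fun g => .e ⟨g, hS g⟩ with hsy
  set st : Fin V.Q → Lt N := fun q => .e ⟨V.S + q, hQ q⟩ with hst
  set ds : Lt N → Option (Fin V.S) := fun v => match v with
    | .e n => if h : (n : ℕ) < V.S then some ⟨n, h⟩ else none
    | _ => none with hds
  set dq : Lt N → Option (Fin V.Q) := fun v => match v with
    | .e n => if h : V.S ≤ (n : ℕ) ∧ (n : ℕ) - V.S < V.Q then some ⟨n - V.S, h.2⟩ else none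
    | _ => none with hdq
  have h1 : ∀ g, ds (sy g) = some g := by
    intro g
    have : ((g : ℕ)) < V.S := g.2
    simp [hds, hsy]
  have h2 : ds .mk = none := rfl
  have h3 : ∀ g, sy g ≠ .mk := fun g h => by simp [hsy] at h
  have h4 : ∀ q, dq (st q) = some q := by
    intro q
    simp [hdq, hst]
  have h5 : dq .re = none := rfl
  refine ⟨sy, .seq (.push .c (st V.q0)) (.seq (.loop .c (fun v => (dq v).isSome)
    (Clk_body sy st ds dq)) (.seq (pop1 .c) (.seq (del .c isB) (pop1 .c)))), 100, ?_, ?_, ?_⟩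
  · intro g g' h
    have := congrArg ds h
    rw [h1, h1] at this
    exact Option.some.inj this
  · exact fun g => ⟨_, rfl⟩
  · intro κ u fr
    obtain ⟨κ', hκ', a2⟩ := Clk_loop h1 h2 h3 h4 h5 fr (lval κ) κ V.q0 u rfl
    generalize hu' : lay sy (V.step^[lval κ] (V.q0, u)).2 fr = s' at a2 ⊢
    have a1 : LR (.push .c (st V.q0))
        ((lay sy u fr).set .c (bw κ ++ .hs :: (lay sy u fr).c))
        (Clk_Z (st V.q0) κ (lay sy u fr)) 1 := Clk_put _ _ _
    obtain ⟨a, b, c, d, x⟩ := s'
    have a3 : LR (pop1 .c) (⟨a, b, .re :: (bw κ' ++ .hs :: c), d, x⟩ : Sta m (Lt N))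
        ⟨a, b, bw κ' ++ .hs :: c, d, x⟩ 2 :=
      pop1_run (k := .c) (s := ⟨a, b, .re :: (bw κ' ++ .hs :: c), d, x⟩) (v := .re)
        (r := bw κ' ++ .hs :: c) rfl
    have a4 : LR (del .c isB) (⟨a, b, bw κ' ++ .hs :: c, d, x⟩ : Sta m (Lt N))
        ⟨a, b, .hs :: c, d, x⟩ (3 * (bw κ' : List (Lt N)).length + 1) :=
      del_run (k := .c) (s := ⟨a, b, bw κ' ++ .hs :: c, d, x⟩) (l := bw κ') (v := .hs) (r := c)
        rfl (Clk_bw κ') rfl
    have a5 : LR (pop1 .c) (⟨a, b, .hs :: c, d, x⟩ : Sta m (Lt N)) ⟨a, b, c, d, x⟩ 2 :=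
      pop1_run (k := .c) (s := ⟨a, b, .hs :: c, d, x⟩) (v := .hs) (r := c) rfl
    rw [Clk_len, hκ'] at a4
    refine (a1.seq (a2.seq (a3.seq (a4.seq a5)))).mono ?_
    have e1 : (lval κ + 1) * (12 * κ.length + 44) ≤ 50 * ((κ.length + 1) * (lval κ + 1)) := by
      calc (lval κ + 1) * (12 * κ.length + 44) ≤ (lval κ + 1) * (50 * (κ.length + 1)) :=
            Nat.mul_le_mul_left _ (by omega)
        _ = _ := by ring
    have e2 : κ.length + 1 ≤ (κ.length + 1) * (lval κ + 1) :=
      Nat.le_mul_of_pos_right _ (by omega)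
    omega

end Pool.Agent.Lib.MP_33f9c4_lc.TT
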