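import Pool.Agent.Lib.MP_33f9c4_lc.T.Lang

set_option autoImplicit false

/-!
MODULE TComp. Compilation of `LP m (Lt N)` to programs on stacks of bits (`Prog (Ix m)`, PolyTime/Prog.lean).

A letter `v` with number `j = Fintype.equivFin _ v` is coded by `true^j false` (top first). `push k v`: push
`false`, then `j` times `true`. `pop k f`: a decision program with fuel `card`: `rd n j` = if the top bit of `k` is
`true` then pop it and continue with `rd (n-1) (j+1)`, else pop it and run the compiled `f (v_j)` (use
`Prog.ite k (· == some true)`; when the fuel is 0: skip). `loop k p P`: first push a flag bit on stack `k`, namely `p` of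
the top letter (read the letter as above, push its code again, push the flag); then the loop of `Prog` with
the condition `top bit = true`: pop the flag, run `P`, push the new flag; after the loop pop the flag.
Proof by induction on `LE`. The constant `C` depends on `N` and `P` only (structural recursion on `P` for the
existence of `C` is not needed if the constant is a number like `(10 * (card + 1))` for each primitive: one
primitive step of `LE` costs at most a constant depending on `card (Lt N)` only; then `C` depends on `N` only).
-/

namespace Pool.Agent.Lib.MP_33f9c4_lc.TT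

open Pool.Agent.Lib.PolyTime

variable {m N : ℕ}

/-- the code of a letter -/
noncomputable def cod (v : Lt N) : List Bool :=
  List.replicate (Fintype.equivFin (Lt N) v : ℕ) true ++ [false]

/-- the coded stacks -/
noncomputable def cst (s : Sta m (Lt N)) : St (Ix m) := fun k => (s.get k).flatMap cod

/-- the number of letters -/
private noncomputable def crd (N : ℕ) : ℕ := Fintype.card (Lt N)

/-- `j` times `push k true` -/
private def ptr (k : Ix m) : ℕ → Prog (Ix m)
  | 0 => .skip
  | (j + 1) => .seq (.push k true) (ptr k j)

/-- push the code of a letter -/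
private noncomputable def pcode (k : Ix m) (v : Lt N) : Prog (Ix m) :=
  .seq (.push k false) (ptr k (Fintype.equivFin (Lt N) v : ℕ))

/-- read a code on stack `k` and continue with `F j` -/
private def rdr (k : Ix m) (F : ℕ → Prog (Ix m)) : ℕ → ℕ → Prog (Ix m)
  | 0, _ => .skip
  | (n + 1), j => .ite k (fun o => o == some true) (.seq (.pop k) (rdr k F n (j + 1))) (.seq (.pop k) (F j))

/-- put a flag on stack `k` -/
private noncomputable def flg (k : Ix m) (p : Lt N → Bool) : Prog (Ix m) :=
  rdr k (fun j => if h : j < crd N then
    .seq (pcode k ((Fintype.equivFin (Lt N)).symm ⟨j, h⟩)) (.push k (p ((Fintype.equivFin (Lt N)).symm ⟨j, h⟩)))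
    else .skip) (crd N) 0

/-- the compiled program -/
private noncomputable def cmp : LP m (Lt N) → Prog (Ix m)
  | .skip => .skip
  | .push k v => pcode k v
  | .pop k f => rdr k (fun j => if h : j < crd N then cmp (f ((Fintype.equivFin (Lt N)).symm ⟨j, h⟩)) else .skip)
      (crd N) 0
  | .seq P Q => .seq (cmp P) (cmp Q)
  | .loop k p P => .seq (flg k p) (.seq (.loop k (fun o => o == some true)
      (.seq (.pop k) (.seq (cmp P) (flg k p)))) (.pop k))

private theorem cst_set (s : Sta m (Lt N)) (k : Ix m) (l : List (Lt N)) :
    cst (s.set k l) = Function.update (cst s) k (l.flatMap cod) := by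
  funext k'
  unfold cst
  by_cases h : k' = k
  · subst h
    rw [Sta.get_set_self, Function.update_self]
  · rw [Sta.get_set_of_ne _ h, Function.update_of_ne h]

private theorem cst_cons {s : Sta m (Lt N)} {k : Ix m} {v : Lt N} {l : List (Lt N)} (h : s.get k = v :: l) :
    cst s k = List.replicate (Fintype.equivFin (Lt N) v : ℕ) true ++ false :: l.flatMap cod := by
  unfold cst
  rw [h, List.flatMap_cons]
  unfold cod
  rw [List.append_assoc]
  rfl

private theorem ptr_run (k : Ix m) (j : ℕ) (s : St (Ix m)) :
    Run (ptr k j) s (Function.update s k (List.replicate j true ++ s k)) (j + 1) := by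
  induction j generalizing s with
  | zero =>
    have e : Function.update s k (List.replicate 0 true ++ s k) = s := by simp
    rw [e]
    exact .skip s
  | succ j ih =>
    have h1 := Run.seq (.push k true s) (ih (Function.update s k (true :: s k)))
    have e : Function.update (Function.update s k (true :: s k)) k
        (List.replicate j true ++ Function.update s k (true :: s k) k) =
        Function.update s k (List.replicate (j + 1) true ++ s k) := by
      rw [Function.update_idem, Function.update_self]
      congr 1
      rw [List.replicate_succ', List.append_assoc]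
      rfl
    rw [e] at h1
    have e2 : 1 + (j + 1) = j + 1 + 1 := by omega
    rw [e2] at h1
    exact h1

private theorem pcode_run (k : Ix m) (v : Lt N) (s : St (Ix m)) :
    Run (pcode k v) s (Function.update s k (cod v ++ s k)) ((Fintype.equivFin (Lt N) v : ℕ) + 2) := by
  have h1 := Run.seq (.push k false s) (ptr_run k (Fintype.equivFin (Lt N) v : ℕ) (Function.update s k (false :: s k)))
  have e : Function.update (Function.update s k (false :: s k)) k
      (List.replicate (Fintype.equivFin (Lt N) v : ℕ) true ++ Function.update s k (false :: s k) k) =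
      Function.update s k (cod v ++ s k) := by
    rw [Function.update_idem, Function.update_self]
    congr 1
    unfold cod
    rw [List.append_assoc]
    rfl
  rw [e] at h1
  have e2 : 1 + ((Fintype.equivFin (Lt N) v : ℕ) + 1) = (Fintype.equivFin (Lt N) v : ℕ) + 2 := by omega
  rw [e2] at h1
  exact h1

private theorem rdr_run (k : Ix m) (F : ℕ → Prog (Ix m)) (i : ℕ) :
    ∀ (n j : ℕ) (s s' : St (Ix m)) (r : List Bool) (t : ℕ), i < n →
    s k = List.replicate i true ++ false :: r → Run (F (j + i)) (Function.update s k r) s' t →
    Run (rdr k F n j) s s' (t + 2 * i + 2) := by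
  induction i with
  | zero =>
    intro n j s s' r t hn hs h
    obtain ⟨n, rfl⟩ : ∃ n', n = n' + 1 := ⟨n - 1, by omega⟩
    have hs' : s k = false :: r := by simpa using hs
    have hhead : ((fun o : Option Bool => o == some true) (s k).head?) = false := by
      rw [hs']; rfl
    have htail : (s k).tail = r := by rw [hs']; rfl
    have h1 := Run.pop k s
    rw [htail] at h1
    have h2 := Run.iteF (p := fun o => o == some true) (P := .seq (.pop k) (rdr k F n (j + 1))) hhead (Run.seq h1 h)
    have e : 1 + t + 1 = t + 2 * 0 + 2 := by omega
    rw [e] at h2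
    exact h2
  | succ i ih =>
    intro n j s s' r t hn hs h
    obtain ⟨n, rfl⟩ : ∃ n', n = n' + 1 := ⟨n - 1, by omega⟩
    have hs' : s k = true :: (List.replicate i true ++ false :: r) := by
      rw [hs, List.replicate_succ]; rfl
    have hhead : ((fun o : Option Bool => o == some true) (s k).head?) = true := by
      rw [hs']; rfl
    have htail : (s k).tail = List.replicate i true ++ false :: r := by rw [hs']; rfl
    have h1 := Run.pop k s
    rw [htail] at h1
    have h2 := ih n (j + 1) (Function.update s k (List.replicate i true ++ false :: r)) s' r t (by omega)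
      (by rw [Function.update_self]) (by
        rw [Function.update_idem]
        have e : j + 1 + i = j + (i + 1) := by omega
        rw [e]; exact h)
    have h3 := Run.iteT (p := fun o => o == some true) (Q := .seq (.pop k) (F j)) hhead (Run.seq h1 h2)
    have e : 1 + (t + 2 * i + 2) + 1 = t + 2 * (i + 1) + 2 := by omega
    rw [e] at h3
    exact h3

private theorem eqv_lt (v : Lt N) : (Fintype.equivFin (Lt N) v : ℕ) < crd N :=
  (Fintype.equivFin (Lt N) v).isLt

private theorem flg_run (k : Ix m) (p : Lt N → Bool) {s : Sta m (Lt N)} {v : Lt N} {l : List (Lt N)}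
    (hs : s.get k = v :: l) : ∃ t, t ≤ 3 * crd N + 5 ∧
    Run (flg k p) (cst s) (Function.update (cst s) k (p v :: cst s k)) t := by
  have hlt := eqv_lt v
  have h0 : (if h : (0 + (Fintype.equivFin (Lt N) v : ℕ)) < crd N then
      (Prog.seq (pcode k ((Fintype.equivFin (Lt N)).symm ⟨0 + (Fintype.equivFin (Lt N) v : ℕ), h⟩))
        (Prog.push k (p ((Fintype.equivFin (Lt N)).symm ⟨0 + (Fintype.equivFin (Lt N) v : ℕ), h⟩))) : Prog (Ix m))
      else Prog.skip) = Prog.seq (pcode k v) (Prog.push k (p v)) := by
    rw [dif_pos (by omega)]
    have e : (Fintype.equivFin (Lt N)).symm ⟨0 + (Fintype.equivFin (Lt N) v : ℕ), by rw [zero_add]; exact hlt⟩ = v := by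
      rw [Equiv.symm_apply_eq]
      apply Fin.ext
      show 0 + _ = _
      omega
    rw [e]
  have h1 := Run.seq (pcode_run k v (Function.update (cst s) k (l.flatMap cod)))
    (Run.push k (p v) (Function.update (Function.update (cst s) k (l.flatMap cod)) k
      (cod v ++ (Function.update (cst s) k (l.flatMap cod)) k)))
  have e1 : Function.update (Function.update (Function.update (cst s) k (l.flatMap cod)) k
      (cod v ++ (Function.update (cst s) k (l.flatMap cod)) k)) k
      (p v :: (Function.update (Function.update (cst s) k (l.flatMap cod)) k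
      (cod v ++ (Function.update (cst s) k (l.flatMap cod)) k)) k) =
      Function.update (cst s) k (p v :: cst s k) := by
    rw [Function.update_idem, Function.update_idem, Function.update_self, Function.update_self]
    congr 2
    unfold cst
    rw [hs, List.flatMap_cons]
  rw [e1] at h1
  refine ⟨_, ?_, rdr_run k _ (Fintype.equivFin (Lt N) v : ℕ) (crd N) 0 (cst s) _ (l.flatMap cod) _ hlt
    (cst_cons hs) (by rw [h0]; exact h1)⟩
  omega

private theorem cmp_run (P : LP m (Lt N)) : ∀ (s s' : Sta m (Lt N)) (t : ℕ), LE P s s' t →
    ∃ t', t' ≤ (3 * crd N + 7) * t ∧ Run (cmp P) (cst s) (cst s') t' := by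
  induction P with
  | skip =>
    intro s s' t h
    cases h
    exact ⟨1, by omega, .skip _⟩
  | push k v =>
    intro s s' t h
    cases h
    have h1 := pcode_run k v (cst s)
    have e : Function.update (cst s) k (cod v ++ cst s k) = cst (s.set k (v :: s.get k)) := by
      rw [cst_set, List.flatMap_cons]
      rfl
    rw [e] at h1
    have := eqv_lt v
    exact ⟨_, by omega, h1⟩
  | pop k f ih =>
    intro s s' t h
    cases h with
    | @pop _ _ _ _ v l t hs h =>
      obtain ⟨t', ht', hr⟩ := ih v _ _ _ h
      rw [cst_set] at hr
      have hlt := eqv_lt v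
      have h0 : (if h : (0 + (Fintype.equivFin (Lt N) v : ℕ)) < crd N then
          cmp (f ((Fintype.equivFin (Lt N)).symm ⟨0 + (Fintype.equivFin (Lt N) v : ℕ), h⟩))
          else Prog.skip) = cmp (f v) := by
        rw [dif_pos (by omega)]
        have e : (Fintype.equivFin (Lt N)).symm ⟨0 + (Fintype.equivFin (Lt N) v : ℕ), by
            rw [zero_add]; exact hlt⟩ = v := by
          rw [Equiv.symm_apply_eq]
          apply Fin.ext
          show 0 + _ = _
          omega
        rw [e]
      refine ⟨_, ?_, rdr_run k _ (Fintype.equivFin (Lt N) v : ℕ) (crd N) 0 (cst s) _ (l.flatMap cod) _ hlt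
        (cst_cons hs) (by rw [h0]; exact hr)⟩
      rw [Nat.mul_add]
      omega
  | seq P Q ihP ihQ =>
    intro s s' t h
    cases h with
    | seq h h' =>
      obtain ⟨t1, ht1, hr1⟩ := ihP _ _ _ h
      obtain ⟨t2, ht2, hr2⟩ := ihQ _ _ _ h'
      exact ⟨t1 + t2, by rw [Nat.mul_add]; omega, .seq hr1 hr2⟩
  | loop k p P ih =>
    intro s s' t h
    -- the inner loop
    have key : ∀ (R : LP m (Lt N)) (s s' : Sta m (Lt N)) (t : ℕ), LE R s s' t → R = .loop k p P →
        ∃ (v : Lt N) (l : List (Lt N)) (t' : ℕ), s.get k = v :: l ∧ t' + (3 * crd N + 6) ≤ (3 * crd N + 7) * t ∧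
        Run (.loop k (fun o => o == some true) (.seq (.pop k) (.seq (cmp P) (flg k p))))
          (Function.update (cst s) k (p v :: cst s k)) (Function.update (cst s') k (false :: cst s' k)) t' := by
      intro R s s' t h
      induction h with
      | skip => intro h; cases h
      | push => intro h; cases h
      | pop => intro h; cases h
      | seq => intro h; cases h
      | @loopT k0 p0 P0 s s' s'' v l t t' hs hp h h' ih1 ih2 =>
        intro hR
        cases hR
        obtain ⟨v', l', t2, hs', ht2, hr2⟩ := ih2 rfl
        obtain ⟨t1, ht1, hr1⟩ := ih _ _ _ h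
        obtain ⟨t3, ht3, hr3⟩ := flg_run k p hs'
        have hpop := Run.pop k (Function.update (cst s) k (true :: cst s k))
        have e : Function.update (Function.update (cst s) k (true :: cst s k)) k
            ((Function.update (cst s) k (true :: cst s k)) k).tail = cst s := by
          rw [Function.update_self, Function.update_idem]
          show Function.update (cst s) k (cst s k) = cst s
          rw [Function.update_eq_self]
        rw [e] at hpop
        refine ⟨v, l, 1 + (t1 + t3) + t2 + 1, hs, ?_, ?_⟩
        · rw [Nat.mul_add, Nat.mul_add]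
          omega
        · rw [hp]
          refine Run.loopT ?_ (Run.seq hpop (Run.seq hr1 hr3)) hr2
          rw [Function.update_self]
          rfl
      | @loopF k0 p0 P0 s v l hs hp =>
        intro hR
        cases hR
        refine ⟨v, l, 1, hs, by omega, ?_⟩
        rw [hp]
        apply Run.loopF
        rw [Function.update_self]
        rfl
    obtain ⟨v, l, t', hs, ht', hr'⟩ := key _ s s' t h rfl
    obtain ⟨t3, ht3, hr3⟩ := flg_run k p hs
    have hpop := Run.pop k (Function.update (cst s') k (false :: cst s' k))
    have e : Function.update (Function.update (cst s') k (false :: cst s' k)) k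
        ((Function.update (cst s') k (false :: cst s' k)) k).tail = cst s' := by
      rw [Function.update_self, Function.update_idem]
      show Function.update (cst s') k (cst s' k) = cst s'
      rw [Function.update_eq_self]
    rw [e] at hpop
    exact ⟨t3 + (t' + 1), by omega, Run.seq hr3 (Run.seq hr' hpop)⟩

theorem lp_prog (P : LP m (Lt N)) : ∃ (P' : Prog (Ix m)) (C : ℕ), ∀ (s s' : Sta m (Lt N)) (t : ℕ),
    LE P s s' t → ∃ t', t' ≤ C * t ∧ Run P' (cst s) (cst s') t' :=
  ⟨cmp P, 3 * crd N + 7, cmp_run P⟩

end Pool.Agent.Lib.MP_33f9c4_lc.TT
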