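import Pool.Agent.Lib.MP_33f9c4_lc.T.Mac

set_option autoImplicit false

/-!
MODULE Copy. Preparation of a run: the description is copied to stack `a`, the clock to the top of `c`.

`stp e`: remove the leading zeros and the first one. `ebits τ` = the bits of the template `τ` (top letter = last bit).
PROGRAM: push `mk` on `a`, `b`. Move `τ` from `d` to `a` and `b` at the same time (`mv2`, letters as they are; now the top
of both is the first bit; the stack `d` has `hs` on top). Move the copy on `b` back to `d` (until `mk`; restored). Now `a` has the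
template letters with the first bit on top, above `mk`: delete the letters with `vb = false` at the top (`del`, condition:
template letter with bit 0); if the top is a template letter (bit 1) pop it. Then the rest of the letters must be
changed to `ib bit`: move them to `b` (`mv` with `g v = ib (vb v)`) and back to `a` (until `mk`).
Push `mk` on `d`, on all `x i` (`pushX`). The clock: move `bw κ` from `c` to `d` and `b` (`mv2`; until `hs`), move the copy on `d` (until `mk`) back to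
`c`; push `mk`, push `hs` on `c`; move the copy on `b` (until `mk`) to `c`. (The order of the markers must be right: the markers on `b`
and `d` are already there.)
-/

namespace Pool.Agent.Lib.MP_33f9c4_lc.TT

variable {m N : ℕ}

/-- the description of an entry: remove the leading zeros and the first one -/
def stp : List Bool → List Bool
  | [] => []
  | false :: e => stp e
  | true :: e => e

/-- the bits of a template, first bit first (the head of the template is the last bit) -/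
def ebits (τ : List (Lt N)) : List Bool := (τ.map vb).reverse

/-- the splitting at the first one -/
private theorem Copy_split : ∀ ρ : List (Lt N), (∃ ρ0 ρ2, ρ = ρ0 ++ ρ2 ∧ (∀ v ∈ ρ0, vb v = false) ∧
    ((ρ2 = [] ∧ stp (ρ.map vb) = []) ∨ ∃ v r, ρ2 = v :: r ∧ vb v = true ∧ stp (ρ.map vb) = r.map vb))
  | [] => ⟨[], [], rfl, by simp, Or.inl ⟨rfl, rfl⟩⟩
  | v :: ρ => by
    rcases hv : vb v with _ | _
    · obtain ⟨ρ0, ρ2, h1, h2, h3⟩ := Copy_split ρ
      refine ⟨v :: ρ0, ρ2, by rw [h1]; rfl, ?_, ?_⟩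
      · intro w hw
        rcases List.mem_cons.1 hw with rfl | hw
        · exact hv
        · exact h2 w hw
      · rw [List.map_cons, hv]
        exact h3
    · refine ⟨[], v :: ρ, rfl, by simp, Or.inr ⟨v, ρ, rfl, hv, ?_⟩⟩
      rw [List.map_cons, hv]
      rfl

private theorem Copy_bw_rev (κ : List Bool) (w : Lt N) (hw : w ∈ (bw κ : List (Lt N)).reverse) :
    isB w = true := by
  rw [List.mem_reverse] at hw
  obtain ⟨b, _, rfl⟩ := List.mem_map.1 hw
  exact isB_bt b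

private theorem Copy_bw (κ : List Bool) (w : Lt N) (hw : w ∈ (bw κ : List (Lt N))) :
    isB w = true := by
  obtain ⟨b, _, rfl⟩ := List.mem_map.1 hw
  exact isB_bt b

private def Copy_nm (v : Lt N) : Bool := decide (v ≠ .mk)

theorem copy_run (ib : Bool → Lt N) : ∃ (P : LP m (Lt N)) (C : ℕ), ∀ (A B γ δ : List (Lt N))
    (ξ : Fin m → List (Lt N)) (κ : List Bool) (τ : List (Lt N)), (∀ v ∈ τ, isT v = true) →
    (∀ b, ib b ≠ .mk) →
    LR P ⟨A, B, bw κ ++ .hs :: γ, τ ++ .hs :: δ, ξ⟩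
      ⟨(stp (ebits τ)).map ib ++ .mk :: A, .mk :: B,
        bw κ ++ .hs :: .mk :: (bw κ ++ .hs :: γ), .mk :: (τ ++ .hs :: δ), fun i => .mk :: ξ i⟩
      (C * (κ.length + τ.length + 1)) := by
  refine ⟨.seq (.push .a .mk) (.seq (.push .b .mk) (.seq (mv2 .d .a .b isT id id)
    (.seq (mv .b .d isT id) (.seq (del .a (fun v => isT v && !vb v))
    (.seq (.pop .a fun v => if isT v then .skip else .push .a v)
    (.seq (mv .a .b isT (fun v => ib (vb v))) (.seq (mv .b .a Copy_nm id)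
    (.seq (.push .d .mk) (.seq (pushX .mk) (.seq (mv2 .c .d .b isB id id) (.seq (mv .d .c isB id)
    (.seq (.push .c .mk) (.seq (.push .c .hs) (mv .b .c isB id)))))))))))))), 20 + m, ?_⟩
  intro A B γ δ ξ κ τ hτ hib
  have hτr : ∀ v ∈ τ.reverse, isT v = true := fun v hv => hτ v (List.mem_reverse.1 hv)
  obtain ⟨ρ0, ρ2, hρ, hρ0, hρ2⟩ := Copy_split τ.reverse
  have hT0 : ∀ v ∈ ρ0, isT v = true := fun v hv => hτr v (by rw [hρ]; simp [hv])
  have hT2 : ∀ v ∈ ρ2, isT v = true := fun v hv => hτr v (by rw [hρ]; simp [hv])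
  have hlen : ρ0.length + ρ2.length = τ.length := by
    have := congrArg List.length hρ
    rw [List.length_reverse, List.length_append] at this
    omega
  have heb : ebits τ = (τ.reverse).map vb := by
    unfold ebits
    rw [List.map_reverse]
  have h1 : LR (.push .a .mk) (⟨A, B, bw κ ++ .hs :: γ, τ ++ .hs :: δ, ξ⟩ : Sta m (Lt N))
      ⟨.mk :: A, B, bw κ ++ .hs :: γ, τ ++ .hs :: δ, ξ⟩ 1 := LR.push _ _ _
  have h2 : LR (.push .b .mk) (⟨.mk :: A, B, bw κ ++ .hs :: γ, τ ++ .hs :: δ, ξ⟩ : Sta m (Lt N))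
      ⟨.mk :: A, .mk :: B, bw κ ++ .hs :: γ, τ ++ .hs :: δ, ξ⟩ 1 := LR.push _ _ _
  have h3 : LR (mv2 .d .a .b isT id id)
      (⟨.mk :: A, .mk :: B, bw κ ++ .hs :: γ, τ ++ .hs :: δ, ξ⟩ : Sta m (Lt N))
      ⟨(τ.map id).reverse ++ .mk :: A, (τ.map id).reverse ++ .mk :: B, bw κ ++ .hs :: γ,
        .hs :: δ, ξ⟩ (4 * τ.length + 1) :=
    mv2_run (k := .d) (k' := .a) (k'' := .b) (by simp) (by simp) (by simp) id id
      (s := ⟨.mk :: A, .mk :: B, bw κ ++ .hs :: γ, τ ++ .hs :: δ, ξ⟩) (l := τ) (v := .hs) (r := δ)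
      rfl hτ rfl
  rw [List.map_id] at h3
  have h4 : LR (mv .b .d isT id)
      (⟨τ.reverse ++ .mk :: A, τ.reverse ++ .mk :: B, bw κ ++ .hs :: γ, .hs :: δ, ξ⟩ :
        Sta m (Lt N))
      ⟨τ.reverse ++ .mk :: A, .mk :: B, bw κ ++ .hs :: γ,
        ((τ.reverse).map id).reverse ++ .hs :: δ, ξ⟩ (3 * τ.reverse.length + 1) :=
    mv_run (k := .b) (k' := .d) (by simp) id
      (s := ⟨τ.reverse ++ .mk :: A, τ.reverse ++ .mk :: B, bw κ ++ .hs :: γ, .hs :: δ, ξ⟩)
      (l := τ.reverse) (v := .mk) (r := B) rfl hτr rfl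
  rw [List.map_id, List.reverse_reverse, List.length_reverse] at h4
  have h5 : LR (del .a (fun v => isT v && !vb v))
      (⟨τ.reverse ++ .mk :: A, .mk :: B, bw κ ++ .hs :: γ, τ ++ .hs :: δ, ξ⟩ : Sta m (Lt N))
      ⟨ρ2 ++ .mk :: A, .mk :: B, bw κ ++ .hs :: γ, τ ++ .hs :: δ, ξ⟩ (3 * ρ0.length + 1) := by
    rcases hρ2 with ⟨h, _⟩ | ⟨v, r, h, hv, _⟩
    · rw [h, List.append_nil] at hρ
      rw [h, hρ]
      exact del_run (k := .a)
        (s := ⟨ρ0 ++ .mk :: A, .mk :: B, bw κ ++ .hs :: γ, τ ++ .hs :: δ, ξ⟩)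
        (l := ρ0) (v := .mk) (r := A) rfl (fun w hw => by simp [hT0 w hw, hρ0 w hw]) rfl
    · rw [hρ, h, List.append_assoc]
      exact del_run (k := .a)
        (s := ⟨ρ0 ++ (v :: (r ++ .mk :: A)), .mk :: B, bw κ ++ .hs :: γ, τ ++ .hs :: δ, ξ⟩)
        (l := ρ0) (v := v) (r := r ++ .mk :: A) rfl (fun w hw => by simp [hT0 w hw, hρ0 w hw])
        (by simp [hv])
  obtain ⟨ρ3, hρ3, hT3, hlen3, h6⟩ : ∃ ρ3 : List (Lt N), stp (ebits τ) = ρ3.map vb ∧
      (∀ v ∈ ρ3, isT v = true) ∧ ρ3.length ≤ ρ2.length ∧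
      LR (.pop .a fun v => if isT v then .skip else .push .a v)
      (⟨ρ2 ++ .mk :: A, .mk :: B, bw κ ++ .hs :: γ, τ ++ .hs :: δ, ξ⟩ : Sta m (Lt N))
      ⟨ρ3 ++ .mk :: A, .mk :: B, bw κ ++ .hs :: γ, τ ++ .hs :: δ, ξ⟩ 2 := by
    rcases hρ2 with ⟨h, h'⟩ | ⟨v, r, h, hv, h'⟩
    · refine ⟨[], by rw [heb, h']; rfl, by simp, by simp, ?_⟩
      rw [h]
      exact LR.pop (k := .a)
        (s := ⟨.mk :: A, .mk :: B, bw κ ++ .hs :: γ, τ ++ .hs :: δ, ξ⟩) (v := .mk) (l := A) rfl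
        (LR.push .a .mk ⟨A, .mk :: B, bw κ ++ .hs :: γ, τ ++ .hs :: δ, ξ⟩)
    · refine ⟨r, by rw [heb, h'], fun w hw => hT2 w (by rw [h]; simp [hw]), by
        rw [h, List.length_cons]; omega, ?_⟩
      rw [h]
      refine LR.pop (k := .a)
        (s := ⟨v :: (r ++ .mk :: A), .mk :: B, bw κ ++ .hs :: γ, τ ++ .hs :: δ, ξ⟩) (v := v)
        (l := r ++ .mk :: A) rfl ?_
      rw [if_pos (hT2 v (by rw [h]; simp))]
      exact LR.skip _
  have h7 : LR (mv .a .b isT (fun v => ib (vb v)))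
      (⟨ρ3 ++ .mk :: A, .mk :: B, bw κ ++ .hs :: γ, τ ++ .hs :: δ, ξ⟩ : Sta m (Lt N))
      ⟨.mk :: A, (ρ3.map (fun v => ib (vb v))).reverse ++ .mk :: B, bw κ ++ .hs :: γ,
        τ ++ .hs :: δ, ξ⟩ (3 * ρ3.length + 1) :=
    mv_run (k := .a) (k' := .b) (by simp) _
      (s := ⟨ρ3 ++ .mk :: A, .mk :: B, bw κ ++ .hs :: γ, τ ++ .hs :: δ, ξ⟩)
      (l := ρ3) (v := .mk) (r := A) rfl hT3 rfl
  have h8 : LR (mv .b .a Copy_nm id)
      (⟨.mk :: A, (ρ3.map (fun v => ib (vb v))).reverse ++ .mk :: B, bw κ ++ .hs :: γ,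
        τ ++ .hs :: δ, ξ⟩ : Sta m (Lt N))
      ⟨(((ρ3.map (fun v => ib (vb v))).reverse).map id).reverse ++ .mk :: A, .mk :: B,
        bw κ ++ .hs :: γ, τ ++ .hs :: δ, ξ⟩
      (3 * (ρ3.map (fun v => ib (vb v))).reverse.length + 1) :=
    mv_run (k := .b) (k' := .a) (by simp) id
      (s := ⟨.mk :: A, (ρ3.map (fun v => ib (vb v))).reverse ++ .mk :: B, bw κ ++ .hs :: γ,
        τ ++ .hs :: δ, ξ⟩)
      (l := (ρ3.map (fun v => ib (vb v))).reverse) (v := .mk) (r := B) rfl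
      (fun w hw => by
        rw [List.mem_reverse] at hw
        obtain ⟨v, _, rfl⟩ := List.mem_map.1 hw
        unfold Copy_nm
        simp [hib (vb v)]) rfl
  rw [List.map_id, List.reverse_reverse, List.length_reverse, List.length_map] at h8
  have hst : (stp (ebits τ)).map ib = ρ3.map (fun v => ib (vb v)) := by
    rw [hρ3, List.map_map]
    rfl
  rw [← hst] at h8 h7
  set E := (stp (ebits τ)).map ib with hE
  have h9 : LR (.push .d .mk)
      (⟨E ++ .mk :: A, .mk :: B, bw κ ++ .hs :: γ, τ ++ .hs :: δ, ξ⟩ : Sta m (Lt N))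
      ⟨E ++ .mk :: A, .mk :: B, bw κ ++ .hs :: γ, .mk :: (τ ++ .hs :: δ), ξ⟩ 1 := LR.push _ _ _
  have h10 := pushX_run (.mk : Lt N) (E ++ .mk :: A) (.mk :: B) (bw κ ++ .hs :: γ)
    (.mk :: (τ ++ .hs :: δ)) ξ
  have h11 : LR (mv2 .c .d .b isB id id)
      (⟨E ++ .mk :: A, .mk :: B, bw κ ++ .hs :: γ, .mk :: (τ ++ .hs :: δ),
        fun i => .mk :: ξ i⟩ : Sta m (Lt N))
      ⟨E ++ .mk :: A, ((bw κ).map id).reverse ++ .mk :: B, .hs :: γ,
        ((bw κ).map id).reverse ++ .mk :: (τ ++ .hs :: δ), fun i => .mk :: ξ i⟩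
      (4 * (bw κ : List (Lt N)).length + 1) :=
    mv2_run (k := .c) (k' := .d) (k'' := .b) (by simp) (by simp) (by simp) id id
      (s := ⟨E ++ .mk :: A, .mk :: B, bw κ ++ .hs :: γ, .mk :: (τ ++ .hs :: δ),
        fun i => .mk :: ξ i⟩) (l := bw κ) (v := .hs) (r := γ)
      rfl (Copy_bw κ) rfl
  rw [List.map_id] at h11
  have h12 : LR (mv .d .c isB id)
      (⟨E ++ .mk :: A, (bw κ).reverse ++ .mk :: B, .hs :: γ,
        (bw κ).reverse ++ .mk :: (τ ++ .hs :: δ), fun i => .mk :: ξ i⟩ : Sta m (Lt N))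
      ⟨E ++ .mk :: A, (bw κ).reverse ++ .mk :: B, (((bw κ).reverse).map id).reverse ++ .hs :: γ,
        .mk :: (τ ++ .hs :: δ), fun i => .mk :: ξ i⟩
      (3 * (bw κ : List (Lt N)).reverse.length + 1) :=
    mv_run (k := .d) (k' := .c) (by simp) id
      (s := ⟨E ++ .mk :: A, (bw κ).reverse ++ .mk :: B, .hs :: γ,
        (bw κ).reverse ++ .mk :: (τ ++ .hs :: δ), fun i => .mk :: ξ i⟩)
      (l := (bw κ).reverse) (v := .mk) (r := τ ++ .hs :: δ) rfl (Copy_bw_rev κ) rfl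
  rw [List.map_id, List.reverse_reverse, List.length_reverse] at h12
  have h13 : LR (.push .c .mk)
      (⟨E ++ .mk :: A, (bw κ).reverse ++ .mk :: B, bw κ ++ .hs :: γ,
        .mk :: (τ ++ .hs :: δ), fun i => .mk :: ξ i⟩ : Sta m (Lt N))
      ⟨E ++ .mk :: A, (bw κ).reverse ++ .mk :: B, .mk :: (bw κ ++ .hs :: γ),
        .mk :: (τ ++ .hs :: δ), fun i => .mk :: ξ i⟩ 1 := LR.push _ _ _
  have h14 : LR (.push .c .hs)
      (⟨E ++ .mk :: A, (bw κ).reverse ++ .mk :: B, .mk :: (bw κ ++ .hs :: γ),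
        .mk :: (τ ++ .hs :: δ), fun i => .mk :: ξ i⟩ : Sta m (Lt N))
      ⟨E ++ .mk :: A, (bw κ).reverse ++ .mk :: B, .hs :: .mk :: (bw κ ++ .hs :: γ),
        .mk :: (τ ++ .hs :: δ), fun i => .mk :: ξ i⟩ 1 := LR.push _ _ _
  have h15 : LR (mv .b .c isB id)
      (⟨E ++ .mk :: A, (bw κ).reverse ++ .mk :: B, .hs :: .mk :: (bw κ ++ .hs :: γ),
        .mk :: (τ ++ .hs :: δ), fun i => .mk :: ξ i⟩ : Sta m (Lt N))
      ⟨E ++ .mk :: A, .mk :: B,
        (((bw κ).reverse).map id).reverse ++ .hs :: .mk :: (bw κ ++ .hs :: γ),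
        .mk :: (τ ++ .hs :: δ), fun i => .mk :: ξ i⟩
      (3 * (bw κ : List (Lt N)).reverse.length + 1) :=
    mv_run (k := .b) (k' := .c) (by simp) id
      (s := ⟨E ++ .mk :: A, (bw κ).reverse ++ .mk :: B, .hs :: .mk :: (bw κ ++ .hs :: γ),
        .mk :: (τ ++ .hs :: δ), fun i => .mk :: ξ i⟩)
      (l := (bw κ).reverse) (v := .mk) (r := B) rfl (Copy_bw_rev κ) rfl
  rw [List.map_id, List.reverse_reverse, List.length_reverse] at h15
  have hbl : (bw κ : List (Lt N)).length = κ.length := List.length_map _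
  rw [hbl] at h11 h12 h15
  refine (h1.seq (h2.seq (h3.seq (h4.seq (h5.seq (h6.seq (h7.seq (h8.seq (h9.seq (h10.seq
    (h11.seq (h12.seq (h13.seq (h14.seq h15)))))))))))))).mono ?_
  have e1 : m ≤ m * (κ.length + τ.length + 1) := Nat.le_mul_of_pos_right m (by omega)
  rw [Nat.add_mul]
  omega

end Pool.Agent.Lib.MP_33f9c4_lc.TT
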