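import Pool.Agent.Lib.MP_33f9c4_lc.K.ParG

set_option autoImplicit false

/-!
# MODULE ParT. The parameters for the Turing machine version

`h = 2^(2g)`, `n = h^66 = 2^(132 g)`, `l = 132 g - c4`, `s = 2h`, `r = 8g`, `R = h^4`, `w = 20g`, `q = h^15`, `W = 3h^15`,
`p` the least prime `> 2^(h^16)`, `t = h^16`, `b = 4h^16`, `K = (t+1) b + 3h^15`, `c = h^16`, `a = B = 4h^15`, `E = 10h^15`,
`N = 2^(8h^32)`.
-/

namespace Pool.Agent.Lib.MP_33f9c4_lc.LK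

/-- the parameters -/
def parT (g c4 : ℕ) : Par where
  n := 2 ^ (132 * g)
  l := 132 * g - c4
  s := 2 * hh g
  r := 8 * g
  R := 2 ^ (8 * g)
  w := 20 * g
  q := hh g ^ 15
  W := 3 * hh g ^ 15
  p := npr (2 ^ (hh g ^ 16))
  t := hh g ^ 16
  b := 4 * hh g ^ 16
  K := (hh g ^ 16 + 1) * (4 * hh g ^ 16) + 3 * hh g ^ 15
  c := hh g ^ 16
  a := 4 * hh g ^ 15
  B := 4 * hh g ^ 15
  E := 10 * hh g ^ 15
  N := 2 ^ (8 * hh g ^ 32)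

theorem parT_step {h i j : ℕ} (hh : 8192 ≤ h) (hij : i < j) : 8192 * h ^ i ≤ h ^ j := by
  calc 8192 * h ^ i ≤ h * h ^ i := Nat.mul_le_mul_right _ hh
    _ = h ^ (i + 1) := by rw [pow_succ, mul_comm]
    _ ≤ h ^ j := Nat.pow_le_pow_right (by omega) (by omega)

theorem parT_hh {g : ℕ} (hg : 7 ≤ g) : 8192 ≤ hh g ∧ 64 * g ≤ hh g := by
  have hgt : g < 2 ^ g := Nat.lt_two_pow_self
  constructor
  · unfold hh
    calc 8192 = 2 ^ 13 := by norm_num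
      _ ≤ 2 ^ (2 * g) := Nat.pow_le_pow_right (by norm_num) (by omega)
  · unfold hh
    have h1 : 2 ^ (2 * g) = 2 ^ g * 2 ^ g := by rw [two_mul, pow_add]
    have h2 : 2 ^ 7 ≤ 2 ^ g := Nat.pow_le_pow_right (by norm_num) hg
    rw [h1]
    nlinarith

theorem parT_R (g : ℕ) : 2 ^ (8 * g) = hh g ^ 4 := by unfold hh; rw [← pow_mul]; congr 1; ring

theorem parT_n (g : ℕ) : 2 ^ (132 * g) = hh g ^ 66 := by unfold hh; rw [← pow_mul]; congr 1; ring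

theorem parT_good {g c4 : ℕ} (hg : 7 ≤ g) (hc : c4 ≤ g) : (parT g c4).Good := by
  obtain ⟨hh1, hgh⟩ := parT_hh hg
  have hR := parT_R g
  have hn := parT_n g
  have h14g : 2 ^ (8 * g) * 2 ^ (20 * g) = hh g ^ 14 := by
    unfold hh; rw [← pow_mul, ← pow_add]; congr 1; ring
  have ht : hh g ^ 16 = 2 ^ (32 * g) := by unfold hh; rw [← pow_mul]; congr 1; ring
  have hpl : 2 ^ (hh g ^ 16) < npr (2 ^ (hh g ^ 16)) := lt_npr _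
  have hpu : npr (2 ^ (hh g ^ 16)) ≤ 2 * 2 ^ (hh g ^ 16) := npr_le _ Nat.one_le_two_pow
  have ht' : ∀ B X : ℕ, X + 32 * g ≤ B → 2 ^ X * hh g ^ 16 ≤ 2 ^ B := by
    intro B X hXB
    rw [ht, ← pow_add]
    exact Nat.pow_le_pow_right (by norm_num) hXB
  have e1 : 8192 * hh g ^ 1 ≤ hh g ^ 4 := parT_step hh1 (by norm_num)
  rw [pow_one] at e1
  have e2 : 8192 * hh g ^ 4 ≤ hh g ^ 14 := parT_step hh1 (by norm_num)
  have e3 : 8192 * hh g ^ 14 ≤ hh g ^ 15 := parT_step hh1 (by norm_num)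
  have e4 : 8192 * hh g ^ 15 ≤ hh g ^ 16 := parT_step hh1 (by norm_num)
  have e5 : 8192 * hh g ^ 16 ≤ hh g ^ 30 := parT_step hh1 (by norm_num)
  have e6 : 8192 * hh g ^ 30 ≤ hh g ^ 32 := parT_step hh1 (by norm_num)
  have e7 : 8192 * hh g ^ 32 ≤ hh g ^ 66 := parT_step hh1 (by norm_num)
  have m1 : hh g ^ 15 * (3 * hh g ^ 15) = 3 * hh g ^ 30 := by ring
  have m2 : (hh g ^ 16 + 1) * (4 * hh g ^ 16) = 4 * hh g ^ 32 + 4 * hh g ^ 16 := by ring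
  refine ⟨npr_prime _, rfl, ?_, ?_, ?_, ?_, ?_, ?_, ?_, ?_, ?_, ?_, ?_, ?_, ?_, ?_, ?_, ?_⟩
  · show 8 * g + 18 ≤ 132 * g - c4
    omega
  · show 2 * hh g + 5 ≤ 2 ^ (8 * g)
    rw [hR]; omega
  · show 8000 * (2 ^ (8 * g) * 2 ^ (20 * g)) ≤ hh g ^ 15
    rw [h14g]; omega
  · show 2 ^ (8 * g) + hh g ^ 15 + 20 * g ≤ 3 * hh g ^ 15
    rw [hR]; omega
  · show hh g ^ 15 * (3 * hh g ^ 15) + 2 ^ (8 * g) + 2 * hh g + 4 ≤ 2 ^ (132 * g)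
    rw [hR, hn, m1]; omega
  · show 8 * g + 20 * g + 2 ^ (8 * g) + hh g ^ 15 + 9 ≤ 4 * hh g ^ 15
    rw [hR]; omega
  · show 4 * hh g ^ 15 + 8 ≤ hh g ^ 16
    omega
  · show 2 ^ (2 ^ (8 * g) + 2 * hh g) ≤ npr (2 ^ (hh g ^ 16))
    rw [hR]
    exact (Nat.pow_le_pow_right (by norm_num) (by omega)).trans hpl.le
  · show 2 * (hh g ^ 16 + 1) * npr (2 ^ (hh g ^ 16)) ≤ 2 ^ (4 * hh g ^ 16)
    have h1 : hh g ^ 16 + 1 ≤ 2 ^ (hh g ^ 16) := Nat.lt_two_pow_self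
    calc 2 * (hh g ^ 16 + 1) * npr (2 ^ (hh g ^ 16))
        ≤ 2 * 2 ^ (hh g ^ 16) * (2 * 2 ^ (hh g ^ 16)) :=
          Nat.mul_le_mul (Nat.mul_le_mul_left _ h1) hpu
      _ = 2 ^ (2 * hh g ^ 16 + 2) := by ring
      _ ≤ 2 ^ (4 * hh g ^ 16) := Nat.pow_le_pow_right (by norm_num) (by omega)
  · show 2 ^ (2 ^ (8 * g) + hh g ^ 15 + 1 + 2 * hh g) * hh g ^ 16 ≤ 2 ^ (4 * hh g ^ 15)
    rw [hR]
    exact ht' _ _ (by omega)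
  · show 4 * hh g ^ 15 + 4 * hh g ^ 15 + 2 ≤ 10 * hh g ^ 15
    omega
  · show 2 ^ (4 * (10 * hh g ^ 15) + 4 * hh g ^ 15 + 2) ≤ npr (2 ^ (hh g ^ 16))
    exact (Nat.pow_le_pow_right (by norm_num) (by omega)).trans hpl.le
  · show (hh g ^ 16 + 1) * (4 * hh g ^ 16) + 2 ^ (8 * g) + hh g ^ 15 + 1 ≤
      (hh g ^ 16 + 1) * (4 * hh g ^ 16) + 3 * hh g ^ 15
    rw [hR]; omega
  · show 2 ^ (8 * g) + hh g ^ 15 + 2 * hh g + 4 * hh g ^ 15 + 2 ≤ hh g ^ 16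
    rw [hR]; omega
  · show (hh g ^ 16 + 1) * (4 * hh g ^ 16) + 3 * hh g ^ 15 + hh g ^ 16 ≤ 2 ^ (132 * g)
    rw [hn, m2]; omega
  · show 2 ^ ((hh g ^ 16 + 1) * (4 * hh g ^ 16) + 3 * hh g ^ 15 + hh g ^ 16 +
      4 * (10 * hh g ^ 15) + 4 * hh g ^ 15 + 2 ^ (8 * g) + 2 * hh g + 1) ≤ 2 ^ (8 * hh g ^ 32)
    rw [hR, m2]
    exact Nat.pow_le_pow_right (by norm_num) (by omega)

end Pool.Agent.Lib.MP_33f9c4_lc.LK
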