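import Pool.Agent.Lib.MP_33f9c4_lc.T.View
import Pool.Agent.Lib.MP_33f9c4_lc.T.ParT
import Pool.Agent.Lib.MP_33f9c4_lc.K.VCost

set_option autoImplicit false

/-!
# MODULE Cost. The cost of the diagonalising Turing machine
-/

namespace Pool.Agent.Lib.MP_33f9c4_lc.TT

open Pool.Agent.Lib.PolyTime (eval_mono)
open Pool.Agent.Lib.MP_33f9c4_lc.LK

variable {m : ℕ}

/-- the reading cost -/
theorem Cost_rcost_le {K J : ℕ} : ∀ (mm f : ℕ) (κ : List Bool) (τ : List (Option Bool)),
    (∀ i < mm, MP_33f9c4_lc.K.free (τ.drop i) + i ≤ f) → κ.length + mm ≤ J →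
    K + τ.length + 1 ≤ 3 * lval κ → 0 < lval κ →
    rcostO K mm κ τ ≤ mm * (2 ^ f * lval κ * (2 * J + 3)) := by
  intro mm
  induction mm with
  | zero => intro f κ τ _ _ _ _; exact Nat.zero_le _
  | succ mm ih =>
    intro f κ τ h1 h2 h3 h4
    have h0 := h1 0 (by omega)
    rw [List.drop_zero, Nat.add_zero] at h0
    have e : rcostO K (mm + 1) κ τ = 2 ^ MP_33f9c4_lc.K.free τ *
        ((κ.length + 1) * (lval κ + 1) + K + τ.length + 1) + rcostO K mm (false :: κ) τ.tail := rfl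
    have hlv : lval (false :: κ) = 2 * lval κ := by simp [lval]
    have a1 : 2 ^ MP_33f9c4_lc.K.free τ * ((κ.length + 1) * (lval κ + 1) + K + τ.length + 1) ≤
        2 ^ f * lval κ * (2 * J + 3) := by
      have b1 : (κ.length + 1) * (lval κ + 1) ≤ J * (2 * lval κ) :=
        Nat.mul_le_mul (by omega) (by omega)
      calc _ ≤ 2 ^ f * (lval κ * (2 * J + 3)) := by
            refine Nat.mul_le_mul (Nat.pow_le_pow_right (by norm_num) h0) ?_
            nlinarith
        _ = _ := by ring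
    rw [e]
    rcases Nat.eq_zero_or_pos mm with rfl | hmm
    · have e0 : rcostO K 0 (false :: κ) τ.tail = 0 := rfl
      rw [e0]
      omega
    · have hf : 1 ≤ f := by
        have := h1 1 (by omega)
        omega
      have a2 := ih (f - 1) (false :: κ) τ.tail (fun i hi => by
        have := h1 (i + 1) (by omega)
        rw [List.drop_tail]
        omega) (by simp only [List.length_cons]; omega) (by
          rw [hlv, List.length_tail]
          omega) (by omega)
      rw [hlv] at a2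
      have e2 : 2 ^ (f - 1) * (2 * lval κ) = 2 ^ f * lval κ := by
        have : 2 ^ f = 2 ^ (f - 1) * 2 := by rw [← pow_succ]; congr 1; omega
        rw [this]
        ring
      rw [e2] at a2
      calc _ ≤ 2 ^ f * lval κ * (2 * J + 3) + mm * (2 ^ f * lval κ * (2 * J + 3)) :=
            Nat.add_le_add a1 a2
        _ = _ := by ring

/-- the number of entries read -/
theorem Cost_rds_le (V : NM m) {K : ℕ} : ∀ (mm f : ℕ) (κ : List Bool) (τ : List (Option Bool)),
    (∀ i < mm, MP_33f9c4_lc.K.free (τ.drop i) + i ≤ f) →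
    (rdsO V K mm κ τ).length ≤ 2 ^ (f + 1) := by
  intro mm
  induction mm with
  | zero => intro f κ τ _; exact Nat.zero_le _
  | succ mm ih =>
    intro f κ τ h1
    have h0 := h1 0 (by omega)
    rw [List.drop_zero, Nat.add_zero] at h0
    have e : (rdsO V K (mm + 1) κ τ).length = 2 ^ MP_33f9c4_lc.K.free τ +
        (rdsO V K mm (false :: κ) τ.tail).length := by
      show ((MP_33f9c4_lc.K.ents τ []).map _ ++ _).length = _
      rw [List.length_append, List.length_map, MP_33f9c4_lc.K.length_ents]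
    rw [e]
    have a1 : 2 ^ MP_33f9c4_lc.K.free τ ≤ 2 ^ f := Nat.pow_le_pow_right (by norm_num) h0
    rcases Nat.eq_zero_or_pos mm with rfl | hmm
    · have e0 : (rdsO V K 0 (false :: κ) τ.tail).length = 0 := rfl
      rw [e0, pow_succ]
      omega
    · have hf : 1 ≤ f := by
        have := h1 1 (by omega)
        omega
      have a2 := ih (f - 1) (false :: κ) τ.tail (fun i hi => by
        have := h1 (i + 1) (by omega)
        rw [List.drop_tail]
        omega)
      have e2 : f - 1 + 1 = f := by omega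
      rw [e2] at a2
      rw [pow_succ]
      omega

/-- the cost of reading and sorting -/
theorem Cost_read (V : NM m) {P : Par} (hP : P.Good) {g c4 : ℕ} (hg : 7 ≤ g) (hc : c4 ≤ g)
    (hn : P.n = 2 ^ (P.l + c4)) (hr : P.r = 8 * g) (hw : P.w = 20 * g) (hR : P.R = 2 ^ (8 * g))
    (hs : P.s = 2 * hh g) (hl : P.l ≤ 132 * g) (hK : (P.K + 1) * (P.K + 1) + 2 ≤ P.n)
    {u : List Bool} (hu1 : 1 ≤ u.length) (hu' : u.length ≤ P.R + P.q) :
    (rcostO P.K (LK.mt P u) (kap P.l c4) (rt P u) + ((P.K + 1) * (P.K + 1) + (P.n + 2)) *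
      (rdsO V P.K (LK.mt P u) (kap P.l c4) (rt P u)).length) * 2 ^ (u.length + 4 * g) ≤
      2 ^ (P.n + (c4 + 6)) := by
  obtain ⟨hh1, -⟩ := parT_hh hg
  have hh2 : 128 * g ≤ hh g := by
    have hgt : g < 2 ^ g := Nat.lt_two_pow_self
    have h1 : 2 ^ (2 * g) = 2 ^ g * 2 ^ g := by rw [two_mul, pow_add]
    have h2 : 2 ^ 7 ≤ 2 ^ g := Nat.pow_le_pow_right (by norm_num) hg
    unfold hh
    rw [h1]
    nlinarith
  have hR4 := parT_R g
  rw [← hR] at hR4
  have hRh : 8192 * hh g ^ 1 ≤ hh g ^ 4 := parT_step hh1 (by norm_num)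
  rw [pow_one, ← hR4] at hRh
  have hlj : P.l ≤ jhi P u := by
    unfold jhi Par.jF Par.jM
    split
    · omega
    · omega
  have hlen := VView_length_tmpl hP hu1 hu' hlj
  have hrt : (rt P u).length = P.n - P.l + 1 := by
    unfold rt
    rw [List.length_reverse, hlen]
  have hlv : lval (kap P.l c4) = P.n := by
    have := lval_kap 0 P.l c4
    simp only [List.replicate_zero, List.nil_append, Nat.add_zero] at this
    rw [this, hn]
  have hkl : (kap P.l c4).length = P.l + c4 + 1 := by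
    unfold kap
    simp
  have h15 := hP.h15
  have hn1 : 0 < P.n := by rw [hn]; positivity
  have key : ∀ (f B E : ℕ), (∀ i < LK.mt P u, MP_33f9c4_lc.K.free ((rt P u).drop i) + i ≤ f) →
      LK.mt P u * (2 * (P.l + c4 + 1 + LK.mt P u) + 3) + 4 ≤ 2 ^ B → f + (P.l + c4) + B + E ≤
        P.n + (c4 + 6) →
      (rcostO P.K (LK.mt P u) (kap P.l c4) (rt P u) + ((P.K + 1) * (P.K + 1) + (P.n + 2)) *
        (rdsO V P.K (LK.mt P u) (kap P.l c4) (rt P u)).length) * 2 ^ E ≤ 2 ^ (P.n + (c4 + 6)) := by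
    intro f B E hf hB hE
    have a1 := Cost_rcost_le (K := P.K) (J := P.l + c4 + 1 + LK.mt P u) (LK.mt P u) f (kap P.l c4)
      (rt P u) hf (by rw [hkl]) (by rw [hlv, hrt]; omega) (by rw [hlv]; exact hn1)
    rw [hlv] at a1
    have a2 := Cost_rds_le V (K := P.K) (LK.mt P u) f (kap P.l c4) (rt P u) hf
    have a3 : ((P.K + 1) * (P.K + 1) + (P.n + 2)) *
        (rdsO V P.K (LK.mt P u) (kap P.l c4) (rt P u)).length ≤ (2 * P.n) * 2 ^ (f + 1) :=
      Nat.mul_le_mul (by omega) a2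
    calc _ ≤ (LK.mt P u * (2 ^ f * P.n * (2 * (P.l + c4 + 1 + LK.mt P u) + 3)) +
          (2 * P.n) * 2 ^ (f + 1)) * 2 ^ E := Nat.mul_le_mul_right _ (Nat.add_le_add a1 a3)
      _ = 2 ^ f * P.n * (LK.mt P u * (2 * (P.l + c4 + 1 + LK.mt P u) + 3) + 4) * 2 ^ E := by ring
      _ ≤ 2 ^ f * P.n * 2 ^ B * 2 ^ E := Nat.mul_le_mul_right _ (Nat.mul_le_mul_left _ hB)
      _ = 2 ^ (f + (P.l + c4) + B + E) := by
          rw [hn, ← pow_add, ← pow_add, ← pow_add]
      _ ≤ _ := Nat.pow_le_pow_right (by norm_num) hE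
  have e2 : hh g * hh g = 2 ^ (4 * g) := by
    unfold hh
    rw [← pow_add]
    congr 1
    omega
  rcases Nat.lt_or_ge P.R u.length with h | h
  · refine key (P.n + 1 - P.l - u.length - P.w) (4 + 16 * g) _ (fun i hi => ?_) ?_ ?_
    · exact ((VView_free hP hu1 hu' (i := i) (by unfold LK.mt at hi; omega)).2 h).le
    · have h1 : LK.mt P u ≤ 2 * P.R := by
        unfold LK.mt jhi Par.jM
        rw [if_neg (by omega)]
        omega
      have h2 : P.l + c4 + 1 + LK.mt P u ≤ 2 * P.R := by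
        unfold LK.mt jhi Par.jM
        rw [if_neg (by omega)]
        unfold jhi Par.jM at hlj
        rw [if_neg (by omega)] at hlj
        omega
      have h3 : P.R * P.R = 2 ^ (16 * g) := by
        rw [hR, ← pow_add]
        congr 1
        omega
      calc LK.mt P u * (2 * (P.l + c4 + 1 + LK.mt P u) + 3) + 4 ≤
            2 * P.R * (2 * (2 * P.R) + 3) + 4 := by
            refine Nat.add_le_add_right (Nat.mul_le_mul h1 ?_) 4
            omega
        _ ≤ 16 * (P.R * P.R) := by nlinarith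
        _ = 2 ^ (4 + 16 * g) := by rw [h3, pow_add]; norm_num
    · obtain ⟨-, fB, -⟩ := VView_fit hP hu1 hu' (j := P.l) hlj
      have := fB h
      omega
  · refine key (P.n + 1 - P.l - P.r - u.length) (5 + 4 * g) _ (fun i hi => ?_) ?_ ?_
    · exact ((VView_free hP hu1 hu' (i := i) (by unfold LK.mt at hi; omega)).1 h).le
    · have h1 : LK.mt P u ≤ 3 * hh g := by
        unfold LK.mt jhi Par.jF
        rw [if_pos h]
        omega
      have h2 : P.l + c4 + 1 + LK.mt P u ≤ 3 * hh g := by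
        unfold LK.mt jhi Par.jF
        rw [if_pos h]
        unfold jhi Par.jF at hlj
        rw [if_pos h] at hlj
        omega
      calc LK.mt P u * (2 * (P.l + c4 + 1 + LK.mt P u) + 3) + 4 ≤
            3 * hh g * (2 * (3 * hh g) + 3) + 4 := by
            refine Nat.add_le_add_right (Nat.mul_le_mul h1 ?_) 4
            omega
        _ ≤ 32 * (hh g * hh g) := by nlinarith
        _ = 2 ^ (5 + 4 * g) := by rw [e2, pow_add]; norm_num
    · obtain ⟨fA, -, -⟩ := VView_fit hP hu1 hu' (j := P.l) hlj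
      have := (fA h).2
      omega

/-- the templates of the tested strings -/
noncomputable def tmps (P : Par) (T : Tab) (u : List Bool) : List (List (Option Bool)) :=
  (allT P T u).map fun v => (v.map some ++ List.replicate (P.n - v.length) none).reverse

theorem tmps_sum (P : Par) (T : Tab) (u : List Bool) :
    ((tmps P T u).map fun τ' => 2 ^ MP_33f9c4_lc.K.free τ').sum =
      ((allT P T u).map fun v => 2 ^ (P.n - v.length)).sum := by
  unfold tmps
  rw [List.map_map]
  congr 1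
  refine List.map_congr_left fun v _ => ?_
  simp only [Function.comp, MP_33f9c4_lc.K.free, List.count_reverse, List.count_append]
  congr 1
  have h1 : (v.map some).count (none : Option Bool) = 0 := by
    rw [List.count_eq_zero]
    simp
  rw [h1]
  simp

/-- the number of entries read is less than `2 ^ (n + 2)` -/
theorem Cost_rds_lt (V : NM m) {P : Par} (hP : P.Good) (c4 : ℕ) {u : List Bool}
    (hu1 : 1 ≤ u.length) (hu' : u.length ≤ P.R + P.q) :
    (rdsO V P.K (LK.mt P u) (kap P.l c4) (rt P u)).length < 2 ^ (P.n + 2) := by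
  have h1 := hP.h1
  have h15 := hP.h15
  have a := Cost_rds_le V (K := P.K) (LK.mt P u) P.n (kap P.l c4) (rt P u) (fun i hi => by
    have h := VView_free hP hu1 hu' (i := i) (by unfold LK.mt at hi; omega)
    rcases Nat.lt_or_ge P.R u.length with h' | h'
    · have := h.2 h'
      omega
    · have := h.1 h'
      omega)
  refine a.trans_lt ?_
  exact Nat.pow_lt_pow_right (by norm_num) (by omega)

/-- The final arithmetic. -/
private theorem Cost_arith (A N E Qv rc Sm T3 : ℕ) (c4 M : ℕ) (a1 : Qv * M ≤ 2 ^ N)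
    (a2 : rc * M ≤ 2 ^ (N + (c4 + 6))) (a3 : (Sm + 1) * T3 * M ≤ 2 ^ (N + 3)) (hE : E = A + c4 + 9) :
    (Qv + A * (rc + (Sm + 1) * T3)) * M ≤ 2 ^ (N + E) := by
  have hA : A < 2 ^ A := Nat.lt_two_pow_self
  have e1 : (Qv + A * (rc + (Sm + 1) * T3)) * M =
      Qv * M + A * (rc * M + (Sm + 1) * T3 * M) := by ring
  have b1 : 2 ^ N ≤ 2 ^ (N + (c4 + 6)) := Nat.pow_le_pow_right (by norm_num) (by omega)
  have b3 : 2 ^ (N + 3) ≤ 2 ^ (N + (c4 + 6)) := Nat.pow_le_pow_right (by norm_num) (by omega)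
  rw [e1]
  have b4 : A * (rc * M + (Sm + 1) * T3 * M) ≤ 2 ^ A * (2 ^ (N + (c4 + 6)) + 2 ^ (N + (c4 + 6))) :=
    Nat.mul_le_mul hA.le (Nat.add_le_add a2 (a3.trans b3))
  have b5 : 2 ^ (N + (c4 + 6)) ≤ 2 ^ A * 2 ^ (N + (c4 + 6)) :=
    Nat.le_mul_of_pos_left _ (by positivity)
  have e2 : 2 ^ (N + E) = 8 * (2 ^ A * 2 ^ (N + (c4 + 6))) := by
    rw [hE, ← pow_add, show 8 = 2 ^ 3 by norm_num, ← pow_add]
    congr 1
    omega
  rw [e2]
  have e3 : 2 ^ A * (2 ^ (N + (c4 + 6)) + 2 ^ (N + (c4 + 6))) =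
      2 * (2 ^ A * 2 ^ (N + (c4 + 6))) := by ring
  rw [e3] at b4
  omega

/-- The total cost. -/
theorem Cost_total (m A c4 : ℕ) (Q : Polynomial ℕ) : ∃ C g₀ : ℕ, ∀ g, g₀ ≤ g →
    ∀ (V : NM m) (T : Tab) (u : List Bool), 1 ≤ u.length → u.length ≤ (parT g c4).R + (parT g c4).q →
    (Q.eval (g + 1 + u.length + hh g + 2 ^ (parT g c4).K + ((parT g c4).n + 2)) +
      A * (rcostO (parT g c4).K (LK.mt (parT g c4) u) (kap (parT g c4).l c4) (rt (parT g c4) u) +
        (((parT g c4).K + 1) * ((parT g c4).K + 1) + ((parT g c4).n + 2)) *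
          (rdsO V (parT g c4).K (LK.mt (parT g c4) u) (kap (parT g c4).l c4)
            (rt (parT g c4) u)).length +
        (((tmps (parT g c4) T u).map fun τ' => 2 ^ MP_33f9c4_lc.K.free τ').sum + 1) *
          ((parT g c4).n + 2 ^ 2 ^ g + 1) ^ 2)) * 2 ^ (u.length + 4 * g) ≤
      2 ^ ((parT g c4).n + C) := by
  obtain ⟨C, hC⟩ := VCost_poly Q
  refine ⟨A + c4 + 9, C + c4 + 20, fun g hg V T u hu1 hu' => ?_⟩
  have hg7 : 7 ≤ g := by omega
  have hP := parT_good (g := g) (c4 := c4) hg7 (by omega)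
  obtain ⟨hh1, -⟩ := parT_hh hg7
  have hgt : g < 2 ^ g := Nat.lt_two_pow_self
  have hg20 : 2 ^ 20 ≤ 2 ^ g := Nat.pow_le_pow_right (by norm_num) (by omega)
  have e0 : hh g = 2 ^ g * 2 ^ g := by unfold hh; rw [two_mul, pow_add]
  -- the values of the parameters
  have hn : (parT g c4).n = hh g ^ 66 := parT_n g
  have hn' : (parT g c4).n = 2 ^ (132 * g) := rfl
  have hR : (parT g c4).R = hh g ^ 4 := parT_R g
  have hq : (parT g c4).q = hh g ^ 15 := rfl
  have hs : (parT g c4).s = 2 * hh g := rfl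
  have hl : (parT g c4).l = 132 * g - c4 := rfl
  have hK : (parT g c4).K = 4 * hh g ^ 32 + 4 * hh g ^ 16 + 3 * hh g ^ 15 := by
    show (hh g ^ 16 + 1) * (4 * hh g ^ 16) + 3 * hh g ^ 15 = _
    ring
  have s1 : 8192 * hh g ^ 1 ≤ hh g ^ 4 := parT_step hh1 (by norm_num)
  have s2 : 8192 * hh g ^ 4 ≤ hh g ^ 15 := parT_step hh1 (by norm_num)
  have s3 : 8192 * hh g ^ 15 ≤ hh g ^ 16 := parT_step hh1 (by norm_num)
  have s4 : 8192 * hh g ^ 16 ≤ hh g ^ 32 := parT_step hh1 (by norm_num)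
  have s5 : 8192 * hh g ^ 32 ≤ hh g ^ 64 := parT_step hh1 (by norm_num)
  have s6 : 8192 * hh g ^ 64 ≤ hh g ^ 66 := parT_step hh1 (by norm_num)
  rw [pow_one] at s1
  have hCh : (C + 1) * (2 ^ g) ≤ hh g := by
    rw [e0]
    refine Nat.mul_le_mul_right _ ?_
    omega
  have a1 := Cost_read V (c4 := c4) hP hg7 (by omega) (by rw [hn', hl]; congr 1; omega) rfl rfl rfl hs
    (by rw [hl]; omega) (by
      rw [hn, hK]
      have b : 4 * hh g ^ 32 + 4 * hh g ^ 16 + 3 * hh g ^ 15 + 1 ≤ 8 * hh g ^ 32 := by omega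
      have b2 : (4 * hh g ^ 32 + 4 * hh g ^ 16 + 3 * hh g ^ 15 + 1) *
          (4 * hh g ^ 32 + 4 * hh g ^ 16 + 3 * hh g ^ 15 + 1) ≤
          (8 * hh g ^ 32) * (8 * hh g ^ 32) := Nat.mul_le_mul b b
      have b3 : (8 * hh g ^ 32) * (8 * hh g ^ 32) = 64 * hh g ^ 64 := by ring
      have b4 : 1 ≤ hh g ^ 64 := Nat.one_le_pow _ _ (by omega)
      omega) hu1 hu'
  have a2 := VCost_sum hP T hu1 hu'
  rw [← tmps_sum] at a2
  rw [hs] at a2
  rw [hR, hq] at hu'
  -- the tests
  have t1 : ((parT g c4).n + 2 ^ 2 ^ g + 1) ^ 2 ≤ 2 ^ hh g := by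
    have b1 : 132 * g ≤ 2 ^ g := by
      have : ∀ k : ℕ, 132 * (k + 20) ≤ 2 ^ (k + 20) := by
        intro k
        induction k with
        | zero => norm_num
        | succ k ih =>
          have e : 2 ^ (k + 1 + 20) = 2 * 2 ^ (k + 20) := by ring
          rw [e]
          omega
      have := this (g - 20)
      have e : g - 20 + 20 = g := by omega
      rwa [e] at this
    have b2 : (parT g c4).n ≤ 2 ^ 2 ^ g := by
      rw [hn']
      exact Nat.pow_le_pow_right (by norm_num) b1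
    have b3 : (parT g c4).n + 2 ^ 2 ^ g + 1 ≤ 2 ^ (2 ^ g + 2) := by
      have : 1 ≤ 2 ^ 2 ^ g := Nat.one_le_two_pow
      rw [pow_add 2 (2 ^ g) 2]
      omega
    calc _ ≤ (2 ^ (2 ^ g + 2)) ^ 2 := Nat.pow_le_pow_left b3 2
      _ = 2 ^ (2 * 2 ^ g + 4) := by rw [← pow_mul]; congr 1; ring
      _ ≤ 2 ^ hh g := by
          refine Nat.pow_le_pow_right (by norm_num) ?_
          rw [e0]
          nlinarith
  have h4g : 4 * g ≤ hh g := by
    rw [e0]
    nlinarith
  have t2 : (((tmps (parT g c4) T u).map fun τ' => 2 ^ MP_33f9c4_lc.K.free τ').sum + 1) *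
      ((parT g c4).n + 2 ^ 2 ^ g + 1) ^ 2 * 2 ^ (u.length + 4 * g) ≤
      2 ^ ((parT g c4).n + 3) := by
    generalize ((tmps (parT g c4) T u).map fun τ' => 2 ^ MP_33f9c4_lc.K.free τ').sum = Sm at a2 ⊢
    have b1 : ((parT g c4).n + 2 ^ 2 ^ g + 1) ^ 2 * 2 ^ (u.length + 4 * g) ≤
        2 ^ (u.length + 2 * hh g) := by
      calc _ ≤ 2 ^ hh g * 2 ^ (u.length + 4 * g) := Nat.mul_le_mul_right _ t1
        _ = 2 ^ (hh g + (u.length + 4 * g)) := by rw [← pow_add]
        _ ≤ _ := Nat.pow_le_pow_right (by norm_num) (by omega)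
    have b2 : 2 ^ (u.length + 2 * hh g) ≤ 2 ^ (parT g c4).n := by
      refine Nat.pow_le_pow_right (by norm_num) ?_
      rw [hn]
      omega
    calc _ = Sm * (((parT g c4).n + 2 ^ 2 ^ g + 1) ^ 2 * 2 ^ (u.length + 4 * g)) +
          ((parT g c4).n + 2 ^ 2 ^ g + 1) ^ 2 * 2 ^ (u.length + 4 * g) := by ring
      _ ≤ Sm * 2 ^ (u.length + 2 * hh g) + 2 ^ (u.length + 2 * hh g) :=
          Nat.add_le_add (Nat.mul_le_mul_left _ b1) b1
      _ ≤ 2 ^ ((parT g c4).n + 2) + 2 ^ (parT g c4).n := Nat.add_le_add a2 b2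
      _ ≤ _ := by
          rw [pow_add 2 _ 2, pow_add 2 _ 3]
          omega
  -- the polynomial part
  have f6 : g + 1 + u.length + hh g + 2 ^ (parT g c4).K + ((parT g c4).n + 2) + 2 ≤
      2 ^ ((parT g c4).K + 2) := by
    have b1 : (parT g c4).n ≤ 2 ^ ((parT g c4).K - 1) := by
      rw [hn']
      refine Nat.pow_le_pow_right (by norm_num) ?_
      rw [hK]
      have : 132 * g ≤ 132 * hh g := Nat.mul_le_mul_left _ (by omega)
      omega
    have b2 : (parT g c4).K - 1 < 2 ^ ((parT g c4).K - 1) := Nat.lt_two_pow_self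
    have b3 : g + 1 + u.length + hh g + 4 ≤ (parT g c4).K - 1 := by
      rw [hK]
      omega
    have e : 2 ^ (parT g c4).K = 2 * 2 ^ ((parT g c4).K - 1) := by
      rw [← pow_succ']
      congr 1
      omega
    rw [pow_add, e]
    omega
  have t3 : Q.eval (g + 1 + u.length + hh g + 2 ^ (parT g c4).K + ((parT g c4).n + 2)) *
      2 ^ (u.length + 4 * g) ≤ 2 ^ (parT g c4).n := by
    calc _ ≤ (2 ^ C * (2 ^ ((parT g c4).K + 2)) ^ C) * 2 ^ (u.length + 4 * g) :=
          Nat.mul_le_mul_right _ ((hC _).trans (Nat.mul_le_mul_left _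
            (Nat.pow_le_pow_left f6 C)))
      _ = 2 ^ (C + ((parT g c4).K + 2) * C + (u.length + 4 * g)) := by
          rw [← pow_mul, ← pow_add, ← pow_add]
      _ ≤ _ := by
          refine Nat.pow_le_pow_right (by norm_num) ?_
          rw [hn]
          have b1 : (parT g c4).K + 3 ≤ 8 * hh g ^ 32 := by rw [hK]; omega
          have b2 : C ≤ hh g := by nlinarith
          have b3 : C + ((parT g c4).K + 2) * C ≤ 8 * hh g ^ 64 := by
            calc C + ((parT g c4).K + 2) * C = ((parT g c4).K + 3) * C := by ring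
              _ ≤ 8 * hh g ^ 32 * hh g ^ 32 := by
                  refine Nat.mul_le_mul b1 (b2.trans ?_)
                  omega
              _ = 8 * hh g ^ 64 := by ring
          omega
  exact Cost_arith A _ _ _ _ _ _ c4 _ t3 a1 t2 rfl

end Pool.Agent.Lib.MP_33f9c4_lc.TT
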