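import Pool.Agent.Lib.MP_33f9c4_lc.T.FinG
import Pool.Agent.Lib.MP_33f9c4_lc.T.Cost

set_option autoImplicit false

/-!
# The costs and sizes needed in the general form of the final theorem
-/

namespace Pool.Agent.Lib.MP_33f9c4_lc.TT

open Pool.Agent.Lib.MP_33f9c4_lc.LK (Par Tab rt jhi allT parT hh parT_good parT_hh)

theorem cost_t (m c4 A : ℕ) (Q : Polynomial ℕ) : CostT m c4 A Q := by
  obtain ⟨C, g₀, h⟩ := Cost_total m A c4 Q
  refine ⟨C, g₀, fun g hg V u hu1 hu' => ?_⟩
  have h1 := h g hg V (vtab V c4 (parT g c4).n) u hu1 hu'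
  have e1 : (inw g u).length = g + 1 + u.length := by
    rw [inw, List.length_append, List.length_replicate, List.length_cons]
    omega
  rw [e1]
  exact h1

theorem items_t (m c4 : ℕ) : ItemsT m c4 := fun g hg hc V u hu1 hu' =>
  Cost_rds_lt V (parT_good hg hc) c4 hu1 hu'

theorem tables_t (c4 : ℕ) : TablesT c4 := by
  intro g hg hc u hu1 hu'
  have hP := parT_good hg hc
  obtain ⟨hh1, -⟩ := parT_hh hg
  have hh2 : 128 * g ≤ hh g := by
    have hgt : g < 2 ^ g := Nat.lt_two_pow_self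
    have h1 : 2 ^ (2 * g) = 2 ^ g * 2 ^ g := by rw [two_mul, pow_add]
    have h2 : 2 ^ 7 ≤ 2 ^ g := Nat.pow_le_pow_right (by norm_num) hg
    unfold hh
    rw [h1]
    nlinarith
  have hlj : (parT g c4).l ≤ jhi (parT g c4) u := by
    have hl : (parT g c4).l ≤ 132 * g := Nat.sub_le _ _
    have hs : (parT g c4).s = 2 * hh g := rfl
    unfold jhi Par.jF Par.jM
    split <;> omega
  have h1 : (rt (parT g c4) u).length = (parT g c4).n - (parT g c4).l + 1 := by
    unfold rt
    rw [List.length_reverse, LK.VView_length_tmpl hP hu1 hu' hlj]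
  obtain ⟨-, -, h3⟩ := LK.VView_fit hP hu1 hu' (j := jhi (parT g c4) u) le_rfl
  rw [h1]
  unfold LK.mt
  omega

end Pool.Agent.Lib.MP_33f9c4_lc.TT
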