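import Pool.Agent.Lib.MP_33f9c4_lc.T.Ext

set_option autoImplicit false

/-!
MODULE Count. From the sorted list of items to the histogram.

The counter is `bw (Nat.bits n)` above `hs` on stack `c`. PROGRAM: push `hs` on `c` (counter 0). Loop on `b` while the top is a flag: pop the flag,
delete the bits (`del isB`), pop `hs`. If the flag was `re` (real item): increment the counter on `c` (auxiliary stack `d`: push
`hs` on `d`; while the top of `c` is `i` pop it and push `o` on `d`; then if the top is `o` pop it; (if it is `hs` leave it); push `i` on `c`; move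
the `o`s of `d` back; pop `hs` of `d`): `Nat.bits (n + 1)`. If it was `se` (sentinel): write the record on `a`: push `i`, push `o` on `a` (the pair
`[false, true]`, top first: `o i`); then while the top of `c` is a bit `v`: pop it, push `v` on `a`, push `i` on `a` (the pair `[true, v]`); the counter is
now empty (0). After the loop (top of `b` is `mk`) pop `hs` of `c`. Check: the record of `n` is
`(Nat.bits n).reverse.flatMap (fun b => [true, b]) ++ [false, true]`, the last record is on top.
-/

namespace Pool.Agent.Lib.MP_33f9c4_lc.TT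

variable {m N : ℕ}

/-- the record of a number -/
def rec1 (n : ℕ) : List Bool := (Nat.bits n).reverse.flatMap (fun b => [true, b]) ++ [false, true]

/-- the histogram string -/
def hst (l : List ℕ) : List Bool := l.reverse.flatMap rec1

private def cntI : Lt N → Bool
  | .i => true
  | _ => false

private def cntO : Lt N → Bool
  | .o => true
  | _ => false

private def cntF : Lt N → Bool
  | .re => true
  | .se => true
  | _ => false

private def cntInc : List Bool → List Bool
  | [] => [true]
  | false :: w => true :: w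
  | true :: w => false :: cntInc w

private theorem cntInc_bits (n : ℕ) : cntInc (Nat.bits n) = Nat.bits (n + 1) := by
  induction n using Nat.binaryRec' with
  | zero => simp [cntInc]
  | bit b n hn ih =>
    rw [Nat.bits_append_bit n b hn]
    cases b
    · have h0 : Nat.bit false n + 1 = Nat.bit true n := by
        simp [Nat.bit_val]
      rw [h0, Nat.bits_append_bit n true (fun _ => rfl)]
      rfl
    · have h0 : Nat.bit true n + 1 = Nat.bit false (n + 1) := by
        simp only [Nat.bit_val]
        simp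
        ring
      rw [h0, Nat.bits_append_bit (n + 1) false (fun h => absurd h (by omega)), ← ih]
      rfl

private theorem cntInc_dec (w : List Bool) : ∃ (j : ℕ) (w' : List Bool), j + w'.length = w.length ∧
    w = List.replicate j true ++ w' ∧
    ((w' = [] ∧ cntInc w = List.replicate j false ++ [true]) ∨
      ∃ w'', w' = false :: w'' ∧ cntInc w = List.replicate j false ++ true :: w'') := by
  induction w with
  | nil => exact ⟨0, [], rfl, rfl, Or.inl ⟨rfl, rfl⟩⟩
  | cons b w ih =>
    cases b
    · exact ⟨0, false :: w, by simp, rfl, Or.inr ⟨w, rfl, rfl⟩⟩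
    · obtain ⟨j, w', h0, h1, h2⟩ := ih
      refine ⟨j + 1, w', by simp only [List.length_cons]; omega, ?_, ?_⟩
      · rw [List.replicate_succ, List.cons_append, ← h1]
      · rcases h2 with ⟨h2, h3⟩ | ⟨w'', h2, h3⟩
        · refine Or.inl ⟨h2, ?_⟩
          rw [cntInc, h3]
          rfl
        · refine Or.inr ⟨w'', h2, ?_⟩
          rw [cntInc, h3]
          rfl

private theorem cnt_bw_append (u v : List Bool) : (bw (u ++ v) : List (Lt N)) = bw u ++ bw v :=
  List.map_append

private theorem cnt_bw_rep (j : ℕ) (b : Bool) :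
    (bw (List.replicate j b) : List (Lt N)) = List.replicate j (bt b) := List.map_replicate

private def cntT (v : Lt N) : LP m (Lt N) :=
  if v = .o then .push .c .i else .seq (.push .c v) (.push .c .i)

private def cntTop : LP m (Lt N) := .pop .c cntT

private def cntP : LP m (Lt N) :=
  .seq (.push .d .hs) (.seq (mv .c .d cntI (fun _ => .o)) (.seq cntTop
    (.seq (mv .d .c cntO id) (pop1 .d))))

private theorem cntP_run (w : List Bool) (a b c d : List (Lt N)) (ξ : Fin m → List (Lt N)) :
    LR cntP (⟨a, b, bw w ++ .hs :: c, d, ξ⟩ : Sta m (Lt N))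
      ⟨a, b, bw (cntInc w) ++ .hs :: c, d, ξ⟩ (6 * w.length + 8) := by
  obtain ⟨j, w', h0, h1, h2⟩ := cntInc_dec w
  have k1 : LR (.push .d .hs) (⟨a, b, bw w ++ .hs :: c, d, ξ⟩ : Sta m (Lt N))
      ⟨a, b, bw w ++ .hs :: c, .hs :: d, ξ⟩ 1 := LR.push _ _ _
  have k0 : ∀ (x : Lt N) (r : List (Lt N)), cntI x = false →
      bw w ++ .hs :: c = List.replicate j Lt.i ++ x :: r →
      LR (mv .c .d cntI (fun _ => .o)) (⟨a, b, bw w ++ .hs :: c, .hs :: d, ξ⟩ : Sta m (Lt N))
      ⟨a, b, x :: r, List.replicate j Lt.o ++ .hs :: d, ξ⟩ (3 * j + 1) := by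
    intro x r hx he
    rw [he]
    have h := mv_run (k := .c) (k' := .d) (by intro h; cases h) (p := cntI) (fun _ => Lt.o)
      (s := (⟨a, b, List.replicate j Lt.i ++ x :: r, .hs :: d, ξ⟩ : Sta m (Lt N)))
      (l := List.replicate j Lt.i) (v := x) (r := r) rfl
      (fun u hu => by rw [List.eq_of_mem_replicate hu]; rfl) hx
    rw [List.map_replicate, List.reverse_replicate, List.length_replicate] at h
    exact h
  have k4 : ∀ (r : List (Lt N)), LR (mv .d .c cntO id)
      (⟨a, b, .i :: r, List.replicate j Lt.o ++ .hs :: d, ξ⟩ : Sta m (Lt N))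
      ⟨a, b, List.replicate j Lt.o ++ .i :: r, .hs :: d, ξ⟩ (3 * j + 1) := by
    intro r
    have h := mv_run (k := .d) (k' := .c) (by intro h; cases h) (p := cntO) id
      (s := (⟨a, b, .i :: r, List.replicate j Lt.o ++ .hs :: d, ξ⟩ : Sta m (Lt N)))
      (l := List.replicate j Lt.o) (v := .hs) (r := d) rfl
      (fun u hu => by rw [List.eq_of_mem_replicate hu]; rfl) rfl
    rw [List.map_id, List.reverse_replicate, List.length_replicate] at h
    exact h
  have k5 : ∀ (r : List (Lt N)), LR (pop1 .d)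
      (⟨a, b, List.replicate j Lt.o ++ .i :: r, .hs :: d, ξ⟩ : Sta m (Lt N))
      ⟨a, b, List.replicate j Lt.o ++ .i :: r, d, ξ⟩ 2 := fun r => pop1_run (v := .hs) rfl
  rcases h2 with ⟨h2, h3⟩ | ⟨w'', h2, h3⟩
  · have e1 : (bw w ++ .hs :: c : List (Lt N)) = List.replicate j Lt.i ++ .hs :: c := by
      rw [h1, h2, List.append_nil, cnt_bw_rep]
      rfl
    have e2 : (bw (cntInc w) ++ .hs :: c : List (Lt N)) =
        List.replicate j Lt.o ++ .i :: .hs :: c := by
      rw [h3, cnt_bw_append, cnt_bw_rep, List.append_assoc]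
      rfl
    have k3 : LR cntTop (⟨a, b, .hs :: c, List.replicate j Lt.o ++ .hs :: d, ξ⟩ : Sta m (Lt N))
        ⟨a, b, .i :: .hs :: c, List.replicate j Lt.o ++ .hs :: d, ξ⟩ (1 + 1 + 1) :=
      LR.pop (f := cntT) (v := .hs) (l := c) rfl (by
        rw [cntT, if_neg (by intro h; cases h)]
        exact LR.seq (LR.push _ _ _) (LR.push _ _ _))
    rw [e2]
    exact (k1.seq ((k0 .hs c rfl e1).seq (k3.seq ((k4 _).seq (k5 _))))).mono (by omega)
  · have e1 : (bw w ++ .hs :: c : List (Lt N)) =
        List.replicate j Lt.i ++ .o :: (bw w'' ++ .hs :: c) := by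
      rw [h1, h2, cnt_bw_append, cnt_bw_rep, List.append_assoc]
      rfl
    have e2 : (bw (cntInc w) ++ .hs :: c : List (Lt N)) =
        List.replicate j Lt.o ++ .i :: (bw w'' ++ .hs :: c) := by
      rw [h3, cnt_bw_append, cnt_bw_rep, List.append_assoc]
      rfl
    have k3 : LR cntTop (⟨a, b, .o :: (bw w'' ++ .hs :: c),
        List.replicate j Lt.o ++ .hs :: d, ξ⟩ : Sta m (Lt N))
        ⟨a, b, .i :: (bw w'' ++ .hs :: c), List.replicate j Lt.o ++ .hs :: d, ξ⟩ (1 + 1) :=
      LR.pop (f := cntT) (v := .o) (l := bw w'' ++ .hs :: c) rfl (by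
        rw [cntT, if_pos rfl]
        exact LR.push _ _ _)
    rw [e2]
    exact (k1.seq ((k0 .o _ rfl e1).seq (k3.seq ((k4 _).seq (k5 _))))).mono (by omega)

private def cntR : LP m (Lt N) :=
  .seq (.push .a .i) (.seq (.push .a .o)
    (.loop .c isB (.pop .c fun v => .seq (.push .a v) (.push .a .i))))

private theorem cntR_loop (b c d : List (Lt N)) (ξ : Fin m → List (Lt N)) :
    ∀ (w : List Bool) (a : List (Lt N)),
    LL .c isB (.pop .c fun v => .seq (.push .a v) (.push .a .i))
      (⟨a, b, bw w ++ .hs :: c, d, ξ⟩ : Sta m (Lt N))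
      ⟨bw (w.reverse.flatMap fun b => [true, b]) ++ a, b, .hs :: c, d, ξ⟩ (4 * w.length) := by
  intro w
  induction w with
  | nil =>
    intro a
    exact LL.refl _
  | cons v w ih =>
    intro a
    have h1 : LL .c isB (.pop .c fun v => .seq (.push .a v) (.push .a .i))
        (⟨a, b, bw (v :: w) ++ .hs :: c, d, ξ⟩ : Sta m (Lt N))
        ⟨.i :: bt v :: a, b, bw w ++ .hs :: c, d, ξ⟩ (1 + 1 + 1 + 1) :=
      LL.step (v := bt v) (l := bw w ++ .hs :: c) rfl (isB_bt v)
        (LR.pop (v := bt v) (l := bw w ++ .hs :: c) rfl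
          (LR.seq (LR.push _ _ _) (LR.push _ _ _)))
    have h2 := ih (.i :: bt v :: a)
    have e : (bw ((v :: w).reverse.flatMap fun b => [true, b]) ++ a : List (Lt N)) =
        bw (w.reverse.flatMap fun b => [true, b]) ++ .i :: bt v :: a := by
      rw [List.reverse_cons, List.flatMap_append, cnt_bw_append, List.append_assoc]
      rfl
    rw [e]
    exact (h1.trans h2).mono (by simp only [List.length_cons]; omega)

private theorem cntR_run (n : ℕ) (a b c d : List (Lt N)) (ξ : Fin m → List (Lt N)) :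
    LR cntR (⟨a, b, bw (Nat.bits n) ++ .hs :: c, d, ξ⟩ : Sta m (Lt N))
      ⟨bw (rec1 n) ++ a, b, .hs :: c, d, ξ⟩ (4 * (Nat.bits n).length + 3) := by
  have h1 : LR (.push .a .i) (⟨a, b, bw (Nat.bits n) ++ .hs :: c, d, ξ⟩ : Sta m (Lt N))
      ⟨.i :: a, b, bw (Nat.bits n) ++ .hs :: c, d, ξ⟩ 1 := LR.push _ _ _
  have h2 : LR (.push .a .o) (⟨.i :: a, b, bw (Nat.bits n) ++ .hs :: c, d, ξ⟩ : Sta m (Lt N))
      ⟨.o :: .i :: a, b, bw (Nat.bits n) ++ .hs :: c, d, ξ⟩ 1 := LR.push _ _ _
  have h3 := (cntR_loop b c d ξ (Nat.bits n) (.o :: .i :: a)).finish (v := .hs) (l := c) rfl rfl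
  have e : (bw (rec1 n) ++ a : List (Lt N)) =
      bw ((Nat.bits n).reverse.flatMap fun b => [true, b]) ++ .o :: .i :: a := by
    rw [rec1, cnt_bw_append, List.append_assoc]
    rfl
  rw [e]
  exact (h1.seq (h2.seq h3)).mono (by omega)

private def cntB : LP m (Lt N) :=
  .pop .b fun v => .seq (del .b isB) (.seq (pop1 .b) (match v with
    | .re => cntP
    | _ => cntR))

private theorem cnt_del (y : List Bool) (a b c d : List (Lt N)) (ξ : Fin m → List (Lt N)) :
    LR (del .b isB) (⟨a, bw y ++ .hs :: b, c, d, ξ⟩ : Sta m (Lt N))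
      ⟨a, .hs :: b, c, d, ξ⟩ (3 * y.length + 1) := by
  have h := del_run (k := .b) (p := isB)
    (s := (⟨a, bw y ++ .hs :: b, c, d, ξ⟩ : Sta m (Lt N)))
    (l := bw y) (v := .hs) (r := b) rfl
    (fun u hu => by
      obtain ⟨v, -, rfl⟩ := List.mem_map.1 hu
      exact isB_bt v) rfl
  rw [bw, List.length_map] at h
  exact h

private theorem cnt_itm (f : Bool) (y : List Bool) (b : List (Lt N)) :
    itm (f, y) ++ b = (if f then .re else .se) :: (bw y ++ .hs :: b) := by
  unfold itm
  simp

private theorem cnt_re (n : ℕ) (y : List Bool) (a b c d : List (Lt N)) (ξ : Fin m → List (Lt N)) :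
    LL .b cntF cntB (⟨a, itm (true, y) ++ b, bw (Nat.bits n) ++ .hs :: c, d, ξ⟩ : Sta m (Lt N))
      ⟨a, b, bw (Nat.bits (n + 1)) ++ .hs :: c, d, ξ⟩
      (3 * y.length + 6 * (Nat.bits n).length + 13) := by
  rw [cnt_itm]
  have h3 := cntP_run (Nat.bits n) a b c d ξ
  rw [cntInc_bits] at h3
  refine (LL.step (v := .re) (l := bw y ++ .hs :: b) rfl rfl
    (LR.pop (v := .re) (l := bw y ++ .hs :: b) rfl
      (LR.seq (cnt_del y a b (bw (Nat.bits n) ++ .hs :: c) d ξ)
        (LR.seq (pop1_run (v := .hs) (r := b) rfl) h3)))).mono ?_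
  omega

private theorem cnt_se (n : ℕ) (y : List Bool) (a b c d : List (Lt N)) (ξ : Fin m → List (Lt N)) :
    LL .b cntF cntB (⟨a, itm (false, y) ++ b, bw (Nat.bits n) ++ .hs :: c, d, ξ⟩ : Sta m (Lt N))
      ⟨bw (rec1 n) ++ a, b, .hs :: c, d, ξ⟩
      (3 * y.length + 6 * (Nat.bits n).length + 13) := by
  rw [cnt_itm]
  have h3 := cntR_run n a b c d ξ
  refine (LL.step (v := .se) (l := bw y ++ .hs :: b) rfl rfl
    (LR.pop (v := .se) (l := bw y ++ .hs :: b) rfl
      (LR.seq (cnt_del y a b (bw (Nat.bits n) ++ .hs :: c) d ξ)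
        (LR.seq (pop1_run (v := .hs) (r := b) rfl) h3)))).mono ?_
  omega

private theorem cnt_len {n L : ℕ} (h : n < 2 ^ L) : (Nat.bits n).length ≤ L := by
  rw [Nat.size_eq_bits_len]
  exact Nat.size_le.2 h

private theorem items_cons (x : Bool × List Bool) (l : List (Bool × List Bool)) :
    (items (x :: l) : List (Lt N)) = itm x ++ items l := List.flatMap_cons

private theorem items_app (l l' : List (Bool × List Bool)) :
    (items (l ++ l') : List (Lt N)) = items l ++ items l' := List.flatMap_append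

private theorem cnt_many {K L : ℕ} (y : List Bool) (hy : y.length = K) (a b c d : List (Lt N))
    (ξ : Fin m → List (Lt N)) : ∀ (r n : ℕ), n + r < 2 ^ L →
    LL .b cntF cntB (⟨a, items (List.replicate r (true, y)) ++ b, bw (Nat.bits n) ++ .hs :: c,
      d, ξ⟩ : Sta m (Lt N))
      ⟨a, b, bw (Nat.bits (n + r)) ++ .hs :: c, d, ξ⟩ (r * (3 * K + 6 * L + 13)) := by
  intro r
  induction r with
  | zero =>
    intro n _
    exact (LL.refl _).mono (Nat.zero_le _)
  | succ r ih =>
    intro n hn
    have h1 := cnt_re n y a (items (List.replicate r (true, y)) ++ b) c d ξ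
    have h2 := ih (n + 1) (by omega)
    have hl : (Nat.bits n).length ≤ L := cnt_len (by omega)
    rw [List.replicate_succ, items_cons, List.append_assoc]
    have e : n + (r + 1) = n + 1 + r := by omega
    rw [e]
    refine (h1.trans h2).mono ?_
    rw [hy, add_mul r 1, one_mul]
    omega

private theorem cnt_all {K L : ℕ} (cnt : List Bool → ℕ) (b c d : List (Lt N))
    (ξ : Fin m → List (Lt N)) : ∀ (ys : List (List Bool)) (a : List (Lt N)),
    (∀ y ∈ ys, y.length = K) → (∀ y ∈ ys, cnt y < 2 ^ L) →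
    LL .b cntF cntB (⟨a, items (ys.flatMap fun y => List.replicate (cnt y) (true, y) ++
      [(false, y)]) ++ b, .hs :: c, d, ξ⟩ : Sta m (Lt N))
      ⟨bw (hst (ys.map cnt)) ++ a, b, .hs :: c, d, ξ⟩
      (((ys.map cnt).sum + ys.length) * (3 * K + 6 * L + 13)) := by
  intro ys
  induction ys with
  | nil =>
    intro a _ _
    exact (LL.refl _).mono (Nat.zero_le _)
  | cons y ys ih =>
    intro a h1 h2
    have hy : y.length = K := h1 y (by simp)
    have hc : cnt y < 2 ^ L := h2 y (by simp)
    have k1 := cnt_many (L := L) y hy a ((itm (false, y) : List (Lt N)) ++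
      (items (ys.flatMap fun y => List.replicate (cnt y) (true, y) ++ [(false, y)]) ++ b))
      c d ξ (cnt y) 0 (by omega)
    have k2 := cnt_se (cnt y) y a
      (items (ys.flatMap fun y => List.replicate (cnt y) (true, y) ++ [(false, y)]) ++ b) c d ξ
    have k3 := ih (bw (rec1 (cnt y)) ++ a) (fun z hz => h1 z (by simp [hz]))
      (fun z hz => h2 z (by simp [hz]))
    have hl : (Nat.bits (cnt y)).length ≤ L := cnt_len hc
    rw [zero_add] at k1
    have e1 : (items ((y :: ys).flatMap fun y => List.replicate (cnt y) (true, y) ++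
        [(false, y)]) ++ b : List (Lt N)) = items (List.replicate (cnt y) (true, y)) ++
        (itm (false, y) ++ (items (ys.flatMap fun y => List.replicate (cnt y) (true, y) ++
        [(false, y)]) ++ b)) := by
      rw [List.flatMap_cons, items_app, items_app, items_cons]
      simp [items]
    have e2 : (bw (hst ((y :: ys).map cnt)) ++ a : List (Lt N)) =
        bw (hst (ys.map cnt)) ++ (bw (rec1 (cnt y)) ++ a) := by
      unfold hst
      rw [List.map_cons, List.reverse_cons, List.flatMap_append, cnt_bw_append,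
        List.append_assoc]
      simp
    rw [e1, e2]
    refine (LL.trans k1 (LL.trans k2 k3)).mono ?_
    rw [List.map_cons, List.sum_cons, List.length_cons, hy]
    have e3 : (cnt y + (ys.map cnt).sum + (ys.length + 1)) * (3 * K + 6 * L + 13) =
        cnt y * (3 * K + 6 * L + 13) + (3 * K + 6 * L + 13) +
        ((ys.map cnt).sum + ys.length) * (3 * K + 6 * L + 13) := by ring
    rw [e3]
    omega

theorem count_run : ∃ (P : LP m (Lt N)) (C : ℕ), ∀ (K L : ℕ) (ys : List (List Bool))
    (cnt : List Bool → ℕ) (α β γ δ : List (Lt N)) (ξ : Fin m → List (Lt N)),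
    (∀ y ∈ ys, y.length = K) → (∀ y ∈ ys, cnt y < 2 ^ L) →
      LR P ⟨α, items (ys.flatMap fun y => List.replicate (cnt y) (true, y) ++ [(false, y)]) ++
          .mk :: β, γ, δ, ξ⟩
        ⟨bw (hst (ys.map cnt)) ++ α, .mk :: β, γ, δ, ξ⟩
        (C * ((K + L + 1) * ((ys.map cnt).sum + ys.length + 1))) := by
  refine ⟨.seq (.push .c .hs) (.seq (.loop .b cntF cntB) (pop1 .c)), 20,
    fun K L ys cnt α β γ δ ξ h1 h2 => ?_⟩
  have k1 : LR (.push .c .hs) (⟨α, items (ys.flatMap fun y => List.replicate (cnt y) (true, y) ++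
      [(false, y)]) ++ .mk :: β, γ, δ, ξ⟩ : Sta m (Lt N))
      ⟨α, items (ys.flatMap fun y => List.replicate (cnt y) (true, y) ++
      [(false, y)]) ++ .mk :: β, .hs :: γ, δ, ξ⟩ 1 := LR.push _ _ _
  have k2 := (cnt_all (K := K) (L := L) cnt (.mk :: β) γ δ ξ ys α h1 h2).finish
    (v := .mk) (l := β) rfl rfl
  have k3 : LR (pop1 .c) (⟨bw (hst (ys.map cnt)) ++ α, .mk :: β, .hs :: γ, δ, ξ⟩ :
      Sta m (Lt N)) ⟨bw (hst (ys.map cnt)) ++ α, .mk :: β, γ, δ, ξ⟩ 2 :=
    pop1_run (v := .hs) rfl
  refine (k1.seq (k2.seq k3)).mono ?_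
  generalize (ys.map cnt).sum + ys.length = M
  nlinarith [Nat.zero_le (K * M), Nat.zero_le (L * M), Nat.zero_le K, Nat.zero_le L,
    Nat.zero_le M]

end Pool.Agent.Lib.MP_33f9c4_lc.TT
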