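import Pool.Agent.Lib.MP_33f9c4_lc.T.Ext
import Pool.Agent.Lib.MP_33f9c4_lc.T.Copy

set_option autoImplicit false

/-!
MODULE Ent. Processing one entry: `copy_run` (with `ib b = sy (V.inp b)`), `clk_run`, `ext_run`.

The state after `copy_run` is `(lay sy u fr).set .c (bw κ ++ hs :: (lay sy u fr).c)` with
`u = ⟨(stp (ebits τ)).map V.inp, [], [], [], fun _ => []⟩` (the stacks of `V.init`) and
`fr = ⟨1^K hs α, β, bw κ ++ hs :: γ, τ ++ hs :: δ, ξ⟩`. The size of the stacks grows by at most one per step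
(prove it for `V.step`), and `(stp e).length ≤ e.length = τ.length`.
-/

namespace Pool.Agent.Lib.MP_33f9c4_lc.TT

variable {m N : ℕ}

private theorem Ent_sz_set {A : Type} (s : Sta m A) (k : Ix m) (l : List A) :
    (s.set k l).sz + (s.get k).length = s.sz + l.length := by
  obtain ⟨a, b, c, d, x⟩ := s
  cases k with
  | a => simp only [Sta.set, Sta.sz, Sta.get]; omega
  | b => simp only [Sta.set, Sta.sz, Sta.get]; omega
  | c => simp only [Sta.set, Sta.sz, Sta.get]; omega
  | d => simp only [Sta.set, Sta.sz, Sta.get]; omega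
  | x i =>
    simp only [Sta.set, Sta.sz, Sta.get]
    rw [← Finset.add_sum_erase Finset.univ (fun j => (Function.update x i l j).length)
      (Finset.mem_univ i), ← Finset.add_sum_erase Finset.univ (fun j => (x j).length)
      (Finset.mem_univ i), Function.update_self]
    have : ∑ j ∈ Finset.univ.erase i, (Function.update x i l j).length =
        ∑ j ∈ Finset.univ.erase i, (x j).length :=
      Finset.sum_congr rfl fun j hj => by
        rw [Function.update_of_ne (Finset.ne_of_mem_erase hj)]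
    rw [this]
    omega

private theorem Ent_sz_step (V : NM m) (c : NC V) : (V.step c).2.sz ≤ c.2.sz + 1 := by
  unfold NM.step
  rcases V.ins c.1 with ⟨k, g, q'⟩ | ⟨k, f⟩ | ⟨k, f⟩ | _
  · have := Ent_sz_set c.2 k (g :: c.2.get k)
    simp only [List.length_cons] at this ⊢
    omega
  · have := Ent_sz_set c.2 k (c.2.get k).tail
    simp only [List.length_tail] at this ⊢
    omega
  · simp
  · simp

private theorem Ent_sz_iter (V : NM m) (n : ℕ) (c : NC V) : (V.step^[n] c).2.sz ≤ c.2.sz + n := by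
  induction n generalizing c with
  | zero => simp
  | succ n ih =>
    rw [Function.iterate_succ_apply]
    have h1 := ih (V.step c)
    have h2 := Ent_sz_step V c
    omega

private theorem Ent_stp (e : List Bool) : (stp e).length ≤ e.length := by
  induction e with
  | nil => simp [stp]
  | cons b e ih =>
    cases b
    · simp only [stp, List.length_cons]
      omega
    · simp only [stp, List.length_cons]
      omega

theorem entry_run (V : NM m) (hko : V.ko = .b) : ∃ N₀ : ℕ, ∀ N, N₀ ≤ N →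
    ∃ (P : LP m (Lt N)) (C : ℕ), ∀ (K : ℕ) (α β γ δ : List (Lt N)) (ξ : Fin m → List (Lt N))
      (κ : List Bool) (τ : List (Lt N)), (∀ v ∈ τ, isT v = true) →
      LR P ⟨List.replicate K .i ++ .hs :: α, β, bw κ ++ .hs :: γ, τ ++ .hs :: δ, ξ⟩
        ⟨List.replicate K .i ++ .hs :: α,
          itm (true, pfx K (V.val (lval κ) (stp (ebits τ)))) ++ β,
          bw κ ++ .hs :: γ, τ ++ .hs :: δ, ξ⟩
        (C * ((κ.length + 1) * (lval κ + 1) + K + τ.length)) := by
  obtain ⟨N₀, h0⟩ := clk_run V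
  refine ⟨N₀, fun N hN => ?_⟩
  obtain ⟨sy, P1, C1, hinj, hsy, h1⟩ := h0 N hN
  obtain ⟨P2, C2, h2⟩ := copy_run (m := m) (fun b => sy (V.inp b))
  obtain ⟨P3, C3, h3⟩ := ext_run (m := m) sy hinj hsy V.out
  refine ⟨.seq P2 (.seq P1 P3), C1 + C2 + C3, ?_⟩
  intro K α β γ δ ξ κ τ hτ
  have hne : ∀ b, sy (V.inp b) ≠ .mk := by
    intro b h
    obtain ⟨n, hn⟩ := hsy (V.inp b)
    rw [hn] at h
    cases h
  have a1 := h2 (List.replicate K .i ++ .hs :: α) β γ δ ξ κ τ hτ hne
  set u : Sta m (Fin V.S) := ⟨(stp (ebits τ)).map V.inp, [], [], [], fun _ => []⟩ with hu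
  set fr : Sta m (Lt N) := ⟨List.replicate K .i ++ .hs :: α, β, bw κ ++ .hs :: γ, τ ++ .hs :: δ,
    ξ⟩ with hfr
  have a2 := h1 κ u fr
  have e2 : (lay sy u fr).set .c (bw κ ++ .hs :: (lay sy u fr).c) =
      ⟨(stp (ebits τ)).map (fun b => sy (V.inp b)) ++ .mk :: (List.replicate K .i ++ .hs :: α),
        .mk :: β, bw κ ++ .hs :: .mk :: (bw κ ++ .hs :: γ), .mk :: (τ ++ .hs :: δ),
        fun i => .mk :: ξ i⟩ := by
    rw [hu, hfr]
    simp [lay, Sta.app, Sta.map, Sta.mark, Sta.set, List.map_map, Function.comp_def]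
  rw [e2] at a2
  have a3 := h3 K (V.step^[lval κ] (V.q0, u)).2 α β (bw κ ++ .hs :: γ) (τ ++ .hs :: δ) ξ
  have e3 : ((V.step^[lval κ] (V.q0, u)).2.b).map V.out = V.val (lval κ) (stp (ebits τ)) := by
    unfold NM.val
    rw [hko]
    rfl
  rw [e3] at a3
  refine (a1.seq (a2.seq a3)).mono ?_
  have l1 : (V.step^[lval κ] (V.q0, u)).2.sz ≤ τ.length + lval κ := by
    have h4 := Ent_sz_iter V (lval κ) (V.q0, u)
    have h5 : u.sz = (stp (ebits τ)).length := by
      rw [hu]
      simp [Sta.sz]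
    have h6 := Ent_stp (ebits τ)
    have h7 : (ebits τ).length = τ.length := by
      unfold ebits
      rw [List.length_reverse, List.length_map]
    have h8 : ((V.q0, u) : NC V).2.sz = u.sz := rfl
    omega
  have l2 : κ.length + 1 ≤ (κ.length + 1) * (lval κ + 1) := Nat.le_mul_of_pos_right _ (by omega)
  have l3 : lval κ + 1 ≤ (κ.length + 1) * (lval κ + 1) := Nat.le_mul_of_pos_left _ (by omega)
  generalize (κ.length + 1) * (lval κ + 1) = Y at *
  calc C2 * (κ.length + τ.length + 1) + (C1 * Y + C3 * (K + (V.step^[lval κ] (V.q0, u)).2.sz + 1))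
      ≤ C2 * (Y + K + τ.length) + (C1 * (Y + K + τ.length) + C3 * (Y + K + τ.length)) :=
        Nat.add_le_add (Nat.mul_le_mul_left _ (by omega)) (Nat.add_le_add
          (Nat.mul_le_mul_left _ (by omega)) (Nat.mul_le_mul_left _ (by omega)))
    _ = (C1 + C2 + C3) * (Y + K + τ.length) := by ring

end Pool.Agent.Lib.MP_33f9c4_lc.TT
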