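import Pool.Agent.Lib.MP_33f9c4_lc.T.Copy

set_option autoImplicit false

/-!
MODULE Enum. Enumeration of all entries of a template (on stack `d`, above `hs`), and search.

`nxt τ`: the next assignment (the top letter changes fastest) and whether there was one (`false`: overflow, all
free letters are `f0` again). INCREMENT program on `d`, with `c` as auxiliary stack: push `hs` on `c`; loop while the top of `d` is `f1`, `g0` or
`g1`: pop it and push it on `c` (`f1` as `f0`); then the top of `d` is `f0` or `hs`. If it is `f0`: pop it, push `f1`; move the letters of `c` back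
(until `hs`; pop it); push the flag `re` on `d`. If it is `hs`: leave it; move the letters back; push the flag `se`.
ENUM body: push `re` on `d`; loop on `d` while the top is `re`: pop it, body, increment (pushes the flag); after the loop pop
`se`. SEARCH: the body `P` pushes a flag on `a`: `re` = found. Loop: push `re` on `d`; while top of `d` is `re`: pop it, `P`, pop the flag of `a`: if `re`: push
`se` on `d` and `re` on `a` (the search ends, the template stays); if `se`: increment, which pushes `re` or `se` on `d`; in the case `se` push `se`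
on `a`... (so `a` gets exactly one flag at the end.) After the loop pop `se` of `d`.
Pure part: `all τ` = the list of all assignments in the order of the enumeration starting from the fresh template `τ`
(iterate `nxt`): `nxt` maps each element of `all τ` to the next one, the last one to `(τ, false)`.
-/

namespace Pool.Agent.Lib.MP_33f9c4_lc.TT

variable {m N : ℕ}

/-- a fresh template: all free letters are `f0` -/
def fresh (τ : List (Lt N)) : Prop := ∀ v ∈ τ, v = .f0 ∨ v = .g0 ∨ v = .g1

/-- all assignments of a template -/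
def all : List (Lt N) → List (List (Lt N))
  | [] => [[]]
  | .f0 :: l => (all l).flatMap fun l' => [.f0 :: l', .f1 :: l']
  | v :: l => (all l).map fun l' => v :: l'

/-- the number of free letters -/
def fr (τ : List (Lt N)) : ℕ := τ.count .f0

theorem length_all (τ : List (Lt N)) : (all τ).length = 2 ^ fr τ := by
  induction τ with
  | nil => simp [all, fr]
  | cons v l ih =>
    by_cases hv : v = .f0
    · subst hv
      have h1 : fr (Lt.f0 :: l) = fr l + 1 := by simp [fr]
      rw [h1, pow_succ, ← ih]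
      simp only [all, List.length_flatMap, List.length_cons, List.length_nil]
      rw [List.map_const', List.sum_replicate, smul_eq_mul]
    · have h1 : fr (v :: l) = fr l := by simp [fr, hv]
      have h2 : all (v :: l) = (all l).map fun l' => v :: l' := by
        cases v <;> first | rfl | exact absurd rfl hv
      rw [h1, h2, List.length_map, ih]

theorem length_of_mem_all {τ τ' : List (Lt N)} (h : τ' ∈ all τ) : τ'.length = τ.length := by
  induction τ generalizing τ' with
  | nil =>
    simp only [all, List.mem_singleton] at h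
    rw [h]
  | cons v l ih =>
    by_cases hv : v = .f0
    · subst hv
      simp only [all, List.mem_flatMap, List.mem_cons, List.not_mem_nil, or_false] at h
      obtain ⟨l', hl', h | h⟩ := h
      · rw [h, List.length_cons, List.length_cons, ih hl']
      · rw [h, List.length_cons, List.length_cons, ih hl']
    · have h2 : all (v :: l) = (all l).map fun l' => v :: l' := by
        cases v <;> first | rfl | exact absurd rfl hv
      rw [h2, List.mem_map] at h
      obtain ⟨l', hl', rfl⟩ := h
      rw [List.length_cons, List.length_cons, ih hl']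

theorem isT_of_mem_all {τ τ' : List (Lt N)} (hτ : fresh τ) (h : τ' ∈ all τ) :
    ∀ v ∈ τ', isT v = true := by
  induction τ generalizing τ' with
  | nil =>
    simp only [all, List.mem_singleton] at h
    rw [h]
    intro v hv
    exact absurd hv List.not_mem_nil
  | cons v l ih =>
    have hl : fresh l := fun u hu => hτ u (List.mem_cons_of_mem _ hu)
    have hv0 := hτ v List.mem_cons_self
    by_cases hv : v = .f0
    · subst hv
      simp only [all, List.mem_flatMap, List.mem_cons, List.not_mem_nil, or_false] at h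
      obtain ⟨l', hl', h | h⟩ := h
      · rw [h]
        intro u hu
        rcases List.mem_cons.1 hu with rfl | hu
        · rfl
        · exact ih hl hl' u hu
      · rw [h]
        intro u hu
        rcases List.mem_cons.1 hu with rfl | hu
        · rfl
        · exact ih hl hl' u hu
    · have h2 : all (v :: l) = (all l).map fun l' => v :: l' := by
        cases v <;> first | rfl | exact absurd rfl hv
      rw [h2, List.mem_map] at h
      obtain ⟨l', hl', rfl⟩ := h
      intro u hu
      rcases List.mem_cons.1 hu with rfl | hu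
      · rcases hv0 with h3 | h3 | h3 <;> rw [h3] <;> rfl
      · exact ih hl hl' u hu

/-! ### The increment -/

private def enP : Lt N → Bool
  | .f1 => true
  | .g0 => true
  | .g1 => true
  | _ => false

private def enG : Lt N → Lt N
  | .f1 => .f0
  | v => v

private def enNx : List (Lt N) → List (Lt N) × Bool
  | [] => ([], false)
  | .f0 :: l => (.f1 :: l, true)
  | .f1 :: l => (.f0 :: (enNx l).1, (enNx l).2)
  | v :: l => (v :: (enNx l).1, (enNx l).2)

private def enFl (b : Bool) : Lt N := if b then .re else .se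

private def enI : LP m (Lt N) :=
  .seq (.push .c .hs) (.seq (mv .d .c enP enG) (.pop .d fun v =>
    .seq (.push .d (if v = .f0 then .f1 else v)) (.seq (mv .c .d isT id)
      (.seq (pop1 .c) (.push .d (if v = .f0 then .re else .se))))))

private theorem enNx_app (r : List (Lt N)) : ∀ (l : List (Lt N)), (∀ v ∈ l, enP v = true) →
    enNx (l ++ r) = (l.map enG ++ (enNx r).1, (enNx r).2) := by
  intro l
  induction l with
  | nil => intro _; rfl
  | cons v l ih =>
    intro h
    have h1 := ih fun u hu => h u (List.mem_cons_of_mem _ hu)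
    have h2 := h v List.mem_cons_self
    cases v <;> first | (exact absurd h2 Bool.false_ne_true) |
      (simp only [List.cons_append, enNx, h1, List.map_cons, enG])

private theorem enSplit : ∀ (τ : List (Lt N)), (∀ v ∈ τ, isT v = true) →
    ∃ l r, τ = l ++ r ∧ (∀ v ∈ l, enP v = true) ∧ (r = [] ∨ ∃ r', r = .f0 :: r') := by
  intro τ
  induction τ with
  | nil => intro _; exact ⟨[], [], rfl, fun v hv => absurd hv List.not_mem_nil, Or.inl rfl⟩
  | cons v τ ih =>
    intro h
    obtain ⟨l, r, h1, h2, h3⟩ := ih fun u hu => h u (List.mem_cons_of_mem _ hu)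
    have hv := h v List.mem_cons_self
    by_cases hv0 : v = .f0
    · exact ⟨[], v :: τ, rfl, fun v hv => absurd hv List.not_mem_nil, Or.inr ⟨τ, by rw [hv0]⟩⟩
    · refine ⟨v :: l, r, by rw [h1]; rfl, ?_, h3⟩
      intro u hu
      rcases List.mem_cons.1 hu with rfl | hu
      · cases u <;> first | rfl | (exact absurd hv Bool.false_ne_true) | exact absurd rfl hv0
      · exact h2 u hu

private theorem enG_isT {v : Lt N} (h : enP v = true) : isT (enG v) = true := by
  cases v <;> first | rfl | (exact absurd h Bool.false_ne_true)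

private theorem enI_key (a b c : List (Lt N)) (x : Fin m → List (Lt N)) (l ρ : List (Lt N))
    (hl : ∀ v ∈ l, enP v = true) (v : Lt N) (hv : enP v = false) :
    LR enI ⟨a, b, c, l ++ v :: ρ, x⟩
      ⟨a, b, c, (if v = .f0 then .re else .se) :: (l.map enG ++ (if v = .f0 then .f1 else v) :: ρ),
        x⟩ (6 * l.length + 10) := by
  set u : Lt N := if v = .f0 then .f1 else v with hu
  set w : Lt N := if v = .f0 then .re else .se with hw
  have hdc : (Ix.d : Ix m) ≠ .c := fun h => by cases h
  have h1 : LR (.push .c .hs) (⟨a, b, c, l ++ v :: ρ, x⟩ : Sta m (Lt N))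
      ⟨a, b, .hs :: c, l ++ v :: ρ, x⟩ 1 := LR.push .c Lt.hs _
  have h2 : LR (mv .d .c enP enG) (⟨a, b, .hs :: c, l ++ v :: ρ, x⟩ : Sta m (Lt N))
      ⟨a, b, (l.map enG).reverse ++ .hs :: c, v :: ρ, x⟩ (3 * l.length + 1) :=
    mv_run hdc enG (s := ⟨a, b, .hs :: c, l ++ v :: ρ, x⟩) (l := l) (v := v) (r := ρ) rfl hl hv
  have h4 : LR (.push .d u) (⟨a, b, (l.map enG).reverse ++ .hs :: c, ρ, x⟩ : Sta m (Lt N))
      ⟨a, b, (l.map enG).reverse ++ .hs :: c, u :: ρ, x⟩ 1 := LR.push .d u _
  have h5 : LR (mv .c .d isT id) (⟨a, b, (l.map enG).reverse ++ .hs :: c, u :: ρ, x⟩ : Sta m (Lt N))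
      ⟨a, b, .hs :: c, (((l.map enG).reverse).map id).reverse ++ u :: ρ, x⟩
      (3 * ((l.map enG).reverse).length + 1) :=
    mv_run hdc.symm id (s := ⟨a, b, (l.map enG).reverse ++ .hs :: c, u :: ρ, x⟩)
      (l := (l.map enG).reverse) (v := .hs) (r := c) rfl (by
        intro z hz
        rw [List.mem_reverse, List.mem_map] at hz
        obtain ⟨y, hy, rfl⟩ := hz
        exact enG_isT (hl y hy)) rfl
  rw [List.map_id, List.reverse_reverse, List.length_reverse, List.length_map] at h5
  have h6 : LR (pop1 .c) (⟨a, b, .hs :: c, l.map enG ++ u :: ρ, x⟩ : Sta m (Lt N))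
      ⟨a, b, c, l.map enG ++ u :: ρ, x⟩ 2 :=
    pop1_run (k := .c) (s := ⟨a, b, .hs :: c, l.map enG ++ u :: ρ, x⟩) (v := .hs) (r := c) rfl
  have h7 : LR (.push .d w) (⟨a, b, c, l.map enG ++ u :: ρ, x⟩ : Sta m (Lt N))
      ⟨a, b, c, w :: (l.map enG ++ u :: ρ), x⟩ 1 := LR.push .d w _
  have h8 := LR.seq h4 (LR.seq h5 (LR.seq h6 h7))
  have h9 : LR (.pop .d fun v => .seq (.push .d (if v = .f0 then .f1 else v)) (.seq (mv .c .d isT id)
      (.seq (pop1 .c) (.push .d (if v = .f0 then .re else .se)))))
      (⟨a, b, (l.map enG).reverse ++ .hs :: c, v :: ρ, x⟩ : Sta m (Lt N))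
      ⟨a, b, c, w :: (l.map enG ++ u :: ρ), x⟩ (1 + (3 * l.length + 1 + (2 + 1)) + 1) :=
    LR.pop (v := v) (l := ρ) rfl h8
  exact (LR.seq h1 (LR.seq h2 h9)).mono (by omega)

private theorem enI_run (a b c δ : List (Lt N)) (x : Fin m → List (Lt N)) (τ : List (Lt N))
    (hτ : ∀ v ∈ τ, isT v = true) :
    LR enI ⟨a, b, c, τ ++ .hs :: δ, x⟩
      ⟨a, b, c, enFl (enNx τ).2 :: ((enNx τ).1 ++ .hs :: δ), x⟩ (6 * τ.length + 10) := by
  obtain ⟨l, r, rfl, hl, hr⟩ := enSplit τ hτ
  rw [enNx_app r l hl]
  rcases hr with rfl | ⟨r', rfl⟩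
  · have h := enI_key a b c x l δ hl .hs rfl
    simp only [reduceCtorEq, if_false] at h
    simp only [List.append_nil, enNx, enFl]
    exact h.mono (by omega)
  · have h := enI_key a b c x l (r' ++ .hs :: δ) hl .f0 rfl
    simp only [if_true] at h
    simp only [enNx, enFl, if_true, List.append_assoc, List.cons_append]
    exact h.mono (by simp only [List.length_append, List.length_cons]; omega)

/-! ### The order of the enumeration -/

private def enCh : List (List (Lt N)) → List (Lt N) → Prop
  | [], _ => False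
  | [x], τ => enNx x = (τ, false)
  | x :: y :: L, τ => enNx x = (y, true) ∧ enCh (y :: L) τ

private theorem enCh_map (v : Lt N) (hv : v = .g0 ∨ v = .g1) (τ : List (Lt N)) :
    ∀ L : List (List (Lt N)), enCh L τ → enCh (L.map fun l => v :: l) (v :: τ) := by
  have hn : ∀ x, enNx (v :: x) = (v :: (enNx x).1, (enNx x).2) := by
    intro x
    rcases hv with rfl | rfl <;> rfl
  intro L
  induction L with
  | nil => intro h; exact h
  | cons x L ih =>
    intro h
    cases L with
    | nil =>
      change enNx (v :: x) = (v :: τ, false)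
      rw [hn, (show enNx x = (τ, false) from h)]
    | cons y L =>
      refine ⟨?_, ih h.2⟩
      rw [hn, h.1]

private theorem enCh_flat (τ : List (Lt N)) :
    ∀ L : List (List (Lt N)), enCh L τ →
      enCh (L.flatMap fun l' => [.f0 :: l', .f1 :: l']) (.f0 :: τ) := by
  intro L
  induction L with
  | nil => intro h; exact h
  | cons x L ih =>
    intro h
    cases L with
    | nil =>
      refine ⟨rfl, ?_⟩
      change enNx (.f1 :: x) = (.f0 :: τ, false)
      simp only [enNx]
      rw [(show enNx x = (τ, false) from h)]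
    | cons y L =>
      refine ⟨rfl, ?_, ih h.2⟩
      simp only [enNx]
      rw [h.1]

private theorem enCh_all : ∀ τ : List (Lt N), fresh τ → enCh (all τ) τ ∧ ∃ L, all τ = τ :: L := by
  intro τ
  induction τ with
  | nil => intro _; exact ⟨rfl, [], rfl⟩
  | cons v l ih =>
    intro h
    obtain ⟨h1, L, h2⟩ := ih fun u hu => h u (List.mem_cons_of_mem _ hu)
    rcases h v List.mem_cons_self with rfl | hv
    · refine ⟨enCh_flat l (all l) h1, (.f1 :: l) :: L.flatMap fun l' => [.f0 :: l', .f1 :: l'], ?_⟩
      simp only [all]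
      rw [h2]
      rfl
    · have h3 : all (v :: l) = (all l).map fun l' => v :: l' := by
        rcases hv with rfl | rfl <;> rfl
      refine ⟨?_, L.map fun l' => v :: l', ?_⟩
      · rw [h3]
        exact enCh_map v hv l (all l) h1
      · rw [h3, h2]
        rfl

/-! ### Enumeration -/

private def enRe : Lt N → Bool
  | .re => true
  | _ => false

private def enB (P : LP m (Lt N)) : LP m (Lt N) := .pop .d fun _ => .seq P enI

private theorem enum_loop (P : LP m (Lt N)) (δ : List (Lt N)) (F : List (List (Lt N)) → Sta m (Lt N))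
    (T n : ℕ) (τ0 : List (Lt N)) : ∀ (L : List (List (Lt N))) (x : List (Lt N)) (l : List (List (Lt N))),
    enCh (x :: L) τ0 → (∀ τ' ∈ x :: L, (∀ v ∈ τ', isT v = true) ∧ τ'.length = n ∧
      ∀ l, LR P ((F l).set .d (τ' ++ .hs :: δ)) ((F (τ' :: l)).set .d (τ' ++ .hs :: δ)) T) →
    LL .d enRe (enB P) ((F l).set .d (.re :: (x ++ .hs :: δ)))
      ((F ((x :: L).reverse ++ l)).set .d (.se :: (τ0 ++ .hs :: δ)))
      ((L.length + 1) * (T + 6 * n + 12)) := by
  intro L
  induction L with
  | nil =>
    intro x l hc hL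
    obtain ⟨h1, h2, h3⟩ := hL x List.mem_cons_self
    have h4 := enI_run (F (x :: l)).a (F (x :: l)).b (F (x :: l)).c δ (F (x :: l)).x x h1
    rw [(show enNx x = (τ0, false) from hc)] at h4
    have h5 : LR (enB P) ((F l).set .d (.re :: (x ++ .hs :: δ)))
        ((F ([x].reverse ++ l)).set .d (.se :: (τ0 ++ .hs :: δ))) (T + (6 * x.length + 10) + 1) :=
      LR.pop (v := .re) (l := x ++ .hs :: δ) rfl (LR.seq (h3 l) h4)
    exact (LL.step (v := .re) (l := x ++ .hs :: δ) rfl rfl h5).mono (by
      rw [h2]; simp only [List.length_nil]; omega)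
  | cons y L ih =>
    intro x l hc hL
    obtain ⟨h1, h2, h3⟩ := hL x List.mem_cons_self
    have h4 := enI_run (F (x :: l)).a (F (x :: l)).b (F (x :: l)).c δ (F (x :: l)).x x h1
    rw [hc.1] at h4
    have h5 : LR (enB P) ((F l).set .d (.re :: (x ++ .hs :: δ)))
        ((F (x :: l)).set .d (.re :: (y ++ .hs :: δ))) (T + (6 * x.length + 10) + 1) :=
      LR.pop (v := .re) (l := x ++ .hs :: δ) rfl (LR.seq (h3 l) h4)
    have h6 := LL.step (k := .d) (p := enRe) (v := .re) (l := x ++ .hs :: δ) rfl rfl h5
    have h7 := ih y (x :: l) hc.2 fun τ' hτ' => hL τ' (List.mem_cons_of_mem _ hτ')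
    have h8 : (x :: y :: L).reverse ++ l = (y :: L).reverse ++ (x :: l) := by
      simp
    rw [h8]
    refine (h6.trans h7).mono ?_
    rw [h2, List.length_cons]
    have : (L.length + 1 + 1) * (T + 6 * n + 12) =
      (T + 6 * n + 12) + (L.length + 1) * (T + 6 * n + 12) := by ring
    omega

theorem enum_run (P : LP m (Lt N)) : ∃ (E : LP m (Lt N)) (C : ℕ), ∀ (τ : List (Lt N))
    (δ : List (Lt N)) (F : List (List (Lt N)) → Sta m (Lt N)) (T : ℕ), fresh τ →
    (∀ τ' ∈ all τ, ∀ l, LR P ((F l).set .d (τ' ++ .hs :: δ)) ((F (τ' :: l)).set .d (τ' ++ .hs :: δ))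
      T) →
    LR E ((F []).set .d (τ ++ .hs :: δ)) ((F (all τ).reverse).set .d (τ ++ .hs :: δ))
      (C * (2 ^ fr τ * (T + τ.length + 1))) := by
  refine ⟨.seq (.push .d .re) (.seq (.loop .d enRe (enB P)) (pop1 .d)), 20, ?_⟩
  intro τ δ F T hτ hP
  obtain ⟨h1, L, h2⟩ := enCh_all τ hτ
  rw [h2] at h1
  have h3 := enum_loop P δ F T τ.length τ L τ [] h1 (by
    intro τ' hτ'
    rw [← h2] at hτ'
    exact ⟨isT_of_mem_all hτ hτ', length_of_mem_all hτ', hP τ' hτ'⟩)
  rw [← h2, List.append_nil] at h3
  have h4 := h3.finish (v := .se) (l := τ ++ .hs :: δ) rfl rfl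
  have h5 : LR (.push .d .re) ((F []).set .d (τ ++ .hs :: δ))
      ((F []).set .d (.re :: (τ ++ .hs :: δ))) 1 := LR.push .d Lt.re _
  have h6 : LR (pop1 .d) ((F (all τ).reverse).set .d (.se :: (τ ++ .hs :: δ)))
      ((F (all τ).reverse).set .d (τ ++ .hs :: δ)) 2 :=
    pop1_run (k := .d) (v := .se) (r := τ ++ .hs :: δ) rfl
  refine (LR.seq h5 (LR.seq h4 h6)).mono ?_
  have h7 : L.length + 1 = 2 ^ fr τ := by
    rw [← length_all, h2, List.length_cons]
  rw [h7]
  have h8 : 1 ≤ 2 ^ fr τ := Nat.one_le_two_pow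
  generalize 2 ^ fr τ = Z at h8
  have h9 : Z * (T + 6 * τ.length + 12) ≤ 12 * (Z * (T + τ.length + 1)) := by
    have : Z * (T + 6 * τ.length + 12) ≤ Z * (12 * (T + τ.length + 1)) :=
      Nat.mul_le_mul_left _ (by omega)
    calc _ ≤ _ := this
      _ = _ := by ring
  have h10 : 1 ≤ Z * (T + τ.length + 1) := Nat.mul_pos h8 (by omega)
  omega

/-! ### Search -/

private def seB (P : LP m (Lt N)) : LP m (Lt N) :=
  .pop .d fun _ => .seq P (.pop .a fun v =>
    if v = .re then .seq (.push .d .se) (.push .a .re)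
    else .seq enI (.pop .d fun w =>
      if w = .re then .push .d .re else .seq (.push .d .se) (.push .a .se)))

private theorem seB_found (P : LP m (Lt N)) (δ : List (Lt N)) (s : Sta m (Lt N))
    (T : ℕ) (x : List (Lt N))
    (h : LR P (s.set .d (x ++ .hs :: δ))
      ((s.set .d (x ++ .hs :: δ)).set .a (.re :: s.a)) T) :
    LR (seB P) (s.set .d (.re :: (x ++ .hs :: δ)))
      ((s.set .d (.se :: (x ++ .hs :: δ))).set .a (.re :: s.a)) (T + 4) := by
  have h1 : LR (.seq (.push .d .se) (.push .a .re)) (s.set .d (x ++ .hs :: δ))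
      ((s.set .d (.se :: (x ++ .hs :: δ))).set .a (.re :: s.a)) (1 + 1) :=
    LR.seq (LR.push .d Lt.se _) (LR.push .a Lt.re _)
  have h2 : LR (.pop .a fun v =>
      if v = .re then .seq (.push .d .se) (.push .a .re)
      else .seq enI (.pop .d fun w =>
        if w = .re then .push .d .re else .seq (.push .d .se) (.push .a .se)))
      ((s.set .d (x ++ .hs :: δ)).set .a (.re :: s.a))
      ((s.set .d (.se :: (x ++ .hs :: δ))).set .a (.re :: s.a)) (1 + 1 + 1) := by
    refine LR.pop (v := .re) (l := s.a) rfl ?_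
    simp only [if_true]
    exact h1
  exact (LR.pop (v := .re) (l := x ++ .hs :: δ) rfl (LR.seq h h2)).mono (by omega)

private theorem seB_not (P : LP m (Lt N)) (δ : List (Lt N)) (s : Sta m (Lt N))
    (T : ℕ) (x y : List (Lt N)) (fl : Bool) (hx : ∀ v ∈ x, isT v = true) (hn : enNx x = (y, fl))
    (h : LR P (s.set .d (x ++ .hs :: δ))
      ((s.set .d (x ++ .hs :: δ)).set .a (.se :: s.a)) T) :
    LR (seB P) (s.set .d (.re :: (x ++ .hs :: δ)))
      (if fl then s.set .d (.re :: (y ++ .hs :: δ)) else
        (s.set .d (.se :: (y ++ .hs :: δ))).set .a (.se :: s.a)) (T + 6 * x.length + 20) := by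
  have h0 := enI_run s.a s.b s.c δ s.x x hx
  rw [hn] at h0
  have h1 : LR (.pop .d fun w =>
      if w = .re then .push .d .re else .seq (.push .d .se) (.push .a .se))
      (⟨s.a, s.b, s.c, enFl fl :: (y ++ .hs :: δ), s.x⟩ : Sta m (Lt N))
      (if fl then s.set .d (.re :: (y ++ .hs :: δ)) else
        (s.set .d (.se :: (y ++ .hs :: δ))).set .a (.se :: s.a)) (1 + 1 + 1) := by
    cases fl with
    | true =>
      refine LR.pop (v := .re) (l := y ++ .hs :: δ) rfl ?_
      simp only [if_true]
      exact (LR.push .d Lt.re _).mono (by omega)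
    | false =>
      refine LR.pop (v := .se) (l := y ++ .hs :: δ) rfl ?_
      simp only [reduceCtorEq, if_false, Bool.false_eq_true]
      exact LR.seq (LR.push .d Lt.se _) (LR.push .a Lt.se _)
  have h2 : LR (.pop .a fun v =>
      if v = .re then .seq (.push .d .se) (.push .a .re)
      else .seq enI (.pop .d fun w =>
        if w = .re then .push .d .re else .seq (.push .d .se) (.push .a .se)))
      ((s.set .d (x ++ .hs :: δ)).set .a (.se :: s.a))
      (if fl then s.set .d (.re :: (y ++ .hs :: δ)) else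
        (s.set .d (.se :: (y ++ .hs :: δ))).set .a (.se :: s.a))
      (6 * x.length + 10 + (1 + 1 + 1) + 1) := by
    refine LR.pop (t := 6 * x.length + 10 + (1 + 1 + 1)) (v := .se) (l := s.a) rfl ?_
    simp only [reduceCtorEq, if_false]
    exact LR.seq h0 h1
  exact (LR.pop (v := .re) (l := x ++ .hs :: δ) rfl (LR.seq h h2)).mono (by omega)

private theorem search_loop (P : LP m (Lt N)) (δ : List (Lt N)) (s : Sta m (Lt N))
    (f : List (Lt N) → Bool) (T n : ℕ) (τ0 : List (Lt N)) :
    ∀ (L : List (List (Lt N))) (x : List (Lt N)),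
    enCh (x :: L) τ0 → (∀ τ' ∈ x :: L, (∀ v ∈ τ', isT v = true) ∧ τ'.length = n ∧
      LR P (s.set .d (τ' ++ .hs :: δ))
        ((s.set .d (τ' ++ .hs :: δ)).set .a ((if f τ' then .re else .se) :: s.a)) T) →
    ((∀ τ' ∈ x :: L, f τ' = false) → LL .d enRe (seB P) (s.set .d (.re :: (x ++ .hs :: δ)))
      ((s.set .d (.se :: (τ0 ++ .hs :: δ))).set .a (.se :: s.a))
      ((L.length + 1) * (T + 6 * n + 21))) ∧
    ((∃ τ' ∈ x :: L, f τ' = true) → ∃ τ' ∈ x :: L, f τ' = true ∧
      LL .d enRe (seB P) (s.set .d (.re :: (x ++ .hs :: δ)))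
      ((s.set .d (.se :: (τ' ++ .hs :: δ))).set .a (.re :: s.a))
      ((L.length + 1) * (T + 6 * n + 21))) := by
  intro L
  induction L with
  | nil =>
    intro x hc hL
    obtain ⟨h1, h2, h3⟩ := hL x List.mem_cons_self
    constructor
    · intro hf
      rw [hf x List.mem_cons_self] at h3
      have h4 := seB_not P δ s T x τ0 false h1 hc h3
      exact (LL.step (v := .re) (l := x ++ .hs :: δ) rfl rfl h4).mono (by
        rw [h2]; simp only [List.length_nil]; omega)
    · rintro ⟨τ', hτ', hf⟩
      rw [List.mem_singleton] at hτ'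
      subst hτ'
      refine ⟨τ', List.mem_cons_self, hf, ?_⟩
      rw [hf] at h3
      have h4 := seB_found P δ s T τ' h3
      exact (LL.step (v := .re) (l := τ' ++ .hs :: δ) rfl rfl h4).mono (by
        simp only [List.length_nil]; omega)
  | cons y L ih =>
    intro x hc hL
    obtain ⟨h1, h2, h3⟩ := hL x List.mem_cons_self
    obtain ⟨i1, i2⟩ := ih y hc.2 fun τ' hτ' => hL τ' (List.mem_cons_of_mem _ hτ')
    have hm : (L.length + 1 + 1) * (T + 6 * n + 21) =
      (T + 6 * n + 21) + (L.length + 1) * (T + 6 * n + 21) := by ring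
    by_cases hx : f x = true
    · constructor
      · intro hf
        have := hf x List.mem_cons_self
        rw [hx] at this
        exact absurd this Bool.false_ne_true.symm
      · intro _
        refine ⟨x, List.mem_cons_self, hx, ?_⟩
        rw [hx] at h3
        have h4 := seB_found P δ s T x h3
        exact (LL.step (v := .re) (l := x ++ .hs :: δ) rfl rfl h4).mono (by
          rw [List.length_cons, hm]; omega)
    · have hx' : f x = false := by simpa using hx
      rw [hx'] at h3
      have h4 := seB_not P δ s T x y true h1 hc.1 h3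
      have h5 := LL.step (k := .d) (p := enRe) (v := .re) (l := x ++ .hs :: δ) rfl rfl h4
      constructor
      · intro hf
        have h6 := i1 fun τ' hτ' => hf τ' (List.mem_cons_of_mem _ hτ')
        exact (h5.trans h6).mono (by rw [List.length_cons, hm, h2])
      · rintro ⟨τ', hτ', hf⟩
        rcases List.mem_cons.1 hτ' with rfl | hτ'
        · rw [hx'] at hf
          exact absurd hf Bool.false_ne_true
        · obtain ⟨z, hz, hfz, h6⟩ := i2 ⟨τ', hτ', hf⟩
          refine ⟨z, List.mem_cons_of_mem _ hz, hfz, ?_⟩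
          exact (h5.trans h6).mono (by rw [List.length_cons, hm, h2])

theorem search_run (P : LP m (Lt N)) : ∃ (E : LP m (Lt N)) (C : ℕ), ∀ (τ : List (Lt N))
    (δ : List (Lt N)) (s : Sta m (Lt N)) (f : List (Lt N) → Bool) (T : ℕ), fresh τ →
    (∀ τ' ∈ all τ, LR P (s.set .d (τ' ++ .hs :: δ))
      ((s.set .d (τ' ++ .hs :: δ)).set .a ((if f τ' then .re else .se) :: s.a)) T) →
    ((∀ τ' ∈ all τ, f τ' = false) → LR E (s.set .d (τ ++ .hs :: δ))
      ((s.set .d (τ ++ .hs :: δ)).set .a (.se :: s.a)) (C * (2 ^ fr τ * (T + τ.length + 1)))) ∧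
    ((∃ τ' ∈ all τ, f τ' = true) → ∃ τ' ∈ all τ, f τ' = true ∧ LR E (s.set .d (τ ++ .hs :: δ))
      ((s.set .d (τ' ++ .hs :: δ)).set .a (.re :: s.a)) (C * (2 ^ fr τ * (T + τ.length + 1)))) := by
  refine ⟨.seq (.push .d .re) (.seq (.loop .d enRe (seB P)) (pop1 .d)), 30, ?_⟩
  intro τ δ s f T hτ hP
  obtain ⟨h1, L, h2⟩ := enCh_all τ hτ
  rw [h2] at h1
  obtain ⟨i1, i2⟩ := search_loop P δ s f T τ.length τ L τ h1 (by
    intro τ' hτ'
    rw [← h2] at hτ'
    exact ⟨isT_of_mem_all hτ hτ', length_of_mem_all hτ', hP τ' hτ'⟩)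
  rw [← h2] at i1 i2
  have h7 : L.length + 1 = 2 ^ fr τ := by
    rw [← length_all, h2, List.length_cons]
  rw [h7] at i1 i2
  have h8 : 1 ≤ 2 ^ fr τ := Nat.one_le_two_pow
  have h9 : 2 ^ fr τ * (T + 6 * τ.length + 21) ≤ 21 * (2 ^ fr τ * (T + τ.length + 1)) := by
    have : 2 ^ fr τ * (T + 6 * τ.length + 21) ≤ 2 ^ fr τ * (21 * (T + τ.length + 1)) :=
      Nat.mul_le_mul_left _ (by omega)
    calc _ ≤ _ := this
      _ = _ := by ring
  have h10 : 1 ≤ 2 ^ fr τ * (T + τ.length + 1) := Nat.mul_pos h8 (by omega)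
  have h5 : LR (.push .d .re) (s.set .d (τ ++ .hs :: δ))
      (s.set .d (.re :: (τ ++ .hs :: δ))) 1 := LR.push .d Lt.re _
  constructor
  · intro hf
    have h4 := (i1 hf).finish (v := .se) (l := τ ++ .hs :: δ) rfl rfl
    have h6 : LR (pop1 .d) ((s.set .d (.se :: (τ ++ .hs :: δ))).set .a (.se :: s.a))
        ((s.set .d (τ ++ .hs :: δ)).set .a (.se :: s.a)) 2 :=
      pop1_run (k := .d) (v := .se) (r := τ ++ .hs :: δ) rfl
    exact (LR.seq h5 (LR.seq h4 h6)).mono (by omega)
  · intro hf
    obtain ⟨τ', hτ', hf', hl⟩ := i2 hf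
    refine ⟨τ', hτ', hf', ?_⟩
    have h4 := hl.finish (v := .se) (l := τ' ++ .hs :: δ) rfl rfl
    have h6 : LR (pop1 .d) ((s.set .d (.se :: (τ' ++ .hs :: δ))).set .a (.re :: s.a))
        ((s.set .d (τ' ++ .hs :: δ)).set .a (.re :: s.a)) 2 :=
      pop1_run (k := .d) (v := .se) (r := τ' ++ .hs :: δ) rfl
    exact (LR.seq h5 (LR.seq h4 h6)).mono (by omega)

end Pool.Agent.Lib.MP_33f9c4_lc.TT
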