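import Pool.Agent.Lib.MP_33f9c4_lc.T.Clk

set_option autoImplicit false

/-!
MODULE Ext. After a run: the first `K` output bits (padded with zeros) are appended to the list of items
on stack `b`, everything above the markers is deleted.

PROGRAM: delete (`del` until `mk`, then pop `mk`) on `a`, `c`, `d`, all `x i` (`delX`). Now `a = 1^K hs α`. Push `hs` on `c` and on `d`. Loop while the
top of `a` is `i`: pop it, push `i` on `c`; pop the top of `b`: if it is `sy g` push the bit `out g` on `d`; if it is `mk` push it back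
and push `o` on `d`. After the loop: move the `i`s of `c` back to `a`, pop `hs` of `c`; delete `b` until `mk`, pop `mk`;
push `hs` on `b`; move the bits of `d` to `b` (now the first bit is on top), pop `hs` of `d`; push `re` on `b`.
-/

namespace Pool.Agent.Lib.MP_33f9c4_lc.TT

variable {m N : ℕ}

/-- the first `K` bits, padded with zeros -/
def pfx (K : ℕ) (x : List Bool) : List Bool := (x ++ List.replicate K false).take K

/-- the number of symbols on all stacks -/
def Sta.sz {A : Type} (s : Sta m A) : ℕ :=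
  s.a.length + s.b.length + s.c.length + s.d.length + ∑ i, (s.x i).length

/-- the word of an item: flag, bits, end letter -/
def itm (x : Bool × List Bool) : List (Lt N) := (if x.1 then .re else .se) :: (bw x.2 ++ [.hs])

/-- the word of a list of items -/
def items (l : List (Bool × List Bool)) : List (Lt N) := l.flatMap itm

private theorem Ext_nil (K : ℕ) : pfx (K + 1) [] = false :: pfx K [] := by
  unfold pfx
  rw [List.nil_append, List.nil_append, List.replicate_succ, List.take_succ_cons]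

private theorem Ext_cons (K : ℕ) (b : Bool) (x : List Bool) :
    pfx (K + 1) (b :: x) = b :: pfx K x := by
  unfold pfx
  rw [List.cons_append, List.take_succ_cons, List.replicate_succ']
  rw [← List.append_assoc, List.take_append_of_le_length]
  rw [List.length_append, List.length_replicate]
  omega

private def Ext_i (v : Lt N) : Bool := decide (v = .i)

private def Ext_nm (v : Lt N) : Bool := decide (v ≠ .mk)

private def Ext_body (ou : Lt N → Bool) : LP m (Lt N) :=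
  .pop .a fun _ => .seq (.push .c .i) (.pop .b fun v =>
    if v = .mk then .seq (.push .b .mk) (.push .d .o) else .push .d (bt (ou v)))

private theorem Ext_loop {S : ℕ} {sy : Fin S → Lt N} {out : Fin S → Bool} {ou : Lt N → Bool}
    (h1 : ∀ g, ou (sy g) = out g) (h2 : ∀ g, sy g ≠ .mk) (a β : List (Lt N))
    (ξ : Fin m → List (Lt N)) :
    ∀ (K : ℕ) (w : List (Fin S)) (γ δ : List (Lt N)),
    LL .a Ext_i (Ext_body ou)
      (⟨List.replicate K .i ++ a, w.map sy ++ .mk :: β, γ, δ, ξ⟩ : Sta m (Lt N))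
      ⟨a, (w.drop K).map sy ++ .mk :: β, List.replicate K .i ++ γ,
        (bw (pfx K (w.map out))).reverse ++ δ, ξ⟩ (7 * K) := by
  intro K
  induction K with
  | zero =>
    intro w γ δ
    exact LL.refl _
  | succ K ih =>
    intro w γ δ
    have h3 : LR (.push .c .i)
        (⟨List.replicate K .i ++ a, w.map sy ++ .mk :: β, γ, δ, ξ⟩ : Sta m (Lt N))
        ⟨List.replicate K .i ++ a, w.map sy ++ .mk :: β, .i :: γ, δ, ξ⟩ 1 := LR.push _ _ _
    have hγ : (List.replicate K .i ++ .i :: γ : List (Lt N)) = List.replicate (K + 1) .i ++ γ := by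
      rw [List.replicate_succ', List.append_assoc]
      rfl
    rcases w with _ | ⟨g, w⟩
    · have h4 : LR (.seq (.push .b .mk) (.push .d .o))
          (⟨List.replicate K .i ++ a, β, .i :: γ, δ, ξ⟩ : Sta m (Lt N))
          ⟨List.replicate K .i ++ a, .mk :: β, .i :: γ, .o :: δ, ξ⟩ (1 + 1) :=
        LR.seq (LR.push .b .mk ⟨List.replicate K .i ++ a, β, .i :: γ, δ, ξ⟩)
          (LR.push .d .o ⟨List.replicate K .i ++ a, .mk :: β, .i :: γ, δ, ξ⟩)
      have h5 : LR (Ext_body ou)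
          (⟨.i :: (List.replicate K .i ++ a), .mk :: β, γ, δ, ξ⟩ : Sta m (Lt N))
          ⟨List.replicate K .i ++ a, .mk :: β, .i :: γ, .o :: δ, ξ⟩ (1 + (1 + 1 + 1) + 1) :=
        LR.pop (k := .a) (v := .i) (l := List.replicate K .i ++ a) rfl
          (h3.seq (LR.pop (k := .b) (v := .mk) (l := β) rfl h4))
      have h6 : LL .a Ext_i (Ext_body ou)
          (⟨.i :: (List.replicate K .i ++ a), .mk :: β, γ, δ, ξ⟩ : Sta m (Lt N))
          ⟨List.replicate K .i ++ a, .mk :: β, .i :: γ, .o :: δ, ξ⟩ (1 + (1 + 1 + 1) + 1 + 1) :=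
        LL.step (v := .i) (l := List.replicate K .i ++ a) rfl rfl h5
      have h7 := ih [] (.i :: γ) (.o :: δ)
      have e : (bw (pfx K (([] : List (Fin S)).map out))).reverse ++ .o :: δ =
          (bw (pfx (K + 1) (([] : List (Fin S)).map out))).reverse ++ δ := by
        rw [List.map_nil, Ext_nil]
        simp [bw, bt]
      rw [e, hγ] at h7
      refine (LL.trans h6 ?_).mono (t := 7 * (K + 1)) (s := 6 + 7 * K) (by omega)
      simpa using h7
    · have h4 : LR (.push .d (bt (ou (sy g))))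
          (⟨List.replicate K .i ++ a, w.map sy ++ .mk :: β, .i :: γ, δ, ξ⟩ : Sta m (Lt N))
          ⟨List.replicate K .i ++ a, w.map sy ++ .mk :: β, .i :: γ, bt (out g) :: δ, ξ⟩ 1 := by
        rw [h1]
        exact LR.push _ _ _
      have h5 : LR (Ext_body ou)
          (⟨.i :: (List.replicate K .i ++ a), sy g :: (w.map sy ++ .mk :: β), γ, δ, ξ⟩ :
            Sta m (Lt N))
          ⟨List.replicate K .i ++ a, w.map sy ++ .mk :: β, .i :: γ, bt (out g) :: δ, ξ⟩
          (1 + (1 + 1) + 1) := by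
        refine LR.pop (k := .a) (v := .i) (l := List.replicate K .i ++ a) rfl
          (h3.seq (LR.pop (k := .b) (v := sy g) (l := w.map sy ++ .mk :: β) rfl ?_))
        rw [if_neg (h2 g)]
        exact h4
      have h6 : LL .a Ext_i (Ext_body ou)
          (⟨.i :: (List.replicate K .i ++ a), sy g :: (w.map sy ++ .mk :: β), γ, δ, ξ⟩ :
            Sta m (Lt N))
          ⟨List.replicate K .i ++ a, w.map sy ++ .mk :: β, .i :: γ, bt (out g) :: δ, ξ⟩
          (1 + (1 + 1) + 1 + 1) :=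
        LL.step (v := .i) (l := List.replicate K .i ++ a) rfl rfl h5
      have h7 := ih w (.i :: γ) (bt (out g) :: δ)
      have e : (bw (pfx K (w.map out))).reverse ++ bt (out g) :: δ =
          (bw (pfx (K + 1) ((g :: w).map out))).reverse ++ δ := by
        rw [List.map_cons, Ext_cons]
        simp [bw]
      rw [e, hγ] at h7
      exact (LL.trans h6 h7).mono (t := 7 * (K + 1)) (s := 5 + 7 * K) (by omega)

theorem ext_run {S : ℕ} (sy : Fin S → Lt N) (hsy : Function.Injective sy)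
    (hmk : ∀ g, ∃ n, sy g = .e n) (out : Fin S → Bool) :
    ∃ (P : LP m (Lt N)) (C : ℕ), ∀ (K : ℕ) (u : Sta m (Fin S)) (α β γ δ : List (Lt N))
      (ξ : Fin m → List (Lt N)),
      LR P (lay sy u ⟨List.replicate K .i ++ .hs :: α, β, γ, δ, ξ⟩)
        ⟨List.replicate K .i ++ .hs :: α, itm (true, pfx K (u.b.map out)) ++ β, γ, δ, ξ⟩
        (C * (K + u.sz + 1)) := by
  classical
  set ou : Lt N → Bool := fun v => if h : ∃ g, sy g = v then out h.choose else false with hou
  have h1 : ∀ g, ou (sy g) = out g := by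
    intro g
    have h : ∃ g', sy g' = sy g := ⟨g, rfl⟩
    rw [hou]
    simp only
    rw [dif_pos h, hsy h.choose_spec]
  have h2 : ∀ g, sy g ≠ .mk := by
    intro g h
    obtain ⟨n, hn⟩ := hmk g
    rw [hn] at h
    cases h
  have hnm : ∀ (l : List (Fin S)), ∀ v ∈ l.map sy, Ext_nm v = true := by
    intro l v hv
    obtain ⟨g, _, rfl⟩ := List.mem_map.1 hv
    simp [Ext_nm, h2 g]
  refine ⟨.seq (del .a Ext_nm) (.seq (pop1 .a) (.seq (del .c Ext_nm) (.seq (pop1 .c)
    (.seq (del .d Ext_nm) (.seq (pop1 .d) (.seq (delX Ext_nm) (.seq (.push .c .hs)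
    (.seq (.push .d .hs) (.seq (.loop .a Ext_i (Ext_body ou)) (.seq (mv .c .a Ext_i id)
    (.seq (pop1 .c) (.seq (del .b Ext_nm) (.seq (pop1 .b) (.seq (.push .b .hs)
    (.seq (mv .d .b isB id) (.seq (pop1 .d) (.push .b .re))))))))))))))))), 50 + 3 * m, ?_⟩
  intro K u α β γ δ ξ
  obtain ⟨ua, ub, uc, ud, ux⟩ := u
  set R : List (Lt N) := List.replicate K .i ++ .hs :: α with hR
  have hlay : lay sy (⟨ua, ub, uc, ud, ux⟩ : Sta m (Fin S)) ⟨R, β, γ, δ, ξ⟩ =
      ⟨ua.map sy ++ .mk :: R, ub.map sy ++ .mk :: β, uc.map sy ++ .mk :: γ,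
        ud.map sy ++ .mk :: δ, fun i => (ux i).map sy ++ .mk :: ξ i⟩ := rfl
  rw [hlay]
  have a1 : LR (del .a Ext_nm) (⟨ua.map sy ++ .mk :: R, ub.map sy ++ .mk :: β,
      uc.map sy ++ .mk :: γ, ud.map sy ++ .mk :: δ, fun i => (ux i).map sy ++ .mk :: ξ i⟩ :
        Sta m (Lt N))
      ⟨.mk :: R, ub.map sy ++ .mk :: β,
      uc.map sy ++ .mk :: γ, ud.map sy ++ .mk :: δ, fun i => (ux i).map sy ++ .mk :: ξ i⟩
      (3 * (ua.map sy).length + 1) :=
    del_run (k := .a) (s := ⟨ua.map sy ++ .mk :: R, ub.map sy ++ .mk :: β,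
      uc.map sy ++ .mk :: γ, ud.map sy ++ .mk :: δ, fun i => (ux i).map sy ++ .mk :: ξ i⟩)
      (l := ua.map sy) (v := .mk) (r := R) rfl (hnm ua) rfl
  have a2 : LR (pop1 .a) (⟨.mk :: R, ub.map sy ++ .mk :: β,
      uc.map sy ++ .mk :: γ, ud.map sy ++ .mk :: δ, fun i => (ux i).map sy ++ .mk :: ξ i⟩ :
        Sta m (Lt N))
      ⟨R, ub.map sy ++ .mk :: β,
      uc.map sy ++ .mk :: γ, ud.map sy ++ .mk :: δ, fun i => (ux i).map sy ++ .mk :: ξ i⟩ 2 :=
    pop1_run (k := .a) (s := ⟨.mk :: R, ub.map sy ++ .mk :: β,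
      uc.map sy ++ .mk :: γ, ud.map sy ++ .mk :: δ, fun i => (ux i).map sy ++ .mk :: ξ i⟩)
      (v := .mk) (r := R) rfl
  have a3 : LR (del .c Ext_nm) (⟨R, ub.map sy ++ .mk :: β,
      uc.map sy ++ .mk :: γ, ud.map sy ++ .mk :: δ, fun i => (ux i).map sy ++ .mk :: ξ i⟩ :
        Sta m (Lt N))
      ⟨R, ub.map sy ++ .mk :: β,
      .mk :: γ, ud.map sy ++ .mk :: δ, fun i => (ux i).map sy ++ .mk :: ξ i⟩
      (3 * (uc.map sy).length + 1) :=
    del_run (k := .c) (s := ⟨R, ub.map sy ++ .mk :: β,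
      uc.map sy ++ .mk :: γ, ud.map sy ++ .mk :: δ, fun i => (ux i).map sy ++ .mk :: ξ i⟩)
      (l := uc.map sy) (v := .mk) (r := γ) rfl (hnm uc) rfl
  have a4 : LR (pop1 .c) (⟨R, ub.map sy ++ .mk :: β,
      .mk :: γ, ud.map sy ++ .mk :: δ, fun i => (ux i).map sy ++ .mk :: ξ i⟩ :
        Sta m (Lt N))
      ⟨R, ub.map sy ++ .mk :: β,
      γ, ud.map sy ++ .mk :: δ, fun i => (ux i).map sy ++ .mk :: ξ i⟩ 2 :=
    pop1_run (k := .c) (s := ⟨R, ub.map sy ++ .mk :: β,
      .mk :: γ, ud.map sy ++ .mk :: δ, fun i => (ux i).map sy ++ .mk :: ξ i⟩)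
      (v := .mk) (r := γ) rfl
  have a5 : LR (del .d Ext_nm) (⟨R, ub.map sy ++ .mk :: β,
      γ, ud.map sy ++ .mk :: δ, fun i => (ux i).map sy ++ .mk :: ξ i⟩ :
        Sta m (Lt N))
      ⟨R, ub.map sy ++ .mk :: β,
      γ, .mk :: δ, fun i => (ux i).map sy ++ .mk :: ξ i⟩
      (3 * (ud.map sy).length + 1) :=
    del_run (k := .d) (s := ⟨R, ub.map sy ++ .mk :: β,
      γ, ud.map sy ++ .mk :: δ, fun i => (ux i).map sy ++ .mk :: ξ i⟩)
      (l := ud.map sy) (v := .mk) (r := δ) rfl (hnm ud) rfl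
  have a6 : LR (pop1 .d) (⟨R, ub.map sy ++ .mk :: β,
      γ, .mk :: δ, fun i => (ux i).map sy ++ .mk :: ξ i⟩ :
        Sta m (Lt N))
      ⟨R, ub.map sy ++ .mk :: β,
      γ, δ, fun i => (ux i).map sy ++ .mk :: ξ i⟩ 2 :=
    pop1_run (k := .d) (s := ⟨R, ub.map sy ++ .mk :: β,
      γ, .mk :: δ, fun i => (ux i).map sy ++ .mk :: ξ i⟩)
      (v := .mk) (r := δ) rfl
  have a7 := delX_run (p := Ext_nm) (v := (.mk : Lt N)) rfl R (ub.map sy ++ .mk :: β) γ δ
    (fun i => (ux i).map sy) ξ (fun i => hnm (ux i))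
  simp only [List.length_map] at a7
  have a8 : LR (.push .c .hs) (⟨R, ub.map sy ++ .mk :: β, γ, δ, ξ⟩ : Sta m (Lt N))
      ⟨R, ub.map sy ++ .mk :: β, .hs :: γ, δ, ξ⟩ 1 := LR.push _ _ _
  have a9 : LR (.push .d .hs) (⟨R, ub.map sy ++ .mk :: β, .hs :: γ, δ, ξ⟩ : Sta m (Lt N))
      ⟨R, ub.map sy ++ .mk :: β, .hs :: γ, .hs :: δ, ξ⟩ 1 := LR.push _ _ _
  set D : List Bool := pfx K (ub.map out) with hD
  have a10 : LR (.loop .a Ext_i (Ext_body ou))
      (⟨R, ub.map sy ++ .mk :: β, .hs :: γ, .hs :: δ, ξ⟩ : Sta m (Lt N))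
      ⟨.hs :: α, (ub.drop K).map sy ++ .mk :: β, List.replicate K .i ++ .hs :: γ,
        (bw D).reverse ++ .hs :: δ, ξ⟩ (7 * K + 1) :=
    (Ext_loop (out := out) h1 h2 (.hs :: α) β ξ K ub (.hs :: γ) (.hs :: δ)).finish
      (v := .hs) (l := α) rfl rfl
  have a11 : LR (mv .c .a Ext_i id)
      (⟨.hs :: α, (ub.drop K).map sy ++ .mk :: β, List.replicate K .i ++ .hs :: γ,
        (bw D).reverse ++ .hs :: δ, ξ⟩ : Sta m (Lt N))
      ⟨((List.replicate K (.i : Lt N)).map id).reverse ++ .hs :: α,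
        (ub.drop K).map sy ++ .mk :: β, .hs :: γ,
        (bw D).reverse ++ .hs :: δ, ξ⟩ (3 * (List.replicate K (.i : Lt N)).length + 1) :=
    mv_run (k := .c) (k' := .a) (by simp) id
      (s := ⟨.hs :: α, (ub.drop K).map sy ++ .mk :: β, List.replicate K .i ++ .hs :: γ,
        (bw D).reverse ++ .hs :: δ, ξ⟩) (l := List.replicate K .i) (v := .hs) (r := γ) rfl
      (fun v hv => by rw [List.eq_of_mem_replicate hv]; rfl) rfl
  rw [List.map_id, List.reverse_replicate, List.length_replicate, ← hR] at a11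
  have a12 : LR (pop1 .c)
      (⟨R, (ub.drop K).map sy ++ .mk :: β, .hs :: γ, (bw D).reverse ++ .hs :: δ, ξ⟩ :
        Sta m (Lt N))
      ⟨R, (ub.drop K).map sy ++ .mk :: β, γ, (bw D).reverse ++ .hs :: δ, ξ⟩ 2 :=
    pop1_run (k := .c)
      (s := ⟨R, (ub.drop K).map sy ++ .mk :: β, .hs :: γ, (bw D).reverse ++ .hs :: δ, ξ⟩)
      (v := .hs) (r := γ) rfl
  have a13 : LR (del .b Ext_nm)
      (⟨R, (ub.drop K).map sy ++ .mk :: β, γ, (bw D).reverse ++ .hs :: δ, ξ⟩ : Sta m (Lt N))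
      ⟨R, .mk :: β, γ, (bw D).reverse ++ .hs :: δ, ξ⟩ (3 * ((ub.drop K).map sy).length + 1) :=
    del_run (k := .b)
      (s := ⟨R, (ub.drop K).map sy ++ .mk :: β, γ, (bw D).reverse ++ .hs :: δ, ξ⟩)
      (l := (ub.drop K).map sy) (v := .mk) (r := β) rfl (hnm _) rfl
  have a14 : LR (pop1 .b)
      (⟨R, .mk :: β, γ, (bw D).reverse ++ .hs :: δ, ξ⟩ : Sta m (Lt N))
      ⟨R, β, γ, (bw D).reverse ++ .hs :: δ, ξ⟩ 2 :=
    pop1_run (k := .b) (s := ⟨R, .mk :: β, γ, (bw D).reverse ++ .hs :: δ, ξ⟩)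
      (v := .mk) (r := β) rfl
  have a15 : LR (.push .b .hs) (⟨R, β, γ, (bw D).reverse ++ .hs :: δ, ξ⟩ : Sta m (Lt N))
      ⟨R, .hs :: β, γ, (bw D).reverse ++ .hs :: δ, ξ⟩ 1 := LR.push _ _ _
  have a16 : LR (mv .d .b isB id)
      (⟨R, .hs :: β, γ, (bw D).reverse ++ .hs :: δ, ξ⟩ : Sta m (Lt N))
      ⟨R, (((bw D).reverse).map id).reverse ++ .hs :: β, γ, .hs :: δ, ξ⟩
      (3 * (bw D : List (Lt N)).reverse.length + 1) :=
    mv_run (k := .d) (k' := .b) (by simp) id
      (s := ⟨R, .hs :: β, γ, (bw D).reverse ++ .hs :: δ, ξ⟩) (l := (bw D).reverse) (v := .hs)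
      (r := δ) rfl (fun v hv => by
        rw [List.mem_reverse] at hv
        obtain ⟨b, _, rfl⟩ := List.mem_map.1 hv
        exact isB_bt b) rfl
  rw [List.map_id, List.reverse_reverse, List.length_reverse] at a16
  have a17 : LR (pop1 .d) (⟨R, bw D ++ .hs :: β, γ, .hs :: δ, ξ⟩ : Sta m (Lt N))
      ⟨R, bw D ++ .hs :: β, γ, δ, ξ⟩ 2 :=
    pop1_run (k := .d) (s := ⟨R, bw D ++ .hs :: β, γ, .hs :: δ, ξ⟩) (v := .hs) (r := δ) rfl
  have a18 : LR (.push .b .re) (⟨R, bw D ++ .hs :: β, γ, δ, ξ⟩ : Sta m (Lt N))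
      ⟨R, .re :: (bw D ++ .hs :: β), γ, δ, ξ⟩ 1 := LR.push _ _ _
  have e18 : (.re :: (bw D ++ .hs :: β) : List (Lt N)) = itm (true, D) ++ β := by
    simp [itm]
  rw [e18] at a18
  have l1 : (bw D : List (Lt N)).length = K := by
    rw [show (bw D : List (Lt N)).length = D.length from List.length_map _, hD]
    unfold pfx
    rw [List.length_take, List.length_append, List.length_replicate]
    omega
  rw [l1] at a16
  rw [List.length_map] at a1 a3 a5 a13
  have l2 : (ub.drop K).length ≤ ub.length := by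
    rw [List.length_drop]
    omega
  refine (a1.seq (a2.seq (a3.seq (a4.seq (a5.seq (a6.seq (a7.seq (a8.seq (a9.seq (a10.seq
    (a11.seq (a12.seq (a13.seq (a14.seq (a15.seq (a16.seq (a17.seq a18))))))))))))))))).mono ?_
  have l3 : Sta.sz (⟨ua, ub, uc, ud, ux⟩ : Sta m (Fin S)) =
      ua.length + ub.length + uc.length + ud.length + ∑ i, (ux i).length := rfl
  rw [l3]
  generalize (∑ i, (ux i).length) = X at *
  have e1 : 3 * m ≤ 3 * m * (K + (ua.length + ub.length + uc.length + ud.length + X) + 1) :=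
    Nat.le_mul_of_pos_right _ (by omega)
  rw [Nat.add_mul]
  omega

end Pool.Agent.Lib.MP_33f9c4_lc.TT
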