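import Pool.Agent.Lib.MP_33f9c4_lc.T.Lang
import Pool.Agent.Lib.MP_33f9c4_lc.Univ

set_option autoImplicit false

/-!
MODULE TNM. Every Turing machine is simulated by a normalised machine with the same stacks, with linear overhead.

Adapt `exists_table` of Pool/Agent/Lib/MP_33f9c4_lc/Univ.lean (there: table machines; the lemmas `exists_codes`,
the finite set `Qf` of statements, the finite sets `V k` of symbols, `depth`, relation `R`, step lemmas). Here:
states = pairs (statement in `Qf`, element of `σ`) numbered by `Fin Q`; symbols = codes `< S`; an injection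
`ix : K → Ix m` with `ix k₀ = .a` and (if `k₁ ≠ k₀`) `ix k₁ = .b`; `ko = ix k₁`. One instruction per statement:
`push k f q`, state `v` ↦ `.push (ix k) (code k (f v)) (q, v)`; `peek`, `pop` ↦ the next state as a function of the
decoded top symbol; `load`, `branch`, `goto` ↦ `.peek ko` with a constant function; `halt` ↦ `.halt`.
A final configuration does not change under `step`, so the statement for one halting time gives it for
all later times. The output: at the end Mathlib's `haltList` says that the stack `k₁` contains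
`x.map outputAlphabet.invFun` and all others are empty.
-/

namespace Pool.Agent.Lib.MP_33f9c4_lc.TT

variable {m : ℕ}

/-- a final configuration does not change -/
theorem NM.step_of_hal (V : NM m) {c : NC V} (h : V.hal c) : V.step c = c := by
  unfold NM.hal at h
  unfold NM.step
  rw [h]

theorem NM.step_iter_of_hal (V : NM m) {c : NC V} (h : V.hal c) (s : ℕ) : V.step^[s] c = c := by
  induction s with
  | zero => rfl
  | succ s ih => rw [Function.iterate_succ_apply, V.step_of_hal h, ih]

private theorem nmof_length_set {A : Type} (s : Sta m A) (k k' : Ix m) (l : List A) (n : ℕ)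
    (h : l.length ≤ (s.get k).length + n) :
    ((s.set k l).get k').length ≤ (s.get k').length + n := by
  by_cases hk : k' = k
  · subst hk
    rw [Sta.get_set_self]
    exact h
  · rw [Sta.get_set_of_ne _ hk]
    omega

private theorem nmof_length_step (V : NM m) (c : NC V) (k : Ix m) :
    ((V.step c).2.get k).length ≤ (c.2.get k).length + 1 := by
  unfold NM.step
  split
  · exact nmof_length_set _ _ _ _ _ (by simp)
  · exact nmof_length_set _ _ _ _ _ (by simp; omega)
  · simp
  · simp

private theorem nmof_length_iter (V : NM m) (s : ℕ) : ∀ (c : NC V) (k : Ix m),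
    ((V.step^[s] c).2.get k).length ≤ (c.2.get k).length + s := by
  induction s with
  | zero => intro c k; simp
  | succ s ih =>
    intro c k
    rw [Function.iterate_succ_apply]
    have h1 := ih (V.step c) k
    have h2 := nmof_length_step V c k
    omega

/-- the output has at most as many symbols as there were steps -/
theorem NM.length_val_le (V : NM m) (hko : V.ko = .b) (s : ℕ) (d : List Bool) :
    (V.val s d).length ≤ s := by
  unfold NM.val
  rw [List.length_map]
  have h := nmof_length_iter V s (V.init d) V.ko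
  have h1 : ((V.init d).2.get V.ko).length = 0 := by
    rw [hko]
    rfl
  omega

section sim

open Turing TM2.Stmt

variable {K : Type} [DecidableEq K] {Γ : K → Type} {Λ σ : Type}

/-- the instruction for the statement `q` in the internal state `v` -/
private def nmofRow {S Q : ℕ} (mm : Λ → TM2.Stmt Γ Λ σ) (ix : K → Ix m) (code : ∀ k, Γ k → Fin S)
    (dec : ∀ k, Fin S → Option (Γ k)) (idx : TM2.Stmt Γ Λ σ → σ → Fin Q) (ko : Ix m) :
    TM2.Stmt Γ Λ σ → σ → NI m (Fin S) (Fin Q)
  | push k f q, v => .push (ix k) (code k (f v)) (idx q v)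
  | peek k f q, v => .peek (ix k) fun o => idx q (f v (o.bind (dec k)))
  | pop k f q, v => .pop (ix k) fun o => idx q (f v (o.bind (dec k)))
  | load a q, v => .peek ko fun _ => idx q (a v)
  | branch f q₁ q₂, v => .peek ko fun _ => idx (if f v then q₁ else q₂) v
  | goto f, v => .peek ko fun _ => idx (mm (f v)) v
  | halt, _ => .halt

variable (mm : Λ → TM2.Stmt Γ Λ σ) (W : NM m) (ix : K → Ix m) (code : ∀ k, Γ k → Fin W.S)
  (dec : ∀ k, Fin W.S → Option (Γ k)) (idx : TM2.Stmt Γ Λ σ → σ → Fin W.Q)

/-- the correspondence of configurations -/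
private structure NmofR (V : ∀ k, Set (Γ k)) (q : TM2.Stmt Γ Λ σ) (v : σ)
    (S : ∀ k, List (Γ k)) (c : NC W) : Prop where
  st : c.1 = idx q v
  stk : ∀ k, c.2.get (ix k) = (S k).map (code k)
  val : ∀ k, ∀ g ∈ S k, g ∈ V k

/-- the hypotheses on the coding -/
private structure NmofGood (V : ∀ k, Set (Γ k)) (Q : Set (TM2.Stmt Γ Λ σ)) : Prop where
  tab : ∀ q ∈ Q, ∀ v, W.ins (idx q v) = nmofRow mm ix code dec idx W.ko q v
  dec_code : ∀ k, ∀ g ∈ V k, dec k (code k g) = some g
  ix_inj : Function.Injective ix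
  push_mem : ∀ k f q, push k f q ∈ Q → q ∈ Q ∧ ∀ v, f v ∈ V k
  peek_mem : ∀ k f q, peek k f q ∈ Q → q ∈ Q
  pop_mem : ∀ k f q, pop k f q ∈ Q → q ∈ Q
  load_mem : ∀ a q, load a q ∈ Q → q ∈ Q
  branch_mem : ∀ f q₁ q₂, branch f q₁ q₂ ∈ Q → q₁ ∈ Q ∧ q₂ ∈ Q
  m_mem : ∀ l, mm l ∈ Q

variable {mm W ix code dec idx} {V : ∀ k, Set (Γ k)} {Q : Set (TM2.Stmt Γ Λ σ)}

private lemma nmof_ins (hG : NmofGood mm W ix code dec idx V Q) {q : TM2.Stmt Γ Λ σ} {v : σ}
    {S : ∀ k, List (Γ k)} {c : NC W} (h : NmofR W ix code idx V q v S c) (hq : q ∈ Q) :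
    W.ins c.1 = nmofRow mm ix code dec idx W.ko q v := by
  rw [h.st, hG.tab q hq]

/-- reading the top of a stack -/
private lemma nmof_read (hG : NmofGood mm W ix code dec idx V Q) {q : TM2.Stmt Γ Λ σ} {v : σ}
    {S : ∀ k, List (Γ k)} {c : NC W} (h : NmofR W ix code idx V q v S c) (k : K) :
    (c.2.get (ix k)).head?.bind (dec k) = (S k).head? := by
  rw [h.stk]
  rcases hS : S k with _ | ⟨g, l⟩
  · rfl
  · have hg : g ∈ V k := h.val k g (by rw [hS]; exact List.mem_cons_self)
    simp only [List.map_cons, List.head?_cons, Option.bind_some]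
    exact hG.dec_code k g hg

private lemma nmof_silent {q' : TM2.Stmt Γ Λ σ} {v v' : σ} {q : TM2.Stmt Γ Λ σ}
    {S : ∀ k, List (Γ k)} {c : NC W} (h : NmofR W ix code idx V q v S c) {k : Ix m}
    {F : Option (Fin W.S) → Fin W.Q} (hrow : W.ins c.1 = .peek k F)
    (hF : F (c.2.get k).head? = idx q' v') : NmofR W ix code idx V q' v' S (W.step c) := by
  have h1 : W.step c = (F (c.2.get k).head?, c.2) := by
    unfold NM.step
    rw [hrow]
  rw [h1]
  exact ⟨hF, h.stk, h.val⟩

private lemma nmof_sim_aux (hG : NmofGood mm W ix code dec idx V Q) (q : TM2.Stmt Γ Λ σ) :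
    ∀ (v : σ) (S : ∀ k, List (Γ k)) (c : NC W), NmofR W ix code idx V q v S c → q ∈ Q →
      (∀ l v' S', TM2.stepAux q v S = ⟨some l, v', S'⟩ →
        ∃ n ≤ UV.depth q, NmofR W ix code idx V (mm l) v' S' (W.step^[n] c)) ∧
      (∀ v' S', TM2.stepAux q v S = ⟨none, v', S'⟩ →
        ∃ n ≤ UV.depth q, halt ∈ Q ∧ NmofR W ix code idx V halt v' S' (W.step^[n] c)) := by
  have lift : ∀ {q q' : TM2.Stmt Γ Λ σ} {v v' : σ} {S S' : ∀ k, List (Γ k)} {c : NC W},
      UV.depth q' + 1 ≤ UV.depth q → TM2.stepAux q v S = TM2.stepAux q' v' S' →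
      ((∀ l v'' S'', TM2.stepAux q' v' S' = ⟨some l, v'', S''⟩ →
        ∃ n ≤ UV.depth q', NmofR W ix code idx V (mm l) v'' S'' (W.step^[n] (W.step c))) ∧
      (∀ v'' S'', TM2.stepAux q' v' S' = ⟨none, v'', S''⟩ →
        ∃ n ≤ UV.depth q', halt ∈ Q ∧ NmofR W ix code idx V halt v'' S'' (W.step^[n] (W.step c)))) →
      ((∀ l v'' S'', TM2.stepAux q v S = ⟨some l, v'', S''⟩ →
        ∃ n ≤ UV.depth q, NmofR W ix code idx V (mm l) v'' S'' (W.step^[n] c)) ∧
      (∀ v'' S'', TM2.stepAux q v S = ⟨none, v'', S''⟩ →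
        ∃ n ≤ UV.depth q, halt ∈ Q ∧ NmofR W ix code idx V halt v'' S'' (W.step^[n] c))) := by
    intro q q' v v' S S' c hd he h
    rw [he]
    refine ⟨fun l v'' S'' h1 => ?_, fun v'' S'' h1 => ?_⟩
    · obtain ⟨n, hn, h2⟩ := h.1 l v'' S'' h1
      exact ⟨n + 1, by omega, by rwa [Function.iterate_succ_apply]⟩
    · obtain ⟨n, hn, h2⟩ := h.2 v'' S'' h1
      exact ⟨n + 1, by omega, by rwa [Function.iterate_succ_apply]⟩
  induction q with
  | push k f q ih =>
    intro v S c h hq
    refine lift (q' := q) (v' := v) (S' := Function.update S k (f v :: S k)) (le_refl _) rfl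
      (ih _ _ _ ?_ (hG.push_mem k f q hq).1)
    have h1 : W.step c = (idx q v, c.2.set (ix k) (code k (f v) :: c.2.get (ix k))) := by
      unfold NM.step
      rw [nmof_ins hG h hq]
      rfl
    rw [h1]
    refine ⟨rfl, fun k' => ?_, fun k' g hg => ?_⟩
    · by_cases hk : k' = k
      · subst hk
        simp only [Sta.get_set_self, Function.update_self, List.map_cons, h.stk]
      · rw [Function.update_of_ne hk]
        exact (Sta.get_set_of_ne _ (fun h => hk (hG.ix_inj h)) _).trans (h.stk k')
    · by_cases hk : k' = k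
      · subst hk
        rw [Function.update_self, List.mem_cons] at hg
        rcases hg with rfl | hg
        · exact (hG.push_mem _ f q hq).2 v
        · exact h.val _ g hg
      · rw [Function.update_of_ne hk] at hg
        exact h.val k' g hg
  | peek k f q ih =>
    intro v S c h hq
    refine lift (q' := q) (v' := f v (S k).head?) (S' := S) (le_refl _) rfl
      (ih _ _ _ ?_ (hG.peek_mem k f q hq))
    refine nmof_silent h (nmof_ins hG h hq) ?_
    simp only [nmof_read hG h k]
  | pop k f q ih =>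
    intro v S c h hq
    refine lift (q' := q) (v' := f v (S k).head?) (S' := Function.update S k (S k).tail)
      (le_refl _) rfl (ih _ _ _ ?_ (hG.pop_mem k f q hq))
    have h1 : W.step c = (idx q (f v ((c.2.get (ix k)).head?.bind (dec k))),
        c.2.set (ix k) (c.2.get (ix k)).tail) := by
      unfold NM.step
      rw [nmof_ins hG h hq]
      rfl
    rw [h1, nmof_read hG h k]
    refine ⟨rfl, fun k' => ?_, fun k' g hg => ?_⟩
    · by_cases hk : k' = k
      · subst hk
        simp only [Sta.get_set_self, Function.update_self, h.stk, List.map_tail]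
      · rw [Function.update_of_ne hk]
        exact (Sta.get_set_of_ne _ (fun h => hk (hG.ix_inj h)) _).trans (h.stk k')
    · by_cases hk : k' = k
      · subst hk
        rw [Function.update_self] at hg
        exact h.val _ g (List.mem_of_mem_tail hg)
      · rw [Function.update_of_ne hk] at hg
        exact h.val k' g hg
  | load a q ih =>
    intro v S c h hq
    refine lift (q' := q) (v' := a v) (S' := S) (le_refl _) rfl
      (ih _ _ _ ?_ (hG.load_mem a q hq))
    exact nmof_silent h (nmof_ins hG h hq) rfl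
  | branch f q₁ q₂ ih₁ ih₂ =>
    intro v S c h hq
    rcases hf : f v with _ | _
    · refine lift (q' := q₂) (v' := v) (S' := S) (by simp [UV.depth]) (by simp [hf])
        (ih₂ _ _ _ ?_ (hG.branch_mem f q₁ q₂ hq).2)
      exact nmof_silent h (nmof_ins hG h hq) (by simp [hf])
    · refine lift (q' := q₁) (v' := v) (S' := S) (by simp [UV.depth]) (by simp [hf])
        (ih₁ _ _ _ ?_ (hG.branch_mem f q₁ q₂ hq).1)
      exact nmof_silent h (nmof_ins hG h hq) (by simp [hf])
  | goto f =>
    intro v S c h hq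
    refine ⟨fun l v' S' h1 => ?_, fun v' S' h1 => ?_⟩
    · rw [TM2.stepAux] at h1
      injection h1 with h2 h3 h4
      injection h2 with h2
      subst h2 h3 h4
      exact ⟨1, le_refl _, nmof_silent h (nmof_ins hG h hq) rfl⟩
    · rw [TM2.stepAux] at h1
      injection h1 with h2 h3 h4
      exact absurd h2 (by simp)
  | halt =>
    intro v S c h hq
    refine ⟨fun l v' S' h1 => ?_, fun v' S' h1 => ?_⟩
    · rw [TM2.stepAux] at h1
      injection h1 with h2 h3 h4
      exact absurd h2 (by simp)
    · rw [TM2.stepAux] at h1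
      injection h1 with h2 h3 h4
      subst h3 h4
      exact ⟨0, le_refl _, hq, h⟩

private lemma nmof_sim_main (hG : NmofGood mm W ix code dec idx V Q) {B : ℕ}
    (hB : ∀ l, UV.depth (mm l) ≤ B) : ∀ (n : ℕ) (l : Λ) (v : σ) (S : ∀ k, List (Γ k)) (c : NC W),
      NmofR W ix code idx V (mm l) v S c → ∀ v' S',
      (flip bind (TM2.step mm))^[n] (some ⟨some l, v, S⟩) =
        (some ⟨none, v', S'⟩ : Option (TM2.Cfg Γ Λ σ)) →
      ∃ j ≤ B * n, halt ∈ Q ∧ NmofR W ix code idx V halt v' S' (W.step^[j] c) := by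
  intro n
  induction n with
  | zero =>
    intro l v S c _ v' S' h
    simp at h
  | succ n ih =>
    intro l v S c h v' S' h1
    rw [Function.iterate_succ_apply] at h1
    have h2 : flip bind (TM2.step mm) (some ⟨some l, v, S⟩) =
        some (TM2.stepAux (mm l) v S) := rfl
    rw [h2] at h1
    rcases hst : TM2.stepAux (mm l) v S with ⟨l', v₁, S₁⟩
    rw [hst] at h1
    rcases l' with _ | l'
    · obtain ⟨j, hj, h3⟩ := (nmof_sim_aux hG (mm l) v S c h (hG.m_mem l)).2 v₁ S₁ hst
      have h4 : n = 0 := by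
        by_contra hn
        obtain ⟨n', rfl⟩ := Nat.exists_eq_succ_of_ne_zero hn
        rw [Function.iterate_succ_apply] at h1
        have h5 : flip bind (TM2.step mm) (some ⟨none, v₁, S₁⟩) = none := rfl
        rw [h5] at h1
        have h6 : ∀ i, (flip bind (TM2.step mm))^[i] (none : Option (TM2.Cfg Γ Λ σ)) = none := by
          intro i
          induction i with
          | zero => rfl
          | succ i ih' => rw [Function.iterate_succ_apply]; exact ih'
        rw [h6] at h1
        exact absurd h1 (by simp)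
      subst h4
      rw [Function.iterate_zero_apply] at h1
      injection h1 with h1
      injection h1 with _ h6 h7
      subst h6 h7
      exact ⟨j, hj.trans (by simpa using hB l), h3⟩
    · obtain ⟨j, hj, h3⟩ := (nmof_sim_aux hG (mm l) v S c h (hG.m_mem l)).1 l' v₁ S₁ hst
      obtain ⟨j', hj', h4, h5⟩ := ih l' v₁ S₁ _ h3 v' S' h1
      refine ⟨j' + j, ?_, h4, ?_⟩
      · have := hB l
        rw [Nat.mul_succ]
        omega
      · rwa [Function.iterate_add_apply]

end sim

/-- the stacks of a machine as stacks of a normalised machine -/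
private lemma nmof_ix {K : Type} [Fintype K] (hK : Fintype.card K ≤ m + 4)
    (k₀ k₁ : K) : ∃ ix : K → Ix m, Function.Injective ix ∧ ix k₀ = .a ∧ (k₀ ≠ k₁ → ix k₁ = .b) := by
  have hc : Fintype.card (Ix m) = m + 4 := by
    let e : Ix m ≃ Fin 4 ⊕ Fin m :=
      { toFun := fun k => match k with
          | .a => .inl 0
          | .b => .inl 1
          | .c => .inl 2
          | .d => .inl 3
          | .x i => .inr i
        invFun := fun k => match k with
          | .inl 0 => .a
          | .inl 1 => .b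
          | .inl 2 => .c
          | .inl 3 => .d
          | .inr i => .x i
        left_inv := by rintro (_ | _ | _ | _ | i) <;> rfl
        right_inv := by
          rintro (j | i)
          · fin_cases j <;> rfl
          · rfl }
    rw [Fintype.card_congr e, Fintype.card_sum, Fintype.card_fin, Fintype.card_fin, Nat.add_comm]
  obtain ⟨e⟩ := Function.Embedding.nonempty_of_card_le (hc ▸ hK : Fintype.card K ≤ Fintype.card (Ix m))
  let e' : K → Ix m := fun k => Equiv.swap (e k₀) .a (e k)
  have he' : Function.Injective e' := (Equiv.injective _).comp e.injective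
  have he0 : e' k₀ = .a := Equiv.swap_apply_left _ _
  by_cases h : k₀ = k₁
  · exact ⟨e', he', he0, fun h' => absurd h h'⟩
  · have h1 : e' k₁ ≠ .a := fun h2 => h (he' (he0.trans h2.symm))
    refine ⟨fun k => Equiv.swap (e' k₁) .b (e' k), (Equiv.injective _).comp he', ?_, fun _ => ?_⟩
    · show Equiv.swap (e' k₁) .b (e' k₀) = .a
      rw [he0]
      exact Equiv.swap_apply_of_ne_of_ne h1.symm (by simp)
    · exact Equiv.swap_apply_left _ _

open Turing in
theorem nm_of_machine (M : Machine) (hM : @Fintype.card M.tm.K M.tm.kFin ≤ m + 4) :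
    ∃ (V : NM m) (c : ℕ), (M.tm.k₀ ≠ M.tm.k₁ → V.ko = .b) ∧
      ∀ (d x : List Bool) (t : ℕ), Outputs M d x t → ∀ s, c * (t + 1) ≤ s →
        V.hal (V.step^[s] (V.init d)) ∧ V.val s d = x := by
  classical
  letI : Fintype M.tm.K := M.tm.kFin
  have : Fintype M.tm.Λ := M.tm.ΛFin
  have : Fintype M.tm.σ := M.tm.σFin
  -- the statements
  set Qf : Finset (TM2.Stmt M.tm.Γ M.tm.Λ M.tm.σ) :=
    Finset.univ.biUnion fun l => TM2.stmts₁ (M.tm.m l) with hQf
  have hsub : ∀ q q', q ∈ Qf → q' ∈ TM2.stmts₁ q → q' ∈ Qf := by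
    intro q q' hq hq'
    rw [hQf, Finset.mem_biUnion] at hq ⊢
    obtain ⟨l, hl, hq⟩ := hq
    exact ⟨l, hl, TM2.stmts₁_trans hq hq'⟩
  -- the symbols
  set V : ∀ k, Set (M.tm.Γ k) := fun k =>
    {g | k = M.tm.k₀ ∨ ∃ q ∈ Qf, ∃ v, ∃ f q', q = TM2.Stmt.push k f q' ∧ g = f v} with hVdef
  have hV : ∀ k, k ≠ M.tm.k₀ → (V k).Finite := by
    intro k hk
    have h1 : V k ⊆ ⋃ q ∈ (Qf : Set (TM2.Stmt M.tm.Γ M.tm.Λ M.tm.σ)), ⋃ v ∈ (Set.univ : Set M.tm.σ),
        {g | ∃ f q', q = TM2.Stmt.push k f q' ∧ g = f v} := by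
      rintro g (h | ⟨q, hq, v, f, q', h⟩)
      · exact absurd h hk
      · simp only [Set.mem_iUnion]
        exact ⟨q, hq, v, Set.mem_univ v, f, q', h⟩
    refine Set.Finite.subset (Set.Finite.biUnion Qf.finite_toSet fun q _ =>
      Set.Finite.biUnion Set.finite_univ fun v _ => ?_) h1
    refine Set.Subsingleton.finite ?_
    rintro g ⟨f, q', h2, h3⟩ g' ⟨f', q'', h4, h5⟩
    rw [h2] at h4
    injection h4 with _ h6 h7
    rw [h3, h5, h6]
  obtain ⟨s, code₀, dec₀, hc1, hc2, -⟩ := UV.exists_codes M V hV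
  let code : ∀ k, M.tm.Γ k → Fin (s + 1) := fun k g => ⟨min (code₀ k g) s, by omega⟩
  let dec : ∀ k, Fin (s + 1) → Option (M.tm.Γ k) := fun k n => dec₀ k n.1
  have hdc : ∀ k, ∀ g ∈ V k, dec k (code k g) = some g := by
    intro k g hg
    have h1 := hc1 k g hg
    show dec₀ k (min (code₀ k g) s) = some g
    rw [min_eq_left h1.le]
    exact hc2 k g hg
  -- the stacks
  obtain ⟨ix, hixinj, hix0, hix1⟩ := nmof_ix (m := m) hM M.tm.k₀ M.tm.k₁
  -- the states
  have hmainQ : M.tm.m M.tm.main ∈ Qf := by
    rw [hQf, Finset.mem_biUnion]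
    exact ⟨M.tm.main, Finset.mem_univ _, TM2.stmts₁_self⟩
  let X : Type := {q // q ∈ Qf} × M.tm.σ
  let e : X ≃ Fin (Fintype.card X) := Fintype.equivFin X
  let idx : TM2.Stmt M.tm.Γ M.tm.Λ M.tm.σ → M.tm.σ → Fin (Fintype.card X) := fun q v =>
    if h : q ∈ Qf then e (⟨q, h⟩, v) else e (⟨_, hmainQ⟩, v)
  have hidx : ∀ q (hq : q ∈ Qf) v, idx q v = e (⟨q, hq⟩, v) := fun q hq v => dif_pos hq
  let W : NM m :=
    { S := s + 1
      Q := Fintype.card X
      q0 := idx (M.tm.m M.tm.main) M.tm.initialState
      ins := fun i => nmofRow M.tm.m ix code dec idx (ix M.tm.k₁) (e.symm i).1.1 (e.symm i).2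
      inp := fun b => code M.tm.k₀ (M.inputAlphabet.invFun b)
      out := fun n => ((dec M.tm.k₁ n).map M.outputAlphabet).getD false
      ko := ix M.tm.k₁ }
  have hG : NmofGood M.tm.m W ix code dec idx V (Qf : Set _) := by
    refine ⟨fun q hq v => ?_, hdc, hixinj, ?_, ?_, ?_, ?_, ?_, ?_⟩
    · rw [hidx q hq v]
      show nmofRow M.tm.m ix code dec idx (ix M.tm.k₁) (e.symm (e (⟨q, hq⟩, v))).1.1
        (e.symm (e (⟨q, hq⟩, v))).2 = nmofRow M.tm.m ix code dec idx (ix M.tm.k₁) q v
      rw [Equiv.symm_apply_apply]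
    · intro k f q hq
      refine ⟨hsub _ q hq ?_, fun v => Or.inr ⟨_, hq, v, f, q, rfl, rfl⟩⟩
      rw [TM2.stmts₁]
      exact Finset.mem_insert_of_mem TM2.stmts₁_self
    · intro k f q hq
      refine hsub _ q hq ?_
      rw [TM2.stmts₁]
      exact Finset.mem_insert_of_mem TM2.stmts₁_self
    · intro k f q hq
      refine hsub _ q hq ?_
      rw [TM2.stmts₁]
      exact Finset.mem_insert_of_mem TM2.stmts₁_self
    · intro a q hq
      refine hsub _ q hq ?_
      rw [TM2.stmts₁]
      exact Finset.mem_insert_of_mem TM2.stmts₁_self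
    · intro f q₁ q₂ hq
      refine ⟨hsub _ q₁ hq ?_, hsub _ q₂ hq ?_⟩
      · rw [TM2.stmts₁]
        exact Finset.mem_insert_of_mem (Finset.mem_union_left _ TM2.stmts₁_self)
      · rw [TM2.stmts₁]
        exact Finset.mem_insert_of_mem (Finset.mem_union_right _ TM2.stmts₁_self)
    · intro l
      rw [hQf, Finset.mem_coe, Finset.mem_biUnion]
      exact ⟨l, Finset.mem_univ l, TM2.stmts₁_self⟩
  -- the bound for the statements
  set B : ℕ := ∑ l, UV.depth (M.tm.m l) with hB
  have hB' : ∀ l, UV.depth (M.tm.m l) ≤ B := fun l =>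
    Finset.single_le_sum (f := fun l => UV.depth (M.tm.m l)) (fun _ _ => Nat.zero_le _)
      (Finset.mem_univ l)
  refine ⟨W, B, hix1, fun d x t hout s' hs' => ?_⟩
  obtain ⟨⟨⟨n, hn⟩, hnt⟩⟩ := hout
  have hinit : NmofR W ix code idx V (M.tm.m M.tm.main) M.tm.initialState
      (initList M.tm (d.map M.inputAlphabet.invFun)).stk (W.init d) := by
    refine ⟨rfl, fun k => ?_, fun k g hg => ?_⟩
    · by_cases hk : k = M.tm.k₀
      · subst hk
        have h2 : (initList M.tm (d.map M.inputAlphabet.invFun)).stk M.tm.k₀ =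
            d.map M.inputAlphabet.invFun := by
          simp [initList]
        rw [h2, hix0, List.map_map]
        rfl
      · have h2 : (initList M.tm (d.map M.inputAlphabet.invFun)).stk k = [] := by
          simp [initList, hk]
        rw [h2, List.map_nil]
        have h3 : ix k ≠ .a := fun h => hk (hixinj (h.trans hix0.symm))
        show (W.init d).2.get (ix k) = []
        rcases hik : ix k with _ | _ | _ | _ | i
        · exact absurd hik h3
        all_goals rfl
    · by_cases hk : k = M.tm.k₀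
      · exact Or.inl hk
      · have h2 : (initList M.tm (d.map M.inputAlphabet.invFun)).stk k = [] := by
          simp [initList, hk]
        rw [h2] at hg
        exact absurd hg (by simp)
  obtain ⟨j, hj, hhalt, hR⟩ := nmof_sim_main hG hB' n M.tm.main M.tm.initialState
    (initList M.tm (d.map M.inputAlphabet.invFun)).stk (W.init d) hinit M.tm.initialState
    (haltList M.tm (x.map M.outputAlphabet.invFun)).stk hn
  have hhal : W.hal (W.step^[j] (W.init d)) := by
    unfold NM.hal
    rw [nmof_ins hG hR hhalt]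
    rfl
  have hval : W.val j d = x := by
    unfold NM.val
    have h1 : (W.step^[j] (W.init d)).2.get W.ko =
        ((haltList M.tm (x.map M.outputAlphabet.invFun)).stk M.tm.k₁).map (code M.tm.k₁) :=
      hR.stk M.tm.k₁
    have h2 : (haltList M.tm (x.map M.outputAlphabet.invFun)).stk M.tm.k₁ =
        x.map M.outputAlphabet.invFun := by
      simp [haltList]
    rw [h1, List.map_map, h2, List.map_map]
    refine (List.map_congr_left fun b hb => ?_).trans (List.map_id x)
    have h3 : M.outputAlphabet.invFun b ∈ V M.tm.k₁ := by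
      refine hR.val M.tm.k₁ _ ?_
      rw [h2]
      exact List.mem_map_of_mem hb
    show ((dec M.tm.k₁ (code M.tm.k₁ (M.outputAlphabet.invFun b))).map M.outputAlphabet).getD false = id b
    rw [hdc _ _ h3]
    simp
  have hjs : j ≤ s' := by
    calc j ≤ B * n := hj
      _ ≤ B * (t + 1) := Nat.mul_le_mul_left _ (hnt.trans (Nat.le_succ t))
      _ ≤ s' := hs'
  have heq : W.step^[s'] (W.init d) = W.step^[j] (W.init d) := by
    rw [← Nat.sub_add_cancel hjs, Function.iterate_add_apply]
    exact W.step_iter_of_hal hhal _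
  refine ⟨by rw [heq]; exact hhal, ?_⟩
  rw [← hval]
  unfold NM.val
  rw [heq]

end Pool.Agent.Lib.MP_33f9c4_lc.TT
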