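import Pool.Agent.Lib.MP_33f9c4_lc.T.Mac
import Pool.Agent.Lib.MP_33f9c4_lc.T.NMof

set_option autoImplicit false

/-!
MODULE Few. Every normalised machine (with any number `m'` of stacks) is simulated above the frames with quadratic
overhead; then every Turing machine, then every function in PT.

LAYOUT: the stacks `k₁, ..., k_r` (`r = m' + 4`, in a fixed order, e.g. `a, b, c, d, x 0, ...`) of the simulated machine
are written one after the other on stack `a` with a separator `hs` after each one: `st₁ hs st₂ hs ... st_r hs ++ frame`,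
each symbol `g` is the letter `.e g`. The state is the letter `.e (S + q)` on top of stack `b`; stack `c` is auxiliary. TURN (loop on `b` while the top is a state
letter): pop the state; to operate on the `i`-th stack move `i - 1` segments with their separators to `c` (push `mk` on `c`
first; for each: move the symbols until `hs`, move `hs`), operate on the top of `a` (a symbol, or `hs` = empty), then move
everything of `c` back (until `mk`, pop it). Push the new state; `halt`: push `re` on `b`. Cost of a turn: at most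
a constant times the total length, which grows by at most one per step.
BEGINNING: from `bw w ++ hs :: α`: change the bits `b` to `.e (inp b)` (move to `c`, move back), then push the `r - 1` further
separators below: i.e. when the word is on `c` push `r - 1` letters `hs` on `a` first (the old `hs` of the frame is one of the
`r`). END: bring the output stack `ko` to the form `bw x ++ hs :: α`: move it (as bits) to `b`..., delete the other segments.
`few_machine`: `nm_of_machine` with `m'` large enough. `few_pt`: `PT.computable` gives a Turing machine (with the codes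
`code z`, `code (f z)`, `code l = (enc l).ser`; for a list of bits: `true :: (if b then [true, false, false] else [false])` for each
bit, at the end `[false]`); programs for the conversion of `bw z` to `bw (code z)` and back on `a`, `b`, `c`.
-/

namespace Pool.Agent.Lib.MP_33f9c4_lc.TT

open Pool.Agent.Lib.PolyTime

variable {m m' : ℕ}

/-- the letter is an extra letter -/
private def fwE {N : ℕ} : Lt N → Bool
  | .e _ => true
  | _ => false

/-- the stacks in a fixed order -/
private noncomputable def fwK (m' : ℕ) : List (Ix m') :=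
  Ix.a :: (Finset.univ.filter (fun k : Ix m' => k ≠ Ix.a)).toList

private theorem fwK_mem (k : Ix m') : k ∈ fwK m' := by
  unfold fwK
  rw [List.mem_cons, Finset.mem_toList, Finset.mem_filter]
  by_cases h : k = Ix.a
  · exact Or.inl h
  · exact Or.inr ⟨Finset.mem_univ _, h⟩

private theorem fwK_nodup : (fwK m').Nodup := by
  unfold fwK
  rw [List.nodup_cons, Finset.mem_toList, Finset.mem_filter]
  exact ⟨fun h => h.2 rfl, Finset.nodup_toList _⟩

private theorem fwK_dec (k : Ix m') : ∃ pre : List (Ix m'), ∃ post : List (Ix m'),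
    fwK m' = pre ++ k :: post ∧ k ∉ pre ∧ k ∉ post := by
  obtain ⟨pre, post, h⟩ := List.append_of_mem (fwK_mem k)
  refine ⟨pre, post, h, ?_, ?_⟩
  · have h1 := fwK_nodup (m' := m')
    rw [h, List.nodup_append] at h1
    intro hk
    exact h1.2.2 k hk k (by simp) rfl
  · have h1 := fwK_nodup (m' := m')
    rw [h, List.nodup_append] at h1
    exact (List.nodup_cons.1 h1.2.1).1

/-- the number of stacks before `k` -/
private noncomputable def fwI (k : Ix m') : ℕ := (Classical.choose (fwK_dec k)).length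

private theorem fwI_spec (k : Ix m') : ∃ pre post : List (Ix m'),
    fwK m' = pre ++ k :: post ∧ k ∉ pre ∧ k ∉ post ∧ pre.length = fwI k := by
  obtain ⟨post, h⟩ := Classical.choose_spec (fwK_dec k)
  exact ⟨_, post, h.1, h.2.1, h.2.2, rfl⟩

section
variable (V : NM m') {N : ℕ}

/-- the letter of a symbol -/
private def fwS (hN : V.S + V.Q ≤ N) (g : Fin V.S) : Lt N := .e ⟨g, by omega⟩

/-- the letter of a state -/
private def fwQ (hN : V.S + V.Q ≤ N) (q : Fin V.Q) : Lt N := .e ⟨V.S + q, by omega⟩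

/-- the symbol of a letter -/
private def fwG : Lt N → Option (Fin V.S)
  | .e n => if h : n.val < V.S then some ⟨n, h⟩ else none
  | _ => none

/-- the state of a letter -/
private def fwR : Lt N → Option (Fin V.Q)
  | .e n => if h : n.val - V.S < V.Q then some ⟨n - V.S, h⟩ else none
  | _ => none

private theorem fwG_S (hN : V.S + V.Q ≤ N) (g : Fin V.S) : fwG V (fwS V hN g) = some g := by
  unfold fwG fwS
  simp

private theorem fwG_hs : fwG V (Lt.hs : Lt N) = none := rfl

private theorem fwR_Q (hN : V.S + V.Q ≤ N) (q : Fin V.Q) : fwR V (fwQ V hN q) = some q := by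
  unfold fwR fwQ
  simp

private theorem fwE_S (hN : V.S + V.Q ≤ N) (g : Fin V.S) : fwE (fwS V hN g) = true := rfl

/-- the segment of a stack -/
private def fwT (hN : V.S + V.Q ≤ N) (l : List (Fin V.S)) : List (Lt N) := l.map (fwS V hN) ++ [.hs]

/-- the segments -/
private def fwL (hN : V.S + V.Q ≤ N) (ls : List (List (Fin V.S))) : List (Lt N) :=
  ls.flatMap (fwT V hN)

/-- the word of all stacks -/
private noncomputable def fwA (hN : V.S + V.Q ≤ N) (s : Sta m' (Fin V.S)) : List (Lt N) :=
  fwL V hN ((fwK m').map s.get)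

/-- the total length -/
private noncomputable def fwN (s : Sta m' (Fin V.S)) : ℕ := (((fwK m').map s.get).map List.length).sum

private theorem fwT_length (hN : V.S + V.Q ≤ N) (l : List (Fin V.S)) : (fwT V hN l).length = l.length + 1 := by
  unfold fwT
  simp

private theorem fwL_length (hN : V.S + V.Q ≤ N) (ls : List (List (Fin V.S))) :
    (fwL V hN ls).length = (ls.map List.length).sum + ls.length := by
  unfold fwL
  induction ls with
  | nil => simp
  | cons l ls ih =>
    rw [List.flatMap_cons, List.length_append, ih, fwT_length]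
    simp only [List.map_cons, List.sum_cons, List.length_cons]
    omega

private theorem fwL_ne (hN : V.S + V.Q ≤ N) (ls : List (List (Fin V.S))) : ∀ v ∈ fwL V hN ls, v ≠ .mk := by
  intro v hv
  unfold fwL at hv
  rw [List.mem_flatMap] at hv
  obtain ⟨l, -, hv⟩ := hv
  unfold fwT at hv
  rw [List.mem_append, List.mem_map, List.mem_singleton] at hv
  rcases hv with ⟨g, -, rfl⟩ | rfl
  · unfold fwS
    exact fun h => by cases h
  · exact fun h => by cases h

/-- access to one stack -/
private theorem fw_split (hN : V.S + V.Q ≤ N) (s : Sta m' (Fin V.S)) (k : Ix m') :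
    ∃ ls1 ls2 : List (List (Fin V.S)), ls1.length = fwI k ∧
      ls1.length + 1 + ls2.length = (fwK m').length ∧
      (∀ l, fwA V hN (s.set k l) = fwL V hN ls1 ++ (fwT V hN l ++ fwL V hN ls2)) ∧
      (∀ l, fwN V (s.set k l) = (ls1.map List.length).sum + l.length + (ls2.map List.length).sum) := by
  obtain ⟨pre, post, h1, h2, h3, h4⟩ := fwI_spec k
  have e1 : ∀ l, pre.map (s.set k l).get = pre.map s.get := by
    intro l
    refine List.map_congr_left fun j hj => ?_
    exact Sta.get_set_of_ne _ (fun h : j = k => h2 (by rw [← h]; exact hj)) _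
  have e2 : ∀ l, post.map (s.set k l).get = post.map s.get := by
    intro l
    refine List.map_congr_left fun j hj => ?_
    exact Sta.get_set_of_ne _ (fun h : j = k => h3 (by rw [← h]; exact hj)) _
  refine ⟨pre.map s.get, post.map s.get, by rw [List.length_map, h4], ?_, ?_, ?_⟩
  · rw [h1]
    simp only [List.length_map, List.length_append, List.length_cons]
    omega
  · intro l
    unfold fwA fwL
    rw [h1, List.map_append, List.map_cons, e1, e2, Sta.get_set_self, List.flatMap_append,
      List.flatMap_cons]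
  · intro l
    unfold fwN
    rw [h1, List.map_append, List.map_cons, e1, e2, Sta.get_set_self]
    simp only [List.map_append, List.map_cons, List.sum_append, List.sum_cons]
    omega

/-- move a segment from `a` to `c` -/
private def fwMs : LP m (Lt N) := .seq (mv .a .c fwE id) (.seq (pop1 .a) (.push .c .hs))

private theorem fwMs_run (hN : V.S + V.Q ≤ N) (l : List (Fin V.S)) (A B C D : List (Lt N)) (X : Fin m → List (Lt N)) :
    LR fwMs ⟨fwT V hN l ++ A, B, C, D, X⟩ ⟨A, B, (fwT V hN l).reverse ++ C, D, X⟩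
      (3 * l.length + 4) := by
  have h1 := mv_run (k := .a) (k' := .c) (by exact fun h => by cases h) (p := fwE) id
    (s := (⟨fwT V hN l ++ A, B, C, D, X⟩ : Sta m (Lt N))) (l := l.map (fwS V hN)) (v := .hs) (r := A)
    (by unfold fwT; simp [Sta.get]) (by
      intro u hu
      rw [List.mem_map] at hu
      obtain ⟨g, -, rfl⟩ := hu
      rfl) rfl
  simp only [Sta.set, Sta.get, List.map_id, List.length_map] at h1
  have h2 := pop1_run (k := .a) (s := (⟨.hs :: A, B, (l.map (fwS V hN)).reverse ++ C, D, X⟩ :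
    Sta m (Lt N))) (v := .hs) (r := A) rfl
  have h3 := LR.push .c .hs (⟨A, B, (l.map (fwS V hN)).reverse ++ C, D, X⟩ : Sta m (Lt N))
  simp only [Sta.set, Sta.get] at h2 h3
  have e : (fwT V hN l).reverse ++ C = .hs :: ((l.map (fwS V hN)).reverse ++ C) := by
    unfold fwT
    simp
  rw [e]
  exact (h1.seq (h2.seq h3)).mono (by omega)

private theorem fwMss_run (hN : V.S + V.Q ≤ N) (ls : List (List (Fin V.S))) : ∀ (A B C D : List (Lt N))
    (X : Fin m → List (Lt N)),
    LR (seqs (List.replicate ls.length fwMs)) ⟨fwL V hN ls ++ A, B, C, D, X⟩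
      ⟨A, B, (fwL V hN ls).reverse ++ C, D, X⟩
      (3 * (ls.map List.length).sum + 4 * ls.length + 1) := by
  induction ls with
  | nil =>
    intro A B C D X
    exact LR.skip _
  | cons l ls ih =>
    intro A B C D X
    have e1 : fwL V hN (l :: ls) ++ A = fwT V hN l ++ (fwL V hN ls ++ A) := by
      unfold fwL
      rw [List.flatMap_cons, List.append_assoc]
    have e2 : (fwL V hN (l :: ls)).reverse ++ C =
        (fwL V hN ls).reverse ++ ((fwT V hN l).reverse ++ C) := by
      unfold fwL
      rw [List.flatMap_cons, List.reverse_append, List.append_assoc]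
    rw [e1, e2, List.length_cons, List.replicate_succ]
    refine ((fwMs_run V hN l _ B C D X).seq (ih A B _ D X)).mono ?_
    simp only [List.map_cons, List.sum_cons]
    omega

/-- work at segment `i` -/
private def fwAt (i : ℕ) (P : LP m (Lt N)) : LP m (Lt N) :=
  .seq (.push .c .mk) (.seq (seqs (List.replicate i fwMs)) (.seq P
    (.seq (mv .c .a (fun v => decide (v ≠ .mk)) id) (pop1 .c))))

private theorem fwAt_run (hN : V.S + V.Q ≤ N) (ls : List (List (Fin V.S))) {P : LP m (Lt N)}
    {A A' B B' C D : List (Lt N)} {X : Fin m → List (Lt N)} {t : ℕ}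
    (h : LR P ⟨A, B, (fwL V hN ls).reverse ++ .mk :: C, D, X⟩
      ⟨A', B', (fwL V hN ls).reverse ++ .mk :: C, D, X⟩ t) :
    LR (fwAt ls.length P) ⟨fwL V hN ls ++ A, B, C, D, X⟩ ⟨fwL V hN ls ++ A', B', C, D, X⟩
      (6 * (ls.map List.length).sum + 7 * ls.length + 5 + t) := by
  have h1 := LR.push .c .mk (⟨fwL V hN ls ++ A, B, C, D, X⟩ : Sta m (Lt N))
  simp only [Sta.set, Sta.get] at h1
  have h2 := fwMss_run V hN ls A B (.mk :: C) D X
  have h3 := mv_run (k := .c) (k' := .a) (by exact fun h => by cases h) (p := fun v => decide (v ≠ .mk)) id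
    (s := (⟨A', B', (fwL V hN ls).reverse ++ .mk :: C, D, X⟩ : Sta m (Lt N)))
    (l := (fwL V hN ls).reverse) (v := .mk) (r := C) rfl (by
      intro u hu
      rw [List.mem_reverse] at hu
      simpa using fwL_ne V hN ls u hu) (by simp)
  simp only [Sta.set, Sta.get, List.map_id, List.reverse_reverse, List.length_reverse,
    fwL_length] at h3
  have h4 := pop1_run (k := .c) (s := (⟨fwL V hN ls ++ A', B', .mk :: C, D, X⟩ : Sta m (Lt N)))
    (v := .mk) (r := C) rfl
  simp only [Sta.set] at h4
  exact (h1.seq (h2.seq (h.seq (h3.seq h4)))).mono (by omega)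

/-- one instruction -/
private noncomputable def fwOp (hN : V.S + V.Q ≤ N) : NI m' (Fin V.S) (Fin V.Q) → LP m (Lt N)
  | .push k g q => fwAt (fwI k) (.seq (.push .a (fwS V hN g)) (.push .b (fwQ V hN q)))
  | .pop k f => fwAt (fwI k) (.pop .a fun v => match fwG V v with
    | some g => .push .b (fwQ V hN (f (some g)))
    | none => .seq (.push .a .hs) (.push .b (fwQ V hN (f none))))
  | .peek k f => fwAt (fwI k) (.pop .a fun v => match fwG V v with
    | some g => .seq (.push .a (fwS V hN g)) (.push .b (fwQ V hN (f (some g))))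
    | none => .seq (.push .a .hs) (.push .b (fwQ V hN (f none))))
  | .halt => .push .b .re

/-- one turn -/
private noncomputable def fwTu (hN : V.S + V.Q ≤ N) : LP m (Lt N) := .pop .b fun v =>
  match fwR V v with
  | some q => fwOp V hN (V.ins q)
  | none => .skip

private theorem fwTu_run (hN : V.S + V.Q ≤ N) (c : NC V) (hc : ¬ V.hal c) (α β γ δ : List (Lt N))
    (ξ : Fin m → List (Lt N)) :
    LR (fwTu V hN) ⟨fwA V hN c.2 ++ α, fwQ V hN c.1 :: β, γ, δ, ξ⟩
      ⟨fwA V hN (V.step c).2 ++ α, fwQ V hN (V.step c).1 :: β, γ, δ, ξ⟩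
      ((7 * (fwK m').length + 12) * (fwN V c.2 + 1)) ∧ fwN V (V.step c).2 ≤ fwN V c.2 + 1 := by
  -- the bound
  have hbd : ∀ x y : ℕ, x ≤ fwN V c.2 → y ≤ (fwK m').length → 6 * x + 7 * y + 5 + 4 + 1 ≤
      (7 * (fwK m').length + 12) * (fwN V c.2 + 1) := by
    intro x y hx hy
    nlinarith [Nat.zero_le ((fwK m').length * fwN V c.2)]
  have hpop : ∀ (s' : Sta m (Lt N)) (t : ℕ),
      LR (fwOp V hN (V.ins c.1)) ⟨fwA V hN c.2 ++ α, β, γ, δ, ξ⟩ s' t →
      LR (fwTu V hN) ⟨fwA V hN c.2 ++ α, fwQ V hN c.1 :: β, γ, δ, ξ⟩ s' (t + 1) := by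
    intro s' t h
    refine LR.pop (v := fwQ V hN c.1) (l := β) rfl ?_
    simp only [fwR_Q]
    exact h
  cases hi : V.ins c.1 with
  | push k g q =>
    obtain ⟨ls1, ls2, h1, h2, h3, h4⟩ := fw_split V hN c.2 k
    have e1 : V.step c = (q, c.2.set k (g :: c.2.get k)) := by
      unfold NM.step
      rw [hi]
    have e2 : fwA V hN c.2 = fwL V hN ls1 ++ (fwT V hN (c.2.get k) ++ fwL V hN ls2) := by
      rw [← h3, Sta.set_get]
    have e3 : fwN V c.2 = (ls1.map List.length).sum + (c.2.get k).length +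
        (ls2.map List.length).sum := by
      rw [← h4, Sta.set_get]
    have h5 : LR (.seq (.push .a (fwS V hN g)) (.push .b (fwQ V hN q)) : LP m (Lt N))
        ⟨fwT V hN (c.2.get k) ++ fwL V hN ls2 ++ α, β, (fwL V hN ls1).reverse ++ .mk :: γ, δ, ξ⟩
        ⟨fwT V hN (g :: c.2.get k) ++ fwL V hN ls2 ++ α, fwQ V hN q :: β,
          (fwL V hN ls1).reverse ++ .mk :: γ, δ, ξ⟩ (1 + 1) :=
      (LR.push .a (fwS V hN g) _).seq (LR.push .b (fwQ V hN q) _)
    have h6 := fwAt_run V hN ls1 h5
    rw [h1] at h6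
    refine ⟨?_, ?_⟩
    · rw [e1]
      simp only
      rw [h3]
      refine (hpop _ (6 * (ls1.map List.length).sum + 7 * ls1.length + 5 + 4) ?_).mono ?_
      · rw [hi, e2]
        simp only [List.append_assoc] at h6 ⊢
        exact h6.mono (by rw [h1]; omega)
      · exact hbd _ _ (by omega) (by omega)
    · rw [e1]
      simp only
      rw [h4, e3, List.length_cons]
      omega
  | pop k f =>
    obtain ⟨ls1, ls2, h1, h2, h3, h4⟩ := fw_split V hN c.2 k
    have e1 : V.step c = (f (c.2.get k).head?, c.2.set k (c.2.get k).tail) := by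
      unfold NM.step
      rw [hi]
    have e2 : fwA V hN c.2 = fwL V hN ls1 ++ (fwT V hN (c.2.get k) ++ fwL V hN ls2) := by
      rw [← h3, Sta.set_get]
    have e3 : fwN V c.2 = (ls1.map List.length).sum + (c.2.get k).length +
        (ls2.map List.length).sum := by
      rw [← h4, Sta.set_get]
    have h5 : LR (.pop .a fun v => match fwG V v with
        | some g => .push .b (fwQ V hN (f (some g)))
        | none => .seq (.push .a .hs) (.push .b (fwQ V hN (f none))) : LP m (Lt N))
        ⟨fwT V hN (c.2.get k) ++ fwL V hN ls2 ++ α, β, (fwL V hN ls1).reverse ++ .mk :: γ, δ, ξ⟩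
        ⟨fwT V hN (c.2.get k).tail ++ fwL V hN ls2 ++ α, fwQ V hN (f (c.2.get k).head?) :: β,
          (fwL V hN ls1).reverse ++ .mk :: γ, δ, ξ⟩ (1 + 1 + 1) := by
      cases hg : c.2.get k with
      | nil =>
        refine LR.pop (v := .hs) (l := fwL V hN ls2 ++ α) rfl ?_
        exact (LR.push .a .hs _).seq (LR.push .b (fwQ V hN (f none)) _)
      | cons g l =>
        refine LR.pop (v := fwS V hN g) (l := fwT V hN l ++ fwL V hN ls2 ++ α) rfl ?_
        simp only [fwG_S]
        exact (LR.push .b (fwQ V hN (f (some g))) _).mono (by norm_num)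
    have h6 := fwAt_run V hN ls1 h5
    rw [h1] at h6
    refine ⟨?_, ?_⟩
    · rw [e1]
      simp only
      rw [h3]
      refine (hpop _ (6 * (ls1.map List.length).sum + 7 * ls1.length + 5 + 4) ?_).mono ?_
      · rw [hi, e2]
        simp only [List.append_assoc] at h6 ⊢
        exact h6.mono (by rw [h1]; omega)
      · exact hbd _ _ (by omega) (by omega)
    · rw [e1]
      simp only
      rw [h4, e3, List.length_tail]
      omega
  | peek k f =>
    obtain ⟨ls1, ls2, h1, h2, h3, h4⟩ := fw_split V hN c.2 k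
    have e1 : V.step c = (f (c.2.get k).head?, c.2) := by
      unfold NM.step
      rw [hi]
    have e2 : fwA V hN c.2 = fwL V hN ls1 ++ (fwT V hN (c.2.get k) ++ fwL V hN ls2) := by
      rw [← h3, Sta.set_get]
    have e3 : fwN V c.2 = (ls1.map List.length).sum + (c.2.get k).length +
        (ls2.map List.length).sum := by
      rw [← h4, Sta.set_get]
    have h5 : LR (.pop .a fun v => match fwG V v with
        | some g => .seq (.push .a (fwS V hN g)) (.push .b (fwQ V hN (f (some g))))
        | none => .seq (.push .a .hs) (.push .b (fwQ V hN (f none))) : LP m (Lt N))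
        ⟨fwT V hN (c.2.get k) ++ fwL V hN ls2 ++ α, β, (fwL V hN ls1).reverse ++ .mk :: γ, δ, ξ⟩
        ⟨fwT V hN (c.2.get k) ++ fwL V hN ls2 ++ α, fwQ V hN (f (c.2.get k).head?) :: β,
          (fwL V hN ls1).reverse ++ .mk :: γ, δ, ξ⟩ (1 + 1 + 1) := by
      cases hg : c.2.get k with
      | nil =>
        refine LR.pop (v := .hs) (l := fwL V hN ls2 ++ α) rfl ?_
        exact (LR.push .a .hs _).seq (LR.push .b (fwQ V hN (f none)) _)
      | cons g l =>
        refine LR.pop (v := fwS V hN g) (l := fwT V hN l ++ fwL V hN ls2 ++ α) rfl ?_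
        simp only [fwG_S]
        exact (LR.push .a (fwS V hN g) _).seq (LR.push .b (fwQ V hN (f (some g))) _)
    have h6 := fwAt_run V hN ls1 h5
    rw [h1] at h6
    refine ⟨?_, ?_⟩
    · rw [e1]
      simp only
      refine (hpop _ (6 * (ls1.map List.length).sum + 7 * ls1.length + 5 + 4) ?_).mono ?_
      · rw [hi, e2]
        simp only [List.append_assoc] at h6 ⊢
        exact h6.mono (by rw [h1]; omega)
      · exact hbd _ _ (by omega) (by omega)
    · rw [e1]
      simp
  | halt => exact absurd hi hc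

private theorem fwLo_run (hN : V.S + V.Q ≤ N) (α β γ δ : List (Lt N)) (ξ : Fin m → List (Lt N)) : ∀ (s : ℕ) (c : NC V),
    V.hal (V.step^[s] c) →
    LR (.loop .b fwE (fwTu V hN)) ⟨fwA V hN c.2 ++ α, fwQ V hN c.1 :: β, γ, δ, ξ⟩
      ⟨fwA V hN (V.step^[s] c).2 ++ α, .re :: β, γ, δ, ξ⟩
      (s * ((7 * (fwK m').length + 12) * (fwN V c.2 + s + 1) + 1) + 4) ∧
      fwN V (V.step^[s] c).2 ≤ fwN V c.2 + s := by
  -- the last turn
  have hlast : ∀ c : NC V, V.hal c →
      LR (.loop .b fwE (fwTu V hN)) ⟨fwA V hN c.2 ++ α, fwQ V hN c.1 :: β, γ, δ, ξ⟩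
      ⟨fwA V hN c.2 ++ α, .re :: β, γ, δ, ξ⟩ 4 := by
    intro c hc
    have h1 : LR (fwTu V hN) ⟨fwA V hN c.2 ++ α, fwQ V hN c.1 :: β, γ, δ, ξ⟩
        (⟨fwA V hN c.2 ++ α, .re :: β, γ, δ, ξ⟩ : Sta m (Lt N)) (1 + 1) := by
      refine LR.pop (v := fwQ V hN c.1) (l := β) rfl ?_
      simp only [fwR_Q]
      unfold NM.hal at hc
      rw [hc]
      exact LR.push .b Lt.re _
    exact (LR.loopT (v := fwQ V hN c.1) (l := β) rfl rfl h1
      (LR.loopF (v := .re) (l := β) rfl rfl)).mono (by norm_num)
  intro s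
  induction s with
  | zero =>
    intro c hc
    exact ⟨(hlast c hc).mono (by omega), by simp⟩
  | succ s ih =>
    intro c hc
    by_cases hh : V.hal c
    · rw [V.step_iter_of_hal hh]
      exact ⟨(hlast c hh).mono (by omega), by omega⟩
    · rw [Function.iterate_succ_apply] at hc ⊢
      obtain ⟨h1, h2⟩ := fwTu_run V hN c hh α β γ δ ξ
      obtain ⟨h3, h4⟩ := ih (V.step c) hc
      refine ⟨?_, by omega⟩
      refine (LR.loopT (v := fwQ V hN c.1) (l := β) rfl rfl h1 h3).mono ?_
      set K := 7 * (fwK m').length + 12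
      set x := fwN V c.2
      set y := fwN V (V.step c).2
      have e1 : K * (x + 1) ≤ K * (x + (s + 1) + 1) := Nat.mul_le_mul_left _ (by omega)
      have e2 : s * (K * (y + s + 1) + 1) ≤ s * (K * (x + (s + 1) + 1) + 1) :=
        Nat.mul_le_mul_left _ (Nat.add_le_add_right (Nat.mul_le_mul_left _ (by omega)) 1)
      have e3 : (s + 1) * (K * (x + (s + 1) + 1) + 1) =
          s * (K * (x + (s + 1) + 1) + 1) + (K * (x + (s + 1) + 1) + 1) := by ring
      omega

/-- delete a segment -/
private def fwDs : LP m (Lt N) := .seq (del .a fwE) (pop1 .a)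

private theorem fwDs_run (hN : V.S + V.Q ≤ N) (l : List (Fin V.S)) (A B C D : List (Lt N)) (X : Fin m → List (Lt N)) :
    LR fwDs ⟨fwT V hN l ++ A, B, C, D, X⟩ ⟨A, B, C, D, X⟩ (3 * l.length + 3) := by
  have h1 := del_run (k := .a) (p := fwE)
    (s := (⟨fwT V hN l ++ A, B, C, D, X⟩ : Sta m (Lt N))) (l := l.map (fwS V hN)) (v := .hs) (r := A)
    (by unfold fwT; simp [Sta.get]) (by
      intro u hu
      rw [List.mem_map] at hu
      obtain ⟨g, -, rfl⟩ := hu
      rfl) rfl
  simp only [Sta.set, List.length_map] at h1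
  have h2 := pop1_run (k := .a) (s := (⟨.hs :: A, B, C, D, X⟩ : Sta m (Lt N))) (v := .hs) (r := A) rfl
  simp only [Sta.set] at h2
  exact (h1.seq h2).mono (by omega)

private theorem fwDss_run (hN : V.S + V.Q ≤ N) (ls : List (List (Fin V.S))) : ∀ (A B C D : List (Lt N))
    (X : Fin m → List (Lt N)),
    LR (seqs (List.replicate ls.length fwDs)) ⟨fwL V hN ls ++ A, B, C, D, X⟩
      ⟨A, B, C, D, X⟩ (3 * (ls.map List.length).sum + 3 * ls.length + 1) := by
  induction ls with
  | nil =>
    intro A B C D X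
    exact LR.skip _
  | cons l ls ih =>
    intro A B C D X
    have e1 : fwL V hN (l :: ls) ++ A = fwT V hN l ++ (fwL V hN ls ++ A) := by
      unfold fwL
      rw [List.flatMap_cons, List.append_assoc]
    rw [e1, List.length_cons, List.replicate_succ]
    refine ((fwDs_run V hN l _ B C D X).seq (ih A B C D X)).mono ?_
    simp only [List.map_cons, List.sum_cons]
    omega

/-- the bit of a symbol letter -/
private def fwO (v : Lt N) : Lt N :=
  match fwG V v with
  | some g => bt (V.out g)
  | none => .o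

/-- the end -/
private noncomputable def fwEn : LP m (Lt N) :=
  .seq (seqs (List.replicate (fwI V.ko) fwDs)) (.seq (.push .c .mk) (.seq (mv .a .c fwE (fwO V))
    (.seq (pop1 .a) (.seq (seqs (List.replicate ((fwK m').length - 1 - fwI V.ko) fwDs))
      (.seq (.push .a .hs) (.seq (mv .c .a isB id) (pop1 .c)))))))

private theorem fwEn_run (hN : V.S + V.Q ≤ N) (s : Sta m' (Fin V.S)) (α β γ δ : List (Lt N)) (ξ : Fin m → List (Lt N)) :
    LR (fwEn V) ⟨fwA V hN s ++ α, β, γ, δ, ξ⟩
      ⟨bw ((s.get V.ko).map V.out) ++ .hs :: α, β, γ, δ, ξ⟩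
      (9 * fwN V s + 3 * (fwK m').length + 10) := by
  obtain ⟨ls1, ls2, h1, h2, h3, h4⟩ := fw_split V hN s V.ko
  have e2 : fwA V hN s = fwL V hN ls1 ++ (fwT V hN (s.get V.ko) ++ fwL V hN ls2) := by
    rw [← h3, Sta.set_get]
  have e3 : fwN V s = (ls1.map List.length).sum + (s.get V.ko).length +
      (ls2.map List.length).sum := by
    rw [← h4, Sta.set_get]
  set l := s.get V.ko with hl
  have g1 := fwDss_run V hN ls1 (fwT V hN l ++ (fwL V hN ls2 ++ α)) β γ δ ξ
  have g2 := LR.push .c .mk (⟨fwT V hN l ++ (fwL V hN ls2 ++ α), β, γ, δ, ξ⟩ : Sta m (Lt N))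
  have g3 := mv_run (k := .a) (k' := .c) (by exact fun h => by cases h) (p := fwE) (fwO V)
    (s := (⟨fwT V hN l ++ (fwL V hN ls2 ++ α), β, .mk :: γ, δ, ξ⟩ : Sta m (Lt N)))
    (l := l.map (fwS V hN)) (v := .hs) (r := fwL V hN ls2 ++ α)
    (by unfold fwT; simp [Sta.get]) (by
      intro u hu
      rw [List.mem_map] at hu
      obtain ⟨g, -, rfl⟩ := hu
      rfl) rfl
  have e4 : (l.map (fwS V hN)).map (fwO V) = (bw (l.map V.out) : List (Lt N)) := by
    unfold bw
    rw [List.map_map, List.map_map]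
    refine List.map_congr_left fun g _ => ?_
    show fwO V (fwS V hN g) = bt (V.out g)
    unfold fwO
    rw [fwG_S]
  rw [e4] at g3
  have g4 := pop1_run (k := .a) (s := (⟨.hs :: (fwL V hN ls2 ++ α), β,
    (bw (l.map V.out)).reverse ++ .mk :: γ, δ, ξ⟩ : Sta m (Lt N))) (v := .hs)
    (r := fwL V hN ls2 ++ α) rfl
  have g5 := fwDss_run V hN ls2 α β ((bw (l.map V.out)).reverse ++ .mk :: γ) δ ξ
  have g6 := LR.push .a .hs (⟨α, β, (bw (l.map V.out)).reverse ++ .mk :: γ, δ, ξ⟩ : Sta m (Lt N))
  have g7 := mv_run (k := .c) (k' := .a) (by exact fun h => by cases h) (p := isB) id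
    (s := (⟨.hs :: α, β, (bw (l.map V.out)).reverse ++ .mk :: γ, δ, ξ⟩ : Sta m (Lt N)))
    (l := (bw (l.map V.out)).reverse) (v := .mk) (r := γ) rfl (by
      intro u hu
      rw [List.mem_reverse] at hu
      unfold bw at hu
      rw [List.mem_map] at hu
      obtain ⟨b, -, rfl⟩ := hu
      exact isB_bt b) rfl
  have g8 := pop1_run (k := .c) (s := (⟨bw (l.map V.out) ++ .hs :: α, β, .mk :: γ, δ, ξ⟩ :
    Sta m (Lt N))) (v := .mk) (r := γ) rfl
  simp only [Sta.set, Sta.get, List.map_id, List.reverse_reverse, List.length_reverse,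
    List.length_map] at g2 g3 g4 g6 g7 g8
  have e5 : (bw (l.map V.out) : List (Lt N)).length = l.length := by
    unfold bw
    simp
  rw [e5] at g7
  rw [e2]
  unfold fwEn
  have e6 : (fwK m').length - 1 - fwI V.ko = ls2.length := by omega
  rw [e6, ← h1]
  simp only [List.append_assoc]
  refine (g1.seq (g2.seq (g3.seq (g4.seq (g5.seq (g6.seq (g7.seq g8))))))).mono ?_
  omega

/-- the beginning -/
private noncomputable def fwBe (hN : V.S + V.Q ≤ N) : LP m (Lt N) :=
  .seq (.push .c .mk) (.seq (mv .a .c isB id)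
    (.seq (seqs (List.replicate ((fwK m').length - 1) (.push .a .hs)))
      (.seq (mv .c .a isB (fun v => fwS V hN (V.inp (vb v)))) (.seq (pop1 .c)
        (.push .b (fwQ V hN V.q0))))))

private theorem fwPh_run (n : ℕ) : ∀ (A B C D : List (Lt N)) (X : Fin m → List (Lt N)),
    LR (seqs (List.replicate n (.push .a .hs))) ⟨A, B, C, D, X⟩
      ⟨List.replicate n .hs ++ A, B, C, D, X⟩ (n + 1) := by
  induction n with
  | zero =>
    intro A B C D X
    exact LR.skip _
  | succ n ih =>
    intro A B C D X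
    have e : List.replicate (n + 1) (Lt.hs : Lt N) ++ A = List.replicate n .hs ++ (.hs :: A) := by
      rw [List.replicate_succ', List.append_assoc]
      rfl
    rw [e, List.replicate_succ]
    have h1 : LR (.push .a .hs) (⟨A, B, C, D, X⟩ : Sta m (Lt N)) ⟨.hs :: A, B, C, D, X⟩ 1 :=
      LR.push .a .hs (⟨A, B, C, D, X⟩ : Sta m (Lt N))
    have h2 := h1.seq (ih (.hs :: A) B C D X)
    exact h2.mono (by omega)

private theorem fwA_init (hN : V.S + V.Q ≤ N) (w : List Bool) : fwA V hN (V.init w).2 =
    (w.map V.inp).map (fwS V hN) ++ List.replicate (fwK m').length .hs ∧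
    fwN V (V.init w).2 = w.length := by
  have h0 : ∀ k ∈ (Finset.univ.filter (fun k : Ix m' => k ≠ Ix.a)).toList,
      (V.init w).2.get k = [] := by
    intro k hk
    rw [Finset.mem_toList, Finset.mem_filter] at hk
    cases k with
    | a => exact absurd rfl hk.2
    | b => rfl
    | c => rfl
    | d => rfl
    | x i => rfl
  have key : ∀ L : List (Ix m'), (∀ k ∈ L, (V.init w).2.get k = []) →
      fwL V hN (L.map (V.init w).2.get) = List.replicate L.length .hs ∧
      ((L.map (V.init w).2.get).map List.length).sum = 0 := by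
    intro L
    induction L with
    | nil => intro _; exact ⟨rfl, rfl⟩
    | cons k L ih =>
      intro h
      obtain ⟨h1, h2⟩ := ih fun j hj => h j (by simp [hj])
      have h3 := h k (by simp)
      constructor
      · unfold fwL at h1 ⊢
        rw [List.map_cons, List.flatMap_cons, h1, h3, List.length_cons, List.replicate_succ]
        rfl
      · rw [List.map_cons, List.map_cons, List.sum_cons, h2, h3]
        rfl
  obtain ⟨h1, h2⟩ := key _ h0
  have ha : (V.init w).2.get .a = w.map V.inp := rfl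
  constructor
  · unfold fwA fwK
    rw [List.map_cons]
    unfold fwL at h1 ⊢
    rw [List.flatMap_cons, h1, ha, List.length_cons, List.replicate_succ]
    unfold fwT
    rw [List.append_assoc]
    rfl
  · unfold fwN fwK
    rw [List.map_cons, List.map_cons, List.sum_cons, h2, ha, List.length_map]
    omega

private theorem fwBe_run (hN : V.S + V.Q ≤ N) (w : List Bool) (α β γ δ : List (Lt N)) (ξ : Fin m → List (Lt N)) :
    LR (fwBe V hN) ⟨bw w ++ .hs :: α, β, γ, δ, ξ⟩
      ⟨fwA V hN (V.init w).2 ++ α, fwQ V hN V.q0 :: β, γ, δ, ξ⟩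
      (6 * w.length + (fwK m').length + 8) := by
  have hb : ∀ u ∈ (bw w : List (Lt N)), isB u = true := by
    intro u hu
    unfold bw at hu
    rw [List.mem_map] at hu
    obtain ⟨b, -, rfl⟩ := hu
    exact isB_bt b
  have hbl : (bw w : List (Lt N)).length = w.length := by
    unfold bw
    simp
  have g1 := LR.push .c .mk (⟨bw w ++ .hs :: α, β, γ, δ, ξ⟩ : Sta m (Lt N))
  have g2 := mv_run (k := .a) (k' := .c) (by exact fun h => by cases h) (p := isB) id
    (s := (⟨bw w ++ .hs :: α, β, .mk :: γ, δ, ξ⟩ : Sta m (Lt N)))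
    (l := bw w) (v := .hs) (r := α) rfl hb rfl
  have g3 := fwPh_run ((fwK m').length - 1) (.hs :: α) β ((bw w).reverse ++ .mk :: γ) δ ξ
  have g4 := mv_run (k := .c) (k' := .a) (by exact fun h => by cases h) (p := isB) (fun v => fwS V hN (V.inp (vb v)))
    (s := (⟨List.replicate ((fwK m').length - 1) .hs ++ .hs :: α, β,
      (bw w).reverse ++ .mk :: γ, δ, ξ⟩ : Sta m (Lt N)))
    (l := (bw w).reverse) (v := .mk) (r := γ) rfl (fun u hu => hb u (List.mem_reverse.1 hu)) rfl
  have e1 : ((bw w : List (Lt N)).reverse.map fun v => fwS V hN (V.inp (vb v))).reverse =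
      (w.map V.inp).map (fwS V hN) := by
    rw [List.map_reverse, List.reverse_reverse]
    unfold bw
    rw [List.map_map, List.map_map]
    refine List.map_congr_left fun b _ => ?_
    show fwS V hN (V.inp (vb (bt b : Lt N))) = _
    rw [vb_bt]
    rfl
  rw [e1] at g4
  have g5 := pop1_run (k := .c) (s := (⟨(w.map V.inp).map (fwS V hN) ++
    (List.replicate ((fwK m').length - 1) .hs ++ .hs :: α), β, .mk :: γ, δ, ξ⟩ : Sta m (Lt N)))
    (v := .mk) (r := γ) rfl
  have g6 := LR.push .b (fwQ V hN V.q0) (⟨(w.map V.inp).map (fwS V hN) ++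
    (List.replicate ((fwK m').length - 1) .hs ++ .hs :: α), β, γ, δ, ξ⟩ : Sta m (Lt N))
  simp only [Sta.set, Sta.get, List.map_id, List.length_reverse, hbl] at g1 g2 g4 g5 g6
  have e2 : fwA V hN (V.init w).2 ++ α = (w.map V.inp).map (fwS V hN) ++
      (List.replicate ((fwK m').length - 1) .hs ++ .hs :: α) := by
    have e3 : (fwK m').length = (fwK m').length - 1 + 1 := by
      unfold fwK
      simp
    rw [(fwA_init V hN w).1, List.append_assoc]
    congr 1
    conv_lhs => rw [e3]
    rw [List.replicate_succ', List.append_assoc]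
    rfl
  rw [e2]
  refine (g1.seq (g2.seq (g3.seq (g4.seq (g5.seq g6))))).mono ?_
  omega

end

theorem few_nm (V : NM m') : ∃ N₀ : ℕ, ∀ N, N₀ ≤ N → ∃ (P : LP m (Lt N)) (C : ℕ),
    ∀ (w : List Bool) (s : ℕ) (α β γ δ : List (Lt N)) (ξ : Fin m → List (Lt N)),
      V.hal (V.step^[s] (V.init w)) →
      LR P ⟨bw w ++ .hs :: α, β, γ, δ, ξ⟩ ⟨bw (V.val s w) ++ .hs :: α, β, γ, δ, ξ⟩
        (C * (w.length + s + 1) ^ 2) := by
  refine ⟨V.S + V.Q, fun N hN => ⟨.seq (fwBe V hN) (.seq (.loop .b fwE (fwTu V hN))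
    (.seq (pop1 .b) (fwEn V))), 11 * (fwK m').length + 52, ?_⟩⟩
  intro w s α β γ δ ξ hh
  have h1 := fwBe_run V hN w α β γ δ ξ
  obtain ⟨h2, h3⟩ := fwLo_run V hN α β γ δ ξ s (V.init w) hh
  have h4 := pop1_run (k := .b) (s := (⟨fwA V hN (V.step^[s] (V.init w)).2 ++ α, .re :: β, γ, δ, ξ⟩ :
    Sta m (Lt N))) (v := .re) (r := β) rfl
  have h5 := fwEn_run V hN (V.step^[s] (V.init w)).2 α β γ δ ξ
  have hn := (fwA_init V hN w).2
  rw [hn] at h2 h3
  simp only [Sta.set] at h4
  refine (h1.seq (h2.seq (h4.seq h5))).mono ?_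
  set n := w.length
  set r := (fwK m').length
  set z := fwN V (V.step^[s] (V.init w)).2
  set x := n + s + 1 with hx
  have e1 : 1 ≤ x := by omega
  have e2 : x ≤ x ^ 2 := by nlinarith
  have e3 : s * ((7 * r + 12) * (n + s + 1) + 1) ≤ (7 * r + 12) * x ^ 2 + x := by
    have e4 : s ≤ x := by omega
    calc s * ((7 * r + 12) * x + 1) ≤ x * ((7 * r + 12) * x + 1) := Nat.mul_le_mul_right _ e4
      _ = (7 * r + 12) * x ^ 2 + x := by ring
  have e5 : 4 * r ≤ 4 * r * x ^ 2 := by nlinarith
  have e6 : 6 * n + r + 8 + (s * ((7 * r + 12) * (n + s + 1) + 1) + 4 + (2 + (9 * z + 3 * r + 10))) ≤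
      (7 * r + 12) * x ^ 2 + x + 4 * r + 15 * x + 24 := by omega
  refine e6.trans ?_
  have e7 : (11 * r + 52) * x ^ 2 = (7 * r + 12) * x ^ 2 + 4 * r * x ^ 2 + 16 * x ^ 2 +
      24 * x ^ 2 := by ring
  rw [e7]
  omega

theorem few_machine (M : Machine) : ∃ N₀ : ℕ, ∀ N, N₀ ≤ N → ∃ (P : LP m (Lt N)) (C : ℕ),
    ∀ (w x : List Bool) (t : ℕ) (α β γ δ : List (Lt N)) (ξ : Fin m → List (Lt N)),
      Outputs M w x t →
      LR P ⟨bw w ++ .hs :: α, β, γ, δ, ξ⟩ ⟨bw x ++ .hs :: α, β, γ, δ, ξ⟩
        (C * (w.length + t + 1) ^ 2) := by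
  obtain ⟨V, c, -, hV⟩ := nm_of_machine (m := @Fintype.card M.tm.K M.tm.kFin) M (by omega)
  obtain ⟨N₀, hN₀⟩ := few_nm (m := m) V
  refine ⟨N₀, fun N hN => ?_⟩
  obtain ⟨P, C, hP⟩ := hN₀ N hN
  refine ⟨P, C * (c + 1) ^ 2, fun w x t α β γ δ ξ hout => ?_⟩
  obtain ⟨h1, h2⟩ := hV w x t hout _ le_rfl
  have h3 := hP w (c * (t + 1)) α β γ δ ξ h1
  rw [h2] at h3
  refine h3.mono ?_
  have e1 : w.length + c * (t + 1) + 1 ≤ (c + 1) * (w.length + t + 1) := by nlinarith
  calc C * (w.length + c * (t + 1) + 1) ^ 2 ≤ C * ((c + 1) * (w.length + t + 1)) ^ 2 :=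
        Nat.mul_le_mul_left _ (Nat.pow_le_pow_left e1 2)
    _ = C * (c + 1) ^ 2 * (w.length + t + 1) ^ 2 := by ring

end Pool.Agent.Lib.MP_33f9c4_lc.TT
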