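import Pool.Agent.Lib.MP_33f9c4_lc.T.Few

set_option autoImplicit false

/-!
MODULE FewC. Functions in PT on coded data are computed above the frames in polynomial time.

`PT.computable` gives a Turing machine with the codes `code z`, `code (F z)`; `few_machine`.
-/

namespace Pool.Agent.Lib.MP_33f9c4_lc.TT

open Pool.Agent.Lib.PolyTime

variable {m : ℕ} {α β : Type} [Enc α] [Enc β]

theorem few_ptc {F : α → β} (hF : PT F) : ∃ N₀ : ℕ, ∀ N, N₀ ≤ N →
    ∃ (P : LP m (Lt N)) (Q : Polynomial ℕ), ∀ (z : α) (A B C D : List (Lt N))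
    (ξ : Fin m → List (Lt N)),
      LR P ⟨bw (code z) ++ .hs :: A, B, C, D, ξ⟩ ⟨bw (code (F z)) ++ .hs :: A, B, C, D, ξ⟩
        (Q.eval (size z)) := by
  obtain ⟨h⟩ := hF.computable
  obtain ⟨N₀, hN⟩ := few_machine (m := m) h.toTM2ComputableAux
  refine ⟨N₀, fun N hNN => ?_⟩
  obtain ⟨P, C, hP⟩ := hN N hNN
  refine ⟨P, Polynomial.C C * (Polynomial.X + h.time + 1) ^ 2, fun z A B C' D ξ => ?_⟩
  have h1 := hP (code z) (code (F z)) (h.time.eval (code z).length) A B C' D ξ ⟨h.outputsFun z⟩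
  refine h1.mono (le_of_eq ?_)
  simp [length_code]

end Pool.Agent.Lib.MP_33f9c4_lc.TT
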