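import Pool.Agent.Lib.MP_33f9c4_lc.T.Few

set_option autoImplicit false

/-!
MODULE FewPT. Functions in PT are computed above the frames in polynomial time.

`PT.computable` gives a Turing machine (with the codes `code z`, `code (f z)`, `code l = (enc l).ser`; for a list of
bits: `true :: (if b then [true, false, false] else [false])` for each bit, at the end `[false]`); `few_machine`;
programs for the conversion of `bw z ++ hs` to `bw (code z) ++ hs` and back on the stacks `a`, `b`, `c`.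
-/

namespace Pool.Agent.Lib.MP_33f9c4_lc.TT

open Pool.Agent.Lib.PolyTime

variable {m N : ℕ}

/-! ### From the bits to the code -/

/-- push the code of one bit on `a` -/
private def fpt_encB (v : Lt N) : LP m (Lt N) :=
  if vb v then .seq (.push .a .o) (.seq (.push .a .o) (.seq (.push .a .i) (.push .a .i)))
  else .seq (.push .a .o) (.push .a .i)

private theorem fpt_encB_run (v : Bool) (α β γ δ : List (Lt N)) (ξ : Fin m → List (Lt N)) :
    LR (fpt_encB (bt v)) ⟨α, β, γ, δ, ξ⟩ ⟨.i :: (bw (code v) ++ α), β, γ, δ, ξ⟩ 4 := by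
  cases v
  · refine (LR.seq (LR.push .a Lt.o _) (LR.push .a Lt.i _)).mono (by omega)
  · exact LR.seq (LR.push .a Lt.o _) (LR.seq (LR.push .a Lt.o _) (LR.seq (LR.push .a Lt.i _)
      (LR.push .a Lt.i _)))

private theorem fpt_bw_append (l l' : List Bool) : (bw (l ++ l') : List (Lt N)) = bw l ++ bw l' := by
  simp [bw]

private theorem fpt_bw_cons (b : Bool) (l : List Bool) : (bw (b :: l) : List (Lt N)) = bt b :: bw l := rfl

private theorem fpt_isB_bw (l : List Bool) : ∀ u ∈ (bw l : List (Lt N)), isB u = true := by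
  intro u hu
  obtain ⟨b, _, rfl⟩ := List.mem_map.1 hu
  simp

private theorem fpt_enc_loop : ∀ (l r : List Bool) (α β γ δ : List (Lt N)) (ξ : Fin m → List (Lt N)),
    LR (.loop .b isB (.pop .b fun v => fpt_encB v)) ⟨bw (code r) ++ α, bw l ++ .mk :: β, γ, δ, ξ⟩
      ⟨bw (code (l.reverse ++ r)) ++ α, .mk :: β, γ, δ, ξ⟩ (6 * l.length + 1) := by
  intro l
  induction l with
  | nil =>
    intro r α β γ δ ξ
    exact (LR.loopF (v := .mk) (l := β) rfl rfl).mono (by omega)
  | cons v l ih =>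
    intro r α β γ δ ξ
    have h1 : LR (.pop .b fun v => fpt_encB v) (⟨bw (code r) ++ α, bw (v :: l) ++ .mk :: β, γ, δ, ξ⟩ : Sta m (Lt N))
        ⟨.i :: (bw (code v) ++ (bw (code r) ++ α)), bw l ++ .mk :: β, γ, δ, ξ⟩ (4 + 1) :=
      LR.pop (v := bt v) (l := bw l ++ .mk :: β) rfl (fpt_encB_run v _ _ _ _ _)
    have h2 := ih (v :: r) α β γ δ ξ
    have e : (.i :: (bw (code v) ++ (bw (code r) ++ α)) : List (Lt N)) = bw (code (v :: r)) ++ α := by
      rw [code_cons, fpt_bw_cons, fpt_bw_append]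
      simp [bt]
    have e2 : (v :: l).reverse ++ r = l.reverse ++ (v :: r) := by simp
    rw [e] at h1
    rw [e2]
    refine (LR.loopT (v := bt v) (l := bw l ++ .mk :: β) rfl (by simp) h1 h2).mono ?_
    simp only [List.length_cons]
    omega

/-- the word on `a` is replaced by its code -/
private def fpt_encP : LP m (Lt N) :=
  .seq (.push .b .mk) (.seq (mv .a .b isB id) (.seq (.push .a .o)
    (.seq (.loop .b isB (.pop .b fun v => fpt_encB v)) (pop1 .b))))

private theorem fpt_encP_run (z : List Bool) (α β γ δ : List (Lt N)) (ξ : Fin m → List (Lt N)) :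
    LR fpt_encP ⟨bw z ++ .hs :: α, β, γ, δ, ξ⟩ ⟨bw (code z) ++ .hs :: α, β, γ, δ, ξ⟩ (9 * z.length + 6) := by
  have h1 := LR.push .b .mk (⟨bw z ++ .hs :: α, β, γ, δ, ξ⟩ : Sta m (Lt N))
  have h2 : LR (mv .a .b isB id) (⟨bw z ++ .hs :: α, .mk :: β, γ, δ, ξ⟩ : Sta m (Lt N))
      ⟨.hs :: α, bw z.reverse ++ .mk :: β, γ, δ, ξ⟩ (3 * z.length + 1) := by
    have h := mv_run (k := .a) (k' := .b) (by simp) (p := isB) id
      (s := (⟨bw z ++ .hs :: α, .mk :: β, γ, δ, ξ⟩ : Sta m (Lt N))) (l := bw z) (v := .hs) (r := α) rfl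
      (fpt_isB_bw z) rfl
    have e : ((bw z : List (Lt N)).map id).reverse = bw z.reverse := by simp [bw]
    rw [e] at h
    have e' : (bw z : List (Lt N)).length = z.length := by simp [bw]
    rw [e'] at h
    exact h
  have h3 := LR.push .a .o (⟨.hs :: α, bw z.reverse ++ .mk :: β, γ, δ, ξ⟩ : Sta m (Lt N))
  have h4 := fpt_enc_loop z.reverse [] (.hs :: α) β γ δ ξ
  rw [List.reverse_reverse, List.append_nil, List.length_reverse] at h4
  have h5 := pop1_run (k := .b) (s := (⟨bw (code z) ++ .hs :: α, .mk :: β, γ, δ, ξ⟩ : Sta m (Lt N)))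
    (v := .mk) (r := β) rfl
  exact (LR.seq h1 (LR.seq h2 (LR.seq h3 (LR.seq h4 h5)))).mono (by omega)

/-! ### From the code to the bits -/

/-- the letter is the bit `true` -/
private def fpt_isI : Lt N → Bool
  | .i => true
  | _ => false

/-- read the code of one bit -/
private def fpt_decB : LP m (Lt N) :=
  .pop .a fun _ => .pop .a fun v =>
    if vb v then .seq (pop1 .a) (.seq (pop1 .a) (.push .b .i)) else .push .b .o

private theorem fpt_decB_run (v : Bool) (α β γ δ : List (Lt N)) (ξ : Fin m → List (Lt N)) :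
    LR fpt_decB ⟨.i :: (bw (code v) ++ α), β, γ, δ, ξ⟩ ⟨α, bt v :: β, γ, δ, ξ⟩ 7 := by
  cases v
  · have h3 : LR (.push .b .o) (⟨α, β, γ, δ, ξ⟩ : Sta m (Lt N)) ⟨α, .o :: β, γ, δ, ξ⟩ 1 :=
      LR.push .b Lt.o _
    exact (LR.pop (v := Lt.i) (l := Lt.o :: α) rfl (LR.pop (v := Lt.o) (l := α) rfl h3)).mono (by omega)
  · have h3 : LR (.push .b .i) (⟨α, β, γ, δ, ξ⟩ : Sta m (Lt N)) ⟨α, .i :: β, γ, δ, ξ⟩ 1 := LR.push .b Lt.i _
    have h2 : LR (pop1 .a) (⟨.o :: α, β, γ, δ, ξ⟩ : Sta m (Lt N)) ⟨α, β, γ, δ, ξ⟩ 2 :=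
      pop1_run (v := .o) (r := α) rfl
    have h1 : LR (pop1 .a) (⟨.o :: .o :: α, β, γ, δ, ξ⟩ : Sta m (Lt N)) ⟨.o :: α, β, γ, δ, ξ⟩ 2 :=
      pop1_run (v := .o) (r := .o :: α) rfl
    exact LR.pop (v := Lt.i) (l := Lt.i :: Lt.o :: Lt.o :: α) rfl
      (LR.pop (v := Lt.i) (l := Lt.o :: Lt.o :: α) rfl (LR.seq h1 (LR.seq h2 h3)))

private theorem fpt_dec_loop : ∀ (l r : List Bool) (α β γ δ : List (Lt N)) (ξ : Fin m → List (Lt N)),
    LR (.loop .a fpt_isI fpt_decB) ⟨bw (code l) ++ α, bw r ++ .mk :: β, γ, δ, ξ⟩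
      ⟨.o :: α, bw (l.reverse ++ r) ++ .mk :: β, γ, δ, ξ⟩ (8 * l.length + 1) := by
  intro l
  induction l with
  | nil =>
    intro r α β γ δ ξ
    exact (LR.loopF (v := .o) (l := α) rfl rfl).mono (by omega)
  | cons v l ih =>
    intro r α β γ δ ξ
    have h1 := fpt_decB_run v (bw (code l) ++ α) (bw r ++ .mk :: β) γ δ ξ
    have h2 := ih (v :: r) α β γ δ ξ
    have e : (bw (code (v :: l)) ++ α : List (Lt N)) = .i :: (bw (code v) ++ (bw (code l) ++ α)) := by
      rw [code_cons, fpt_bw_cons, fpt_bw_append]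
      simp [bt]
    have e2 : (v :: l).reverse ++ r = l.reverse ++ (v :: r) := by simp
    rw [e, e2]
    refine (LR.loopT (v := .i) (l := bw (code v) ++ (bw (code l) ++ α)) rfl rfl h1 h2).mono ?_
    simp only [List.length_cons]
    omega

/-- the code of a word on `a` is replaced by the word -/
private def fpt_decP : LP m (Lt N) :=
  .seq (.push .b .mk) (.seq (.loop .a fpt_isI fpt_decB) (.seq (pop1 .a) (.seq (mv .b .a isB id) (pop1 .b))))

private theorem fpt_decP_run (z : List Bool) (α β γ δ : List (Lt N)) (ξ : Fin m → List (Lt N)) :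
    LR fpt_decP ⟨bw (code z) ++ .hs :: α, β, γ, δ, ξ⟩ ⟨bw z ++ .hs :: α, β, γ, δ, ξ⟩ (11 * z.length + 7) := by
  have h1 := LR.push .b .mk (⟨bw (code z) ++ .hs :: α, β, γ, δ, ξ⟩ : Sta m (Lt N))
  have h2 := fpt_dec_loop z [] (.hs :: α) β γ δ ξ
  rw [List.append_nil] at h2
  have h3 := pop1_run (k := .a) (s := (⟨.o :: .hs :: α, bw z.reverse ++ .mk :: β, γ, δ, ξ⟩ : Sta m (Lt N)))
    (v := .o) (r := .hs :: α) rfl
  have h4 : LR (mv .b .a isB id) (⟨.hs :: α, bw z.reverse ++ .mk :: β, γ, δ, ξ⟩ : Sta m (Lt N))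
      ⟨bw z ++ .hs :: α, .mk :: β, γ, δ, ξ⟩ (3 * z.length + 1) := by
    have h := mv_run (k := .b) (k' := .a) (by simp) (p := isB) id
      (s := (⟨.hs :: α, bw z.reverse ++ .mk :: β, γ, δ, ξ⟩ : Sta m (Lt N))) (l := bw z.reverse) (v := .mk)
      (r := β) rfl (fpt_isB_bw _) rfl
    have e : ((bw z.reverse : List (Lt N)).map id).reverse = bw z := by simp [bw]
    rw [e] at h
    have e' : (bw z.reverse : List (Lt N)).length = z.length := by simp [bw]
    rw [e'] at h
    exact h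
  have h5 := pop1_run (k := .b) (s := (⟨bw z ++ .hs :: α, .mk :: β, γ, δ, ξ⟩ : Sta m (Lt N)))
    (v := .mk) (r := β) rfl
  exact (LR.seq h1 (LR.seq h2 (LR.seq h3 (LR.seq h4 h5)))).mono (by omega)

/-! ### The theorem -/

private theorem fpt_size_le (z : List Bool) : size z ≤ 4 * z.length + 1 := by
  induction z with
  | nil => simp
  | cons b l ih =>
    have hb : size b ≤ 3 := by cases b <;> exact Nat.le_of_ble_eq_true rfl
    simp only [List.length_cons, size_cons]
    omega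

theorem few_pt {f : List Bool → List Bool} (hf : PT f) : ∃ N₀ : ℕ, ∀ N, N₀ ≤ N →
    ∃ (P : LP m (Lt N)) (Q : Polynomial ℕ),
    ∀ (z : List Bool) (α β γ δ : List (Lt N)) (ξ : Fin m → List (Lt N)),
      LR P ⟨bw z ++ .hs :: α, β, γ, δ, ξ⟩ ⟨bw (f z) ++ .hs :: α, β, γ, δ, ξ⟩
        (Q.eval z.length) := by
  obtain ⟨M⟩ := PT.computable hf
  obtain ⟨p, hp⟩ := PT.size_le hf
  obtain ⟨N₀, hN₀⟩ := few_machine (m := m) M.toTM2ComputableAux
  refine ⟨N₀, fun N hN => ?_⟩
  obtain ⟨P, C, hP⟩ := hN₀ N hN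
  have hlin : PB (fun n => 4 * n + 1) := ((PB.const 4).mul PB.id).add (PB.const 1)
  have hT : PB (fun n => (9 * n + 6) + (C * ((4 * n + 1) + M.time.eval (4 * n + 1) + 1) ^ 2 +
      (11 * p.eval (4 * n + 1) + 7))) :=
    (((PB.const 9).mul PB.id).add (PB.const 6)).add
      (((PB.const C).mul (((hlin.add (PB.comp M.time hlin)).add (PB.const 1)).pow 2)).add
        (((PB.const 11).mul (PB.comp p hlin)).add (PB.const 7)))
  obtain ⟨Q, hQ⟩ := hT
  refine ⟨.seq fpt_encP (.seq P fpt_decP), Q, fun z α β γ δ ξ => ?_⟩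
  have hz := fpt_size_le z
  have h1 := fpt_encP_run z α β γ δ ξ
  have h2 := hP (code z) (code (f z)) (M.time.eval (code z).length) α β γ δ ξ ⟨M.outputsFun z⟩
  have h3 := fpt_decP_run (f z) α β γ δ ξ
  have hl : (code z).length ≤ 4 * z.length + 1 := hz
  have hfl : (f z).length ≤ p.eval (4 * z.length + 1) :=
    (length_le_size (f z)).trans ((hp z).trans (eval_mono p hz))
  have ht : M.time.eval (code z).length ≤ M.time.eval (4 * z.length + 1) := eval_mono _ hl
  have hQz := hQ z.length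
  beta_reduce at hQz
  refine (LR.seq h1 (LR.seq h2 h3)).mono ?_
  have hc : C * ((code z).length + M.time.eval (code z).length + 1) ^ 2 ≤
      C * ((4 * z.length + 1) + M.time.eval (4 * z.length + 1) + 1) ^ 2 :=
    Nat.mul_le_mul_left _ (Nat.pow_le_pow_left (by omega) 2)
  omega

end Pool.Agent.Lib.MP_33f9c4_lc.TT
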