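import Pool.Agent.Lib.MP_33f9c4_lc.T.SpA

set_option autoImplicit false

/-!
# MODULE SpB. The third parameter function of the diagonalising Turing machine

The input is `hst l ++ 0 0 1^g 0 u` where `l` is the list of the counts.
-/

namespace Pool.Agent.Lib.MP_33f9c4_lc.TT

open Pool.Agent.Lib.PolyTime
open Pool.Agent.Lib.MP_33f9c4_lc.LK (Par PPT gOf uOf pw pt_pw hh hh_pos parT gOf_mk uOf_mk
  pt_gOf pt_uOf allL viewOf look pt_viewOf pt_allL pt_tst tst len_allL length_mem_allL pt_foldr
  parT_good)
open Pool.Agent.Lib.MP_33f9c4_lc.K (NB NB.of_pt NB.add NB.mul NB.const NB.pow NB.size_of NB.le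
  NB.comp pt_replicate pt_powC pt_min pt_zip pt_pow pt_toNat pt_mod pt_div)

variable {α : Type} [Enc α]

/-! ### Decoding of the histogram -/

/-- the state of the decoder -/
abbrev SD : Type := Bool × (List Bool × (List Bool × (List (List Bool) × List Bool)))

/-- one step of the decoder -/
def stepD (s : SD) (b : Bool) : SD :=
  if s.1 then (true, s.2.1, s.2.2.1, s.2.2.2.1, b :: s.2.2.2.2)
  else match s.2.1 with
    | [] => (false, [b], s.2.2.1, s.2.2.2.1, s.2.2.2.2)
    | a :: _ => if a then (false, [], b :: s.2.2.1, s.2.2.2.1, s.2.2.2.2)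
      else if b then (false, [], [], s.2.2.1 :: s.2.2.2.1, s.2.2.2.2)
      else (true, [], [], s.2.2.2.1, s.2.2.2.2)

/-- the decoder -/
def dec (z : List Bool) : SD := z.foldl stepD (false, [], [], [], [])

theorem dec_bits (acc : List (List Bool)) (r : List Bool) : ∀ (l cur : List Bool),
    (l.flatMap (fun b => [true, b])).foldl stepD (false, [], cur, acc, r) =
      (false, [], l.reverse ++ cur, acc, r) := by
  intro l
  induction l with
  | nil => intro cur; rfl
  | cons b l ih =>
    intro cur
    rw [List.flatMap_cons, List.foldl_append]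
    have h : [true, b].foldl stepD (false, [], cur, acc, r) = (false, [], b :: cur, acc, r) := rfl
    rw [h, ih, List.reverse_cons, List.append_assoc]
    rfl

theorem dec_rec1 (acc : List (List Bool)) (r : List Bool) (n : ℕ) :
    (rec1 n).foldl stepD (false, [], [], acc, r) = (false, [], [], Nat.bits n :: acc, r) := by
  rw [rec1, List.foldl_append, dec_bits, List.reverse_reverse, List.append_nil]
  rfl

theorem dec_recs (r : List Bool) : ∀ (l : List ℕ) (acc : List (List Bool)),
    (l.flatMap rec1).foldl stepD (false, [], [], acc, r) =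
      (false, [], [], (l.map Nat.bits).reverse ++ acc, r) := by
  intro l
  induction l with
  | nil => intro acc; rfl
  | cons n l ih =>
    intro acc
    rw [List.flatMap_cons, List.foldl_append, dec_rec1, ih, List.map_cons, List.reverse_cons,
      List.append_assoc]
    rfl

theorem dec_rest (acc : List (List Bool)) : ∀ (w r : List Bool),
    w.foldl stepD (true, [], [], acc, r) = (true, [], [], acc, w.reverse ++ r) := by
  intro w
  induction w with
  | nil => intro r; rfl
  | cons b w ih =>
    intro r
    rw [List.foldl_cons]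
    have h : stepD (true, [], [], acc, r) b = (true, [], [], acc, b :: r) := rfl
    rw [h, ih, List.reverse_cons, List.append_assoc]
    rfl

theorem dec_eq (l : List ℕ) (w : List Bool) :
    dec (hst l ++ false :: false :: w) = (true, [], [], l.map Nat.bits, w.reverse) := by
  rw [dec, hst, List.foldl_append, dec_recs, List.append_nil, List.foldl_cons, List.foldl_cons]
  have h : stepD (stepD (false, [], [], (l.reverse.map Nat.bits).reverse, []) false) false =
      (true, [], [], (l.reverse.map Nat.bits).reverse, []) := rfl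
  rw [h, dec_rest, List.append_nil, List.map_reverse, List.reverse_reverse]

theorem pt_stepD : PT (fun x : SD × Bool => stepD x.1 x.2) := by
  have s1 : PT (fun x : SD × Bool => x.1.1) := PT.fst.fst'
  have s2 : PT (fun x : SD × Bool => x.1.2.1) := PT.fst.snd'.fst'
  have s3 : PT (fun x : SD × Bool => x.1.2.2.1) := PT.fst.snd'.snd'.fst'
  have s4 : PT (fun x : SD × Bool => x.1.2.2.2.1) := PT.fst.snd'.snd'.snd'.fst'
  have s5 : PT (fun x : SD × Bool => x.1.2.2.2.2) := PT.fst.snd'.snd'.snd'.snd'
  have b : PT (fun x : SD × Bool => x.2) := PT.snd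
  have hA : PT (fun x : SD × Bool =>
      ((true, x.1.2.1, x.1.2.2.1, x.1.2.2.2.1, x.2 :: x.1.2.2.2.2) : SD)) :=
    PT.pair (PT.const true) (PT.pair s2 (PT.pair s3 (PT.pair s4 (PT.cons b s5))))
  have hB : PT (fun x : SD × Bool =>
      ((false, [x.2], x.1.2.2.1, x.1.2.2.2.1, x.1.2.2.2.2) : SD)) :=
    PT.pair (PT.const false) (PT.pair (PT.list1 b) (PT.pair s3 (PT.pair s4 s5)))
  have hC : PT (fun x : SD × Bool =>
      ((false, [], x.2 :: x.1.2.2.1, x.1.2.2.2.1, x.1.2.2.2.2) : SD)) :=
    PT.pair (PT.const false) (PT.pair (PT.const []) (PT.pair (PT.cons b s3) (PT.pair s4 s5)))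
  have hD : PT (fun x : SD × Bool =>
      ((false, [], [], x.1.2.2.1 :: x.1.2.2.2.1, x.1.2.2.2.2) : SD)) :=
    PT.pair (PT.const false) (PT.pair (PT.const []) (PT.pair (PT.const [])
      (PT.pair (PT.cons s3 s4) s5)))
  have hE : PT (fun x : SD × Bool => ((true, [], [], x.1.2.2.2.1, x.1.2.2.2.2) : SD)) :=
    PT.pair (PT.const true) (PT.pair (PT.const []) (PT.pair (PT.const []) (PT.pair s4 s5)))
  refine (PT.cond s1 hA (PT.listCases (f := fun x : SD × Bool => x.1.2.1)
    (g := fun x : SD × Bool => ((false, [x.2], x.1.2.2.1, x.1.2.2.2.1, x.1.2.2.2.2) : SD))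
    (h := fun (x : SD × Bool) a _ => if a then
        ((false, [], x.2 :: x.1.2.2.1, x.1.2.2.2.1, x.1.2.2.2.2) : SD)
      else if x.2 then ((false, [], [], x.1.2.2.1 :: x.1.2.2.2.1, x.1.2.2.2.2) : SD)
      else ((true, [], [], x.1.2.2.2.1, x.1.2.2.2.2) : SD)) s2 hB ?_)).congr (fun x => ?_)
  · exact PT.cond PT.snd.fst' (hC.comp PT.fst) (PT.cond (b.comp PT.fst) (hD.comp PT.fst)
      (hE.comp PT.fst))
  · obtain ⟨⟨d, h, cur, acc, r⟩, b⟩ := x
    cases h <;> rfl

theorem size_stepD (s : SD) (b : Bool) : size (stepD s b) ≤ size s + 12 := by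
  obtain ⟨d, h, cur, acc, r⟩ := s
  have hb : ∀ c : Bool, size c ≤ 3 := fun c => by cases c <;> decide
  have hb1 : ∀ c : Bool, 1 ≤ size c := fun c => size_pos c
  have h1 := hb b
  have h2 := hb true
  have h3 := hb false
  have h4 := hb1 d
  have h5 : 1 ≤ size h := size_pos h
  have h6 : 1 ≤ size cur := size_pos cur
  cases d with
  | true =>
    have e : stepD (true, h, cur, acc, r) b = (true, h, cur, acc, b :: r) := rfl
    rw [e]
    simp only [size_prod, size_cons]
    omega
  | false =>
    cases h with
    | nil =>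
      have e : stepD (false, [], cur, acc, r) b = (false, [b], cur, acc, r) := rfl
      rw [e]
      simp only [size_prod, size_cons, size_nil]
      omega
    | cons a h =>
      cases a with
      | true =>
        have e : stepD (false, true :: h, cur, acc, r) b = (false, [], b :: cur, acc, r) := rfl
        rw [e]
        simp only [size_prod, size_cons, size_nil]
        omega
      | false =>
        cases b with
        | true =>
          have e : stepD (false, false :: h, cur, acc, r) true =
            (false, [], [], cur :: acc, r) := rfl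
          rw [e]
          simp only [size_prod, size_cons, size_nil]
          omega
        | false =>
          have e : stepD (false, false :: h, cur, acc, r) false = (true, [], [], acc, r) := rfl
          rw [e]
          simp only [size_prod, size_cons, size_nil]
          omega

theorem pt_dec {z : α → List Bool} (hz : PT z) : PT (fun a => dec (z a)) :=
  PT.foldl_add (f := z) (init := fun _ => ((false, [], [], [], []) : SD))
    (step := fun _ s b => stepD s b) hz (PT.const _) (pt_stepD.comp PT.snd)
    (C := fun _ => 12) (PB.const 12) (fun _ s b _ => size_stepD s b)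

/-! ### The value of a list of bits, capped -/

/-- the value of the list of bits without the last `d` ones, capped by `C` -/
def cval (C d : ℕ) (l : List Bool) : ℕ := (l.drop d).foldr (fun b x => min C (2 * x + b.toNat)) 0

theorem cval_cap (C : ℕ) (l : List Bool) : l.foldr (fun b x => min C (2 * x + b.toNat)) 0 =
    min C (l.foldr (fun b x => 2 * x + b.toNat) 0) := by
  induction l with
  | nil => simp
  | cons b l ih =>
    rw [List.foldr_cons, List.foldr_cons, ih]
    rcases le_total C (l.foldr (fun b x => 2 * x + b.toNat) 0) with h | h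
    · rw [min_eq_left h, min_eq_left (by omega), min_eq_left (by omega)]
    · rw [min_eq_right h]

theorem val_drop : ∀ (d : ℕ) (l : List Bool), (l.drop d).foldr (fun b x => 2 * x + b.toNat) 0 =
    l.foldr (fun b x => 2 * x + b.toNat) 0 / 2 ^ d := by
  intro d
  induction d with
  | zero => intro l; simp
  | succ d ih =>
    intro l
    cases l with
    | nil => simp
    | cons b l =>
      rw [List.drop_succ_cons, ih, List.foldr_cons, pow_succ', ← Nat.div_div_eq_div_mul]
      congr 1
      have hb : b.toNat ≤ 1 := by cases b <;> decide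
      omega

theorem val_bits (n : ℕ) : (Nat.bits n).foldr (fun b x => 2 * x + b.toNat) 0 = n := by
  induction n using Nat.binaryRec' with
  | zero => rfl
  | bit b n h ih =>
    rw [Nat.bits_append_bit n b h, List.foldr_cons, ih, Nat.bit_val]

theorem cval_bits (C d n : ℕ) : cval C d (Nat.bits n) = min C (n / 2 ^ d) := by
  rw [cval, cval_cap, val_drop, val_bits]

theorem cval_le (C : ℕ) (l : List Bool) :
    l.foldr (fun b x => min C (2 * x + b.toNat)) 0 ≤ C := by
  cases l with
  | nil => exact Nat.zero_le _
  | cons b l => exact min_le_left _ _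

theorem pt_cval {C d : α → ℕ} {l : α → List Bool} (hC : PT C) (hd : PT d) (hl : PT l) :
    PT (fun a => cval (C a) (d a) (l a)) := by
  refine pt_foldr (f := fun a => (l a).drop (d a)) (init := fun _ => 0)
    (step := fun a b x => min (C a) (2 * x + b.toNat)) (PT.drop hd hl) (PT.const 0)
    (pt_min (hC.comp PT.fst) (PT.add (PT.mulConst PT.snd.snd' 2) (pt_toNat PT.snd.fst')))
    (fun a s => s ≤ C a) (fun a => Nat.zero_le _) (fun a s b _ _ => min_le_left _ _)
    (B := fun a => 2 * C a + 1) (((NB.const 2).mul (NB.of_pt hC)).add (NB.const 1))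
    (fun a s hs => by rw [size_nat]; omega)

/-! ### The orders -/

theorem ord_append (K : ℕ) : ord K = (allL K).map List.reverse := by
  induction K with
  | zero => rfl
  | succ K ih =>
    rw [ord, allL, List.map_append, List.map_map, List.map_map, ih, List.map_map, List.map_map]
    congr 1 <;>
    · refine List.map_congr_left (fun y _ => ?_)
      simp only [Function.comp, List.reverse_cons]

theorem mem_allL {K : ℕ} {y : List Bool} : y ∈ allL K ↔ y.length = K := by
  induction K generalizing y with
  | zero => simp [allL, List.length_eq_zero_iff]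
  | succ K ih =>
    rw [allL, List.mem_append, List.mem_map, List.mem_map]
    constructor
    · rintro (⟨z, hz, rfl⟩ | ⟨z, hz, rfl⟩)
      · rw [List.length_cons, ih.1 hz]
      · rw [List.length_cons, ih.1 hz]
    · intro hy
      cases y with
      | nil => simp at hy
      | cons b y =>
        rw [List.length_cons] at hy
        have h : y ∈ allL K := ih.2 (by omega)
        cases b
        · exact Or.inl ⟨y, h, rfl⟩
        · exact Or.inr ⟨y, h, rfl⟩

theorem zip_map_self {β γ : Type} (f : β → γ) (l : List β) :
    l.zip (l.map f) = l.map (fun y => (y, f y)) := by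
  induction l with
  | nil => rfl
  | cons b l ih => rw [List.map_cons, List.zip_cons_cons, ih, List.map_cons]

theorem look_map (f : List Bool → ℕ) {K : ℕ} {y : List Bool} (hy : y ∈ allL K) :
    look ((allL K).map fun y => (y, f y)) y = f y := by
  have key : ∀ l : List (List Bool), y ∈ l →
      ((l.map fun y => (y, f y)).find? (fun x => decide (x.1 = y))) = some (y, f y) := by
    intro l
    induction l with
    | nil => intro h; exact absurd h List.not_mem_nil
    | cons b l ih =>
      intro h
      rw [List.map_cons, List.find?_cons]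
      by_cases hb : b = y
      · subst hb
        simp
      · rw [decide_eq_false (by simpa using hb)]
        rcases List.mem_cons.mp h with h1 | h1
        · exact absurd h1.symm hb
        · exact ih h1
  rw [look, key _ hy]
  rfl

/-! ### The third function -/

/-- the rest of the input -/
def wOf (z : List Bool) : List Bool := (dec z).2.2.2.2.reverse

/-- the number `2^(2g)` -/
def HOf (z : List Bool) : ℕ := pw z.length (2 * gOf (wOf z))

/-- the large number -/
def NOf (z : List Bool) : ℕ := pw (z.length * z.length) (8 * HOf z ^ 32)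

/-- the parameters of the third function -/
def P3T (c4 : ℕ) (z : List Bool) : Par := parOfT c4 (gOf (wOf z)) (HOf z) (NOf z)

/-- the histogram -/
def hist3 (c4 : ℕ) (z : List Bool) : List (List Bool × ℕ) :=
  (allL (P3T c4 z).K).zip ((dec z).2.2.2.1.map fun l =>
    cval (2 ^ (P3T c4 z).c) ((P3T c4 z).n - (P3T c4 z).K - (P3T c4 z).c) l)

/-- the tested prefixes -/
def tst3 (c4 : ℕ) (z : List Bool) : List (List Bool) :=
  tst (P3T c4 z) (uOf (wOf z)) (viewOf (P3T c4 z) (hist3 c4 z)) false ++
    tst (P3T c4 z) (uOf (wOf z)) (viewOf (P3T c4 z) (hist3 c4 z)) true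

/-- the parameters are small enough -/
def grd3 (c4 : ℕ) (z : List Bool) : Bool :=
  decide (pw (NOf z + 1) ((P3T c4 z).K + (P3T c4 z).c) ≤ NOf z) && decide (1 < (P3T c4 z).p)

/-- the third function -/
def p3T (c4 : ℕ) (z : List Bool) : List Bool :=
  if grd3 c4 z then fmt3 ((tst3 c4 z).map (tmx (P3T c4 z).n)) else []

theorem pt_tmx {n : α → ℕ} {v : α → List Bool} (hn : PT n) (hv : PT v) :
    PT (fun a => tmx (n a) (v a)) := by
  unfold tmx
  exact PT.reverse (PT.append (LK.pt_mapSome hv)
    (pt_replicate (PT.sub hn (PT.length hv)) (PT.const none)))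

theorem pt_fmt3 {τs : α → List (List (Option Bool))} (h : PT τs) : PT (fun a => fmt3 (τs a)) := by
  unfold fmt3
  refine PT.append (PT.const _) (PT.flatMap (f := fun a => (τs a).reverse)
    (g := fun _ τ => [false, true, false] ++ τ.reverse.flatMap ct) (PT.reverse h) ?_)
  exact PT.append (PT.const _) (pt_flatMap_ct (PT.reverse PT.snd))

theorem pt_wOf : PT wOf := PT.reverse (pt_dec PT.id).snd'.snd'.snd'.snd'

theorem pt_HOf : PT HOf := pt_pw (PT.length PT.id) (PT.mulConst (pt_gOf pt_wOf) 2)

theorem pt_NOf : PT NOf :=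
  pt_pw (PT.mul (PT.length PT.id) (PT.length PT.id)) (PT.mulConst (pt_powC pt_HOf 32) 8)

theorem ppt_P3T (c4 : ℕ) : PPT (P3T c4) := ppt_parOfT c4 (pt_gOf pt_wOf) pt_HOf pt_NOf

theorem pt_grd3 (c4 : ℕ) : PT (grd3 c4) :=
  PT.and (PT.le (pt_pw (PT.succ pt_NOf) (PT.add (ppt_P3T c4).K (ppt_P3T c4).c)) pt_NOf)
    (PT.lt (PT.const 1) (ppt_P3T c4).p)

theorem pt_p3T (c4 : ℕ) : PT (p3T c4) := by
  have h0 : PT (fun x : {z : List Bool // grd3 c4 z = true} =>
      fmt3 ((tst3 c4 x.1).map (tmx (P3T c4 x.1).n))) := by
    have hv : PT (fun x : {z : List Bool // grd3 c4 z = true} => x.1) := PT.val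
    have h' := (ppt_P3T c4).comp hv
    have hbig : ∀ x : {z : List Bool // grd3 c4 z = true},
        2 ^ ((P3T c4 x.1).K + (P3T c4 x.1).c) ≤ NOf x.1 ∧ 1 < (P3T c4 x.1).p := by
      rintro ⟨x, hx⟩
      rw [grd3, Bool.and_eq_true, decide_eq_true_eq, decide_eq_true_eq, pw] at hx
      refine ⟨?_, hx.2⟩
      rcases min_le_iff.mp hx.1 with h1 | h1
      · exact h1
      · omega
    have hNB : NB (fun x : {z : List Bool // grd3 c4 z = true} => NOf x.1) :=
      NB.of_pt (pt_NOf.comp hv)
    have hK : NB (fun x : {z : List Bool // grd3 c4 z = true} => 2 ^ (P3T c4 x.1).K) :=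
      hNB.le (fun x => (Nat.pow_le_pow_right (by norm_num) (by omega)).trans (hbig x).1)
    have hc : NB (fun x : {z : List Bool // grd3 c4 z = true} => 2 ^ (P3T c4 x.1).c) :=
      hNB.le (fun x => (Nat.pow_le_pow_right (by norm_num) (by omega)).trans (hbig x).1)
    have hC : PT (fun x : {z : List Bool // grd3 c4 z = true} => 2 ^ (P3T c4 x.1).c) :=
      pt_pow (PT.const 2) h'.c hc
    have hhist : PT (fun x : {z : List Bool // grd3 c4 z = true} => hist3 c4 x.1) := by
      refine pt_zip (pt_allL h'.K hK) (PT.map
        (f := fun x : {z : List Bool // grd3 c4 z = true} => (dec x.1).2.2.2.1)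
        (g := fun (x : {z : List Bool // grd3 c4 z = true}) l => cval (2 ^ (P3T c4 x.1).c)
          ((P3T c4 x.1).n - (P3T c4 x.1).K - (P3T c4 x.1).c) l)
        (pt_dec hv).snd'.snd'.snd'.fst' ?_)
      exact pt_cval (hC.comp PT.fst) ((PT.sub (PT.sub h'.n h'.K) h'.c).comp PT.fst) PT.snd
    have hview := pt_viewOf h' hK hc hhist
    have hu : PT (fun x : {z : List Bool // grd3 c4 z = true} => uOf (wOf x.1)) :=
      (pt_uOf pt_wOf).comp hv
    have htst : PT (fun x : {z : List Bool // grd3 c4 z = true} => tst3 c4 x.1) :=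
      PT.append (pt_tst h' (fun x => (hbig x).2) hu hview false)
        (pt_tst h' (fun x => (hbig x).2) hu hview true)
    refine pt_fmt3 (PT.map (f := fun x : {z : List Bool // grd3 c4 z = true} => tst3 c4 x.1)
      (g := fun (x : {z : List Bool // grd3 c4 z = true}) v => tmx (P3T c4 x.1).n v) htst ?_)
    exact pt_tmx (h'.n.comp PT.fst) PT.snd
  refine PT.cond' (c := grd3 c4) (f := p3T c4) (pt_grd3 c4) ?_ ?_
  · exact h0.congr (fun x => by rw [p3T, if_pos x.2])
  · refine (PT.const ([] : List Bool)).congr (fun x => ?_)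
    have hx : ¬ (grd3 c4 x.1 = true) := by rw [x.2]; exact Bool.false_ne_true
    rw [p3T, if_neg hx]

theorem le_length_hst (l : List ℕ) : 2 * l.length ≤ (hst l).length := by
  have key : ∀ l : List ℕ, 2 * l.length ≤ (l.flatMap rec1).length := by
    intro l
    induction l with
    | nil => simp
    | cons n l ih =>
      rw [List.flatMap_cons, List.length_append, List.length_cons, rec1, List.length_append]
      simp only [List.length_cons, List.length_nil]
      omega
  have := key l.reverse
  rwa [List.length_reverse] at this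

theorem p3T_eq (c4 g : ℕ) (u : List Bool) (cnt : List Bool → ℕ) (hg : 7 ≤ g) (hc : c4 ≤ g) :
    p3T c4 (hst ((ord (parT g c4).K).map cnt) ++ false :: false :: inw g u) =
      fmt3 ((tst (parT g c4) u (lst (parT g c4) cnt) false ++
        tst (parT g c4) u (lst (parT g c4) cnt) true).map (tmx (parT g c4).n)) := by
  have hP := parT_good hg hc
  obtain ⟨z, hz⟩ : ∃ z, z = hst ((ord (parT g c4).K).map cnt) ++ false :: false :: inw g u :=
    ⟨_, rfl⟩
  have hdec : dec z = (true, [], [], ((ord (parT g c4).K).map cnt).map Nat.bits,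
      (inw g u).reverse) := by rw [hz, dec_eq]
  have hw : wOf z = inw g u := by rw [wOf, hdec]; exact List.reverse_reverse _
  have hlen : 2 * 2 ^ (parT g c4).K ≤ z.length := by
    have h1 := le_length_hst ((ord (parT g c4).K).map cnt)
    rw [List.length_map, length_ord] at h1
    rw [hz, List.length_append]
    omega
  have h1 := hh_pos g
  have hKval : (parT g c4).K = (hh g ^ 16 + 1) * (4 * hh g ^ 16) + 3 * hh g ^ 15 := rfl
  have h32 : 4 * hh g ^ 32 ≤ (parT g c4).K := by
    rw [hKval]
    have : (hh g ^ 16 + 1) * (4 * hh g ^ 16) = 4 * hh g ^ 32 + 4 * hh g ^ 16 := by ring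
    omega
  have hH : HOf z = hh g := by
    rw [HOf, hw, inw, gOf_mk, pw]
    refine min_eq_left ?_
    have h2 : hh g ≤ hh g ^ 32 := Nat.le_self_pow (by norm_num) _
    have h3 : (parT g c4).K < 2 ^ (parT g c4).K := Nat.lt_two_pow_self
    have h4 : 2 ^ (2 * g) = hh g := rfl
    omega
  have hN : NOf z = 2 ^ (8 * hh g ^ 32) := by
    rw [NOf, hH, pw]
    refine min_eq_left ?_
    have h2 : 2 ^ (parT g c4).K ≤ z.length := by omega
    calc 2 ^ (8 * hh g ^ 32) ≤ 2 ^ ((parT g c4).K + (parT g c4).K) :=
          Nat.pow_le_pow_right (by norm_num) (by omega)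
      _ = 2 ^ (parT g c4).K * 2 ^ (parT g c4).K := pow_add _ _ _
      _ ≤ z.length * z.length := Nat.mul_le_mul h2 h2
  have hPar : P3T c4 z = parT g c4 := by
    rw [P3T, hH, hN, hw, inw, gOf_mk, parOfT_eq]
  have hgrd : grd3 c4 z = true := by
    rw [grd3, hPar, hN, Bool.and_eq_true, decide_eq_true_eq, decide_eq_true_eq]
    refine ⟨(min_le_left _ _).trans ?_, hP.prime.one_lt⟩
    refine le_trans ?_ hP.h16
    exact Nat.pow_le_pow_right (by norm_num) (by omega)
  have hhist : hist3 c4 z = (allL (parT g c4).K).map fun y => (y, min (2 ^ (parT g c4).c)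
      (cnt y.reverse / 2 ^ ((parT g c4).n - (parT g c4).K - (parT g c4).c))) := by
    rw [hist3, hPar, hdec]
    simp only [List.map_map]
    rw [ord_append, List.map_map, zip_map_self]
    refine List.map_congr_left (fun y _ => ?_)
    simp only [Function.comp, cval_bits]
  have hview : viewOf (parT g c4) (hist3 c4 z) = lst (parT g c4) cnt := by
    rw [viewOf, lst, hhist]
    refine List.map_congr_left (fun y hy => ?_)
    have hy' : y.reverse ∈ allL (parT g c4).K := by
      rw [mem_allL, List.length_reverse]
      exact mem_allL.mp hy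
    rw [look_map (fun y => min (2 ^ (parT g c4).c)
      (cnt y.reverse / 2 ^ ((parT g c4).n - (parT g c4).K - (parT g c4).c))) hy']
    simp only [List.reverse_reverse]
    rw [← min_assoc, min_self]
  have hu : uOf (wOf z) = u := by rw [hw, inw, uOf_mk]
  rw [← hz, p3T, if_pos hgrd, tst3, hPar, hview, hu]

/-- the three functions exist -/
theorem spec_exists (c4 : ℕ) : ∃ p1 p2 p3, Spec c4 p1 p2 p3 :=
  ⟨p1T, p2T c4, p3T c4, pt_p1T, pt_p2T c4, pt_p3T c4, fun g u _ _ => p1T_eq g u,
    fun g u _ _ _ _ => p2T_eq c4 g u, fun g u cnt hg hc _ _ => p3T_eq c4 g u cnt hg hc⟩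

end Pool.Agent.Lib.MP_33f9c4_lc.TT
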