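import Pool.Agent.Lib.MP_33f9c4_lc.T.FinN
import Pool.Agent.Lib.MP_33f9c4_lc.T.CostG
import Pool.Agent.Lib.MP_33f9c4_lc.T.SpB

set_option autoImplicit false

/-!
# No machine decides the set of Levin-random strings fast
-/

namespace Pool.Agent.Lib.MP_33f9c4_lc.TT

variable {m : ℕ}

/-- For every optimal machine `U` of the class and every machine `M` there is, for all large `g`, a bit
string `x` of length `2 ^ (132 g)` for which `M` does not answer correctly within `2 ^ 2 ^ g` steps. -/
theorem vfin {U : Machine} (hcls : Cls m U) (hU : OptimalT m U) (M : Machine) :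
    ∃ g₀ : ℕ, ∀ g, g₀ ≤ g → ∃ x : List Bool, x.length = 2 ^ (132 * g) ∧
      ∀ b : Bool, (b = true ↔ x ∈ RKt U) → ¬ Outputs M x [b] (2 ^ 2 ^ g) :=
  vfin_gen hcls hU M spec_exists (cost_t m) (items_t m) tables_t

/-- The set of Levin-random strings is not in P. -/
theorem rkt_not_inP {U : Machine} (hcls : Cls m U) (hU : OptimalT m U) : ¬ InP (RKt U) :=
  not_inP_of (vfin hcls hU)

end Pool.Agent.Lib.MP_33f9c4_lc.TT
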