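import Pool.Agent.Lib.MP_33f9c4_lc.T.Lang

set_option autoImplicit false

/-!
MODULE TMac. Moving and deleting words. All by induction on the word, with `LL.step`, `LL.trans`, `LL.finish`.
-/

namespace Pool.Agent.Lib.MP_33f9c4_lc.TT

variable {m : ℕ} {A : Type}

/-- while the top letter of `k` satisfies `p` move it (changed by `g`) to `k'` -/
def mv (k k' : Ix m) (p : A → Bool) (g : A → A) : LP m A :=
  .loop k p (.pop k fun v => .push k' (g v))

/-- the same with two targets -/
def mv2 (k k' k'' : Ix m) (p : A → Bool) (g g' : A → A) : LP m A :=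
  .loop k p (.pop k fun v => .seq (.push k' (g v)) (.push k'' (g' v)))

/-- delete the top letters of `k` which satisfy `p` -/
def del (k : Ix m) (p : A → Bool) : LP m A := .loop k p (.pop k fun _ => .skip)

/-- pop one letter -/
def pop1 (k : Ix m) : LP m A := .pop k fun _ => .skip

/-- two contents which agree on `k`, `k'` and on the rest -/
private theorem mac_ext2 {s s' : Sta m A} (k k' : Ix m) (h1 : s.get k = s'.get k) (h2 : s.get k' = s'.get k')
    (h3 : ∀ j, j ≠ k → j ≠ k' → s.get j = s'.get j) : s = s' := by
  ext j : 1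
  by_cases hj : j = k
  · rw [hj, h1]
  · by_cases hj' : j = k'
    · rw [hj', h2]
    · exact h3 j hj hj'

private theorem mac_ext3 {s s' : Sta m A} (k k' k'' : Ix m) (h1 : s.get k = s'.get k) (h2 : s.get k' = s'.get k')
    (h2' : s.get k'' = s'.get k'')
    (h3 : ∀ j, j ≠ k → j ≠ k' → j ≠ k'' → s.get j = s'.get j) : s = s' := by
  ext j : 1
  by_cases hj : j = k
  · rw [hj, h1]
  · by_cases hj' : j = k'
    · rw [hj', h2]
    · by_cases hj'' : j = k''
      · rw [hj'', h2']
      · exact h3 j hj hj' hj''

private theorem mv_run_aux {k k' : Ix m} (hk : k ≠ k') {p : A → Bool} (g : A → A) {v : A} {r : List A} :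
    ∀ (l : List A) (s : Sta m A), s.get k = l ++ v :: r → (∀ u ∈ l, p u = true) →
    LL k p (.pop k fun v => .push k' (g v)) s ((s.set k (v :: r)).set k' ((l.map g).reverse ++ s.get k'))
      (3 * l.length) := by
  intro l
  induction l with
  | nil =>
    intro s hs _
    have e : (s.set k (v :: r)).set k' ((([] : List A).map g).reverse ++ s.get k') = s := by
      apply mac_ext2 k k'
      · rw [Sta.get_set_of_ne _ hk, Sta.get_set_self, hs]; rfl
      · rw [Sta.get_set_self]; rfl
      · intro j h1 h2
        rw [Sta.get_set_of_ne _ h2, Sta.get_set_of_ne _ h1]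
    rw [e]
    exact (LL.refl s).mono (by simp)
  | cons u l ih =>
    intro s hs hl
    have h1 : LL k p (.pop k fun v => .push k' (g v)) s
        ((s.set k (l ++ v :: r)).set k' (g u :: (s.set k (l ++ v :: r)).get k')) (1 + 1 + 1) :=
      LL.step hs (hl u (by simp)) (LR.pop hs (LR.push k' (g u) _))
    have h2 := ih ((s.set k (l ++ v :: r)).set k' (g u :: (s.set k (l ++ v :: r)).get k'))
      (by rw [Sta.get_set_of_ne _ hk, Sta.get_set_self]) (fun w hw => hl w (by simp [hw]))
    have e : (((s.set k (l ++ v :: r)).set k' (g u :: (s.set k (l ++ v :: r)).get k')).set k (v :: r)).set k'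
        ((l.map g).reverse ++ ((s.set k (l ++ v :: r)).set k' (g u :: (s.set k (l ++ v :: r)).get k')).get k') =
        (s.set k (v :: r)).set k' (((u :: l).map g).reverse ++ s.get k') := by
      apply mac_ext2 k k'
      · rw [Sta.get_set_of_ne _ hk, Sta.get_set_self, Sta.get_set_of_ne _ hk, Sta.get_set_self]
      · rw [Sta.get_set_self, Sta.get_set_self, Sta.get_set_self, Sta.get_set_of_ne _ hk.symm]
        simp
      · intro j h1 h2
        rw [Sta.get_set_of_ne _ h2, Sta.get_set_of_ne _ h1, Sta.get_set_of_ne _ h2, Sta.get_set_of_ne _ h1,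
          Sta.get_set_of_ne _ h2, Sta.get_set_of_ne _ h1]
    rw [e] at h2
    exact (h1.trans h2).mono (by simp only [List.length_cons]; omega)

private theorem mv2_run_aux {k k' k'' : Ix m} (hk : k ≠ k') (hk' : k ≠ k'') (hk'' : k' ≠ k'') {p : A → Bool}
    (g g' : A → A) {v : A} {r : List A} :
    ∀ (l : List A) (s : Sta m A), s.get k = l ++ v :: r → (∀ u ∈ l, p u = true) →
    LL k p (.pop k fun v => .seq (.push k' (g v)) (.push k'' (g' v))) s
      (((s.set k (v :: r)).set k' ((l.map g).reverse ++ s.get k')).set k''
      ((l.map g').reverse ++ s.get k'')) (4 * l.length) := by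
  intro l
  induction l with
  | nil =>
    intro s hs _
    have e : ((s.set k (v :: r)).set k' ((([] : List A).map g).reverse ++ s.get k')).set k''
        ((([] : List A).map g').reverse ++ s.get k'') = s := by
      apply mac_ext3 k k' k''
      · rw [Sta.get_set_of_ne _ hk', Sta.get_set_of_ne _ hk, Sta.get_set_self, hs]; rfl
      · rw [Sta.get_set_of_ne _ hk'', Sta.get_set_self]; rfl
      · rw [Sta.get_set_self]; rfl
      · intro j h1 h2 h3
        rw [Sta.get_set_of_ne _ h3, Sta.get_set_of_ne _ h2, Sta.get_set_of_ne _ h1]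
    rw [e]
    exact (LL.refl s).mono (by simp)
  | cons u l ih =>
    intro s hs hl
    obtain ⟨s1, hs1⟩ : ∃ s1, s1 = (s.set k (l ++ v :: r)).set k' (g u :: (s.set k (l ++ v :: r)).get k') := ⟨_, rfl⟩
    obtain ⟨s2, hs2⟩ : ∃ s2, s2 = s1.set k'' (g' u :: s1.get k'') := ⟨_, rfl⟩
    have h1 : LL k p (.pop k fun v => .seq (.push k' (g v)) (.push k'' (g' v))) s s2 ((1 + 1) + 1 + 1) := by
      refine LL.step hs (hl u (by simp)) (LR.pop hs (LR.seq (s' := s1) ?_ ?_))
      · rw [hs1]
        exact LR.push k' (g u) _
      · rw [hs2]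
        exact LR.push k'' (g' u) _
    have k1 : s2.get k = l ++ v :: r := by
      rw [hs2, Sta.get_set_of_ne _ hk', hs1, Sta.get_set_of_ne _ hk, Sta.get_set_self]
    have k2 : s2.get k' = g u :: s.get k' := by
      rw [hs2, Sta.get_set_of_ne _ hk'', hs1, Sta.get_set_self, Sta.get_set_of_ne _ hk.symm]
    have k3 : s2.get k'' = g' u :: s.get k'' := by
      rw [hs2, Sta.get_set_self, hs1, Sta.get_set_of_ne _ hk''.symm, Sta.get_set_of_ne _ hk'.symm]
    have k4 : ∀ j, j ≠ k → j ≠ k' → j ≠ k'' → s2.get j = s.get j := by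
      intro j h1 h2 h3
      rw [hs2, Sta.get_set_of_ne _ h3, hs1, Sta.get_set_of_ne _ h2, Sta.get_set_of_ne _ h1]
    have h2 := ih s2 k1 (fun w hw => hl w (by simp [hw]))
    have e : ((s2.set k (v :: r)).set k' ((l.map g).reverse ++ s2.get k')).set k''
        ((l.map g').reverse ++ s2.get k'') =
        ((s.set k (v :: r)).set k' (((u :: l).map g).reverse ++ s.get k')).set k''
          (((u :: l).map g').reverse ++ s.get k'') := by
      rw [k2, k3]
      apply mac_ext3 k k' k''
      · rw [Sta.get_set_of_ne _ hk', Sta.get_set_of_ne _ hk, Sta.get_set_self, Sta.get_set_of_ne _ hk',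
          Sta.get_set_of_ne _ hk, Sta.get_set_self]
      · rw [Sta.get_set_of_ne _ hk'', Sta.get_set_self, Sta.get_set_of_ne _ hk'', Sta.get_set_self]
        simp
      · rw [Sta.get_set_self, Sta.get_set_self]
        simp
      · intro j h1 h2 h3
        rw [Sta.get_set_of_ne _ h3, Sta.get_set_of_ne _ h2, Sta.get_set_of_ne _ h1, Sta.get_set_of_ne _ h3,
          Sta.get_set_of_ne _ h2, Sta.get_set_of_ne _ h1, k4 j h1 h2 h3]
    rw [e] at h2
    exact (h1.trans h2).mono (by simp only [List.length_cons]; omega)

private theorem del_run_aux {k : Ix m} {p : A → Bool} {v : A} {r : List A} :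
    ∀ (l : List A) (s : Sta m A), s.get k = l ++ v :: r → (∀ u ∈ l, p u = true) →
    LL k p (.pop k fun _ => .skip) s (s.set k (v :: r)) (3 * l.length) := by
  intro l
  induction l with
  | nil =>
    intro s hs _
    have e : s.set k (v :: r) = s := by
      have h : v :: r = s.get k := by rw [hs]; rfl
      rw [h, Sta.set_get]
    rw [e]
    exact (LL.refl s).mono (by simp)
  | cons u l ih =>
    intro s hs hl
    have h1 : LL k p (.pop k fun _ => .skip) s (s.set k (l ++ v :: r)) (1 + 1 + 1) :=
      LL.step hs (hl u (by simp)) (LR.pop hs (LR.skip _))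
    have h2 := ih (s.set k (l ++ v :: r)) (by rw [Sta.get_set_self]) (fun w hw => hl w (by simp [hw]))
    rw [Sta.set_set] at h2
    exact (h1.trans h2).mono (by simp only [List.length_cons]; omega)

theorem mv_run {k k' : Ix m} (hk : k ≠ k') {p : A → Bool} (g : A → A) {s : Sta m A} {l : List A}
    {v : A} {r : List A} (hs : s.get k = l ++ v :: r) (hl : ∀ u ∈ l, p u = true)
    (hv : p v = false) :
    LR (mv k k' p g) s ((s.set k (v :: r)).set k' ((l.map g).reverse ++ s.get k'))
      (3 * l.length + 1) :=
  (mv_run_aux hk g l s hs hl).finish (v := v) (l := r)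
    (by rw [Sta.get_set_of_ne _ hk, Sta.get_set_self]) hv

theorem mv2_run {k k' k'' : Ix m} (hk : k ≠ k') (hk' : k ≠ k'') (hk'' : k' ≠ k'') {p : A → Bool}
    (g g' : A → A) {s : Sta m A} {l : List A} {v : A} {r : List A}
    (hs : s.get k = l ++ v :: r) (hl : ∀ u ∈ l, p u = true) (hv : p v = false) :
    LR (mv2 k k' k'' p g g') s (((s.set k (v :: r)).set k' ((l.map g).reverse ++ s.get k')).set k''
      ((l.map g').reverse ++ s.get k'')) (4 * l.length + 1) :=
  (mv2_run_aux hk hk' hk'' g g' l s hs hl).finish (v := v) (l := r)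
    (by rw [Sta.get_set_of_ne _ hk', Sta.get_set_of_ne _ hk, Sta.get_set_self]) hv

theorem del_run {k : Ix m} {p : A → Bool} {s : Sta m A} {l : List A} {v : A} {r : List A}
    (hs : s.get k = l ++ v :: r) (hl : ∀ u ∈ l, p u = true) (hv : p v = false) :
    LR (del k p) s (s.set k (v :: r)) (3 * l.length + 1) :=
  (del_run_aux l s hs hl).finish (v := v) (l := r) (by rw [Sta.get_set_self]) hv

theorem pop1_run {k : Ix m} {s : Sta m A} {v : A} {r : List A} (hs : s.get k = v :: r) :
    LR (pop1 k) s (s.set k r) 2 :=
  LR.pop hs (LR.skip _)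

/-- a list of programs, one after the other -/
def seqs : List (LP m A) → LP m A
  | [] => .skip
  | P :: l => .seq P (seqs l)

/-- push the letter `v` on all stacks `x i` -/
def pushX (v : A) : LP m A := seqs ((List.finRange m).map fun i => .push (.x i) v)

private theorem pushX_aux (v : A) (a b c d : List A) : ∀ (L : List (Fin m)), L.Nodup → ∀ (x : Fin m → List A),
    LR (seqs (L.map fun i => .push (.x i) v)) ⟨a, b, c, d, x⟩
      ⟨a, b, c, d, fun j => if j ∈ L then v :: x j else x j⟩ (L.length + 1) := by
  intro L
  induction L with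
  | nil =>
    intro _ x
    have e : (fun j => if j ∈ ([] : List (Fin m)) then v :: x j else x j) = x := by
      funext j; simp
    rw [e]
    exact LR.skip _
  | cons i L ih =>
    intro hnd x
    rw [List.nodup_cons] at hnd
    have h1 := LR.push (.x i) v (⟨a, b, c, d, x⟩ : Sta m A)
    have h2 := ih hnd.2 (Function.update x i (v :: x i))
    have e : (fun j => if j ∈ L then v :: Function.update x i (v :: x i) j else Function.update x i (v :: x i) j) =
        (fun j => if j ∈ i :: L then v :: x j else x j) := by
      funext j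
      by_cases hj : j = i
      · subst hj
        simp [hnd.1]
      · simp [hj]
    rw [e] at h2
    exact (LR.seq h1 h2).mono (by simp only [List.length_cons]; omega)

theorem pushX_run (v : A) (a b c d : List A) (x : Fin m → List A) :
    LR (pushX v) ⟨a, b, c, d, x⟩ ⟨a, b, c, d, fun i => v :: x i⟩ (m + 1) := by
  have h := pushX_aux v a b c d (List.finRange m) (List.nodup_finRange m) x
  have e : (fun j => if j ∈ List.finRange m then v :: x j else x j) = (fun i => v :: x i) := by
    funext j; simp
  rw [e, List.length_finRange] at h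
  exact h

/-- on all stacks `x i` delete the top letters which satisfy `p` and one further letter -/
def delX (p : A → Bool) : LP m A :=
  seqs ((List.finRange m).map fun i => .seq (del (.x i) p) (pop1 (.x i)))

private theorem delX_aux {p : A → Bool} {v : A} (hv : p v = false) (a b c d : List A) (y x : Fin m → List A)
    (hy : ∀ i, ∀ u ∈ y i, p u = true) : ∀ (L : List (Fin m)), L.Nodup → ∀ (z : Fin m → List A),
    (∀ i ∈ L, z i = y i ++ v :: x i) →
    LR (seqs (L.map fun i => .seq (del (.x i) p) (pop1 (.x i)))) ⟨a, b, c, d, z⟩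
      ⟨a, b, c, d, fun j => if j ∈ L then x j else z j⟩
      (3 * (L.map fun i => (y i).length).sum + 3 * L.length + 1) := by
  intro L
  induction L with
  | nil =>
    intro _ z _
    have e : (fun j => if j ∈ ([] : List (Fin m)) then x j else z j) = z := by
      funext j; simp
    rw [e]
    exact (LR.skip _).mono (by simp)
  | cons i L ih =>
    intro hnd z hz
    rw [List.nodup_cons] at hnd
    have h1 := del_run (k := .x i) (p := p) (s := (⟨a, b, c, d, z⟩ : Sta m A)) (l := y i) (v := v) (r := x i)
      (hz i (by simp)) (hy i) hv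
    have h2 := pop1_run (k := .x i) (s := (⟨a, b, c, d, z⟩ : Sta m A).set (.x i) (v :: x i)) (v := v) (r := x i)
      (by rw [Sta.get_set_self])
    rw [Sta.set_set] at h2
    have h3 := ih hnd.2 (Function.update z i (x i)) (fun j hj => by
      have hji : j ≠ i := fun h => hnd.1 (h ▸ hj)
      rw [Function.update_of_ne hji]
      exact hz j (by simp [hj]))
    have e : (fun j => if j ∈ L then x j else Function.update z i (x i) j) =
        (fun j => if j ∈ i :: L then x j else z j) := by
      funext j
      by_cases hj : j = i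
      · subst hj
        simp
      · simp [hj]
    rw [e] at h3
    refine (LR.seq (LR.seq h1 h2) h3).mono ?_
    simp only [List.length_cons, List.map_cons, List.sum_cons]
    omega

theorem delX_run {p : A → Bool} {v : A} (hv : p v = false) (a b c d : List A)
    (y x : Fin m → List A) (hy : ∀ i, ∀ u ∈ y i, p u = true) :
    LR (delX p) ⟨a, b, c, d, fun i => y i ++ v :: x i⟩ ⟨a, b, c, d, x⟩
      (3 * ∑ i, (y i).length + 3 * m + 1) := by
  have h := delX_aux hv a b c d y x hy (List.finRange m) (List.nodup_finRange m)
    (fun i => y i ++ v :: x i) (fun i _ => rfl)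
  have e : (fun j => if j ∈ List.finRange m then x j else y j ++ v :: x j) = x := by
    funext j; simp
  rw [e, List.length_finRange, ← Fin.sum_univ_def] at h
  exact h

end Pool.Agent.Lib.MP_33f9c4_lc.TT
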