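import Pool.Agent.Lib.MP_33f9c4_lc.T.Comp

set_option autoImplicit false

/-!
MODULE TMach. From a program to a Turing machine with different input and output stacks.

(1) as `Prog.machine` and `computable_of_run` in PolyTime/Prog.lean, but with input stack `k₀ = Ix.a`, output
stack `k₁ = Ix.b`: if `Run P s s' t`, `s = single .a w`, `s' = single .b x` then `Outputs D w x (t + 1)` for the
machine `D = (tm, Equiv.refl, Equiv.refl)`.
(2) the program: convert the raw input on `a` to the coded word `bw w ++ [mk]` (pop the bits of `a`, push them on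
`b`: reversed; push the code of `mk` on `a`; then pop the bits of `b` one by one, push the code of the letter on
`a`), push the code of `mk` on all other stacks (for the stacks `x i`: `List.finRange m`), then the program of
`lp_prog`, then remove the codes of `mk` of all stacks but `b`, and convert `b` (decode letter by letter to
another stack, reversed, until `mk`; move back).
-/

namespace Pool.Agent.Lib.MP_33f9c4_lc.TT

open Pool.Agent.Lib.PolyTime

variable {m N : ℕ}

open Function Turing StateTransition

/-! ### From programs to machines with different input and output stacks -/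

/-- The machine of a program, with input on stack `a` and output on stack `b`. -/
def mach2 (P : Prog (Ix m)) : FinTM2 where
  K := Ix m
  k₀ := .a
  k₁ := .b
  Γ _ := Bool
  Λ := Option (Lbl P)
  main := some (entry P)
  σ := Option Bool
  initialState := none
  m
    | none => .load (fun _ => none) .halt
    | some l => stmt P some none l

/-- the machine of a program with its alphabets -/
def machD (P : Prog (Ix m)) : Machine := ⟨mach2 P, Equiv.refl Bool, Equiv.refl Bool⟩

theorem mach_card (m : ℕ) : Fintype.card (Ix m) ≤ m + 4 := by
  have h : Function.Injective (fun k : Ix m => (match k with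
    | .a => Sum.inl 0
    | .b => Sum.inl 1
    | .c => Sum.inl 2
    | .d => Sum.inl 3
    | .x i => Sum.inr i : Fin 4 ⊕ Fin m)) := by
    intro k k' hkk
    cases k <;> cases k' <;> simp_all
  have h2 := Fintype.card_le_of_injective _ h
  rw [Fintype.card_sum, Fintype.card_fin, Fintype.card_fin] at h2
  omega

theorem machD_cls (P : Prog (Ix m)) : Cls m (machD P) := by
  refine ⟨mach_card m, ?_⟩
  intro h
  have h2 : (Ix.a : Ix m) = Ix.b := h
  cases h2

theorem machD_outputs (P : Prog (Ix m)) {w x : List Bool} {t : ℕ}
    (h : Run P (single .a w) (single .b x) t) : Outputs (machD P) w x (t + 1) := by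
  have hex : StepsTo (TM2.step (mach2 P).m)
      ⟨some (some (entry P)), none, single .a w⟩ ⟨none, none, single .b x⟩ (t + 1) := by
    obtain ⟨v', hv⟩ := run_stepsTo (Λ := Option (Lbl P)) (mach2 P).m h some none
      (fun l => rfl) none
    refine hv.trans (StepsTo.single ?_)
    rfl
  have e1 : initList (mach2 P) (List.map (Equiv.refl Bool).invFun w) =
      ⟨some (some (entry P)), none, single .a w⟩ := by
    unfold initList
    congr 1
    funext k
    by_cases hk : k = Ix.a
    · subst hk
      simp [single, mach2]
    · simp [single, mach2]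
  have e2 : haltList (mach2 P) (List.map (Equiv.refl Bool).invFun x) =
      ⟨none, none, single .b x⟩ := by
    unfold haltList
    congr 1
    funext k
    by_cases hk : k = Ix.b
    · subst hk
      simp [single, mach2]
    · simp [single, mach2]
  refine ⟨⟨⟨t + 1, ?_⟩, le_rfl⟩⟩
  show (flip bind (mach2 P).step)^[t + 1] (some (initList (mach2 P) (List.map (Equiv.refl Bool).invFun w))) =
    Option.map (haltList (mach2 P)) (some (List.map (Equiv.refl Bool).invFun x))
  rw [e1]
  simp only [Option.map_some]
  rw [e2]
  exact hex

/-! ### Programs with upper bounds for the time -/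

private def RT (P : Prog (Ix m)) (s s' : St (Ix m)) (t : ℕ) : Prop := ∃ r, r ≤ t ∧ Run P s s' r

private theorem RT.mono {P : Prog (Ix m)} {s s' : St (Ix m)} {t t' : ℕ} (h : RT P s s' t) (ht : t ≤ t') :
    RT P s s' t' := by
  obtain ⟨r, hr, h⟩ := h
  exact ⟨r, hr.trans ht, h⟩

private theorem RT.skip (s : St (Ix m)) : RT .skip s s 1 := ⟨1, le_rfl, .skip s⟩

private theorem RT.push (k : Ix m) (v : Bool) (s : St (Ix m)) : RT (.push k v) s (update s k (v :: s k)) 1 :=
  ⟨1, le_rfl, .push k v s⟩

private theorem RT.pop (k : Ix m) (s : St (Ix m)) : RT (.pop k) s (update s k (s k).tail) 1 :=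
  ⟨1, le_rfl, .pop k s⟩

private theorem RT.seq {P Q : Prog (Ix m)} {s s' s'' : St (Ix m)} {t t' : ℕ} (h : RT P s s' t)
    (h' : RT Q s' s'' t') : RT (.seq P Q) s s'' (t + t') := by
  obtain ⟨r, hr, h⟩ := h
  obtain ⟨q, hq, h'⟩ := h'
  exact ⟨r + q, by omega, .seq h h'⟩

private theorem RT.iteT {k : Ix m} {p : Option Bool → Bool} {P Q : Prog (Ix m)} {s s' : St (Ix m)} {t : ℕ}
    (hp : p (s k).head? = true) (h : RT P s s' t) : RT (.ite k p P Q) s s' (t + 1) := by
  obtain ⟨r, hr, h⟩ := h
  exact ⟨r + 1, by omega, .iteT hp h⟩

private theorem RT.iteF {k : Ix m} {p : Option Bool → Bool} {P Q : Prog (Ix m)} {s s' : St (Ix m)} {t : ℕ}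
    (hp : p (s k).head? = false) (h : RT Q s s' t) : RT (.ite k p P Q) s s' (t + 1) := by
  obtain ⟨r, hr, h⟩ := h
  exact ⟨r + 1, by omega, .iteF hp h⟩

private theorem RT.loopT {k : Ix m} {p : Option Bool → Bool} {P : Prog (Ix m)} {s s' s'' : St (Ix m)} {t t' : ℕ}
    (hp : p (s k).head? = true) (h : RT P s s' t) (h' : RT (.loop k p P) s' s'' t') :
    RT (.loop k p P) s s'' (t + t' + 1) := by
  obtain ⟨r, hr, h⟩ := h
  obtain ⟨q, hq, h'⟩ := h'
  exact ⟨r + q + 1, by omega, .loopT hp h h'⟩

private theorem RT.loopF {k : Ix m} {p : Option Bool → Bool} {P : Prog (Ix m)} {s : St (Ix m)}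
    (hp : p (s k).head? = false) : RT (.loop k p P) s s 1 := ⟨1, le_rfl, .loopF hp⟩

/-- push all letters of a list -/
private def pushL (k : Ix m) : List Bool → Prog (Ix m)
  | [] => .skip
  | b :: l => .seq (pushL k l) (.push k b)

private theorem pushL_run (k : Ix m) (s : St (Ix m)) : ∀ l : List Bool,
    RT (pushL k l) s (update s k (l ++ s k)) (l.length + 1)
  | [] => by
    have e : update s k ([] ++ s k) = s := by simp
    rw [e]
    exact RT.skip s
  | b :: l => by
    have h1 := pushL_run k s l
    have h2 := RT.push k b (update s k (l ++ s k))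
    rw [update_self, update_idem] at h2
    exact (RT.seq h1 h2).mono (by simp)

/-- pop `n` letters -/
private def popN (k : Ix m) : ℕ → Prog (Ix m)
  | 0 => .skip
  | n + 1 => .seq (.pop k) (popN k n)

private theorem popN_run (k : Ix m) : ∀ (n : ℕ) (s : St (Ix m)),
    RT (popN k n) s (update s k ((s k).drop n)) (n + 1)
  | 0, s => by
    have e : update s k ((s k).drop 0) = s := by simp
    rw [e]
    exact RT.skip s
  | n + 1, s => by
    have h1 := RT.pop k s
    have h2 := popN_run k n (update s k (s k).tail)
    rw [update_self, update_idem, List.drop_tail] at h2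
    exact (RT.seq h1 h2).mono (by omega)

/-- a program for every stack of a list -/
private def allP (Q : Ix m → Prog (Ix m)) : List (Ix m) → Prog (Ix m)
  | [] => .skip
  | k :: L => .seq (Q k) (allP Q L)

private theorem allP_run (Q : Ix m → Prog (Ix m)) (g : List Bool → List Bool) (c : ℕ)
    (hQ : ∀ k s, RT (Q k) s (update s k (g (s k))) c) : ∀ (L : List (Ix m)), L.Nodup → ∀ s : St (Ix m),
    RT (allP Q L) s (fun k => if k ∈ L then g (s k) else s k) (c * L.length + 1)
  | [], _, s => by
    have e : (fun k => if k ∈ ([] : List (Ix m)) then g (s k) else s k) = s := by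
      funext k; simp
    rw [e]
    exact RT.skip s
  | k :: L, hnd, s => by
    rw [List.nodup_cons] at hnd
    have h1 := hQ k s
    have h2 := allP_run Q g c hQ L hnd.2 (update s k (g (s k)))
    have e : (fun j => if j ∈ L then g (update s k (g (s k)) j) else update s k (g (s k)) j) =
        (fun j => if j ∈ k :: L then g (s j) else s j) := by
      funext j
      by_cases hj : j = k
      · subst hj
        simp [hnd.1]
      · simp [hj]
    rw [e] at h2
    refine (RT.seq h1 h2).mono ?_
    rw [List.length_cons, Nat.mul_succ]
    omega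

/-- move a stack to another one, every bit `v` becomes the list `h v` -/
private def mvh (k k' : Ix m) (h : Bool → List Bool) : Prog (Ix m) :=
  .loop k Option.isSome (.ite k (fun o => o == some true) (.seq (.pop k) (pushL k' (h true)))
    (.seq (.pop k) (pushL k' (h false))))

private theorem mvh_run {k k' : Ix m} (hk : k ≠ k') (h : Bool → List Bool) (c : ℕ) (hc : ∀ v, (h v).length ≤ c) :
    ∀ (l : List Bool) (s : St (Ix m)), s k = l →
    RT (mvh k k' h) s (update (update s k []) k' (l.reverse.flatMap h ++ s k')) ((c + 4) * l.length + 1)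
  | [], s, hs => by
    have e : update (update s k []) k' (([] : List Bool).reverse.flatMap h ++ s k') = s := by
      funext j
      by_cases hj : j = k'
      · subst hj; simp
      · rw [update_of_ne hj]
        by_cases hj' : j = k
        · subst hj'; simp [hs]
        · rw [update_of_ne hj']
    rw [e]
    exact (RT.loopF (by rw [hs]; rfl)).mono (by omega)
  | v :: l, s, hs => by
    have hbody : RT (.ite k (fun o => o == some true) (.seq (.pop k) (pushL k' (h true)))
        (.seq (.pop k) (pushL k' (h false)))) s (update (update s k l) k' (h v ++ s k')) (c + 3) := by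
      have h1 := RT.pop k s
      rw [hs, List.tail_cons] at h1
      have h2 := pushL_run k' (update s k l) (h v)
      rw [update_of_ne hk.symm] at h2
      have h3 := (RT.seq h1 h2).mono (show 1 + ((h v).length + 1) ≤ c + 2 by have := hc v; omega)
      cases v with
      | true => exact RT.iteT (by rw [hs]; rfl) h3
      | false => exact RT.iteF (by rw [hs]; rfl) h3
    have ih := mvh_run hk h c hc l (update (update s k l) k' (h v ++ s k'))
      (by rw [update_of_ne hk, update_self])
    have e : update (update (update (update s k l) k' (h v ++ s k')) k []) k'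
        (l.reverse.flatMap h ++ update (update s k l) k' (h v ++ s k') k') =
        update (update s k []) k' ((v :: l).reverse.flatMap h ++ s k') := by
      funext j
      by_cases hj : j = k'
      · subst hj
        rw [update_self, update_self, update_self, List.reverse_cons, List.flatMap_append, List.append_assoc]
        simp
      · rw [update_of_ne hj, update_of_ne hj]
        by_cases hj' : j = k
        · subst hj'
          rw [update_self, update_self]
        · rw [update_of_ne hj', update_of_ne hj', update_of_ne hj, update_of_ne hj']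
    rw [e] at ih
    refine (RT.loopT (by rw [hs]; rfl) hbody ih).mono ?_
    rw [List.length_cons, Nat.mul_succ]
    omega

/-! ### Reading a letter -/

private def rd (k : Ix m) (F : ℕ → Prog (Ix m)) : ℕ → ℕ → Prog (Ix m)
  | 0, _ => .skip
  | n + 1, j => .ite k (fun o => o == some true) (.seq (.pop k) (rd k F n (j + 1))) (.seq (.pop k) (F j))

private theorem rd_run (k : Ix m) (F : ℕ → Prog (Ix m)) {r : List Bool} {s' : St (Ix m)} {t : ℕ} :
    ∀ (i n j : ℕ) (s : St (Ix m)), i < n → s k = List.replicate i true ++ false :: r →
    RT (F (j + i)) (update s k r) s' t → RT (rd k F n j) s s' (t + 2 * (i + 1))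
  | 0, n + 1, j, s, _, hs, hF => by
    have h1 := RT.pop k s
    have h0 : s k = false :: r := by rw [hs]; rfl
    rw [h0, List.tail_cons] at h1
    have h2 : RT (rd k F (n + 1) j) s s' ((1 + t) + 1) :=
      RT.iteF (by rw [h0]; rfl) (RT.seq h1 hF)
    exact h2.mono (by omega)
  | i + 1, n + 1, j, s, hi, hs, hF => by
    have h1 := RT.pop k s
    have h0 : s k = true :: (List.replicate i true ++ false :: r) := by rw [hs]; rfl
    rw [h0, List.tail_cons] at h1
    have ih := rd_run k F i n (j + 1) (update s k (List.replicate i true ++ false :: r)) (by omega)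
      (by rw [update_self]) (by rw [update_idem, show j + 1 + i = j + (i + 1) by omega]; exact hF)
    have h2 : RT (rd k F (n + 1) j) s s' ((1 + (t + 2 * (i + 1))) + 1) :=
      RT.iteT (by rw [h0]; rfl) (RT.seq h1 ih)
    exact h2.mono (by omega)

/-- the number of a letter -/
private noncomputable def nu (v : Lt N) : ℕ := (Fintype.equivFin (Lt N) v : ℕ)

private theorem nu_inj {v w : Lt N} (h : nu v = nu w) : v = w :=
  (Fintype.equivFin (Lt N)).injective (Fin.ext h)

private theorem nu_lt (v : Lt N) : nu v < Fintype.card (Lt N) := (Fintype.equivFin (Lt N) v).2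

private theorem cod_eq (v : Lt N) : cod v = List.replicate (nu v) true ++ [false] := rfl

private theorem cod_length (v : Lt N) : (cod v).length ≤ Fintype.card (Lt N) := by
  rw [cod_eq, List.length_append, List.length_replicate, List.length_singleton]
  exact nu_lt v

/-- what to do with a letter of the output -/
private noncomputable def outF (N : ℕ) (j : ℕ) : Prog (Ix m) :=
  if j = nu (N := N) .i then .push .a true else if j = nu (N := N) .o then .push .a false else .skip

private theorem outF_run (b : Bool) (s : St (Ix m)) :
    RT (outF (m := m) N (nu (bt b : Lt N))) s (update s .a (b :: s .a)) 1 := by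
  cases b with
  | true =>
    have e : (bt true : Lt N) = .i := rfl
    rw [outF, e, if_pos rfl]
    exact RT.push _ _ _
  | false =>
    have e : (bt false : Lt N) = .o := rfl
    rw [outF, e, if_neg, if_pos rfl]
    · exact RT.push _ _ _
    · intro h
      have h2 := nu_inj h
      cases h2

private theorem outF_mk (s : St (Ix m)) : RT (outF (m := m) N (nu (.mk : Lt N))) s s 1 := by
  rw [outF, if_neg, if_neg]
  · exact RT.skip s
  · intro h
    have h2 := nu_inj h
    cases h2
  · intro h
    have h2 := nu_inj h
    cases h2

/-- decode stack `b` to stack `a` -/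
private noncomputable def decP (m N : ℕ) : Prog (Ix m) :=
  .loop .b Option.isSome (rd .b (outF N) (Fintype.card (Lt N)) 0)

private theorem head_some (v : Lt N) (r : List Bool) : Option.isSome (cod v ++ r).head? = true := by
  rw [cod_eq]
  cases nu v with
  | zero => rfl
  | succ n => rfl

private theorem decP_run : ∀ (x : List Bool) (s : St (Ix m)),
    s .b = x.flatMap (fun v => cod (bt v : Lt N)) ++ cod (.mk : Lt N) →
    RT (decP m N) s (update (update s .b []) .a (x.reverse ++ s .a))
      ((2 * Fintype.card (Lt N) + 2) * (x.length + 1) + 1)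
  | [], s, hs => by
    rw [List.flatMap_nil, List.nil_append] at hs
    have h1 : RT (rd .b (outF (m := m) N) (Fintype.card (Lt N)) 0) s (update s .b []) (1 + 2 * (nu (.mk : Lt N) + 1)) := by
      refine rd_run .b (outF N) (r := []) (nu (.mk : Lt N)) (Fintype.card (Lt N)) 0 s (nu_lt _) hs ?_
      rw [Nat.zero_add]
      exact outF_mk _
    have e : update (update s .b []) .a (([] : List Bool).reverse ++ s .a) = update s .b [] := by
      funext j
      by_cases hj : j = .a
      · subst hj; simp
      · rw [update_of_ne hj]
    rw [e]
    have h2 : RT (decP m N) (update s .b []) (update s .b []) 1 := RT.loopF (by rw [update_self]; rfl)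
    have h3 := nu_lt (.mk : Lt N)
    refine (RT.loopT (by rw [hs]; have := head_some (.mk : Lt N) []; rwa [List.append_nil] at this) h1 h2).mono ?_
    rw [List.length_nil]
    omega
  | v :: x, s, hs => by
    rw [List.flatMap_cons, List.append_assoc] at hs
    have hs2 : s .b = List.replicate (nu (bt v : Lt N)) true ++
        false :: (x.flatMap (fun v => cod (bt v : Lt N)) ++ cod (.mk : Lt N)) := by
      rw [hs, cod_eq, List.append_assoc]
      rfl
    obtain ⟨r, hr⟩ : ∃ r, r = x.flatMap (fun v => cod (bt v : Lt N)) ++ cod (.mk : Lt N) := ⟨_, rfl⟩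
    rw [← hr] at hs2 hs
    have h1 : RT (rd .b (outF (m := m) N) (Fintype.card (Lt N)) 0) s (update (update s .b r) .a (v :: s .a))
        (1 + 2 * (nu (bt v : Lt N) + 1)) := by
      refine rd_run .b (outF N) (r := r) (nu (bt v : Lt N)) (Fintype.card (Lt N)) 0 s (nu_lt _) hs2 ?_
      rw [Nat.zero_add]
      have := outF_run (N := N) v (update s Ix.b r)
      rwa [update_of_ne (show (Ix.a : Ix m) ≠ Ix.b by intro h; cases h)] at this
    have ih := decP_run x (update (update s .b r) .a (v :: s .a)) (by
      rw [update_of_ne (show (Ix.b : Ix m) ≠ Ix.a by intro h; cases h), update_self, hr])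
    have e : update (update (update (update s .b r) .a (v :: s .a)) .b []) .a
        (x.reverse ++ update (update s Ix.b r) Ix.a (v :: s Ix.a) Ix.a) =
        update (update s .b []) .a ((v :: x).reverse ++ s .a) := by
      funext j
      by_cases hj : j = .a
      · subst hj; simp
      · rw [update_of_ne hj, update_of_ne hj]
        by_cases hj' : j = .b
        · subst hj'
          rw [update_self, update_self]
        · rw [update_of_ne hj', update_of_ne hj', update_of_ne hj, update_of_ne hj']
    rw [e] at ih
    have h3 := nu_lt (bt v : Lt N)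
    refine (RT.loopT (by rw [hs]; exact head_some _ _) h1 ih).mono ?_
    rw [List.length_cons, Nat.mul_succ _ (x.length + 1)]
    omega

/-! ### The program -/

/-- all stacks but `a` -/
private def exA (m : ℕ) : List (Ix m) := [.b, .c, .d] ++ (List.finRange m).map .x

/-- all stacks but `b` -/
private def exB (m : ℕ) : List (Ix m) := [.a, .c, .d] ++ (List.finRange m).map .x

private theorem exA_mem (k : Ix m) : k ∈ exA m ↔ k ≠ .a := by
  cases k <;> simp [exA]

private theorem exB_mem (k : Ix m) : k ∈ exB m ↔ k ≠ .b := by
  cases k <;> simp [exB]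

private theorem x_inj : Function.Injective (Ix.x : Fin m → Ix m) := fun i j h => by
  cases h
  rfl

private theorem exA_nodup : (exA m).Nodup := by
  unfold exA
  rw [List.nodup_append]
  refine ⟨by simp, (List.nodup_finRange m).map x_inj, ?_⟩
  intro u ha u' hb
  rw [List.mem_map] at hb
  obtain ⟨i, _, rfl⟩ := hb
  rintro rfl
  simp at ha

private theorem exB_nodup : (exB m).Nodup := by
  unfold exB
  rw [List.nodup_append]
  refine ⟨by simp, (List.nodup_finRange m).map x_inj, ?_⟩
  intro u ha u' hb
  rw [List.mem_map] at hb
  obtain ⟨i, _, rfl⟩ := hb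
  rintro rfl
  simp at ha

private theorem exA_length : (exA m).length = m + 3 := by simp [exA]

private theorem exB_length : (exB m).length = m + 3 := by simp [exB]

/-- the initial state with input `w` -/
def sIn (w : List Bool) : Sta m (Lt N) := ⟨bw w ++ [.mk], [.mk], [.mk], [.mk], fun _ => [.mk]⟩

/-- the final state with output `x` -/
def sOut (x : List Bool) : Sta m (Lt N) := ⟨[.mk], bw x ++ [.mk], [.mk], [.mk], fun _ => [.mk]⟩

theorem lp_machine (P : LP m (Lt N)) : ∃ (D : Machine) (C : ℕ), Cls m D ∧
    ∀ (w x : List Bool) (t : ℕ), LE P (sIn w) (sOut x) t →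
      Outputs D w x (C * (t + w.length + x.length + 1)) := by
  obtain ⟨P', C, hP⟩ := lp_prog P
  obtain ⟨K, hK⟩ : ∃ K, K = Fintype.card (Lt N) := ⟨_, rfl⟩
  have hlen : ∀ v : Lt N, (cod v).length ≤ K := fun v => by rw [hK]; exact cod_length v
  obtain ⟨M, hM⟩ : ∃ M : List Bool, M = cod (.mk : Lt N) := ⟨_, rfl⟩
  have hMl : M.length ≤ K := by rw [hM]; exact hlen _
  let Pre : Prog (Ix m) := .seq (mvh .a .b (fun v => [v])) (.seq (pushL .a M)
    (.seq (mvh .b .a (fun v => cod (bt v : Lt N))) (allP (fun k => pushL k M) (exA m))))
  let Post : Prog (Ix m) := .seq (allP (fun k => popN k M.length) (exB m)) (.seq (decP m N)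
    (mvh .a .b (fun v => [v])))
  have hpre : ∀ w : List Bool, RT Pre (single .a w) (cst (sIn (m := m) (N := N) w))
      (((K + 4) + 5) * w.length + ((K + 1) * (m + 3) + K + 4)) := by
    intro w
    have hab : (Ix.a : Ix m) ≠ Ix.b := by intro h; cases h
    have h1 := mvh_run (m := m) (k := .a) (k' := .b) hab (fun v => [v]) 1 (by simp) w (single .a w)
      (by simp [single])
    have e1 : update (update (single (Ix.a : Ix m) w) .a []) .b (w.reverse.flatMap (fun v => [v]) ++ single (Ix.a : Ix m) w .b) =
        single .b w.reverse := by
      funext j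
      by_cases hj : j = .b
      · subst hj
        simp [single]
      · rw [update_of_ne hj]
        by_cases hj' : j = .a
        · subst hj'
          simp [single]
        · rw [update_of_ne hj']
          simp [single, hj, hj']
    rw [e1] at h1
    have h2 := pushL_run .a (single (Ix.b : Ix m) w.reverse) M
    have h3 := mvh_run (m := m) (k := .b) (k' := .a) hab.symm (fun v => cod (bt v : Lt N)) K (fun v => hlen _)
      w.reverse (update (single (Ix.b : Ix m) w.reverse) .a (M ++ single (Ix.b : Ix m) w.reverse .a))
      (by rw [update_of_ne hab.symm]; simp [single])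
    have e3 : update (update (update (single (Ix.b : Ix m) w.reverse) .a (M ++ single (Ix.b : Ix m) w.reverse .a)) .b [])
        .a (w.reverse.reverse.flatMap (fun v => cod (bt v : Lt N)) ++
          update (single (Ix.b : Ix m) w.reverse) .a (M ++ single (Ix.b : Ix m) w.reverse .a) .a) =
        single .a (w.flatMap (fun v => cod (bt v : Lt N)) ++ M) := by
      funext j
      by_cases hj : j = .a
      · subst hj
        rw [update_self, update_self, List.reverse_reverse]
        simp [single]
      · rw [update_of_ne hj]
        by_cases hj' : j = .b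
        · subst hj'
          simp [single]
        · rw [update_of_ne hj', update_of_ne hj]
          simp [single, hj, hj']
    rw [e3] at h3
    have h4 := allP_run (m := m) (fun k => pushL k M) (fun l => M ++ l) (K + 1)
      (fun k s => (pushL_run k s M).mono (by omega)) (exA m) exA_nodup
      (single .a (w.flatMap (fun v => cod (bt v : Lt N)) ++ M))
    have e4 : (fun k => if k ∈ exA m then M ++ single (Ix.a : Ix m) (w.flatMap (fun v => cod (bt v : Lt N)) ++ M) k
        else single (Ix.a : Ix m) (w.flatMap (fun v => cod (bt v : Lt N)) ++ M) k) = cst (sIn (m := m) (N := N) w) := by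
      funext k
      cases k <;> simp [exA_mem, single, cst, sIn, Sta.get, hM, bw, List.flatMap_map]
    rw [e4] at h4
    refine (RT.seq h1 (RT.seq h2 (RT.seq h3 h4))).mono ?_
    rw [exA_length, List.length_reverse]
    nlinarith
  have hpost : ∀ x : List Bool, RT Post (cst (sOut (m := m) (N := N) x)) (single .b x)
      ((2 * K + 2 + 5) * x.length + ((K + 1) * (m + 3) + (2 * K + 2) + 4)) := by
    intro x
    have hab : (Ix.a : Ix m) ≠ Ix.b := by intro h; cases h
    have h1 := allP_run (m := m) (fun k => popN k M.length) (fun l => l.drop M.length) (K + 1)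
      (fun k s => (popN_run k M.length s).mono (by omega)) (exB m) exB_nodup
      (cst (sOut (m := m) (N := N) x))
    have e1 : (fun k => if k ∈ exB m then (cst (sOut (m := m) (N := N) x) k).drop M.length
        else cst (sOut (m := m) (N := N) x) k) = single .b (x.flatMap (fun v => cod (bt v : Lt N)) ++ M) := by
      funext k
      cases k <;> simp [exB_mem, single, cst, sOut, Sta.get, hM, bw, List.flatMap_map]
    rw [e1] at h1
    have h2 := decP_run (m := m) (N := N) x (single .b (x.flatMap (fun v => cod (bt v : Lt N)) ++ M))
      (by simp [single, hM])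
    have e2 : update (update (single (Ix.b : Ix m) (x.flatMap (fun v => cod (bt v : Lt N)) ++ M)) .b []) .a
        (x.reverse ++ single (Ix.b : Ix m) (x.flatMap (fun v => cod (bt v : Lt N)) ++ M) .a) =
        single .a x.reverse := by
      funext j
      by_cases hj : j = .a
      · subst hj
        simp [single]
      · rw [update_of_ne hj]
        by_cases hj' : j = .b
        · subst hj'
          simp [single]
        · rw [update_of_ne hj']
          simp [single, hj, hj']
    rw [e2] at h2
    have h3 := mvh_run (m := m) (k := .a) (k' := .b) hab (fun v => [v]) 1 (by simp) x.reverse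
      (single .a x.reverse) (by simp [single])
    have e3 : update (update (single (Ix.a : Ix m) x.reverse) .a []) .b
        (x.reverse.reverse.flatMap (fun v => [v]) ++ single (Ix.a : Ix m) x.reverse .b) = single .b x := by
      funext j
      by_cases hj : j = .b
      · subst hj
        simp [single]
      · rw [update_of_ne hj]
        by_cases hj' : j = .a
        · subst hj'
          simp [single]
        · rw [update_of_ne hj']
          simp [single, hj, hj']
    rw [e3] at h3
    refine (RT.seq h1 (RT.seq h2 h3)).mono ?_
    rw [exB_length, List.length_reverse, ← hK]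
    nlinarith
  obtain ⟨E, hE⟩ : ∃ E, E = (K + 1) * (m + 3) := ⟨_, rfl⟩
  refine ⟨machD (.seq Pre (.seq P' Post)), C + (2 * K + 9) + (2 * E + 4 * K + 20), machD_cls _, ?_⟩
  intro w x t hLE
  obtain ⟨t', ht', hr⟩ := hP _ _ t hLE
  obtain ⟨r1, hr1, h1⟩ := hpre w
  obtain ⟨r2, hr2, h2⟩ := hpost x
  have h3 := machD_outputs (.seq Pre (.seq P' Post)) (Run.seq h1 (Run.seq hr h2))
  rw [← hE] at hr1 hr2
  have hbound : r1 + (t' + r2) + 1 ≤ (C + (2 * K + 9) + (2 * E + 4 * K + 20)) * (t + w.length + x.length + 1) := by
    obtain ⟨W, hW⟩ : ∃ W, W = w.length := ⟨_, rfl⟩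
    obtain ⟨X, hX⟩ : ∃ X, X = x.length := ⟨_, rfl⟩
    rw [← hW] at hr1 ⊢
    rw [← hX] at hr2 ⊢
    have a1 : (C + (2 * K + 9) + (2 * E + 4 * K + 20)) * (t + W + X + 1) =
        C * t + (2 * K + 9) * W + (2 * K + 9) * X + (2 * E + 4 * K + 20) +
        (C * (W + X + 1) + (2 * K + 9) * (t + 1) + (2 * E + 4 * K + 20) * (t + W + X)) := by ring
    have a2 : (K + 4 + 5) * W ≤ (2 * K + 9) * W := Nat.mul_le_mul_right _ (by omega)
    have a3 : (2 * K + 2 + 5) * X ≤ (2 * K + 9) * X := Nat.mul_le_mul_right _ (by omega)
    omega
  obtain ⟨h4⟩ := h3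
  exact ⟨⟨h4.toEvalsTo, h4.steps_le_m.trans hbound⟩⟩

end Pool.Agent.Lib.MP_33f9c4_lc.TT
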