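import Pool.Agent.Lib.MP_33f9c4_lc.T.Host
import Pool.Agent.Lib.MP_33f9c4_lc.T.Mach
import Pool.Agent.Lib.MP_33f9c4_lc.T.Mac
import Pool.Agent.Lib.MP_33f9c4_lc.T.ParT

set_option autoImplicit false

/-!
# Final theorem: auxiliary statements
-/

namespace Pool.Agent.Lib.MP_33f9c4_lc.TT

open Pool.Agent.Lib.MP_33f9c4_lc.LK (Par Tab rt mt jhi tmpl allL view reads allT Tested parT)

variable {m : ℕ}

/-- Every string is an output of some machine of the class. -/
theorem exists_all_outputs (m : ℕ) : ∃ I : Machine, Cls m I ∧
    ∀ x : List Bool, ∃ (d : List Bool) (t : ℕ), Outputs I d x t := by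
  obtain ⟨I, C, hI, hO⟩ := lp_machine (m := m) (N := 0) (mv .a .b isB id)
  refine ⟨I, hI, fun x => ?_⟩
  have hab : (Ix.a : Ix m) ≠ Ix.b := by intro h; cases h
  have h := mv_run (m := m) (A := Lt 0) hab (p := isB) id (s := sIn x.reverse)
    (l := bw x.reverse) (v := .mk) (r := []) rfl
    (by
      intro u hu
      obtain ⟨b, -, rfl⟩ := List.mem_map.mp hu
      exact isB_bt b) rfl
  obtain ⟨r, -, hr⟩ := h
  have e : (((sIn x.reverse : Sta m (Lt 0)).set .a [.mk]).set .b
      (((bw x.reverse : List (Lt 0)).map id).reverse ++ (sIn x.reverse : Sta m (Lt 0)).get .b)) =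
      sOut x := by
    simp [sIn, sOut, Sta.set, Sta.get, bw]
  rw [e] at hr
  exact ⟨x.reverse, _, hO x.reverse x r hr⟩

/-- the reversed template of all strings of length `n` with the prefix `v` -/
def tmx (n : ℕ) (v : List Bool) : List (Option Bool) :=
  (v.map some ++ List.replicate (n - v.length) none).reverse

theorem length_tmx {n : ℕ} {v : List Bool} (h : v.length ≤ n) : (tmx n v).length = n := by
  rw [tmx, List.length_reverse, List.length_append, List.length_map, List.length_replicate]
  omega

theorem free_tmx (n : ℕ) (v : List Bool) : MP_33f9c4_lc.K.free (tmx n v) = n - v.length := by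
  have h0 : (v.map some).count (none : Option Bool) = 0 := by
    rw [List.count_eq_zero]
    simp
  rw [MP_33f9c4_lc.K.free, tmx, List.count_reverse, List.count_append, List.count_replicate_self, h0]
  omega

theorem mem_ents_tmx {n : ℕ} {v : List Bool} (h : v.length ≤ n) {x : List Bool} :
    x ∈ MP_33f9c4_lc.K.ents (tmx n v) [] ↔ x.length = n ∧ v <+: x := by
  have hlen : (v.map some ++ List.replicate (n - v.length) (none : Option Bool)).length = n := by
    rw [List.length_append, List.length_map, List.length_replicate]
    omega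
  rw [tmx, ← (LK.VView_perm _).mem_iff, List.mem_filter, LK.VView_mem_allL, hlen]
  have key : ∀ (v : List Bool) (k : ℕ) (x : List Bool), x.length = v.length + k →
      (LK.mat (v.map some ++ List.replicate k none) x = true ↔ v <+: x) := by
    intro v k
    induction v with
    | nil =>
      intro x hx
      simp only [List.map_nil, List.nil_append, List.nil_prefix, iff_true]
      simp only [List.length_nil, Nat.zero_add] at hx
      induction k generalizing x with
      | zero =>
        rw [List.length_eq_zero_iff] at hx
        subst hx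
        rfl
      | succ k ih =>
        cases x with
        | nil => simp at hx
        | cons b x =>
          rw [List.replicate_succ]
          exact ih x (by simpa using hx)
    | cons c v ih =>
      intro x hx
      cases x with
      | nil => simp at hx; omega
      | cons b x =>
        rw [List.map_cons, List.cons_append, LK.mat, Bool.and_eq_true, ih x (by
          simp only [List.length_cons] at hx; omega), List.cons_prefix_cons, beq_iff_eq]
  constructor
  · rintro ⟨h1, h2⟩
    exact ⟨h1, (key v _ x (by omega)).mp h2⟩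
  · rintro ⟨h1, h2⟩
    exact ⟨h1, (key v _ x (by omega)).mpr h2⟩

/-- the tested strings are the strings matching one of the templates -/
theorem tested_iff {P : Par} (hP : P.Good) {T : Tab} {u : List Bool} (hu1 : 1 ≤ u.length)
    (hu2 : u.length ≤ P.R + P.q) {x : List Bool} :
    Tested P u (view P T u) x ↔
      ∃ τ' ∈ (allT P T u).map (tmx P.n), x ∈ MP_33f9c4_lc.K.ents τ' [] := by
  rw [← LK.VCost_mem]
  constructor
  · rintro ⟨h, p, hp, hx⟩
    exact ⟨_, List.mem_map.mpr ⟨p, hp, rfl⟩, (mem_ents_tmx (LK.VCost_le hP hu1 hu2 hp)).mpr ⟨h, hx⟩⟩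
  · rintro ⟨τ', h, hx⟩
    obtain ⟨p, hp, rfl⟩ := List.mem_map.mp h
    obtain ⟨h1, h2⟩ := (mem_ents_tmx (LK.VCost_le hP hu1 hu2 hp)).mp hx
    exact ⟨h1, p, hp, h2⟩

end Pool.Agent.Lib.MP_33f9c4_lc.TT
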