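import Pool.Agent.Lib.MP_33f9c4_lc.T.Sen

set_option autoImplicit false

/-!
MODULE Sort. Radix sort of a list of items on the stacks `b`, `c`, `d`.

PURE PART. `pass l` = the items whose key begins with 0, then those whose key begins with 1, the first bit is
moved to the end. `pass^[K] l = (ord K).flatMap (fun y => l.filter (key = y))` if all keys have length `K`:
prove by induction on `i ≤ K` (first for keys split as `u ++ v`, `u.length = i`): `pass^[i] l` is the list
`(ord i).flatMap (fun u => (l.filter (take i key = u)).map (rotate key by i))`.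
PROGRAM for one pass: push `mk` on `c` and on `d`. Loop on `b` while the top is a flag (`re` or `se`): pop the flag `f`, pop the first bit `v`; target `t`
= `c` if `v = o`, `d` if `v = i`: push `hs` on `t`, move the remaining bits from `b` to `t` (until `hs`), pop `hs` of `b`, push `v` on `t`, push
`f` on `t` (on the target the item is again flag, bits, `hs`, in the order first bit moved..: reversed). After the loop (top of
`b` is `mk`): the same transport back without removing the first bit: while the top of `d` is a flag: pop the flag,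
push `hs` on `b`, move the bits to `b`, pop `hs`, push the flag on `b`; then the same with `c`. Pop the `mk` of `c` and `d`.
(The bits of an item are reversed twice; check: item `x₀ x₁ .. x_{K-1}` becomes `x₁ .. x_{K-1} x₀`.)
`K` passes: the unary `K` on `a` is used up: loop on `a` while top = `i`: pop it, pass; then pop `hs`.
-/

namespace Pool.Agent.Lib.MP_33f9c4_lc.TT

variable {m N : ℕ}

/-- one pass -/
def pass (l : List (Bool × List Bool)) : List (Bool × List Bool) :=
  ((l.filter fun x => x.2.head? == some false).map fun x => (x.1, x.2.tail ++ x.2.take 1)) ++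
    ((l.filter fun x => x.2.head? == some true).map fun x => (x.1, x.2.tail ++ x.2.take 1))

/-- rotation of the key by `i` -/
private def rotI (i : ℕ) (x : Bool × List Bool) : Bool × List Bool := (x.1, x.2.drop i ++ x.2.take i)

private theorem sort_take {i : ℕ} {w : List Bool} (h : i < w.length) :
    w.take (i + 1) = w.take i ++ [w[i]] ∧ w.drop i = w[i] :: w.drop (i + 1) :=
  ⟨(List.take_concat_get' w i h).symm, List.drop_eq_getElem_cons h⟩

private theorem sort_key (l : List (Bool × List Bool)) (i : ℕ) (h : ∀ x ∈ l, i < x.2.length)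
    (u : List Bool) (b : Bool) :
    (((l.filter fun x => x.2.take i == u).map (rotI i)).filter fun x => x.2.head? == some b).map
      (fun x => (x.1, x.2.tail ++ x.2.take 1)) =
      (l.filter fun x => x.2.take (i + 1) == u ++ [b]).map (rotI (i + 1)) := by
  rw [List.filter_map, List.map_map, List.filter_filter]
  have e1 : (l.filter fun a => ((fun x : Bool × List Bool => x.2.head? == some b) ∘ rotI i) a &&
      (a.2.take i == u)) = l.filter fun x => x.2.take (i + 1) == u ++ [b] := by
    apply List.filter_congr
    intro x hx
    obtain ⟨h1, h2⟩ := sort_take (h x hx)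
    rw [Bool.eq_iff_iff]
    simp only [Function.comp_apply, rotI, Bool.and_eq_true, beq_iff_eq]
    rw [h1, h2, List.cons_append, List.head?_cons, Option.some_inj]
    constructor
    · rintro ⟨h3, h4⟩
      rw [h3, h4]
    · intro h3
      have h4 := List.append_inj' h3 rfl
      exact ⟨by simpa using h4.2, h4.1⟩
  rw [e1]
  apply List.map_congr_left
  intro x hx
  have hx' := (List.mem_filter.mp hx).1
  obtain ⟨h1, h2⟩ := sort_take (h x hx')
  simp only [Function.comp_apply, rotI]
  rw [h1, h2, List.cons_append, List.tail_cons, List.take_succ_cons, List.take_zero, List.append_assoc]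

private theorem pass_flat (L : List (List Bool)) (F : List Bool → List (Bool × List Bool)) :
    pass (L.flatMap F) =
      (L.flatMap fun u => ((F u).filter fun x => x.2.head? == some false).map
        fun x => (x.1, x.2.tail ++ x.2.take 1)) ++
      (L.flatMap fun u => ((F u).filter fun x => x.2.head? == some true).map
        fun x => (x.1, x.2.tail ++ x.2.take 1)) := by
  unfold pass
  rw [List.filter_flatMap, List.filter_flatMap, List.map_flatMap, List.map_flatMap]

private theorem pass_iter_aux (K : ℕ) (l : List (Bool × List Bool)) (h : ∀ x ∈ l, x.2.length = K) :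
    ∀ i, i ≤ K → pass^[i] l = (ord i).flatMap fun u => (l.filter fun x => x.2.take i == u).map (rotI i) := by
  intro i
  induction i with
  | zero =>
    intro _
    have e : (l.filter fun x : Bool × List Bool => x.2.take 0 == []).map (rotI 0) = l := by
      have e1 : (l.filter fun x : Bool × List Bool => x.2.take 0 == []) = l := by
        apply List.filter_eq_self.mpr
        intro x _
        simp
      rw [e1]
      have e2 : (rotI 0 : Bool × List Bool → Bool × List Bool) = id := by
        funext x
        simp [rotI]
      rw [e2, List.map_id]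
    simp only [ord, List.flatMap_cons, List.flatMap_nil, List.append_nil, Function.iterate_zero, id_eq]
    exact e.symm
  | succ i ih =>
    intro hi
    rw [Function.iterate_succ_apply', ih (by omega), pass_flat]
    have hK : ∀ x ∈ l, i < x.2.length := fun x hx => by rw [h x hx]; omega
    simp only [sort_key l i hK]
    rw [ord, List.flatMap_append, List.flatMap_map, List.flatMap_map]

theorem pass_iter (K : ℕ) (l : List (Bool × List Bool)) (h : ∀ x ∈ l, x.2.length = K) :
    pass^[K] l = (ord K).flatMap fun y => l.filter fun x => x.2 == y := by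
  rw [pass_iter_aux K l h K le_rfl]
  congr 1
  funext u
  have e1 : (l.filter fun x => x.2.take K == u) = l.filter fun x => x.2 == u := by
    apply List.filter_congr
    intro x hx
    rw [List.take_of_length_le (h x hx).le]
  rw [e1]
  have e2 : (l.filter fun x => x.2 == u).map (rotI K) = (l.filter fun x => x.2 == u).map id := by
    apply List.map_congr_left
    intro x hx
    have hx' := h x (List.mem_filter.mp hx).1
    obtain ⟨f, w⟩ := x
    simp only at hx'
    simp [rotI, ← hx']
  rw [e2, List.map_id]

/-! ### The program -/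

/-- the flags -/
private def isF : Lt N → Bool
  | .re => true
  | .se => true
  | _ => false

/-- the flag of an item -/
private def flg (f : Bool) : Lt N := if f then .re else .se

private theorem isF_flg (f : Bool) : isF (flg f : Lt N) = true := by cases f <;> rfl

private theorem items_cons (x : Bool × List Bool) (l : List (Bool × List Bool)) (r : List (Lt N)) :
    items (x :: l) ++ r = flg x.1 :: (bw x.2 ++ .hs :: (items l ++ r)) := by
  simp only [items, List.flatMap_cons, itm, flg, List.cons_append, List.append_assoc, List.nil_append]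

private theorem items_append (l l' : List (Bool × List Bool)) :
    (items (l ++ l') : List (Lt N)) = items l ++ items l' := by
  unfold items
  rw [List.flatMap_append]

private theorem sort_ext2 {s s' : Sta m (Lt N)} (k k' : Ix m) (h1 : s.get k = s'.get k)
    (h2 : s.get k' = s'.get k') (h3 : ∀ j, j ≠ k → j ≠ k' → s.get j = s'.get j) : s = s' := by
  ext j : 1
  by_cases hj : j = k
  · rw [hj, h1]
  · by_cases hj' : j = k'
    · rw [hj', h2]
    · exact h3 j hj hj'

/-- move the bits and the end letter of an item from `k` to `k'`, then push `f` -/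
private def mvI (f : Lt N) (k k' : Ix m) : LP m (Lt N) :=
  .seq (.push k' .hs) (.seq (mv k k' isB id) (.seq (pop1 k) (.push k' f)))

private theorem mvI_run {k k' : Ix m} (hk : k ≠ k') (f : Lt N) {s : Sta m (Lt N)} {w : List Bool}
    {r : List (Lt N)} (hs : s.get k = bw w ++ .hs :: r) :
    LR (mvI f k k') s ((s.set k r).set k' (f :: (bw w.reverse ++ .hs :: s.get k')))
      (3 * w.length + 5) := by
  have h1 := LR.push k' (.hs : Lt N) s
  have g1 : (s.set k' (.hs :: s.get k')).get k = bw w ++ .hs :: r := by
    rw [Sta.get_set_of_ne _ hk, hs]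
  have h2 := mv_run hk (p := isB) id g1 (fun u hu => by
    simp only [bw, List.mem_map] at hu
    obtain ⟨b, _, rfl⟩ := hu
    exact isB_bt b) rfl
  obtain ⟨s2, hs2⟩ : ∃ s2, s2 = ((s.set k' (.hs :: s.get k')).set k (.hs :: r)).set k'
      (((bw w).map id).reverse ++ (s.set k' (.hs :: s.get k')).get k') := ⟨_, rfl⟩
  rw [← hs2] at h2
  have g2 : s2.get k = .hs :: r := by rw [hs2, Sta.get_set_of_ne _ hk, Sta.get_set_self]
  have g3 : s2.get k' = bw w.reverse ++ .hs :: s.get k' := by
    rw [hs2, Sta.get_set_self, Sta.get_set_self, List.map_id, bw, bw, List.map_reverse]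
  have g4 : ∀ j, j ≠ k → j ≠ k' → s2.get j = s.get j := by
    intro j h1 h2
    rw [hs2, Sta.get_set_of_ne _ h2, Sta.get_set_of_ne _ h1, Sta.get_set_of_ne _ h2]
  have h3 := pop1_run g2
  have h4 := LR.push k' f (s2.set k r)
  have e : (s2.set k r).set k' (f :: (s2.set k r).get k') =
      (s.set k r).set k' (f :: (bw w.reverse ++ .hs :: s.get k')) := by
    apply sort_ext2 k k'
    · rw [Sta.get_set_of_ne _ hk, Sta.get_set_self, Sta.get_set_of_ne _ hk, Sta.get_set_self]
    · rw [Sta.get_set_self, Sta.get_set_self, Sta.get_set_of_ne _ hk.symm, g3]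
    · intro j h1 h2
      rw [Sta.get_set_of_ne _ h2, Sta.get_set_of_ne _ h1, Sta.get_set_of_ne _ h2, Sta.get_set_of_ne _ h1,
        g4 j h1 h2]
  rw [e] at h4
  refine (LR.seq h1 (LR.seq h2 (LR.seq h3 h4))).mono ?_
  simp only [bw, List.length_map]
  omega

private def rev2 (x : Bool × List Bool) : Bool × List Bool := (x.1, x.2.reverse)

/-- transport of all items from `k` to `b` -/
private def trP (k : Ix m) : LP m (Lt N) := .loop k isF (.pop k fun f => mvI f k .b)

private theorem tr_aux {k : Ix m} (hk : k ≠ .b) (K : ℕ) (r : List (Lt N)) :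
    ∀ (l : List (Bool × List Bool)) (s : Sta m (Lt N)), (∀ x ∈ l, x.2.length = K) →
    s.get k = items l ++ .mk :: r →
    LL k isF (.pop k fun f => mvI f k .b) s
      ((s.set k (.mk :: r)).set .b (items (l.reverse.map rev2) ++ s.get .b))
      (l.length * (3 * K + 7)) := by
  intro l
  induction l with
  | nil =>
    intro s _ hs
    have e : (s.set k (.mk :: r)).set .b (items (([] : List (Bool × List Bool)).reverse.map rev2) ++ s.get .b) = s := by
      apply sort_ext2 k .b
      · rw [Sta.get_set_of_ne _ hk, Sta.get_set_self, hs]; rfl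
      · rw [Sta.get_set_self]; rfl
      · intro j h1 h2
        rw [Sta.get_set_of_ne _ h2, Sta.get_set_of_ne _ h1]
    rw [e]
    exact (LL.refl s).mono (by simp)
  | cons x l ih =>
    intro s hK hs
    rw [items_cons] at hs
    have hx := hK x (by simp)
    have g1 : (s.set k (bw x.2 ++ .hs :: (items l ++ .mk :: r))).get k =
        bw x.2 ++ .hs :: (items l ++ .mk :: r) := Sta.get_set_self _ _ _
    have h1 := mvI_run hk (flg x.1) g1
    obtain ⟨s1, hs1⟩ : ∃ s1, s1 = ((s.set k (bw x.2 ++ .hs :: (items l ++ .mk :: r))).set k
        (items l ++ .mk :: r)).set .b (flg x.1 :: (bw x.2.reverse ++ .hs ::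
        (s.set k (bw x.2 ++ .hs :: (items l ++ .mk :: r))).get .b)) := ⟨_, rfl⟩
    rw [← hs1] at h1
    have h2 : LL k isF (.pop k fun f => mvI f k .b) s s1 (3 * K + 7) := by
      refine (LL.step hs (isF_flg _) (LR.pop hs h1)).mono ?_
      rw [hx]
    have g2 : s1.get k = items l ++ .mk :: r := by
      rw [hs1, Sta.get_set_of_ne _ hk, Sta.get_set_self]
    have g3 : s1.get .b = flg x.1 :: (bw x.2.reverse ++ .hs :: s.get .b) := by
      rw [hs1, Sta.get_set_self, Sta.get_set_of_ne _ hk.symm]
    have g4 : ∀ j, j ≠ k → j ≠ .b → s1.get j = s.get j := by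
      intro j h1 h2
      rw [hs1, Sta.get_set_of_ne _ h2, Sta.get_set_of_ne _ h1, Sta.get_set_of_ne _ h1]
    have h3 := ih s1 (fun y hy => hK y (by simp [hy])) g2
    have e : (s1.set k (.mk :: r)).set .b (items (l.reverse.map rev2) ++ s1.get .b) =
        (s.set k (.mk :: r)).set .b (items ((x :: l).reverse.map rev2) ++ s.get .b) := by
      apply sort_ext2 k .b
      · rw [Sta.get_set_of_ne _ hk, Sta.get_set_self, Sta.get_set_of_ne _ hk, Sta.get_set_self]
      · rw [Sta.get_set_self, Sta.get_set_self, g3, List.reverse_cons, List.map_append, items_append,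
          List.append_assoc]
        congr 1
        have := items_cons (rev2 x) [] (s.get .b)
        rw [List.map_cons, List.map_nil, this]
        rfl
      · intro j h1 h2
        rw [Sta.get_set_of_ne _ h2, Sta.get_set_of_ne _ h1, Sta.get_set_of_ne _ h2, Sta.get_set_of_ne _ h1,
          g4 j h1 h2]
    rw [e] at h3
    refine (h2.trans h3).mono ?_
    rw [List.length_cons]
    linarith

private theorem tr_run {k : Ix m} (hk : k ≠ .b) (K : ℕ) (r : List (Lt N))
    (l : List (Bool × List Bool)) (s : Sta m (Lt N)) (hl : ∀ x ∈ l, x.2.length = K)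
    (hs : s.get k = items l ++ .mk :: r) :
    LR (trP k) s ((s.set k (.mk :: r)).set .b (items (l.reverse.map rev2) ++ s.get .b))
      (l.length * (3 * K + 7) + 1) :=
  (tr_aux hk K r l s hl hs).finish (v := .mk) (l := r)
    (by rw [Sta.get_set_of_ne _ hk, Sta.get_set_self]) rfl

/-- the zero keys, the one keys, the item on the target -/
private def zs (l : List (Bool × List Bool)) : List (Bool × List Bool) :=
  l.filter fun x => x.2.head? == some false
private def os (l : List (Bool × List Bool)) : List (Bool × List Bool) :=
  l.filter fun x => x.2.head? == some true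
private def gg (x : Bool × List Bool) : Bool × List Bool := (x.1, x.2.take 1 ++ x.2.tail.reverse)

/-- body of the forward loop -/
private def fwB : LP m (Lt N) :=
  .pop .b fun f => .pop .b fun v =>
    if vb v then .seq (mvI v .b .d) (.push .d f) else .seq (mvI v .b .c) (.push .c f)

private theorem fw_aux (K : ℕ) (α β : List (Lt N)) (ξ : Fin m → List (Lt N)) :
    ∀ (l : List (Bool × List Bool)) (C D : List (Lt N)), (∀ x ∈ l, x.2.length = K + 1) →
    LL .b isF fwB ⟨α, items l ++ .mk :: β, C, D, ξ⟩
      ⟨α, .mk :: β, items ((zs l).reverse.map gg) ++ C, items ((os l).reverse.map gg) ++ D, ξ⟩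
      (l.length * (3 * K + 9)) := by
  intro l
  induction l with
  | nil =>
    intro C D _
    exact (LL.refl _).mono (by simp)
  | cons x l ih =>
    intro C D hK
    obtain ⟨f, w⟩ := x
    have hx := hK (f, w) (by simp)
    cases w with
    | nil => simp at hx
    | cons v w =>
      have hw : w.length = K := by simpa using hx
      have hs : items ((f, v :: w) :: l) ++ .mk :: β =
          (flg f : Lt N) :: (bt v :: (bw w ++ .hs :: (items l ++ .mk :: β))) := by
        rw [items_cons]
        rfl
      rw [hs]
      have hlen : ((f, v :: w) :: l).length * (3 * K + 9) = (3 * K + 9) + l.length * (3 * K + 9) := by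
        rw [List.length_cons]
        ring
      rw [hlen]
      cases v with
      | false =>
        have hz : zs ((f, false :: w) :: l) = (f, false :: w) :: zs l := by
          unfold zs
          rw [List.filter_cons_of_pos (by simp)]
        have ho : os ((f, false :: w) :: l) = os l := by
          unfold os
          rw [List.filter_cons_of_neg (by simp)]
        have h1 := mvI_run (k := .b) (k' := .c) (by simp) (bt false : Lt N)
          (s := (⟨α, bw w ++ .hs :: (items l ++ .mk :: β), C, D, ξ⟩ : Sta m (Lt N))) (w := w)
          (r := items l ++ .mk :: β) rfl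
        have h2 := LR.push .c (flg f : Lt N) (⟨α, items l ++ .mk :: β,
          bt false :: (bw w.reverse ++ .hs :: C), D, ξ⟩ : Sta m (Lt N))
        have h3 : LR (fwB : LP m (Lt N)) ⟨α, flg f :: (bt false :: (bw w ++ .hs :: (items l ++ .mk :: β))), C, D, ξ⟩
            ⟨α, items l ++ .mk :: β, flg f :: (bt false :: (bw w.reverse ++ .hs :: C)), D, ξ⟩
            ((3 * w.length + 5) + 1 + 1 + 1) := by
          have h12 := LR.seq h1 h2
          have e0 : (if vb (bt false : Lt N) = true then (.seq (mvI (bt false) .b .d) (.push .d (flg f)) : LP m (Lt N))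
            else .seq (mvI (bt false) .b .c) (.push .c (flg f))) = _ := if_neg (by simp [vb, bt])
          rw [← e0] at h12
          exact LR.pop (k := .b) (v := flg f) (l := bt false :: (bw w ++ (.hs : Lt N) :: (items l ++ .mk :: β)))
            (f := fun f => .pop .b fun v =>
            if vb v then .seq (mvI v .b .d) (.push .d f) else .seq (mvI v .b .c) (.push .c f))
            (s := ⟨α, flg f :: (bt false :: (bw w ++ (.hs : Lt N) :: (items l ++ .mk :: β))), C, D, ξ⟩)
            (t := (3 * w.length + 5) + 1 + 1) rfl
            (LR.pop (k := .b) (v := bt false) (l := bw w ++ (.hs : Lt N) :: (items l ++ .mk :: β))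
              (s := ⟨α, bt false :: (bw w ++ (.hs : Lt N) :: (items l ++ .mk :: β)), C, D, ξ⟩)
              (f := fun v => if vb v then .seq (mvI v .b .d) (.push .d (flg f)) else
              .seq (mvI v .b .c) (.push .c (flg f))) (t := (3 * w.length + 5) + 1) rfl h12)
        have h4 := LL.step (k := .b) (p := isF) (P := (fwB : LP m (Lt N)))
          (s := ⟨α, flg f :: (bt false :: (bw w ++ .hs :: (items l ++ .mk :: β))), C, D, ξ⟩)
          rfl (isF_flg f) h3
        have h5 := ih (flg f :: (bt false :: (bw w.reverse ++ .hs :: C))) D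
          (fun y hy => hK y (by simp [hy]))
        have e : (items ((zs l).reverse.map gg) ++ flg f :: (bt false :: (bw w.reverse ++ .hs :: C)) : List (Lt N)) =
            items ((zs ((f, false :: w) :: l)).reverse.map gg) ++ C := by
          rw [hz, List.reverse_cons, List.map_append, items_append, List.append_assoc]
          congr 1
          have := items_cons (gg (f, false :: w)) [] C
          rw [List.map_cons, List.map_nil, this]
          rfl
        rw [e, ← ho] at h5
        exact (h4.trans h5).mono (by rw [hw])
      | true =>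
        have hz : os ((f, true :: w) :: l) = (f, true :: w) :: os l := by
          unfold os
          rw [List.filter_cons_of_pos (by simp)]
        have ho : zs ((f, true :: w) :: l) = zs l := by
          unfold zs
          rw [List.filter_cons_of_neg (by simp)]
        have h1 := mvI_run (k := .b) (k' := .d) (by simp) (bt true : Lt N)
          (s := (⟨α, bw w ++ .hs :: (items l ++ .mk :: β), C, D, ξ⟩ : Sta m (Lt N))) (w := w)
          (r := items l ++ .mk :: β) rfl
        have h2 := LR.push .d (flg f : Lt N) (⟨α, items l ++ .mk :: β,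
          C, bt true :: (bw w.reverse ++ .hs :: D), ξ⟩ : Sta m (Lt N))
        have h3 : LR (fwB : LP m (Lt N)) ⟨α, flg f :: (bt true :: (bw w ++ .hs :: (items l ++ .mk :: β))), C, D, ξ⟩
            ⟨α, items l ++ .mk :: β, C, flg f :: (bt true :: (bw w.reverse ++ .hs :: D)), ξ⟩
            ((3 * w.length + 5) + 1 + 1 + 1) := by
          have h12 := LR.seq h1 h2
          have e0 : (if vb (bt true : Lt N) = true then (.seq (mvI (bt true) .b .d) (.push .d (flg f)) : LP m (Lt N))
            else .seq (mvI (bt true) .b .c) (.push .c (flg f))) = _ := if_pos (by simp [vb, bt])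
          rw [← e0] at h12
          exact LR.pop (k := .b) (v := flg f) (l := bt true :: (bw w ++ (.hs : Lt N) :: (items l ++ .mk :: β)))
            (f := fun f => .pop .b fun v =>
            if vb v then .seq (mvI v .b .d) (.push .d f) else .seq (mvI v .b .c) (.push .c f))
            (s := ⟨α, flg f :: (bt true :: (bw w ++ (.hs : Lt N) :: (items l ++ .mk :: β))), C, D, ξ⟩)
            (t := (3 * w.length + 5) + 1 + 1) rfl
            (LR.pop (k := .b) (v := bt true) (l := bw w ++ (.hs : Lt N) :: (items l ++ .mk :: β))
              (s := ⟨α, bt true :: (bw w ++ (.hs : Lt N) :: (items l ++ .mk :: β)), C, D, ξ⟩)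
              (f := fun v => if vb v then .seq (mvI v .b .d) (.push .d (flg f)) else
              .seq (mvI v .b .c) (.push .c (flg f))) (t := (3 * w.length + 5) + 1) rfl h12)
        have h4 := LL.step (k := .b) (p := isF) (P := (fwB : LP m (Lt N)))
          (s := ⟨α, flg f :: (bt true :: (bw w ++ .hs :: (items l ++ .mk :: β))), C, D, ξ⟩)
          rfl (isF_flg f) h3
        have h5 := ih C (flg f :: (bt true :: (bw w.reverse ++ .hs :: D)))
          (fun y hy => hK y (by simp [hy]))
        have e : (items ((os l).reverse.map gg) ++ flg f :: (bt true :: (bw w.reverse ++ .hs :: D)) : List (Lt N)) =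
            items ((os ((f, true :: w) :: l)).reverse.map gg) ++ D := by
          rw [hz, List.reverse_cons, List.map_append, items_append, List.append_assoc]
          congr 1
          have := items_cons (gg (f, true :: w)) [] D
          rw [List.map_cons, List.map_nil, this]
          rfl
        rw [e, ← ho] at h5
        exact (h4.trans h5).mono (by rw [hw])

/-- program of one pass -/
private def passP : LP m (Lt N) :=
  .seq (.push .c .mk) (.seq (.push .d .mk) (.seq (.loop .b isF fwB) (.seq (trP .d) (.seq (trP .c)
    (.seq (pop1 .c) (pop1 .d))))))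

private theorem gg_len {K : ℕ} {x : Bool × List Bool} (h : x.2.length = K + 1) : (gg x).2.length = K + 1 := by
  obtain ⟨f, w⟩ := x
  cases w with
  | nil => simp at h
  | cons v w => simpa [gg] using h

private theorem rev2_gg (x : Bool × List Bool) : rev2 (gg x) = (x.1, x.2.tail ++ x.2.take 1) := by
  obtain ⟨f, w⟩ := x
  cases w with
  | nil => rfl
  | cons v w => simp [gg, rev2]

private theorem map_rev2 (l : List (Bool × List Bool)) :
    (l.reverse.map gg).reverse.map rev2 = l.map fun x => (x.1, x.2.tail ++ x.2.take 1) := by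
  rw [← List.map_reverse, List.reverse_reverse, List.map_map]
  apply List.map_congr_left
  intro x _
  exact rev2_gg x

private theorem pass_run (K : ℕ) (l : List (Bool × List Bool)) (hl : ∀ x ∈ l, x.2.length = K + 1)
    (α β γ δ : List (Lt N)) (ξ : Fin m → List (Lt N)) :
    LR passP ⟨α, items l ++ .mk :: β, γ, δ, ξ⟩ ⟨α, items (pass l) ++ .mk :: β, γ, δ, ξ⟩
      (l.length * (9 * K + 29) + 9) := by
  have h1 := LR.push .c (.mk : Lt N) (⟨α, items l ++ .mk :: β, γ, δ, ξ⟩ : Sta m (Lt N))
  have h2 := LR.push .d (.mk : Lt N) (⟨α, items l ++ .mk :: β, .mk :: γ, δ, ξ⟩ : Sta m (Lt N))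
  have h3 := (fw_aux K α β ξ l (.mk :: γ) (.mk :: δ) hl).finish (v := .mk) (l := β) rfl rfl
  have hzl : (zs l).length ≤ l.length := List.length_filter_le _ _
  have hol : (os l).length ≤ l.length := List.length_filter_le _ _
  have h4 := tr_run (k := .d) (by simp) (K + 1) δ ((os l).reverse.map gg)
    (⟨α, .mk :: β, items ((zs l).reverse.map gg) ++ .mk :: γ, items ((os l).reverse.map gg) ++ .mk :: δ, ξ⟩ :
      Sta m (Lt N)) (by
      intro x hx
      rw [List.mem_map] at hx
      obtain ⟨y, hy, rfl⟩ := hx
      rw [List.mem_reverse] at hy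
      exact gg_len (hl y (List.mem_filter.mp hy).1)) rfl
  rw [map_rev2] at h4
  have h5 := tr_run (k := .c) (by simp) (K + 1) γ ((zs l).reverse.map gg)
    (⟨α, items ((os l).map fun x => (x.1, x.2.tail ++ x.2.take 1)) ++ .mk :: β,
      items ((zs l).reverse.map gg) ++ .mk :: γ, .mk :: δ, ξ⟩ :
      Sta m (Lt N)) (by
      intro x hx
      rw [List.mem_map] at hx
      obtain ⟨y, hy, rfl⟩ := hx
      rw [List.mem_reverse] at hy
      exact gg_len (hl y (List.mem_filter.mp hy).1)) rfl
  rw [map_rev2] at h5
  have h6 := pop1_run (k := .c) (s := (⟨α, items ((zs l).map fun x => (x.1, x.2.tail ++ x.2.take 1)) ++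
    (items ((os l).map fun x => (x.1, x.2.tail ++ x.2.take 1)) ++ .mk :: β),
      .mk :: γ, .mk :: δ, ξ⟩ : Sta m (Lt N))) (v := .mk) (r := γ) rfl
  have h7 := pop1_run (k := .d) (s := (⟨α, items ((zs l).map fun x => (x.1, x.2.tail ++ x.2.take 1)) ++
    (items ((os l).map fun x => (x.1, x.2.tail ++ x.2.take 1)) ++ .mk :: β),
      γ, .mk :: δ, ξ⟩ : Sta m (Lt N))) (v := .mk) (r := δ) rfl
  have h8 := LR.seq h1 (LR.seq h2 (LR.seq h3 (LR.seq h4 (LR.seq h5 (LR.seq h6 h7)))))
  have e : (items (pass l) ++ .mk :: β : List (Lt N)) =
      items ((zs l).map fun x => (x.1, x.2.tail ++ x.2.take 1)) ++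
      (items ((os l).map fun x => (x.1, x.2.tail ++ x.2.take 1)) ++ .mk :: β) := by
    have : pass l = ((zs l).map fun x => (x.1, x.2.tail ++ x.2.take 1)) ++
      ((os l).map fun x => (x.1, x.2.tail ++ x.2.take 1)) := rfl
    rw [this, items_append, List.append_assoc]
  rw [e]
  refine LR.mono h8 ?_
  simp only [List.length_map, List.length_reverse]
  have e1 := Nat.mul_le_mul_right (3 * (K + 1) + 7) hzl
  have e2 := Nat.mul_le_mul_right (3 * (K + 1) + 7) hol
  have e3 : l.length * (9 * K + 29) = l.length * (3 * K + 9) + l.length * (3 * (K + 1) + 7) +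
      l.length * (3 * (K + 1) + 7) := by ring
  omega

private def isI : Lt N → Bool
  | .i => true
  | _ => false

private def sortP : LP m (Lt N) := .seq (.loop .a isI (.seq (pop1 .a) passP)) (pop1 .a)

private theorem pass_mem {K : ℕ} {l : List (Bool × List Bool)} (hl : ∀ x ∈ l, x.2.length = K + 1) :
    ∀ x ∈ pass l, x.2.length = K + 1 := by
  intro x hx
  unfold pass at hx
  rw [List.mem_append, List.mem_map, List.mem_map] at hx
  have key : ∀ y ∈ l, (y.2.tail ++ y.2.take 1).length = K + 1 := by
    intro y hy
    have h1 := hl y hy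
    obtain ⟨f, w⟩ := y
    cases w with
    | nil => simp at h1
    | cons v w => simpa using h1
  rcases hx with ⟨y, hy, rfl⟩ | ⟨y, hy, rfl⟩
  · exact key y (List.mem_filter.mp hy).1
  · exact key y (List.mem_filter.mp hy).1

private theorem pass_len (l : List (Bool × List Bool)) : (pass l).length ≤ l.length := by
  unfold pass
  rw [List.length_append, List.length_map, List.length_map]
  have h1 := List.length_eq_countP_add_countP (l := l) (fun x : Bool × List Bool => x.2.head? == some false)
  rw [← List.countP_eq_length_filter, ← List.countP_eq_length_filter]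
  have h2 : l.countP (fun x : Bool × List Bool => x.2.head? == some true) ≤
      l.countP (fun a : Bool × List Bool => decide ¬(a.2.head? == some false) = true) := by
    apply List.countP_mono_left
    intro x _ h
    simp only [beq_iff_eq] at h
    simp [h]
  omega

private theorem sort_aux (K : ℕ) (α β γ δ : List (Lt N)) (ξ : Fin m → List (Lt N)) (n : ℕ) :
    ∀ (j : ℕ) (l : List (Bool × List Bool)), (∀ x ∈ l, x.2.length = K + 1) → l.length ≤ n →
    LL .a isI (.seq (pop1 .a) passP) ⟨List.replicate j .i ++ .hs :: α, items l ++ .mk :: β, γ, δ, ξ⟩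
      ⟨.hs :: α, items (pass^[j] l) ++ .mk :: β, γ, δ, ξ⟩ (j * (n * (9 * K + 29) + 12)) := by
  intro j
  induction j with
  | zero =>
    intro l _ _
    exact (LL.refl _).mono (by simp)
  | succ j ih =>
    intro l hl hn
    have h1 := pop1_run (k := .a) (s := (⟨List.replicate (j + 1) .i ++ .hs :: α, items l ++ .mk :: β, γ, δ, ξ⟩ :
      Sta m (Lt N))) (v := .i) (r := List.replicate j .i ++ .hs :: α) rfl
    have h2 := pass_run K l hl (List.replicate j .i ++ .hs :: α) β γ δ ξ
    have h3 := LL.step (k := .a) (p := isI) (P := (.seq (pop1 .a) passP : LP m (Lt N)))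
      (s := ⟨List.replicate (j + 1) .i ++ .hs :: α, items l ++ .mk :: β, γ, δ, ξ⟩)
      rfl rfl (LR.seq h1 h2)
    have h4 := ih (pass l) (pass_mem hl) ((pass_len l).trans hn)
    rw [← Function.iterate_succ_apply] at h4
    refine (h3.trans h4).mono ?_
    have e1 := Nat.mul_le_mul_right (9 * K + 29) hn
    have e2 : (j + 1) * (n * (9 * K + 29) + 12) = (n * (9 * K + 29) + 12) + j * (n * (9 * K + 29) + 12) := by ring
    omega

theorem sort_run : ∃ (P : LP m (Lt N)) (C : ℕ), ∀ (K : ℕ) (l : List (Bool × List Bool))
    (α β γ δ : List (Lt N)) (ξ : Fin m → List (Lt N)), (∀ x ∈ l, x.2.length = K) →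
      LR P ⟨List.replicate K .i ++ .hs :: α, items l ++ .mk :: β, γ, δ, ξ⟩
        ⟨α, items ((ord K).flatMap fun y => l.filter fun x => x.2 == y) ++ .mk :: β, γ, δ, ξ⟩
        (C * ((K + 1) * (K + 1) * (l.length + 1))) := by
  refine ⟨sortP, 50, ?_⟩
  intro K l α β γ δ ξ hl
  rw [← pass_iter K l hl]
  have h2 := pop1_run (k := .a) (s := (⟨.hs :: α, items (pass^[K] l) ++ .mk :: β, γ, δ, ξ⟩ :
      Sta m (Lt N))) (v := .hs) (r := α) rfl
  cases K with
  | zero =>
    have h1 : LR (.loop .a isI (.seq (pop1 .a) passP) : LP m (Lt N))
        ⟨List.replicate 0 .i ++ .hs :: α, items l ++ .mk :: β, γ, δ, ξ⟩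
        ⟨.hs :: α, items (pass^[0] l) ++ .mk :: β, γ, δ, ξ⟩ 1 := LR.loopF rfl rfl
    refine (LR.seq h1 h2).mono ?_
    nlinarith [Nat.zero_le l.length]
  | succ K =>
    have h1 := (sort_aux K α β γ δ ξ l.length (K + 1) l hl le_rfl).finish (v := .hs) (l := α) rfl rfl
    refine (LR.seq h1 h2).mono ?_
    have e1 : (K + 1) * (l.length * (9 * K + 29) + 12) ≤ (K + 1) * ((l.length + 1) * (9 * K + 29)) := by
      apply Nat.mul_le_mul_left
      ring_nf
      nlinarith [Nat.zero_le l.length, Nat.zero_le K]
    have e2 : (K + 1) * ((l.length + 1) * (9 * K + 29)) ≤ (K + 1) * ((l.length + 1) * (29 * (K + 2))) := by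
      apply Nat.mul_le_mul_left
      apply Nat.mul_le_mul_left
      omega
    have e3 : (K + 1) * ((l.length + 1) * (29 * (K + 2))) ≤ 29 * ((K + 1 + 1) * (K + 1 + 1) * (l.length + 1)) := by
      have : (K + 1) * ((l.length + 1) * (29 * (K + 2))) = 29 * ((K + 1) * (K + 1 + 1) * (l.length + 1)) := by ring
      rw [this]
      apply Nat.mul_le_mul_left
      apply Nat.mul_le_mul_right
      apply Nat.mul_le_mul_right
      omega
    have e4 : 1 ≤ (K + 1 + 1) * (K + 1 + 1) * (l.length + 1) :=
      Nat.mul_pos (Nat.mul_pos (by omega) (by omega)) (by omega)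
    omega

end Pool.Agent.Lib.MP_33f9c4_lc.TT
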