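import Pool.Agent.Lib.MP_33f9c4_lc.T.Fmt
import Pool.Agent.Lib.MP_33f9c4_lc.T.Sort
import Pool.Agent.Lib.MP_33f9c4_lc.T.Count

set_option autoImplicit false

/-!
MODULE Main2. Second phase: reading, sorting, counting.

`sen_run` (on `b = [mk]`), `tab_run`, then `b = items ((true, l) ++ (false, s)) ++ [mk]` with `s.Perm (ord K)`, `l.Perm (rds ..)`, `rds_map_tl`;
`sort_run` and `sorted_items`: the list is `(ord K).flatMap (fun y => replicate (R.count y) (true, y) ++ [(false, y)])`
(`List.Perm.count_eq`); `count_run` with `L` such that all counts are `< 2^L`. Sum of the counts over `ord K` is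
`R.length` (all elements have length `K`).
-/

namespace Pool.Agent.Lib.MP_33f9c4_lc.TT

variable {m : ℕ}

private theorem m2_sum_count {ys : List (List Bool)} (hn : ys.Nodup) (R : List (List Bool)) :
    (ys.map fun y => R.count y).sum ≤ R.length := by
  induction R with
  | nil => simp
  | cons z R ih =>
    have h1 : ∀ zs : List (List Bool), (zs.map fun y => (z :: R).count y).sum =
        (zs.map fun y => R.count y).sum + zs.count z := by
      intro zs
      induction zs with
      | nil => rfl
      | cons y zs ih2 =>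
        rw [List.map_cons, List.sum_cons, List.map_cons, List.sum_cons, ih2, List.count_cons,
          List.count_cons]
        by_cases h : y = z
        · subst h
          simp only [beq_self_eq_true, if_true]
          omega
        · have h3 : (y == z) = false := by simpa using h
          have h4 : (z == y) = false := by simpa using fun h' => h (Eq.symm h')
          rw [h3, h4]
          simp only [Bool.false_eq_true, if_false]
          omega
    have h2 : ys.count z ≤ 1 := List.nodup_iff_count_le_one.1 hn z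
    rw [h1, List.length_cons]
    omega

theorem phase2 (V : NM m) (hko : V.ko = .b) : ∃ N₀ : ℕ, ∀ N, N₀ ≤ N →
    ∃ (P : LP m (Lt N)) (C : ℕ), ∀ (mm K L : ℕ) (κ : List Bool) (τ : List (Option Bool))
      (α : List (Lt N)), mm ≤ τ.length → (rdsO V K mm κ τ).length < 2 ^ L →
      LR P ⟨List.replicate K .i ++ .hs :: α, [.mk],
          bw κ ++ .hs :: (List.replicate mm .i ++ [.hs, .mk]), τ.map tl ++ [.hs, .mk],
          fun _ => [.mk]⟩
        ⟨bw (hst ((ord K).map fun y => (rdsO V K mm κ τ).count y)) ++ α, [.mk], [.mk], [.mk],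
          fun _ => [.mk]⟩
        (C * (rcostO K mm κ τ + κ.length + τ.length + mm +
          ((K + 1) * (K + 1) + L) * ((rdsO V K mm κ τ).length + 2 ^ K))) := by
  obtain ⟨N₀, hN₀⟩ := tab_run V hko
  refine ⟨N₀, fun N hN => ?_⟩
  obtain ⟨P1, C1, h1⟩ := sen_run (m := m) (N := N)
  obtain ⟨P2, C2, h2⟩ := hN₀ N hN
  obtain ⟨P3, C3, h3⟩ := sort_run (m := m) (N := N)
  obtain ⟨P4, C4, h4⟩ := count_run (m := m) (N := N)
  refine ⟨.seq P1 (.seq P2 (.seq P3 P4)), C1 + C2 + 2 * C3 + 2 * C4, ?_⟩
  intro mm K L κ τ α hmm hL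
  obtain ⟨s, hs, r1⟩ := h1 K α [.mk] (bw κ ++ .hs :: (List.replicate mm .i ++ [.hs, .mk]))
    (τ.map tl ++ [.hs, .mk]) (fun _ => [.mk])
  obtain ⟨l, hl, r2⟩ := h2 K mm α (items (s.map fun y => (false, y)) ++ [.mk]) [.mk] [.mk]
    (fun _ => [.mk]) κ (τ.map tl) (fresh_map_tl τ) (by rw [List.length_map]; exact hmm)
  have hlR : l.Perm (rdsO V K mm κ τ) := hl.trans (rds_map_tl V K mm κ τ)
  have hlK : ∀ y ∈ l, y.length = K := fun y hy => length_of_mem_rdsO V (hlR.mem_iff.1 hy)
  have hsK : ∀ y ∈ s, y.length = K := fun y hy => mem_ord.1 (hs.mem_iff.1 hy)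
  have hitems : (items (l.map fun y => (true, y)) ++ (items (s.map fun y => (false, y)) ++
      [.mk]) : List (Lt N)) =
      items ((l.map fun y => (true, y)) ++ (s.map fun y => (false, y))) ++ [.mk] := by
    unfold items
    rw [List.flatMap_append, List.append_assoc]
  rw [hitems] at r2
  have hall : ∀ x ∈ ((l.map fun y => (true, y)) ++ (s.map fun y => (false, y)) :
      List (Bool × List Bool)), x.2.length = K := by
    intro x hx
    rcases List.mem_append.1 hx with hx | hx
    · obtain ⟨y, hy, rfl⟩ := List.mem_map.1 hx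
      exact hlK y hy
    · obtain ⟨y, hy, rfl⟩ := List.mem_map.1 hx
      exact hsK y hy
  have r3 := h3 K ((l.map fun y => (true, y)) ++ (s.map fun y => (false, y))) α [] [.mk] [.mk]
    (fun _ => [.mk]) hall
  rw [sorted_items K l s hs hlK] at r3
  have hcnt : ∀ y, l.count y = (rdsO V K mm κ τ).count y := fun y => hlR.count_eq y
  simp only [hcnt] at r3
  have r4 := h4 K L (ord K) (fun y => (rdsO V K mm κ τ).count y) α [] [.mk] [.mk]
    (fun _ => [.mk]) (fun y hy => mem_ord.1 hy)
    (fun y _ => lt_of_le_of_lt List.count_le_length hL)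
  refine (r1.seq (r2.seq (r3.seq r4))).mono ?_
  rw [rcost_map_tl, List.length_map, List.length_append, List.length_map, List.length_map,
    hlR.length_eq, hs.length_eq, length_ord]
  have hsum := m2_sum_count (nodup_ord K) (rdsO V K mm κ τ)
  generalize (rdsO V K mm κ τ).length = R at *
  generalize ((ord K).map fun y => (rdsO V K mm κ τ).count y).sum = S at *
  generalize rcostO K mm κ τ = Y at *
  have hE : 1 ≤ 2 ^ K := Nat.one_le_two_pow
  generalize 2 ^ K = E at *
  have hKK : K + 1 ≤ (K + 1) * (K + 1) := Nat.le_mul_of_pos_left _ (by omega)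
  have b1 : E * (K + 1) ≤ ((K + 1) * (K + 1) + L) * (R + E) := by
    calc E * (K + 1) = (K + 1) * E := by ring
      _ ≤ ((K + 1) * (K + 1) + L) * (R + E) := Nat.mul_le_mul (by omega) (by omega)
  have b2 : 1 ≤ ((K + 1) * (K + 1) + L) * (R + E) :=
    Nat.mul_pos (by omega) (by omega)
  have b3 : (K + 1) * (K + 1) * (R + E + 1) ≤ 2 * (((K + 1) * (K + 1) + L) * (R + E)) := by
    calc (K + 1) * (K + 1) * (R + E + 1) ≤ ((K + 1) * (K + 1) + L) * (2 * (R + E)) :=
        Nat.mul_le_mul (by omega) (by omega)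
      _ = _ := by ring
  have b4 : (K + L + 1) * (S + E + 1) ≤ 2 * (((K + 1) * (K + 1) + L) * (R + E)) := by
    calc (K + L + 1) * (S + E + 1) ≤ ((K + 1) * (K + 1) + L) * (2 * (R + E)) :=
        Nat.mul_le_mul (by omega) (by omega)
      _ = _ := by ring
  generalize ((K + 1) * (K + 1) + L) * (R + E) = X at *
  have c1 := Nat.mul_le_mul_left C1 b1
  have c3 := Nat.mul_le_mul_left C3 b3
  have c4 := Nat.mul_le_mul_left C4 b4
  have c2 : C2 * (Y + κ.length + τ.length + mm + 1) ≤ C2 * (Y + κ.length + τ.length + mm + X) :=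
    Nat.mul_le_mul_left C2 (by omega)
  have c0 : X ≤ Y + κ.length + τ.length + mm + X := by omega
  have d1 := Nat.mul_le_mul_left C1 c0
  have d3 := Nat.mul_le_mul_left (2 * C3) c0
  have d4 := Nat.mul_le_mul_left (2 * C4) c0
  have d5 : (C1 + C2 + 2 * C3 + 2 * C4) * (Y + κ.length + τ.length + mm + X) =
    C1 * (Y + κ.length + τ.length + mm + X) + C2 * (Y + κ.length + τ.length + mm + X) +
    2 * C3 * (Y + κ.length + τ.length + mm + X) + 2 * C4 * (Y + κ.length + τ.length + mm + X) := by
    ring
  have d6 : C3 * (2 * X) = 2 * C3 * X := by ring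
  have d7 : C4 * (2 * X) = 2 * C4 * X := by ring
  rw [d5]
  omega

end Pool.Agent.Lib.MP_33f9c4_lc.TT
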