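import Pool.Agent.Lib.MP_33f9c4_lc.T.Few
import Pool.Agent.Lib.MP_33f9c4_lc.T.Enum

set_option autoImplicit false

/-!
MODULE Test. The test loop: the first string of the templates which the machine `M` accepts.

On `d`: the templates `τ₁ hs τ₂ hs ... mk`. BODY of the search for one template (`search_run`): copy `τ'` from `d` to `a` as bits with the first bit on top:
push `hs` on `a`; push `mk` on `c`; move the letters of `d` to `a` (as bits, until `hs`) and to `c` at the same time (`mv2`), move them back from `c` to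
`d` (until `mk`, pop it): now `a = bw (ebits τ') ++ hs :: α`. Run `few_machine M`: `a = bw [f x] ++ hs :: α`. Pop the bit, pop `hs`, push
the flag `re` / `se` on `a`.
OUTER LOOP on the flag: push `se` on `a`; loop on `a` while the top is `se`: pop it; search on the present template; if the
result (pushed on `a`) is `se`: delete the template (`del isT`), pop `hs`. (The hypothesis says that some template
succeeds, so the loop ends before the marker `mk` is reached.) After the loop: pop `re` of `a`; push `hs` on `a`; move the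
template letters of `d` as bits to `a`; delete the rest of `d` until `mk` (letters of templates and `hs`), pop `mk`.
-/

namespace Pool.Agent.Lib.MP_33f9c4_lc.TT

variable {m : ℕ}

section
variable {N : ℕ}

private def tgb (v : Lt N) : Lt N := bt (vb v)

/-- the test of one string -/
private def tsB (PM : LP m (Lt N)) : LP m (Lt N) :=
  .seq (.push .a .hs) (.seq (.push .c .mk) (.seq (mv2 .d .c .a isT id tgb)
    (.seq (mv .c .d isT id) (.seq (pop1 .c) (.seq PM (.pop .a fun v => .seq (pop1 .a)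
      (if v = .i then .push .a .re else .push .a .se)))))))

private theorem tsB_run {M : Machine} {PM : LP m (Lt N)} {C : ℕ}
    (hPM : ∀ (w x : List Bool) (t : ℕ) (α β γ δ : List (Lt N)) (ξ : Fin m → List (Lt N)),
      Outputs M w x t →
      LR PM ⟨bw w ++ .hs :: α, β, γ, δ, ξ⟩ ⟨bw x ++ .hs :: α, β, γ, δ, ξ⟩
        (C * (w.length + t + 1) ^ 2)) {n S : ℕ} {f : List Bool → Bool} {τ' : List (Lt N)}
    (hT : ∀ v ∈ τ', isT v = true) (hn : τ'.length = n)
    (hM : Outputs M (ebits τ') [f (ebits τ')] S) (α β γ δ : List (Lt N)) (ξ : Fin m → List (Lt N)) :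
    LR (tsB PM) ⟨α, β, γ, τ' ++ .hs :: δ, ξ⟩
      ⟨(if f (ebits τ') then .re else .se) :: α, β, γ, τ' ++ .hs :: δ, ξ⟩
      ((C + 20) * (n + S + 1) ^ 2) := by
  have hlen : (ebits τ').length = n := by rw [ebits, List.length_reverse, List.length_map, hn]
  have h1 : LR (mv2 .d .c .a isT id tgb) (⟨.hs :: α, β, .mk :: γ, τ' ++ .hs :: δ, ξ⟩ : Sta m (Lt N))
      ⟨bw (ebits τ') ++ .hs :: α, β, τ'.reverse ++ .mk :: γ, .hs :: δ, ξ⟩ (4 * n + 1) := by
    have h := mv2_run (k := .d) (k' := .c) (k'' := .a) (by intro h; cases h) (by intro h; cases h)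
      (by intro h; cases h) (p := isT) id tgb (s := (⟨.hs :: α, β, .mk :: γ, τ' ++ .hs :: δ, ξ⟩ :
        Sta m (Lt N))) (l := τ') (v := .hs) (r := δ) rfl hT rfl
    rw [hn] at h
    have e : ((((⟨.hs :: α, β, .mk :: γ, τ' ++ .hs :: δ, ξ⟩ : Sta m (Lt N)).set .d (.hs :: δ)).set
        .c ((τ'.map id).reverse ++ (⟨.hs :: α, β, .mk :: γ, τ' ++ .hs :: δ, ξ⟩ :
          Sta m (Lt N)).get .c)).set .a ((τ'.map tgb).reverse ++
          (⟨.hs :: α, β, .mk :: γ, τ' ++ .hs :: δ, ξ⟩ : Sta m (Lt N)).get .a)) =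
        ⟨bw (ebits τ') ++ .hs :: α, β, τ'.reverse ++ .mk :: γ, .hs :: δ, ξ⟩ := by
      simp only [Sta.set, Sta.get, List.map_id]
      congr 2
      unfold bw ebits
      rw [List.map_reverse, List.map_map]
      rfl
    rw [e] at h
    exact h
  have h2 : LR (mv .c .d isT id) (⟨bw (ebits τ') ++ .hs :: α, β, τ'.reverse ++ .mk :: γ, .hs :: δ,
      ξ⟩ : Sta m (Lt N)) ⟨bw (ebits τ') ++ .hs :: α, β, .mk :: γ, τ' ++ .hs :: δ, ξ⟩
      (3 * n + 1) := by
    have h := mv_run (k := .c) (k' := .d) (by intro h; cases h) (p := isT) id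
      (s := (⟨bw (ebits τ') ++ .hs :: α, β, τ'.reverse ++ .mk :: γ, .hs :: δ, ξ⟩ : Sta m (Lt N)))
      (l := τ'.reverse) (v := .mk) (r := γ) rfl (fun u hu => hT u (List.mem_reverse.mp hu)) rfl
    rw [List.length_reverse, hn] at h
    have e : (((⟨bw (ebits τ') ++ .hs :: α, β, τ'.reverse ++ .mk :: γ, .hs :: δ, ξ⟩ :
        Sta m (Lt N)).set .c (.mk :: γ)).set .d ((τ'.reverse.map id).reverse ++
        (⟨bw (ebits τ') ++ .hs :: α, β, τ'.reverse ++ .mk :: γ, .hs :: δ, ξ⟩ :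
          Sta m (Lt N)).get .d)) =
        ⟨bw (ebits τ') ++ .hs :: α, β, .mk :: γ, τ' ++ .hs :: δ, ξ⟩ := by
      simp only [Sta.set, Sta.get, List.map_id, List.reverse_reverse]
    rw [e] at h
    exact h
  have h3 := hPM (ebits τ') [f (ebits τ')] S α β γ (τ' ++ .hs :: δ) ξ hM
  rw [hlen] at h3
  have h4 : LR (.pop .a fun v => .seq (pop1 .a) (if v = .i then .push .a .re else .push .a .se))
      (⟨bw [f (ebits τ')] ++ .hs :: α, β, γ, τ' ++ .hs :: δ, ξ⟩ : Sta m (Lt N))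
      ⟨(if f (ebits τ') then .re else .se) :: α, β, γ, τ' ++ .hs :: δ, ξ⟩ 4 := by
    cases hf : f (ebits τ') with
    | false =>
      refine LR.pop (v := .o) (l := .hs :: α) rfl ?_
      exact LR.seq (pop1_run (v := .hs) (r := α) rfl) (LR.push _ _ _)
    | true =>
      refine LR.pop (v := .i) (l := .hs :: α) rfl ?_
      exact LR.seq (pop1_run (v := .hs) (r := α) rfl) (LR.push _ _ _)
  have h5 : LR (pop1 .c) (⟨bw (ebits τ') ++ .hs :: α, β, .mk :: γ, τ' ++ .hs :: δ, ξ⟩ :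
      Sta m (Lt N)) ⟨bw (ebits τ') ++ .hs :: α, β, γ, τ' ++ .hs :: δ, ξ⟩ 2 :=
    pop1_run (v := .mk) (r := γ) rfl
  refine (LR.seq (LR.push _ _ _) (LR.seq (LR.push _ _ _) (LR.seq h1 (LR.seq h2 (LR.seq h5
    (LR.seq h3 h4)))))).mono ?_
  nlinarith [Nat.zero_le n, Nat.zero_le S, Nat.zero_le (n * S)]

/-- the outer loop -/
private def tsO (E : LP m (Lt N)) : LP m (Lt N) :=
  .seq (pop1 .a) (.seq E (.pop .a fun v => if v = .se then .seq (del .d isT) (.seq (pop1 .d)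
    (.push .a .se)) else .push .a .re))

private def wds (τs : List (List (Lt N))) : List (Lt N) := τs.flatMap (· ++ [.hs])

private theorem length_wds {n : ℕ} {τs : List (List (Lt N))} (h : ∀ τ ∈ τs, τ.length = n) :
    (wds τs).length = (n + 1) * τs.length := by
  induction τs with
  | nil => rfl
  | cons τ l ih =>
    have h1 := h τ (by simp)
    have h2 := ih (fun τ hτ => h τ (by simp [hτ]))
    unfold wds at h2 ⊢
    rw [List.flatMap_cons, List.length_append, List.length_append, h2, h1]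
    simp only [List.length_cons, List.length_nil]
    ring

private theorem len_le_sum (τs : List (List (Lt N))) :
    τs.length ≤ (τs.map fun τ => 2 ^ fr τ).sum := by
  induction τs with
  | nil => simp
  | cons τ l ih =>
    rw [List.map_cons, List.sum_cons, List.length_cons]
    have : 1 ≤ 2 ^ fr τ := Nat.one_le_two_pow
    omega

private theorem tsO_run {E : LP m (Lt N)} {C1 T n : ℕ} {F : List (Lt N) → Bool}
    (α β γ : List (Lt N)) (ξ : Fin m → List (Lt N))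
    (hE : ∀ (τ δ : List (Lt N)), fresh τ → τ.length = n →
      ((∀ τ' ∈ all τ, F τ' = false) → LR E (⟨α, β, γ, τ ++ .hs :: δ, ξ⟩ : Sta m (Lt N))
        ⟨.se :: α, β, γ, τ ++ .hs :: δ, ξ⟩ (C1 * (2 ^ fr τ * (T + n + 1)))) ∧
      ((∃ τ' ∈ all τ, F τ' = true) → ∃ τ' ∈ all τ, F τ' = true ∧
        LR E (⟨α, β, γ, τ ++ .hs :: δ, ξ⟩ : Sta m (Lt N)) ⟨.re :: α, β, γ, τ' ++ .hs :: δ, ξ⟩
          (C1 * (2 ^ fr τ * (T + n + 1))))) (δ : List (Lt N)) :
    ∀ τs : List (List (Lt N)), (∀ τ ∈ τs, fresh τ ∧ τ.length = n) →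
      (∃ τ ∈ τs, ∃ τ' ∈ all τ, F τ' = true) →
      ∃ τ ∈ τs, ∃ τ' ∈ all τ, F τ' = true ∧ ∃ rest : List (List (Lt N)),
        (∀ τ ∈ rest, fresh τ ∧ τ.length = n) ∧ rest.length ≤ τs.length ∧
        LR (.loop .a (· == .se) (tsO E)) (⟨.se :: α, β, γ, wds τs ++ .mk :: δ, ξ⟩ : Sta m (Lt N))
          ⟨.re :: α, β, γ, τ' ++ .hs :: (wds rest ++ .mk :: δ), ξ⟩
          ((C1 + 20) * ((τs.map fun τ => 2 ^ fr τ).sum * (T + n + 1)) + 1) := by
  intro τs
  induction τs with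
  | nil => rintro - ⟨τ, h, -⟩; exact absurd h List.not_mem_nil
  | cons τ l ih =>
    intro hτs hex
    obtain ⟨hfr, hlen⟩ := hτs τ (by simp)
    have hl : ∀ τ ∈ l, fresh τ ∧ τ.length = n := fun τ hτ => hτs τ (by simp [hτ])
    have hw : wds (τ :: l) ++ .mk :: δ = τ ++ .hs :: (wds l ++ .mk :: δ) := by
      unfold wds
      rw [List.flatMap_cons]
      simp
    obtain ⟨hA, hB⟩ := hE τ (wds l ++ .mk :: δ) hfr hlen
    have h2 : 1 ≤ 2 ^ fr τ := Nat.one_le_two_pow
    by_cases hc : ∃ τ' ∈ all τ, F τ' = true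
    · obtain ⟨τ', h3, h4, h5⟩ := hB hc
      refine ⟨τ, by simp, τ', h3, h4, l, hl, by simp, ?_⟩
      rw [hw]
      have h6 : LR (tsO E) (⟨.se :: α, β, γ, τ ++ .hs :: (wds l ++ .mk :: δ), ξ⟩ : Sta m (Lt N))
          ⟨.re :: α, β, γ, τ' ++ .hs :: (wds l ++ .mk :: δ), ξ⟩
          (2 + (C1 * (2 ^ fr τ * (T + n + 1)) + (1 + 1))) := by
        refine LR.seq (pop1_run (v := .se) (r := α) rfl) (LR.seq h5 ?_)
        refine LR.pop (v := .re) (l := α) rfl ?_
        exact LR.push _ _ _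
      refine (LR.loopT (v := .se) (l := α) rfl rfl h6 (LR.loopF (v := .re) (l := α) rfl rfl)).mono ?_
      rw [List.map_cons, List.sum_cons]
      have h7 : 2 ^ fr τ * (T + n + 1) ≤ (2 ^ fr τ + (l.map fun τ => 2 ^ fr τ).sum) * (T + n + 1) :=
        Nat.mul_le_mul_right _ (Nat.le_add_right _ _)
      have h8 : C1 * (2 ^ fr τ * (T + n + 1)) ≤
          C1 * ((2 ^ fr τ + (l.map fun τ => 2 ^ fr τ).sum) * (T + n + 1)) :=
        Nat.mul_le_mul_left _ h7
      have h9 : 1 ≤ 2 ^ fr τ * (T + n + 1) := Nat.mul_pos h2 (by omega)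
      rw [Nat.add_mul]
      omega
    · push Not at hc
      have hc' : ∀ τ' ∈ all τ, F τ' = false := fun τ' h => Bool.eq_false_iff.mpr (hc τ' h)
      have hex' : ∃ τ ∈ l, ∃ τ' ∈ all τ, F τ' = true := by
        obtain ⟨τ1, h3, h4⟩ := hex
        rcases List.mem_cons.mp h3 with rfl | h3
        · obtain ⟨τ', h5, h6⟩ := h4
          exact absurd h6 (hc τ' h5)
        · exact ⟨τ1, h3, h4⟩
      obtain ⟨τ1, h3, τ', h4, h5, rest, h6, h7, h8⟩ := ih hl hex'
      refine ⟨τ1, by simp [h3], τ', h4, h5, rest, h6, h7.trans (by simp), ?_⟩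
      rw [hw]
      have h9 : LR (tsO E) (⟨.se :: α, β, γ, τ ++ .hs :: (wds l ++ .mk :: δ), ξ⟩ : Sta m (Lt N))
          ⟨.se :: α, β, γ, wds l ++ .mk :: δ, ξ⟩
          (2 + (C1 * (2 ^ fr τ * (T + n + 1)) + ((3 * n + 1) + (2 + 1) + 1))) := by
        refine LR.seq (pop1_run (v := .se) (r := α) rfl) (LR.seq (hA hc') ?_)
        have hd := del_run (k := .d) (p := isT) (s := (⟨α, β, γ, τ ++ .hs :: (wds l ++ .mk :: δ),
          ξ⟩ : Sta m (Lt N))) (l := τ) (v := .hs) (r := wds l ++ .mk :: δ) rfl (by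
            intro u hu
            rcases hfr u hu with rfl | rfl | rfl <;> rfl) rfl
        rw [hlen] at hd
        have h11 := LR.seq hd (LR.seq (pop1_run (k := .d) (s := (⟨α, β, γ, τ ++ .hs :: (wds l ++
          .mk :: δ), ξ⟩ : Sta m (Lt N)).set .d (.hs :: (wds l ++ .mk :: δ))) (v := .hs)
          (r := wds l ++ .mk :: δ) rfl) (LR.push .a .se _))
        refine LR.pop (v := .se) (l := α) rfl ?_
        exact h11.mono (by omega)
      refine (LR.loopT (v := .se) (l := α) rfl rfl h9 h8).mono ?_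
      rw [List.map_cons, List.sum_cons]
      have e1 : (C1 + 20) * ((2 ^ fr τ + (l.map fun τ => 2 ^ fr τ).sum) * (T + n + 1)) =
          C1 * (2 ^ fr τ * (T + n + 1)) + 20 * (2 ^ fr τ * (T + n + 1)) +
          (C1 + 20) * ((l.map fun τ => 2 ^ fr τ).sum * (T + n + 1)) := by ring
      rw [e1]
      have h10 : 1 * (T + n + 1) ≤ 2 ^ fr τ * (T + n + 1) := Nat.mul_le_mul_right _ h2
      omega

end

theorem test_run (M : Machine) : ∃ N₀ : ℕ, ∀ N, N₀ ≤ N → ∃ (P : LP m (Lt N)) (C : ℕ),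
    ∀ (n S : ℕ) (f : List Bool → Bool) (τs : List (List (Lt N))) (α β γ δ : List (Lt N))
      (ξ : Fin m → List (Lt N)),
      (∀ x : List Bool, x.length = n → Outputs M x [f x] S) →
      (∀ τ ∈ τs, fresh τ ∧ τ.length = n) →
      (∃ τ ∈ τs, ∃ τ' ∈ all τ, f (ebits τ') = true) →
      ∃ x : List Bool, x.length = n ∧ (∃ τ ∈ τs, ∃ τ' ∈ all τ, ebits τ' = x) ∧ f x = true ∧
        LR P ⟨α, β, γ, τs.flatMap (· ++ [.hs]) ++ .mk :: δ, ξ⟩ ⟨bw x ++ .hs :: α, β, γ, δ, ξ⟩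
          (C * (((τs.map fun τ => 2 ^ fr τ).sum + 1) * (n + S + 1) ^ 2)) := by
  obtain ⟨N₀, hN₀⟩ := few_machine (m := m) M
  refine ⟨N₀, fun N hN => ?_⟩
  obtain ⟨PM, C, hPM⟩ := hN₀ N hN
  obtain ⟨E, C1, hE⟩ := search_run (tsB PM)
  refine ⟨.seq (.push .a .se) (.seq (.loop .a (· == .se) (tsO E)) (.seq (pop1 .a)
    (.seq (.push .a .hs) (.seq (mv .d .a isT tgb) (.seq (del .d (· != .mk)) (pop1 .d)))))),
    (C1 + 20) * (C + 22) + 20, ?_⟩
  intro n S f τs α β γ δ ξ hM hτs hex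
  have hE' : ∀ (τ δ : List (Lt N)), fresh τ → τ.length = n →
      ((∀ τ' ∈ all τ, f (ebits τ') = false) → LR E (⟨α, β, γ, τ ++ .hs :: δ, ξ⟩ : Sta m (Lt N))
        ⟨.se :: α, β, γ, τ ++ .hs :: δ, ξ⟩
        (C1 * (2 ^ fr τ * ((C + 20) * (n + S + 1) ^ 2 + n + 1)))) ∧
      ((∃ τ' ∈ all τ, f (ebits τ') = true) → ∃ τ' ∈ all τ, f (ebits τ') = true ∧
        LR E (⟨α, β, γ, τ ++ .hs :: δ, ξ⟩ : Sta m (Lt N)) ⟨.re :: α, β, γ, τ' ++ .hs :: δ, ξ⟩
          (C1 * (2 ^ fr τ * ((C + 20) * (n + S + 1) ^ 2 + n + 1)))) := by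
    intro τ δ hfr hlen
    have h := hE τ δ (⟨α, β, γ, [], ξ⟩ : Sta m (Lt N)) (fun τ' => f (ebits τ'))
      ((C + 20) * (n + S + 1) ^ 2) hfr (fun τ' hτ' => by
        have hl : τ'.length = n := (length_of_mem_all hτ').trans hlen
        exact tsB_run hPM (isT_of_mem_all hfr hτ') hl
          (hM _ (by rw [ebits, List.length_reverse, List.length_map, hl])) α β γ δ ξ)
    rw [hlen] at h
    exact h
  obtain ⟨τ, h1, τ', h2, h3, rest, h4', h5, h6⟩ := tsO_run α β γ ξ hE' δ τs hτs hex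
  have h4 : ∀ τ ∈ rest, τ.length = n := fun τ hτ => (h4' τ hτ).2
  have h4f : ∀ τ ∈ rest, fresh τ := fun τ hτ => (h4' τ hτ).1
  obtain ⟨hfr, hlen⟩ := hτs τ h1
  have hl' : τ'.length = n := (length_of_mem_all h2).trans hlen
  have hTT := isT_of_mem_all hfr h2
  refine ⟨ebits τ', by rw [ebits, List.length_reverse, List.length_map, hl'],
    ⟨τ, h1, τ', h2, rfl⟩, h3, ?_⟩
  have h7 : LR (mv .d .a isT tgb) (⟨.hs :: α, β, γ, τ' ++ .hs :: (wds rest ++ .mk :: δ), ξ⟩ :
      Sta m (Lt N)) ⟨bw (ebits τ') ++ .hs :: α, β, γ, .hs :: (wds rest ++ .mk :: δ), ξ⟩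
      (3 * n + 1) := by
    have h := mv_run (k := .d) (k' := .a) (by intro h; cases h) (p := isT) tgb
      (s := (⟨.hs :: α, β, γ, τ' ++ .hs :: (wds rest ++ .mk :: δ), ξ⟩ : Sta m (Lt N)))
      (l := τ') (v := .hs) (r := wds rest ++ .mk :: δ) rfl hTT rfl
    rw [hl'] at h
    have e : (((⟨.hs :: α, β, γ, τ' ++ .hs :: (wds rest ++ .mk :: δ), ξ⟩ : Sta m (Lt N)).set .d
        (.hs :: (wds rest ++ .mk :: δ))).set .a ((τ'.map tgb).reverse ++
        (⟨.hs :: α, β, γ, τ' ++ .hs :: (wds rest ++ .mk :: δ), ξ⟩ : Sta m (Lt N)).get .a)) =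
        ⟨bw (ebits τ') ++ .hs :: α, β, γ, .hs :: (wds rest ++ .mk :: δ), ξ⟩ := by
      simp only [Sta.set, Sta.get]
      congr 2
      unfold bw ebits
      rw [List.map_reverse, List.map_map]
      rfl
    rw [e] at h
    exact h
  have hmk : ∀ u ∈ (wds rest : List (Lt N)), (u != .mk) = true := by
    intro u hu
    unfold wds at hu
    rw [List.mem_flatMap] at hu
    obtain ⟨τ2, h10, h11⟩ := hu
    rw [List.mem_append, List.mem_singleton] at h11
    rcases h11 with h11 | rfl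
    · rcases h4f τ2 h10 u h11 with rfl | rfl | rfl <;> rfl
    · rfl
  have h8 : LR (del .d (· != .mk)) (⟨bw (ebits τ') ++ .hs :: α, β, γ, .hs :: (wds rest ++ .mk :: δ),
      ξ⟩ : Sta m (Lt N)) ⟨bw (ebits τ') ++ .hs :: α, β, γ, .mk :: δ, ξ⟩
      (3 * ((n + 1) * rest.length + 1) + 1) := by
    have h := del_run (k := .d) (p := (· != .mk)) (s := (⟨bw (ebits τ') ++ .hs :: α, β, γ,
      .hs :: (wds rest ++ .mk :: δ), ξ⟩ : Sta m (Lt N))) (l := .hs :: wds rest) (v := .mk) (r := δ)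
      rfl (by
        intro u hu
        rcases List.mem_cons.mp hu with rfl | hu
        · rfl
        · exact hmk u hu) rfl
    rw [List.length_cons, length_wds h4] at h
    exact h
  have h9 := LR.seq (LR.push .a .se (⟨α, β, γ, wds τs ++ .mk :: δ, ξ⟩ : Sta m (Lt N)))
    (LR.seq h6 (LR.seq (pop1_run (k := .a) (v := .re) (r := α) rfl) (LR.seq (LR.push .a .hs _)
      (LR.seq h7 (LR.seq h8 (pop1_run (k := .d) (v := .mk) (r := δ) rfl))))))
  refine h9.mono ?_
  have h10 := len_le_sum τs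
  generalize (τs.map fun τ => 2 ^ fr τ).sum = Sm at h10 ⊢
  have h11 : (n + 1) * rest.length ≤ (n + 1) * Sm := Nat.mul_le_mul_left _ (h5.trans h10)
  generalize rest.length = L at h11 ⊢
  have h12 : (C + 20) * (n + S + 1) ^ 2 + n + 1 ≤ (C + 22) * (n + S + 1) ^ 2 := by
    nlinarith [Nat.zero_le n, Nat.zero_le S, Nat.zero_le (n * S)]
  have h13 : (C1 + 20) * (Sm * ((C + 20) * (n + S + 1) ^ 2 + n + 1)) ≤
      (C1 + 20) * (Sm * ((C + 22) * (n + S + 1) ^ 2)) :=
    Nat.mul_le_mul_left _ (Nat.mul_le_mul_left _ h12)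
  have e1 : ((C1 + 20) * (C + 22) + 20) * ((Sm + 1) * (n + S + 1) ^ 2) =
      (C1 + 20) * (Sm * ((C + 22) * (n + S + 1) ^ 2)) + (C1 + 20) * ((C + 22) *
        (n + S + 1) ^ 2) + 20 * (Sm * (n + S + 1) ^ 2) + 20 * (n + S + 1) ^ 2 := by ring
  rw [e1]
  have h14 : n + 1 ≤ (n + S + 1) ^ 2 := by nlinarith [Nat.zero_le n, Nat.zero_le S]
  have h15 : (n + 1) * Sm ≤ Sm * (n + S + 1) ^ 2 := by
    rw [mul_comm (n + 1) Sm]
    exact Nat.mul_le_mul_left _ h14
  omega

end Pool.Agent.Lib.MP_33f9c4_lc.TT
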