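import Pool.Agent.Lib.MP_33f9c4_lc.T.Fmt
import Pool.Agent.Lib.MP_33f9c4_lc.T.FewPT
import Pool.Agent.Lib.MP_33f9c4_lc.T.Test
import Pool.Agent.Lib.MP_33f9c4_lc.T.Mach

set_option autoImplicit false

/-!
MODULE Main3. Third phase: messages, tests, output.

`a = bw z ++ [hs, mk]` with `z = hst .. ++ false :: false :: w`: `few_pt h3`, `unp_run` and `unp_fmt3`: `d = (templates).. ++ mk :: [mk]`, `a = [mk]`;
`test_run M` (with `τs.map (·.map tl)`, `fresh_map_tl`, `fr_map_tl`, `all_map_tl`: `∃ τ' ∈ all (τ.map tl), ebits τ' = x ↔ x ∈ K.ents τ []`);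
then `a = bw x ++ [hs, mk]`: move `bw x` to `c` (until `hs`), pop `hs`, move it from `c` to `b` (until `mk`): `sOut x`.
The length of the unpacked word is bounded by a polynomial in `z.length`.
-/

namespace Pool.Agent.Lib.MP_33f9c4_lc.TT

open Pool.Agent.Lib.PolyTime

variable {m : ℕ}

private theorem m3_size_le (z : List Bool) : size z ≤ 4 * z.length + 1 := by
  induction z with
  | nil => simp
  | cons b l ih =>
    have hb : size b ≤ 3 := by cases b <;> exact Nat.le_of_ble_eq_true rfl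
    simp only [List.length_cons, size_cons]
    omega

private theorem m3_isB {N : ℕ} (l : List Bool) : ∀ u ∈ (bw l : List (Lt N)), isB u = true := by
  intro u hu
  obtain ⟨b, _, rfl⟩ := List.mem_map.1 hu
  simp

/-- the answer is moved to stack `b` -/
private theorem m3_out {N : ℕ} (x : List Bool) :
    LR (.seq (mv .a .c isB id) (.seq (pop1 .a) (mv .c .b isB id)) : LP m (Lt N))
      ⟨bw x ++ .hs :: [.mk], [.mk], [.mk], [.mk], fun _ => [.mk]⟩ (sOut x)
      (6 * x.length + 4) := by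
  have e' : (bw x : List (Lt N)).length = x.length := by simp [bw]
  have h1 : LR (mv .a .c isB id)
      (⟨bw x ++ .hs :: [.mk], [.mk], [.mk], [.mk], fun _ => [.mk]⟩ : Sta m (Lt N))
      ⟨.hs :: [.mk], [.mk], (bw x).reverse ++ [.mk], [.mk], fun _ => [.mk]⟩
      (3 * x.length + 1) := by
    have h := mv_run (k := .a) (k' := .c) (by simp) (p := isB) id
      (s := (⟨bw x ++ .hs :: [.mk], [.mk], [.mk], [.mk], fun _ => [.mk]⟩ : Sta m (Lt N)))
      (l := bw x) (v := .hs) (r := [.mk]) rfl (m3_isB x) rfl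
    rw [List.map_id, e'] at h
    exact h
  have h2 : LR (pop1 .a)
      (⟨.hs :: [.mk], [.mk], (bw x).reverse ++ [.mk], [.mk], fun _ => [.mk]⟩ : Sta m (Lt N))
      ⟨[.mk], [.mk], (bw x).reverse ++ [.mk], [.mk], fun _ => [.mk]⟩ 2 :=
    pop1_run (v := .hs) rfl
  have h3 : LR (mv .c .b isB id)
      (⟨[.mk], [.mk], (bw x).reverse ++ [.mk], [.mk], fun _ => [.mk]⟩ : Sta m (Lt N))
      (sOut x) (3 * x.length + 1) := by
    have h := mv_run (k := .c) (k' := .b) (by simp) (p := isB) id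
      (s := (⟨[.mk], [.mk], (bw x).reverse ++ [.mk], [.mk], fun _ => [.mk]⟩ : Sta m (Lt N)))
      (l := (bw x).reverse) (v := .mk) (r := []) rfl
      (fun u hu => m3_isB x u (List.mem_reverse.1 hu)) rfl
    rw [List.map_id, List.length_reverse, e', List.reverse_reverse] at h
    exact h
  exact (h1.seq (h2.seq h3)).mono (by omega)

theorem phase3 (M : Machine) {p3 : List Bool → List Bool} (h3 : PT p3) : ∃ N₀ : ℕ, ∀ N, N₀ ≤ N →
    ∃ (P : LP m (Lt N)) (Q : Polynomial ℕ) (C : ℕ), ∀ (z : List Bool)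
      (τs : List (List (Option Bool))) (n S : ℕ) (f : List Bool → Bool),
      p3 z = fmt3 τs → (∀ x : List Bool, x.length = n → Outputs M x [f x] S) →
      (∀ τ ∈ τs, τ.length = n) →
      (∃ τ ∈ τs, ∃ x ∈ MP_33f9c4_lc.K.ents τ [], f x = true) →
      ∃ x : List Bool, x.length = n ∧ (∃ τ ∈ τs, x ∈ MP_33f9c4_lc.K.ents τ []) ∧ f x = true ∧
        LR P ⟨bw z ++ [.hs, .mk], [.mk], [.mk], [.mk], fun _ => [.mk]⟩ (sOut x)
          (Q.eval z.length + C * (((τs.map fun τ => 2 ^ MP_33f9c4_lc.K.free τ).sum + 1) *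
            (n + S + 1) ^ 2)) := by
  obtain ⟨p, hp⟩ := PT.size_le h3
  obtain ⟨N₁, h1⟩ := few_pt (m := m) h3
  obtain ⟨N₂, h2⟩ := test_run (m := m) M
  refine ⟨max N₁ N₂, fun N hN => ?_⟩
  obtain ⟨P1, Q1, r1⟩ := h1 N ((le_max_left _ _).trans hN)
  obtain ⟨P2, C2, r2⟩ := unp_run (m := m) (N := N)
  obtain ⟨P3, C3, r3⟩ := h2 N ((le_max_right _ _).trans hN)
  have hlin : PB (fun n => 4 * n + 1) := ((PB.const 4).mul PB.id).add (PB.const 1)
  obtain ⟨Q, hQ⟩ : PB (fun n => Q1.eval n + C2 * (p.eval (4 * n + 1) + 1)) :=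
    (PB.poly Q1).add ((PB.const C2).mul ((PB.comp p hlin).add (PB.const 1)))
  refine ⟨.seq P1 (.seq P2 (.seq P3 (.seq (mv .a .c isB id) (.seq (pop1 .a)
    (mv .c .b isB id))))), Q, C3 + 10, ?_⟩
  intro z τs n S f hz hM hτ hex
  have k1 := r1 z [.mk] [.mk] [.mk] [.mk] (fun _ => [.mk])
  have k2 := r2 (p3 z) [.mk] [.mk] [.mk] [.mk] (fun _ => [.mk])
    (by rw [hz]; exact dvd_length_fmt3 τs)
  have e2 : ((unp (p3 z)).reverse ++ [.mk] : List (Lt N)) =
      (τs.map fun τ => τ.map tl).flatMap (· ++ [.hs]) ++ .mk :: [.mk] := by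
    rw [hz, unp_fmt3, List.append_assoc]
    rfl
  rw [e2] at k2
  obtain ⟨x, hxn, hxτ, hfx, k3⟩ := r3 n S f (τs.map fun τ => τ.map tl) [.mk] [.mk] [.mk] [.mk]
    (fun _ => [.mk]) hM (by
      intro τ' h'
      obtain ⟨τ, h, rfl⟩ := List.mem_map.1 h'
      exact ⟨fresh_map_tl τ, by rw [List.length_map]; exact hτ τ h⟩) (by
      obtain ⟨τ, h, x, hx, hf⟩ := hex
      have hx' : x ∈ (all (τ.map tl : List (Lt N))).map ebits := (all_map_tl τ).mem_iff.2 hx
      obtain ⟨τ', h', rfl⟩ := List.mem_map.1 hx'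
      exact ⟨τ.map tl, List.mem_map.2 ⟨τ, h, rfl⟩, τ', h', hf⟩)
  have k4 := m3_out (m := m) (N := N) x
  refine ⟨x, hxn, ?_, hfx, (k1.seq (k2.seq (k3.seq k4))).mono ?_⟩
  · obtain ⟨t, ht, τ', h', hx⟩ := hxτ
    obtain ⟨τ, h, rfl⟩ := List.mem_map.1 ht
    exact ⟨τ, h, (all_map_tl τ).mem_iff.1 (List.mem_map.2 ⟨τ', h', hx⟩)⟩
  · have hsum : ((τs.map fun τ => (τ.map tl : List (Lt N))).map fun τ => 2 ^ fr τ).sum =
        (τs.map fun τ => 2 ^ MP_33f9c4_lc.K.free τ).sum := by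
      rw [List.map_map]
      congr 1
      exact List.map_congr_left fun τ _ => by
        show 2 ^ fr (τ.map tl : List (Lt N)) = _
        rw [fr_map_tl]
    rw [hsum, hxn]
    have hfl : (p3 z).length ≤ p.eval (4 * z.length + 1) :=
      (length_le_size (p3 z)).trans ((hp z).trans (eval_mono p (m3_size_le z)))
    have hQz := hQ z.length
    beta_reduce at hQz
    have hc : C2 * ((p3 z).length + 1) ≤ C2 * (p.eval (4 * z.length + 1) + 1) :=
      Nat.mul_le_mul_left _ (by omega)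
    generalize (τs.map fun τ => 2 ^ MP_33f9c4_lc.K.free τ).sum = W at *
    have h5 : n + S + 1 ≤ (W + 1) * (n + S + 1) ^ 2 := by
      calc n + S + 1 = 1 * (n + S + 1) ^ 1 := by ring
        _ ≤ (W + 1) * (n + S + 1) ^ 2 :=
          Nat.mul_le_mul (by omega) (Nat.pow_le_pow_right (by omega) (by omega))
    have h6 : (C3 + 10) * ((W + 1) * (n + S + 1) ^ 2) =
        C3 * ((W + 1) * (n + S + 1) ^ 2) + 10 * ((W + 1) * (n + S + 1) ^ 2) := by ring
    rw [h6]
    generalize (W + 1) * (n + S + 1) ^ 2 = Z at *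
    omega

end Pool.Agent.Lib.MP_33f9c4_lc.TT
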