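import Pool.Agent.Lib.MP_33f9c4_lc.T.Main1
import Pool.Agent.Lib.MP_33f9c4_lc.T.Main2
import Pool.Agent.Lib.MP_33f9c4_lc.T.Main3

set_option autoImplicit false

/-!
MODULE Main. The diagonalising Turing machine.

`phase1`, `phase2`, `phase3` for a common `N`, `lp_machine`. `z = hst .. ++ false :: false :: w` has length at most
`2 ^ K * (2 L + 4) + w.length + 2` (each record has at most `2 L + 2` bits: `Nat.bits n` has length `≤ L` for `n < 2^L`).
-/

namespace Pool.Agent.Lib.MP_33f9c4_lc.TT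

open Pool.Agent.Lib.PolyTime

variable {m : ℕ}

private theorem mn_mono {D : Machine} {d x : List Bool} {t t' : ℕ} (h : Outputs D d x t)
    (ht : t ≤ t') : Outputs D d x t' := by
  obtain ⟨h⟩ := h
  exact ⟨⟨h.toEvalsTo, h.steps_le_m.trans ht⟩⟩

private theorem mn_hst (L : ℕ) (l : List ℕ) (h : ∀ n ∈ l, n < 2 ^ L) :
    (hst l).length ≤ l.length * (2 * L + 2) := by
  have h1 : ∀ n : ℕ, n < 2 ^ L → (rec1 n).length ≤ 2 * L + 2 := by
    intro n hn
    have h2 : (Nat.bits n).length ≤ L := by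
      rw [Nat.size_eq_bits_len]
      exact Nat.size_le.2 hn
    have h3 : ∀ r : List Bool, (r.flatMap fun b => [true, b]).length = 2 * r.length := by
      intro r
      induction r with
      | nil => rfl
      | cons b r ih =>
        rw [List.flatMap_cons, List.length_append, ih, List.length_cons]
        simp only [List.length_cons, List.length_nil]
        ring
    unfold rec1
    rw [List.length_append, h3, List.length_reverse]
    simp only [List.length_cons, List.length_nil]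
    omega
  unfold hst
  have h4 : ∀ r : List ℕ, (∀ n ∈ r, n < 2 ^ L) → (r.flatMap rec1).length ≤
      r.length * (2 * L + 2) := by
    intro r
    induction r with
    | nil => intro _; exact Nat.zero_le _
    | cons n r ih =>
      intro hr
      rw [List.flatMap_cons, List.length_append, List.length_cons, add_mul, one_mul]
      have h5 := h1 n (hr n List.mem_cons_self)
      have h6 := ih fun k hk => hr k (List.mem_cons_of_mem _ hk)
      omega
  rw [← List.length_reverse (as := l)]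
  exact h4 l.reverse fun n hn => h n (List.mem_reverse.1 hn)

theorem gen_tm (V : NM m) (hko : V.ko = .b) (M : Machine) {p1 p2 p3 : List Bool → List Bool}
    (h1 : PT p1) (h2 : PT p2) (h3 : PT p3) :
    ∃ (D : Machine) (A : ℕ) (Q : Polynomial ℕ), Cls m D ∧
      ∀ (w : List Bool) (e mm K L n S : ℕ) (κ : List Bool) (τ : List (Option Bool))
        (f : List Bool → Bool) (τs : List (List (Option Bool))),
        p1 w = List.replicate e true →
        p2 (List.replicate (2 ^ e) true ++ false :: w) = fmt2 mm κ K τ →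
        mm ≤ τ.length → (rdsO V K mm κ τ).length < 2 ^ L →
        p3 (hst ((ord K).map fun y => (rdsO V K mm κ τ).count y) ++ false :: false :: w) =
          fmt3 τs →
        (∀ x : List Bool, x.length = n → Outputs M x [f x] S) →
        (∀ τ' ∈ τs, τ'.length = n) →
        (∃ τ' ∈ τs, ∃ x ∈ MP_33f9c4_lc.K.ents τ' [], f x = true) →
        ∃ x : List Bool, x.length = n ∧ (∃ τ' ∈ τs, x ∈ MP_33f9c4_lc.K.ents τ' []) ∧
          f x = true ∧
          Outputs D w x (Q.eval (w.length + 2 ^ e + 2 ^ K + L) +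
            A * (rcostO K mm κ τ + ((K + 1) * (K + 1) + L) * (rdsO V K mm κ τ).length +
              ((τs.map fun τ' => 2 ^ MP_33f9c4_lc.K.free τ').sum + 1) * (n + S + 1) ^ 2)) := by
  obtain ⟨N₁, g1⟩ := phase1 (m := m) h1 h2
  obtain ⟨N₂, g2⟩ := phase2 V hko
  obtain ⟨N₃, g3⟩ := phase3 (m := m) M h3
  obtain ⟨N, hN⟩ : ∃ N, N = max N₁ (max N₂ N₃) := ⟨_, rfl⟩
  obtain ⟨P1, Q1, r1⟩ := g1 N (by omega)
  obtain ⟨P2, C2, r2⟩ := g2 N (by omega)
  obtain ⟨P3, Q3, C3, r3⟩ := g3 N (by omega)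
  obtain ⟨D, C0, hD, hout⟩ := lp_machine (.seq P1 (.seq P2 P3))
  have hzB : PB (fun u => u * (2 * u + 2) + u + 2) :=
    ((PB.id.mul (((PB.const 2).mul PB.id).add (PB.const 2))).add PB.id).add (PB.const 2)
  obtain ⟨Q, hQ⟩ : PB (fun u => C0 * (Q1.eval u + C2 * (Q1.eval u + (u * u + u) * u) +
      Q3.eval (u * (2 * u + 2) + u + 2) + u + 1)) :=
    (PB.const C0).mul (((((PB.poly Q1).add ((PB.const C2).mul ((PB.poly Q1).add
      (((PB.id.mul PB.id).add PB.id).mul PB.id)))).add (PB.comp Q3 hzB)).add PB.id).add (PB.const 1))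
  refine ⟨D, C0 * (C2 + C3 + 1), Q, hD, ?_⟩
  intro w e mm K L n S κ τ f τs hp1 hp2 hmm hL hp3 hM hτ hex
  obtain ⟨k1, hlen⟩ := r1 w e mm K κ τ hp1 hp2
  have k2 := r2 mm K L κ τ (.o :: .o :: (bw w ++ [.hs, .mk])) hmm hL
  obtain ⟨x, hxn, hxτ, hfx, k3⟩ := r3
    (hst ((ord K).map fun y => (rdsO V K mm κ τ).count y) ++ false :: false :: w) τs n S f
    hp3 hM hτ hex
  have ez : (bw (hst ((ord K).map fun y => (rdsO V K mm κ τ).count y) ++ false :: false :: w) ++
      [.hs, .mk] : List (Lt N)) =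
      bw (hst ((ord K).map fun y => (rdsO V K mm κ τ).count y)) ++
        (.o :: .o :: (bw w ++ [.hs, .mk])) := by
    unfold bw
    rw [List.map_append, List.append_assoc]
    rfl
  rw [ez] at k3
  obtain ⟨r, hr, hLE⟩ := k1.seq (k2.seq k3)
  refine ⟨x, hxn, hxτ, hfx, mn_mono (hout w x r hLE) ?_⟩
  have hz : (hst ((ord K).map fun y => (rdsO V K mm κ τ).count y) ++ false :: false :: w).length ≤
      2 ^ K * (2 * L + 2) + (w.length + 2) := by
    rw [List.length_append]
    refine Nat.add_le_add ?_ (by simp)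
    have h := mn_hst L ((ord K).map fun y => (rdsO V K mm κ τ).count y) (by
      intro c hc
      obtain ⟨y, _, rfl⟩ := List.mem_map.1 hc
      exact lt_of_le_of_lt List.count_le_length hL)
    rw [List.length_map, length_ord] at h
    exact h
  generalize (hst ((ord K).map fun y => (rdsO V K mm κ τ).count y) ++
    false :: false :: w).length = Z at *
  generalize (rdsO V K mm κ τ).length = R at *
  generalize rcostO K mm κ τ = Y at *
  generalize (τs.map fun τ' => 2 ^ MP_33f9c4_lc.K.free τ').sum = W at *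
  obtain ⟨u, hu⟩ : ∃ u, u = w.length + 2 ^ e + 2 ^ K + L := ⟨_, rfl⟩
  rw [← hu]
  have hK1 : K + 1 ≤ 2 ^ K := Nat.lt_two_pow_self
  have he1 : 1 ≤ 2 ^ e := Nat.one_le_two_pow
  have hQu := hQ u
  beta_reduce at hQu
  have a1 : Q1.eval (w.length + 2 ^ e) ≤ Q1.eval u := eval_mono Q1 (by omega)
  have a2 : Q3.eval Z ≤ Q3.eval (u * (2 * u + 2) + u + 2) := by
    refine eval_mono Q3 (hz.trans ?_)
    have h : 2 ^ K * (2 * L + 2) ≤ u * (2 * u + 2) := Nat.mul_le_mul (by omega) (by omega)
    omega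
  have a3 : ((K + 1) * (K + 1) + L) * 2 ^ K ≤ (u * u + u) * u :=
    Nat.mul_le_mul (Nat.add_le_add (Nat.mul_le_mul (by omega) (by omega)) (by omega)) (by omega)
  have a4 : n + 1 ≤ (W + 1) * (n + S + 1) ^ 2 := by
    calc n + 1 = 1 * (n + 1) ^ 1 := by ring
      _ ≤ (W + 1) * (n + S + 1) ^ 2 := by
        refine Nat.mul_le_mul (by omega) ?_
        exact (Nat.pow_le_pow_left (by omega) 1).trans (Nat.pow_le_pow_right (by omega) (by omega))
  have a5 : ((K + 1) * (K + 1) + L) * (R + 2 ^ K) =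
      ((K + 1) * (K + 1) + L) * R + ((K + 1) * (K + 1) + L) * 2 ^ K := by ring
  rw [a5] at hr
  generalize ((K + 1) * (K + 1) + L) * 2 ^ K = X1 at *
  generalize ((K + 1) * (K + 1) + L) * R = X2 at *
  generalize (W + 1) * (n + S + 1) ^ 2 = X3 at *
  generalize (u * u + u) * u = X4 at *
  generalize Q3.eval (u * (2 * u + 2) + u + 2) = X5 at *
  generalize Q1.eval u = X6 at *
  have b1 : C2 * (Y + κ.length + τ.length + mm + (X2 + X1)) ≤ C2 * (X6 + X4) + C2 * (Y + X2) := by
    rw [← mul_add]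
    exact Nat.mul_le_mul_left C2 (by omega)
  have b2 : r + w.length + x.length + 1 ≤
      (X6 + C2 * (X6 + X4) + X5 + u + 1) + (C2 * (Y + X2) + C3 * X3 + X3) := by
    rw [hxn]
    omega
  have b3 : C2 * (Y + X2) + C3 * X3 + X3 ≤ (C2 + C3 + 1) * (Y + X2 + X3) := by
    have h : (C2 + C3 + 1) * (Y + X2 + X3) = C2 * (Y + X2) + C3 * X3 + X3 +
      (C2 * X3 + C3 * (Y + X2) + (Y + X2)) := by ring
    omega
  calc C0 * (r + w.length + x.length + 1)
      ≤ C0 * ((X6 + C2 * (X6 + X4) + X5 + u + 1) + (C2 + C3 + 1) * (Y + X2 + X3)) :=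
        Nat.mul_le_mul_left C0 (by omega)
    _ = C0 * (X6 + C2 * (X6 + X4) + X5 + u + 1) + C0 * (C2 + C3 + 1) * (Y + X2 + X3) := by ring
    _ ≤ Q.eval u + C0 * (C2 + C3 + 1) * (Y + X2 + X3) := Nat.add_le_add_right hQu _

end Pool.Agent.Lib.MP_33f9c4_lc.TT
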