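import Pool.Agent.Lib.MP_33f9c4_lc.T.FinA
import Pool.Agent.Lib.MP_33f9c4_lc.T.Main

set_option autoImplicit false

/-!
# No machine decides the set of Levin-random strings fast (general form)
-/

namespace Pool.Agent.Lib.MP_33f9c4_lc.TT

open Pool.Agent.Lib.PolyTime
open Pool.Agent.Lib.MP_33f9c4_lc.LK (Par Tab rt mt jhi tmpl allL view reads allT Tested parT hh
  parT_good tst)

variable {m : ℕ}

/-- `U` is optimal among the machines of the class `Cls m`: for all machines `M` of the class,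
`Kt U x ≤ Kt M x + log (|x| + 1) / 50 + O(1)` (and `x` has a description with respect to `U` if it
has one with respect to `M`). -/
def OptimalT (m : ℕ) (U : Machine) : Prop :=
  ∀ M : Machine, Cls m M → ∃ c : ℝ, ∀ (d x : List Bool) (t : ℕ), Outputs M d x t →
    (∃ (d' : List Bool) (t' : ℕ), Outputs U d' x t') ∧
    Kt U x ≤ d.length + Real.logb 2 t + Real.logb 2 (x.length + 1) / 50 + c

/-- the word given to the diagonalising machine -/
def inw (g : ℕ) (u : List Bool) : List Bool := List.replicate g true ++ false :: u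

/-- the list of weights computed from the counts -/
def lst (P : Par) (cnt : List Bool → ℕ) : List (List Bool × ℕ) :=
  (allL P.K).map fun y => (y, min (2 ^ P.c) (cnt y / 2 ^ (P.n - P.K - P.c)))

/-- the specification of the three functions in PT -/
structure Spec (c4 : ℕ) (p1 p2 p3 : List Bool → List Bool) : Prop where
  pt1 : PT p1
  pt2 : PT p2
  pt3 : PT p3
  e1 : ∀ g u, 7 ≤ g → c4 ≤ g → p1 (inw g u) = List.replicate (2 * g) true
  e2 : ∀ g u, 7 ≤ g → c4 ≤ g → 1 ≤ u.length → u.length ≤ (parT g c4).R + (parT g c4).q →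
    p2 (List.replicate (hh g) true ++ false :: inw g u) =
      fmt2 (mt (parT g c4) u) (kap (parT g c4).l c4) (parT g c4).K (rt (parT g c4) u)
  e3 : ∀ g u (cnt : List Bool → ℕ), 7 ≤ g → c4 ≤ g → 1 ≤ u.length →
    u.length ≤ (parT g c4).R + (parT g c4).q →
    p3 (hst ((ord (parT g c4).K).map cnt) ++ false :: false :: inw g u) =
      fmt3 ((tst (parT g c4) u (lst (parT g c4) cnt) false ++
        tst (parT g c4) u (lst (parT g c4) cnt) true).map (tmx (parT g c4).n))

/-- the specification of the costs -/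
def CostT (m c4 A : ℕ) (Q : Polynomial ℕ) : Prop :=
  ∃ C g₀ : ℕ, ∀ g, g₀ ≤ g → ∀ (V : NM m) (u : List Bool), 1 ≤ u.length →
    u.length ≤ (parT g c4).R + (parT g c4).q →
    (Q.eval ((inw g u).length + hh g + 2 ^ (parT g c4).K + ((parT g c4).n + 2)) +
      A * (rcostO (parT g c4).K (mt (parT g c4) u) (kap (parT g c4).l c4) (rt (parT g c4) u) +
        (((parT g c4).K + 1) * ((parT g c4).K + 1) + ((parT g c4).n + 2)) *
          (rdsO V (parT g c4).K (mt (parT g c4) u) (kap (parT g c4).l c4)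
            (rt (parT g c4) u)).length +
        ((((allT (parT g c4) (vtab V c4 (parT g c4).n) u).map (tmx (parT g c4).n)).map
          fun τ' => 2 ^ MP_33f9c4_lc.K.free τ').sum + 1) *
          ((parT g c4).n + 2 ^ 2 ^ g + 1) ^ 2)) * 2 ^ (u.length + 4 * g) ≤
      2 ^ ((parT g c4).n + C)

/-- the number of counted prefixes -/
def ItemsT (m c4 : ℕ) : Prop :=
  ∀ g, 7 ≤ g → c4 ≤ g → ∀ (V : NM m) (u : List Bool), 1 ≤ u.length →
    u.length ≤ (parT g c4).R + (parT g c4).q →
    (rdsO V (parT g c4).K (mt (parT g c4) u) (kap (parT g c4).l c4)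
      (rt (parT g c4) u)).length < 2 ^ ((parT g c4).n + 2)

/-- the number of tables -/
def TablesT (c4 : ℕ) : Prop :=
  ∀ g, 7 ≤ g → c4 ≤ g → ∀ (u : List Bool), 1 ≤ u.length →
    u.length ≤ (parT g c4).R + (parT g c4).q → mt (parT g c4) u ≤ (rt (parT g c4) u).length

theorem vfin_gen {U : Machine} (hcls : Cls m U) (hU : OptimalT m U) (M : Machine)
    (hs : ∀ c4, ∃ p1 p2 p3, Spec c4 p1 p2 p3) (hcost : ∀ c4 A Q, CostT m c4 A Q)
    (hitems : ∀ c4, ItemsT m c4) (htables : ∀ c4, TablesT c4) :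
    ∃ g₀ : ℕ, ∀ g, g₀ ≤ g → ∃ x : List Bool, x.length = 2 ^ (132 * g) ∧
      ∀ b : Bool, (b = true ↔ x ∈ RKt U) → ¬ Outputs M x [b] (2 ^ 2 ^ g) := by
  classical
  obtain ⟨V, c, hko', hV⟩ := nm_of_machine U hcls.1
  have hko : V.ko = .b := hko' hcls.2
  obtain ⟨c4, hc⟩ : ∃ c4, 2 * c ≤ 2 ^ c4 := ⟨2 * c, Nat.lt_two_pow_self.le⟩
  obtain ⟨p1, p2, p3, hspec⟩ := hs c4
  obtain ⟨D, A, Q, hDc, hD⟩ := gen_tm V hko M hspec.pt1 hspec.pt2 hspec.pt3
  obtain ⟨c0, hc0⟩ := hU D hDc
  obtain ⟨C, g1, hC⟩ := hcost c4 A Q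
  obtain ⟨I, hIc, hI⟩ := exists_all_outputs m
  obtain ⟨B, hB⟩ := exists_nat_gt (C + c0 + 2)
  refine ⟨5 * B + g1 + 7 + c4, fun g hg => ?_⟩
  by_contra hcon
  push Not at hcon
  have hg7 : 7 ≤ g := by omega
  have hgc : c4 ≤ g := by omega
  have hP := parT_good hg7 hgc
  obtain ⟨P, hPdef⟩ : ∃ P, P = parT g c4 := ⟨_, rfl⟩
  have hn' : P.n = 2 ^ (132 * g) := by rw [hPdef]; rfl
  have hl' : P.l = 132 * g - c4 := by rw [hPdef]; rfl
  rw [← hPdef] at hP
  have hn1 : 0 < P.n := by rw [hn']; positivity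
  -- `M` decides correctly
  have hdec : ∀ x : List Bool, x.length = P.n →
      Outputs M x [decide (x ∈ RKt U)] (2 ^ 2 ^ g) := by
    intro x hx
    obtain ⟨b, hb, ho⟩ := hcon x (by rw [hx, hn'])
    have : b = decide (x ∈ RKt U) := by
      by_cases h : x ∈ RKt U
      · rw [hb.mpr h, decide_eq_true h]
      · rw [decide_eq_false h]
        cases b with
        | false => rfl
        | true => exact absurd (hb.mp rfl) h
    rwa [this] at ho
  -- the core theorem
  obtain ⟨u, hu1, hu2, x0, hx0, hx0'⟩ := LK.core hP (vtab V c4 P.n)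
    (fun j e x h => length_vtab h)
  have hx0n : x0.length = P.n := hx0.1
  have hx0K : x0 ∈ RKt U := by
    by_contra h
    have h1 : Kt U x0 < P.n := by
      have h2 : ¬ ((x0.length : ℝ) ≤ Kt U x0) := h
      rw [hx0n] at h2
      exact not_le.mp h2
    have hne : ∃ (d : List Bool) (t : ℕ), Outputs U d x0 t := by
      obtain ⟨c, hc⟩ := hU I hIc
      obtain ⟨d, t, h3⟩ := hI x0
      exact (hc d x0 t h3).1
    obtain ⟨j, e, h2, h3, h4, h5⟩ := host hko hV hc hx0n hn' hne h1
    exact hx0' j e (by rw [hl']; exact h2) h3 h4 h5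
  -- run the machine `D` on `w`
  obtain ⟨w, hw⟩ : ∃ w, w = inw g u := ⟨_, rfl⟩
  have hwl : w.length = g + 1 + u.length := by
    rw [hw, inw, List.length_append, List.length_replicate, List.length_cons]
    omega
  have hu2' := hu2
  rw [hPdef] at hu2'
  have hlist : allT P (vtab V c4 P.n) u =
      tst P u (lst P fun y => (rdsO V P.K (mt P u) (kap P.l c4) (rt P u)).count y) false ++
        tst P u (lst P fun y => (rdsO V P.K (mt P u) (kap P.l c4) (rt P u)).count y) true := by
    rw [allT, view_eq hP V c4 hu1 hu2]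
    rfl
  obtain ⟨x, hx1, hx2, hx3, hx4⟩ := hD w (2 * g) (mt P u) P.K (P.n + 2) P.n (2 ^ 2 ^ g)
    (kap P.l c4) (rt P u) (fun x => decide (x ∈ RKt U))
    ((allT P (vtab V c4 P.n) u).map (tmx P.n))
    (by rw [hw]; exact hspec.e1 g u hg7 hgc)
    (by
      rw [hw, hPdef]
      exact hspec.e2 g u hg7 hgc hu1 hu2')
    (by rw [hPdef]; exact htables c4 g hg7 hgc u hu1 hu2')
    (by rw [hPdef]; exact hitems c4 g hg7 hgc V u hu1 hu2')
    (by
      rw [hlist, hw, hPdef]
      exact hspec.e3 g u _ hg7 hgc hu1 hu2')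
    hdec
    (by
      intro τ' h
      obtain ⟨p, hp, rfl⟩ := List.mem_map.mp h
      exact length_tmx (LK.VCost_le hP hu1 hu2 hp))
    (by
      obtain ⟨τ', h1, h2⟩ := (tested_iff hP hu1 hu2).mp hx0
      exact ⟨τ', h1, x0, h2, decide_eq_true hx0K⟩)
  have hxK : x ∈ RKt U := of_decide_eq_true hx3
  have hxK' : (P.n : ℝ) ≤ Kt U x := by
    have h : (x.length : ℝ) ≤ Kt U x := hxK
    rwa [hx1] at h
  -- the cost
  obtain ⟨r, hrdef⟩ : ∃ r, r = (Q.eval (w.length + 2 ^ (2 * g) + 2 ^ P.K + (P.n + 2)) +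
            A * (rcostO P.K (mt P u) (kap P.l c4) (rt P u) + ((P.K + 1) * (P.K + 1) + (P.n + 2)) *
              (rdsO V P.K (mt P u) (kap P.l c4) (rt P u)).length +
              (((((allT P (vtab V c4 P.n) u).map (tmx P.n))).map
                fun τ' => 2 ^ MP_33f9c4_lc.K.free τ').sum + 1) * (P.n + 2 ^ 2 ^ g + 1) ^ 2)) :=
    ⟨_, rfl⟩
  rw [← hrdef] at hx4
  have hKt := (hc0 w x r hx4).2
  have hcost' : r * 2 ^ (u.length + 4 * g) ≤ 2 ^ (P.n + C) := by
    have := hC g (by omega) V u hu1 hu2'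
    rw [← hPdef, ← hw] at this
    rw [hrdef]
    exact this
  have hlog : Real.logb 2 (r : ℝ) ≤ P.n + C - (u.length + 4 * g) := by
    rcases Nat.eq_zero_or_pos r with h0 | hpos
    · rw [h0]
      simp only [Nat.cast_zero, Real.logb_zero]
      have h1 : u.length + 4 * g ≤ P.n := by
        have a1 := hP.h5
        have a2 : 1 ≤ P.q := by
          have a3 := hP.h3
          have a4 : 0 < P.R * 2 ^ P.w := by
            have : 0 < P.R := by rw [hP.hR]; positivity
            positivity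
          omega
        have a5 := hP.h4
        have a6 : P.q * P.W ≥ P.W := Nat.le_mul_of_pos_left _ a2
        have a7 : 4 * g ≤ P.w := by rw [hPdef]; show 4 * g ≤ 20 * g; omega
        omega
      have h2 : ((u.length + 4 * g : ℕ) : ℝ) ≤ (P.n : ℝ) := by exact_mod_cast h1
      push_cast at h2
      have h3 : (0 : ℝ) ≤ C := by positivity
      linarith
    · have h1 : (((r) * 2 ^ (u.length + 4 * g) : ℕ) : ℝ) ≤
          ((2 ^ (P.n + C) : ℕ) : ℝ) := by exact_mod_cast hcost'
      have h2 := Real.logb_le_logb_of_le (b := 2) (by norm_num) (by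
        have : 0 < (r) * 2 ^ (u.length + 4 * g) := by positivity
        exact_mod_cast this) h1
      push_cast at h2
      rw [Real.logb_mul (by
          have : (0 : ℝ) < (r : ℝ) := by exact_mod_cast hpos
          exact this.ne') (by positivity), Real.logb_pow, Real.logb_pow,
        Real.logb_self_eq_one (by norm_num)] at h2
      push_cast at h2 ⊢
      linarith
  have hlog2 : Real.logb 2 ((x.length : ℝ) + 1) / 50 ≤ (132 * g + 1) / 50 := by
    rw [hx1]
    have h1 : ((P.n : ℝ) + 1) ≤ 2 ^ (132 * g + 1 : ℕ) := by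
      have h2 : P.n + 1 ≤ 2 ^ (132 * g + 1) := by
        rw [hn', pow_succ]
        have : 1 ≤ 2 ^ (132 * g) := Nat.one_le_two_pow
        omega
      exact_mod_cast h2
    have h3 : Real.logb 2 ((P.n : ℝ) + 1) ≤ (132 * g + 1 : ℕ) := by
      have h4 := Real.logb_le_logb_of_le (b := 2) (by norm_num) (by positivity) h1
      rwa [Real.logb_pow, Real.logb_self_eq_one (by norm_num), mul_one] at h4
    push_cast at h3
    linarith
  have hgB : (5 * B : ℝ) ≤ g := by
    have : 5 * B ≤ g := by omega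
    exact_mod_cast this
  have hwl' : (w.length : ℝ) = g + 1 + u.length := by
    rw [hwl]
    push_cast
    ring
  rw [hwl'] at hKt
  linarith

end Pool.Agent.Lib.MP_33f9c4_lc.TT
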