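import Pool.Agent.Lib.MP_33f9c4_lc.T.Lang
import Pool.Agent.Lib.MP_33f9c4_lc.Kt

set_option autoImplicit false

/-!
MODULE ULen. A machine with different input and output stacks must pop its whole input.

`haltList` has empty stacks except `k₁`, so the stack `k₀ ≠ k₁` is empty at the end. One step of a TM2 machine is one
statement; `stepAux q v S` shortens stack `k₀` by at most the number of `pop`s of `q`; the maximum over the finite set of labels.
At least one step is needed, because the initial configuration has a label.
-/

namespace Pool.Agent.Lib.MP_33f9c4_lc.TT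

open Turing in
/-- number of pops of a statement -/
def ulenPops {K : Type} {Γ : K → Type} {Λ σ : Type} : TM2.Stmt Γ Λ σ → ℕ
  | .push _ _ q => ulenPops q
  | .peek _ _ q => ulenPops q
  | .pop _ _ q => ulenPops q + 1
  | .load _ q => ulenPops q
  | .branch _ q₁ q₂ => max (ulenPops q₁) (ulenPops q₂)
  | .goto _ => 0
  | .halt => 0

open Turing in
private theorem ulen_stepAux {K : Type} [DecidableEq K] {Γ : K → Type} {Λ σ : Type}
    (q : TM2.Stmt Γ Λ σ) (k : K) : ∀ (v : σ) (S : ∀ k, List (Γ k)),
    (S k).length ≤ ((TM2.stepAux q v S).stk k).length + ulenPops q := by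
  induction q with
  | push k' f q ih =>
    intro v S
    have h := ih v (Function.update S k' (f v :: S k'))
    simp only [TM2.stepAux, ulenPops]
    refine le_trans ?_ h
    by_cases hk : k = k'
    · subst hk
      simp
    · rw [Function.update_of_ne hk]
  | peek k' f q ih =>
    intro v S
    exact ih _ S
  | pop k' f q ih =>
    intro v S
    have h := ih (f v (S k').head?) (Function.update S k' (S k').tail)
    simp only [TM2.stepAux, ulenPops]
    by_cases hk : k = k'
    · subst hk
      rw [Function.update_self, List.length_tail] at h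
      omega
    · rw [Function.update_of_ne hk] at h
      omega
  | load a q ih =>
    intro v S
    exact ih _ S
  | branch f q₁ q₂ ih₁ ih₂ =>
    intro v S
    have h₁ := ih₁ v S
    have h₂ := ih₂ v S
    simp only [TM2.stepAux, ulenPops]
    cases f v
    · simp only [cond_false]
      omega
    · simp only [cond_true]
      omega
  | goto f =>
    intro v S
    simp [TM2.stepAux]
  | halt =>
    intro v S
    simp [TM2.stepAux]

private theorem ulen_none {C : Type} (f : C → Option C) (n : ℕ) :
    (flip bind f)^[n] none = none := by
  induction n with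
  | zero => rfl
  | succ n ih =>
    rw [Function.iterate_succ_apply]
    exact ih

open Turing in
private theorem ulen_steps {K : Type} [DecidableEq K] {Γ : K → Type} {Λ σ : Type}
    (m : Λ → TM2.Stmt Γ Λ σ) (B : ℕ) (hB : ∀ l, ulenPops (m l) ≤ B) (k : K) (n : ℕ) :
    ∀ c c' : TM2.Cfg Γ Λ σ, (flip bind (TM2.step m))^[n] (some c) = some c' →
      (c.stk k).length ≤ (c'.stk k).length + B * n := by
  induction n with
  | zero =>
    intro c c' h
    have h1 : c = c' := Option.some.inj h
    subst h1
    omega
  | succ n ih =>
    intro c c' h
    rw [Function.iterate_succ_apply] at h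
    obtain ⟨l, v, S⟩ := c
    cases l with
    | none =>
      have h1 : flip bind (TM2.step m) (some ⟨none, v, S⟩) = none := rfl
      rw [h1, ulen_none] at h
      cases h
    | some l =>
      have h1 : flip bind (TM2.step m) (some ⟨some l, v, S⟩) = some (TM2.stepAux (m l) v S) := rfl
      rw [h1] at h
      have h2 := ih _ _ h
      have h3 := ulen_stepAux (m l) k v S
      have h4 := hB l
      have h5 : B * (n + 1) = B * n + B := by ring
      show (S k).length ≤ _
      omega

theorem outputs_length (M : Machine) (hM : M.tm.k₀ ≠ M.tm.k₁) : ∃ C : ℕ,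
    ∀ (d x : List Bool) (t : ℕ), Outputs M d x t → d.length ≤ C * t := by
  classical
  haveI := M.tm.ΛFin
  refine ⟨Finset.univ.sup fun l => ulenPops (M.tm.m l), ?_⟩
  rintro d x t ⟨h⟩
  have h1 := h.evals_in_steps
  have h2 := ulen_steps M.tm.m (Finset.univ.sup fun l => ulenPops (M.tm.m l))
    (fun l => Finset.le_sup (f := fun l => ulenPops (M.tm.m l)) (Finset.mem_univ l)) M.tm.k₀
    h.steps _ _ h1
  have h3 : ((Turing.initList M.tm (d.map M.inputAlphabet.invFun)).stk M.tm.k₀).length =
      d.length := by
    unfold Turing.initList
    simp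
  have h4 : ((Turing.haltList M.tm (x.map M.outputAlphabet.invFun)).stk M.tm.k₀).length = 0 := by
    unfold Turing.haltList
    simp [hM]
  have h5 := Nat.mul_le_mul_left (Finset.univ.sup fun l => ulenPops (M.tm.m l)) h.steps_le_m
  rw [h3, h4] at h2
  omega

theorem outputs_pos (M : Machine) {d x : List Bool} {t : ℕ} (h : Outputs M d x t) : 1 ≤ t := by
  obtain ⟨h⟩ := h
  by_contra hlt
  have h0 : h.steps = 0 := by
    have := h.steps_le_m
    omega
  have h1 := h.evals_in_steps
  rw [h0] at h1
  have h2 : Turing.initList M.tm (d.map M.inputAlphabet.invFun) =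
      Turing.haltList M.tm (x.map M.outputAlphabet.invFun) := Option.some.inj h1
  have h3 := congrArg Turing.TM2.Cfg.l h2
  simp [Turing.initList, Turing.haltList] at h3

end Pool.Agent.Lib.MP_33f9c4_lc.TT
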