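import Pool.Agent.Lib.MP_33f9c4_lc.T.UStep
import Pool.Agent.Lib.MP_33f9c4_lc.T.Mach

set_option autoImplicit false

/-!
MODULE UOut. The end of the universal program.

In the final state the flag `se` is on top of `a`. PROGRAM: pop `se`; delete the regions of `c`, `d`, `x i` (`del k (· != mk)`; for the `x i` in a list
`seqs`); `cmv a c`, `del a (· != mk)`, `cmv c a`. Then loop on `b` while the top is not `mk`: `take a b`, the program `PO` of `outF`, then read the number
`v = 0, 1` of the list (as in `flg`: `code ([v], r) = i i (code v) o (code r)`) and push the letter `o` or `i` on `d`, leaving `code ([], r)`.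
After the loop `d = (bw x).reverse ++ [mk]`, `b = [mk]`. Delete the control word (`del a isB`, pop `hs`); `mv d b isB`. The
result is `sOut x` with `x` the output bits of the region of `b`. The cost is at most a constant times (number of all symbols + 1).
-/

namespace Pool.Agent.Lib.MP_33f9c4_lc.TT

open Pool.Agent.Lib.PolyTime

variable {m N : ℕ}

/-- the total number of symbols -/
def Sta.tot {A : Type} (s : Sta m A) : ℕ :=
  s.a.length + s.b.length + s.c.length + s.d.length + ∑ i, (s.x i).length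

/-- read the number `0` or `1` of the list and push its bit on `d` -/
def uoutRd : LP m (Lt N) :=
  .pop .a fun _ => .pop .a fun _ => .pop .a fun u =>
    if u = .o then .seq (.push .a .i) (.push .d .o)
    else .pop .a fun _ => .pop .a fun _ => .seq (.push .a .i) (.push .d .i)

private theorem uout_rd (f : Bool) (r : UD) (α B C D : List (Lt N)) (X : Fin m → List (Lt N)) :
    LR (uoutRd : LP m (Lt N)) ⟨bw (code (([f.toNat], r) : Ctl)) ++ α, B, C, D, X⟩
      ⟨bw (code (([], r) : Ctl)) ++ α, B, C, bt f :: D, X⟩ 10 := by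
  have e0 : (bw (code (([], r) : Ctl)) ++ α : List (Lt N)) = .i :: .o :: (bw (code r) ++ α) := rfl
  cases f with
  | false =>
    have e1 : (bw (code (([false.toNat], r) : Ctl)) ++ α : List (Lt N)) =
        .i :: .i :: .o :: .o :: (bw (code r) ++ α) := rfl
    rw [e0, e1]
    refine LR.mono (t := (1 + 1) + 1 + 1 + 1) ?_ (by norm_num)
    refine LR.pop (v := .i) rfl (LR.pop (v := .i) rfl (LR.pop (v := .o) rfl ?_))
    rw [if_pos rfl]
    exact LR.seq (LR.push .a (Lt.i : Lt N) _) (LR.push .d (Lt.o : Lt N) _)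
  | true =>
    have e1 : (bw (code (([true.toNat], r) : Ctl)) ++ α : List (Lt N)) =
        .i :: .i :: .i :: .o :: .o :: .o :: (bw (code r) ++ α) := rfl
    rw [e0, e1]
    refine LR.mono (t := (1 + 1) + 1 + 1 + 1 + 1 + 1) ?_ (by norm_num)
    refine LR.pop (v := .i) rfl (LR.pop (v := .i) rfl (LR.pop (v := .i) rfl ?_))
    rw [if_neg (by simp)]
    refine LR.pop (v := .o) rfl (LR.pop (v := .o) rfl ?_)
    exact LR.seq (LR.push .a (Lt.i : Lt N) _) (LR.push .d (Lt.i : Lt N) _)

private theorem uout_reg_mem (l : List ℕ) : ∀ u ∈ (reg l : List (Lt N)), (u != Lt.mk) = true := by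
  intro u hu
  unfold reg at hu
  rw [List.mem_flatMap] at hu
  obtain ⟨g, -, hg⟩ := hu
  unfold blk at hg
  rw [if_neg (Nat.succ_ne_zero g)] at hg
  simp only [List.mem_append, List.mem_replicate, List.mem_singleton] at hg
  rcases hg with ⟨-, h⟩ | h
  · rw [h]
    rfl
  · rw [h]
    rfl

private theorem uout_reg_len {S : ℕ} (l : List (Fin S)) :
    (reg (l.map fun g : Fin S => (g : ℕ)) : List (Lt N)).length ≤ (S + 1) * l.length := by
  induction l with
  | nil => simp [reg]
  | cons g l ih =>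
    rw [List.map_cons, reg_cons]
    simp only [List.length_append, List.length_replicate, List.length_cons]
    have h1 := g.2
    have h2 : (S + 1) * (l.length + 1) = (S + 1) * l.length + (S + 1) := by ring
    omega

/-- the body of the output loop -/
def uoutBody (PO : LP m (Lt N)) : LP m (Lt N) := .seq (take .a .b) (.seq PO uoutRd)

private theorem uout_loop {PO : LP m (Lt N)} {Q : Polynomial ℕ}
    (hPO : ∀ (z : Ctl) (A B C D : List (Lt N)) (ξ : Fin m → List (Lt N)),
      LR PO ⟨bw (code z) ++ .hs :: A, B, C, D, ξ⟩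
        ⟨bw (code (outF z)) ++ .hs :: A, B, C, D, ξ⟩ (Q.eval (size z)))
    (V : NM m) (q : Fin V.Q) (E : ℕ)
    (hE : ∀ g : Fin V.S, Q.eval (size (([(g : ℕ) + 1], udV V q) : Ctl)) ≤ E)
    (A C : List (Lt N)) (X : Fin m → List (Lt N)) :
    ∀ (l : List (Fin V.S)) (D : List (Lt N)),
      LL .b (fun v => v != .mk) (uoutBody PO)
        ⟨bw (code (([], udV V q) : Ctl)) ++ .hs :: A, reg (l.map fun g : Fin V.S => (g : ℕ)) ++ [.mk], C, D, X⟩
        ⟨bw (code (([], udV V q) : Ctl)) ++ .hs :: A, [.mk], C, (bw (l.map V.out)).reverse ++ D, X⟩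
        ((20 * (V.S + 1) + E + 11) * l.length) := by
  intro l
  induction l with
  | nil =>
    intro D
    exact (LL.refl _).mono (by simp)
  | cons g l ih =>
    intro D
    have h1 := take_run (N := N) (h := (.a : Ix m)) (k := .b) (by simp) [] (udV V q)
      ⟨bw (code (([], udV V q) : Ctl)) ++ .hs :: A,
        reg ((g :: l).map fun g : Fin V.S => (g : ℕ)) ++ [.mk], C, D, X⟩
      (.hs :: A) [] ((g :: l).map fun g : Fin V.S => (g : ℕ)) rfl rfl
    have h2 := hPO (([(g : ℕ) + 1], udV V q) : Ctl) A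
      (reg (l.map fun g : Fin V.S => (g : ℕ)) ++ [.mk]) C D X
    rw [outF_eq V q g] at h2
    have h3 := uout_rd (m := m) (N := N) (V.out g) (udV V q) (.hs :: A)
      (reg (l.map fun g : Fin V.S => (g : ℕ)) ++ [.mk]) C D X
    have h4 : LR (uoutBody PO)
        ⟨bw (code (([], udV V q) : Ctl)) ++ .hs :: A,
          reg ((g :: l).map fun g : Fin V.S => (g : ℕ)) ++ [.mk], C, D, X⟩
        ⟨bw (code (([], udV V q) : Ctl)) ++ .hs :: A,
          reg (l.map fun g : Fin V.S => (g : ℕ)) ++ [.mk], C, bt (V.out g) :: D, X⟩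
        (20 * (V.S + 1) + E + 10) := by
      refine (LR.seq h1 (LR.seq h2 h3)).mono ?_
      have h5 := hE g
      have h6 : tp ((g :: l).map fun g : Fin V.S => (g : ℕ)) = (g : ℕ) + 1 := rfl
      have h7 := g.2
      rw [h6]
      omega
    have h8 : (⟨bw (code (([], udV V q) : Ctl)) ++ .hs :: A,
          reg ((g :: l).map fun g : Fin V.S => (g : ℕ)) ++ [.mk], C, D, X⟩ : Sta m (Lt N)).get .b =
        .i :: (List.replicate (g : ℕ) .i ++ .hs :: reg (l.map fun g : Fin V.S => (g : ℕ)) ++ [.mk]) := by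
      show reg ((g :: l).map fun g : Fin V.S => (g : ℕ)) ++ [.mk] = _
      rw [List.map_cons, reg_cons, List.replicate_succ]
      simp
    have h9 := (LL.step (p := fun v => v != Lt.mk) h8 rfl h4).trans (ih (bt (V.out g) :: D))
    have e1 : (bw ((g :: l).map V.out)).reverse ++ D =
        (bw (l.map V.out)).reverse ++ bt (V.out g) :: D := by
      simp [bw]
    rw [e1]
    refine h9.mono ?_
    rw [List.length_cons]
    have h10 : (20 * (V.S + 1) + E + 11) * (l.length + 1) =
      (20 * (V.S + 1) + E + 11) * l.length + (20 * (V.S + 1) + E + 11) := by ring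
    omega

private theorem uout_bw_isB (w : List Bool) : ∀ u ∈ (bw w : List (Lt N)), isB u = true := by
  intro u hu
  unfold bw at hu
  rw [List.mem_map] at hu
  obtain ⟨b, -, rfl⟩ := hu
  exact isB_bt b

/-- the end of the universal program -/
def uoutProg (PO : LP m (Lt N)) : LP m (Lt N) :=
  .seq (pop1 .a) (.seq (del .c fun v => v != .mk) (.seq (del .d fun v => v != .mk)
    (.seq (delX fun v => v != .mk) (.seq (pushX .mk) (.seq (cmv .a .c)
      (.seq (del .a fun v => v != .mk) (.seq (cmv .c .a)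
        (.seq (.loop .b (fun v => v != .mk) (uoutBody PO)) (.seq (del .a isB)
          (.seq (pop1 .a) (mv .d .b isB id)))))))))))

private theorem uout_run' {PO : LP m (Lt N)} {Q : Polynomial ℕ}
    (hPO : ∀ (z : Ctl) (A B C D : List (Lt N)) (ξ : Fin m → List (Lt N)),
      LR PO ⟨bw (code z) ++ .hs :: A, B, C, D, ξ⟩
        ⟨bw (code (outF z)) ++ .hs :: A, B, C, D, ξ⟩ (Q.eval (size z)))
    (V : NM m) (q : Fin V.Q) (E W : ℕ)
    (hE : ∀ g : Fin V.S, Q.eval (size (([(g : ℕ) + 1], udV V q) : Ctl)) ≤ E)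
    (hW : (code (([], udV V q) : Ctl)).length ≤ W) (s : Sta m (Fin V.S)) (fl : Lt N) :
    LR (uoutProg PO)
      ((ust (code (([], udV V q) : Ctl)) (s.map fun g : Fin V.S => (g : ℕ))).set .a
        (fl :: (ust (code (([], udV V q) : Ctl)) (s.map fun g : Fin V.S => (g : ℕ))).a))
      (sOut (s.b.map V.out))
      ((3 * (V.S + 1) + (20 * (V.S + 1) + E + 11) + 3 + (4 * m + 43 * W + 60)) * (s.tot + 1)) := by
  obtain ⟨w, hw⟩ : ∃ w, w = code (([], udV V q) : Ctl) := ⟨_, rfl⟩
  obtain ⟨f, hf⟩ : ∃ f : List (Fin V.S) → List (Lt N), f = fun l => reg (l.map fun g : Fin V.S => (g : ℕ)) :=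
    ⟨_, rfl⟩
  have hfm : ∀ l, ∀ u ∈ f l, (u != Lt.mk) = true := by
    intro l
    rw [hf]
    exact uout_reg_mem _
  have hfl : ∀ l, (f l).length ≤ (V.S + 1) * l.length := by
    intro l
    rw [hf]
    exact uout_reg_len l
  have hmk : ((Lt.mk : Lt N) != Lt.mk) = false := by simp
  have h0 : (ust (code (([], udV V q) : Ctl)) (s.map fun g : Fin V.S => (g : ℕ)) : Sta m (Lt N)).set .a
        (fl :: (ust (code (([], udV V q) : Ctl)) (s.map fun g : Fin V.S => (g : ℕ))).a) =
      ⟨fl :: (bw w ++ .hs :: (f s.a ++ [.mk])), f s.b ++ [.mk], f s.c ++ [.mk], f s.d ++ [.mk],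
        fun i => f (s.x i) ++ [.mk]⟩ := by
    rw [hw, hf]
    rfl
  rw [h0]
  rw [← hw] at hW
  -- the steps
  have s1 : LR (pop1 .a : LP m (Lt N))
      ⟨fl :: (bw w ++ .hs :: (f s.a ++ [.mk])), f s.b ++ [.mk], f s.c ++ [.mk], f s.d ++ [.mk],
        fun i => f (s.x i) ++ [.mk]⟩
      ⟨bw w ++ .hs :: (f s.a ++ [.mk]), f s.b ++ [.mk], f s.c ++ [.mk], f s.d ++ [.mk],
        fun i => f (s.x i) ++ [.mk]⟩ 2 := pop1_run (k := .a) (v := fl) rfl
  have s2 : LR (del .c (fun v => v != .mk) : LP m (Lt N))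
      ⟨bw w ++ .hs :: (f s.a ++ [.mk]), f s.b ++ [.mk], f s.c ++ [.mk], f s.d ++ [.mk],
        fun i => f (s.x i) ++ [.mk]⟩
      ⟨bw w ++ .hs :: (f s.a ++ [.mk]), f s.b ++ [.mk], [.mk], f s.d ++ [.mk],
        fun i => f (s.x i) ++ [.mk]⟩ (3 * (f s.c).length + 1) :=
    del_run (k := .c) (v := .mk) (r := []) rfl (hfm s.c) hmk
  have s3 : LR (del .d (fun v => v != .mk) : LP m (Lt N))
      ⟨bw w ++ .hs :: (f s.a ++ [.mk]), f s.b ++ [.mk], [.mk], f s.d ++ [.mk],
        fun i => f (s.x i) ++ [.mk]⟩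
      ⟨bw w ++ .hs :: (f s.a ++ [.mk]), f s.b ++ [.mk], [.mk], [.mk],
        fun i => f (s.x i) ++ [.mk]⟩ (3 * (f s.d).length + 1) :=
    del_run (k := .d) (v := .mk) (r := []) rfl (hfm s.d) hmk
  have s4 : LR (delX (fun v => v != .mk) : LP m (Lt N))
      ⟨bw w ++ .hs :: (f s.a ++ [.mk]), f s.b ++ [.mk], [.mk], [.mk],
        fun i => f (s.x i) ++ [.mk]⟩
      ⟨bw w ++ .hs :: (f s.a ++ [.mk]), f s.b ++ [.mk], [.mk], [.mk], fun _ => []⟩
      (3 * ∑ i, (f (s.x i)).length + 3 * m + 1) :=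
    delX_run (v := .mk) hmk _ _ _ _ (fun i => f (s.x i)) (fun _ => []) (fun i => hfm (s.x i))
  have s5 : LR (pushX .mk : LP m (Lt N))
      ⟨bw w ++ .hs :: (f s.a ++ [.mk]), f s.b ++ [.mk], [.mk], [.mk], fun _ => []⟩
      ⟨bw w ++ .hs :: (f s.a ++ [.mk]), f s.b ++ [.mk], [.mk], [.mk], fun _ => [.mk]⟩ (m + 1) :=
    pushX_run (Lt.mk : Lt N) _ _ _ _ _
  have s6 : LR (cmv .a .c : LP m (Lt N))
      ⟨bw w ++ .hs :: (f s.a ++ [.mk]), f s.b ++ [.mk], [.mk], [.mk], fun _ => [.mk]⟩
      ⟨f s.a ++ [.mk], f s.b ++ [.mk], bw w ++ .hs :: [.mk], [.mk], fun _ => [.mk]⟩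
      (20 * (w.length + 1)) :=
    cmv_run (h := .a) (k := .c) (by simp) (by simp) (by simp) w _ (f s.a ++ [.mk]) rfl
  have s7 : LR (del .a (fun v => v != .mk) : LP m (Lt N))
      ⟨f s.a ++ [.mk], f s.b ++ [.mk], bw w ++ .hs :: [.mk], [.mk], fun _ => [.mk]⟩
      ⟨[.mk], f s.b ++ [.mk], bw w ++ .hs :: [.mk], [.mk], fun _ => [.mk]⟩
      (3 * (f s.a).length + 1) :=
    del_run (k := .a) (v := .mk) (r := []) rfl (hfm s.a) hmk
  have s8 : LR (cmv .c .a : LP m (Lt N))
      ⟨[.mk], f s.b ++ [.mk], bw w ++ .hs :: [.mk], [.mk], fun _ => [.mk]⟩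
      ⟨bw w ++ .hs :: [.mk], f s.b ++ [.mk], [.mk], [.mk], fun _ => [.mk]⟩
      (20 * (w.length + 1)) :=
    cmv_run (h := .c) (k := .a) (by simp) (by simp) (by simp) w _ [.mk] rfl
  have s9 : LR (.loop .b (fun v => v != .mk) (uoutBody PO) : LP m (Lt N))
      ⟨bw w ++ .hs :: [.mk], f s.b ++ [.mk], [.mk], [.mk], fun _ => [.mk]⟩
      ⟨bw w ++ .hs :: [.mk], [.mk], [.mk], (bw (s.b.map V.out)).reverse ++ [.mk], fun _ => [.mk]⟩
      ((20 * (V.S + 1) + E + 11) * s.b.length + 1) := by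
    have h := uout_loop hPO V q E hE [.mk] [.mk] (fun _ => [.mk]) s.b [.mk]
    rw [← hw] at h
    rw [hf]
    exact h.finish (v := .mk) (l := []) rfl hmk
  have s10 : LR (del .a isB : LP m (Lt N))
      ⟨bw w ++ .hs :: [.mk], [.mk], [.mk], (bw (s.b.map V.out)).reverse ++ [.mk], fun _ => [.mk]⟩
      ⟨.hs :: [.mk], [.mk], [.mk], (bw (s.b.map V.out)).reverse ++ [.mk], fun _ => [.mk]⟩
      (3 * (bw w : List (Lt N)).length + 1) :=
    del_run (k := .a) (v := .hs) (r := [.mk]) rfl (uout_bw_isB w) rfl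
  have s11 : LR (pop1 .a : LP m (Lt N))
      ⟨.hs :: [.mk], [.mk], [.mk], (bw (s.b.map V.out)).reverse ++ [.mk], fun _ => [.mk]⟩
      ⟨[.mk], [.mk], [.mk], (bw (s.b.map V.out)).reverse ++ [.mk], fun _ => [.mk]⟩ 2 :=
    pop1_run (k := .a) (v := .hs) rfl
  have s12 : LR (mv .d .b isB id : LP m (Lt N))
      ⟨[.mk], [.mk], [.mk], (bw (s.b.map V.out)).reverse ++ [.mk], fun _ => [.mk]⟩
      (sOut (s.b.map V.out)) (3 * (bw (s.b.map V.out) : List (Lt N)).reverse.length + 1) := by
    have h := mv_run (k := (.d : Ix m)) (k' := .b) (by simp) (p := isB) id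
      (s := ⟨[.mk], [.mk], [.mk], (bw (s.b.map V.out)).reverse ++ [.mk], fun _ => [.mk]⟩)
      (l := (bw (s.b.map V.out) : List (Lt N)).reverse) (v := .mk) (r := []) rfl
      (fun u hu => uout_bw_isB _ u (List.mem_reverse.1 hu)) rfl
    rw [List.map_id, List.reverse_reverse] at h
    exact h
  refine (s1.seq (s2.seq (s3.seq (s4.seq (s5.seq (s6.seq (s7.seq (s8.seq (s9.seq (s10.seq
    (s11.seq s12))))))))))).mono ?_
  have l1 := hfl s.a
  have l3 := hfl s.c
  have l4 := hfl s.d
  have l5 : ∑ i, (f (s.x i)).length ≤ (V.S + 1) * ∑ i, (s.x i).length := by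
    rw [Finset.mul_sum]
    exact Finset.sum_le_sum fun i _ => hfl (s.x i)
  have l6 : (bw w : List (Lt N)).length = w.length := by simp [bw]
  have l7 : (bw (s.b.map V.out) : List (Lt N)).reverse.length = s.b.length := by simp [bw]
  rw [l6, l7]
  have l8 : s.tot = s.a.length + s.b.length + s.c.length + s.d.length + ∑ i, (s.x i).length := rfl
  obtain ⟨σ, hσ⟩ : ∃ σ, σ = ∑ i, (s.x i).length := ⟨_, rfl⟩
  rw [← hσ] at l5 l8
  rw [l8]
  obtain ⟨K, hK⟩ : ∃ K, K = 20 * (V.S + 1) + E + 11 := ⟨_, rfl⟩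
  rw [← hK]
  obtain ⟨T, hT⟩ : ∃ T, T = V.S + 1 := ⟨_, rfl⟩
  rw [← hT] at l1 l3 l4 l5 ⊢
  have e1 : (3 * T + K + 3 + (4 * m + 43 * W + 60)) *
      (s.a.length + s.b.length + s.c.length + s.d.length + σ + 1) =
      3 * (T * s.a.length) + 3 * (T * s.b.length) + 3 * (T * s.c.length) + 3 * (T * s.d.length) +
      3 * (T * σ) + K * s.b.length + 3 * s.b.length + (4 * m + 43 * W + 60) +
      (3 * T + K + 3) + ((K + 3) * (s.a.length + s.c.length + s.d.length + σ) +
        (4 * m + 43 * W + 60) * (s.a.length + s.b.length + s.c.length + s.d.length + σ)) := by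
    ring
  rw [e1]
  generalize T * s.a.length = a1 at *
  generalize T * s.b.length = a2 at *
  generalize T * s.c.length = a3 at *
  generalize T * s.d.length = a4 at *
  generalize T * σ = a5 at *
  generalize K * s.b.length = a6 at *
  generalize (K + 3) * (s.a.length + s.c.length + s.d.length + σ) = a7
  generalize (4 * m + 43 * W + 60) * (s.a.length + s.b.length + s.c.length + s.d.length + σ) = a8
  omega

theorem uout_run {PO : LP m (Lt N)} {Q : Polynomial ℕ}
    (hPO : ∀ (z : Ctl) (A B C D : List (Lt N)) (ξ : Fin m → List (Lt N)),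
      LR PO ⟨bw (code z) ++ .hs :: A, B, C, D, ξ⟩
        ⟨bw (code (outF z)) ++ .hs :: A, B, C, D, ξ⟩ (Q.eval (size z))) :
    ∃ P : LP m (Lt N), ∀ V : NM m, V.ko = .b → ∃ C : ℕ, ∀ c : NC V, V.hal c →
      LR P (ucf V c) (sOut ((c.2.get V.ko).map V.out)) (C * (c.2.tot + 1)) := by
  refine ⟨uoutProg PO, fun V hV => ?_⟩
  obtain ⟨E, hE⟩ : ∃ E : ℕ, ∀ (q : Fin V.Q) (g : Fin V.S),
      Q.eval (size (([(g : ℕ) + 1], udV V q) : Ctl)) ≤ E :=
    ⟨Finset.univ.sup fun p : Fin V.Q × Fin V.S => Q.eval (size (([(p.2 : ℕ) + 1], udV V p.1) : Ctl)),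
      fun q g => Finset.le_sup (f := fun p : Fin V.Q × Fin V.S =>
        Q.eval (size (([(p.2 : ℕ) + 1], udV V p.1) : Ctl))) (Finset.mem_univ (q, g))⟩
  obtain ⟨W, hW⟩ : ∃ W : ℕ, ∀ q : Fin V.Q, (code (([], udV V q) : Ctl)).length ≤ W :=
    ⟨Finset.univ.sup fun q : Fin V.Q => (code (([], udV V q) : Ctl)).length,
      fun q => Finset.le_sup (f := fun q : Fin V.Q => (code (([], udV V q) : Ctl)).length)
        (Finset.mem_univ q)⟩
  refine ⟨3 * (V.S + 1) + (20 * (V.S + 1) + E + 11) + 3 + (4 * m + 43 * W + 60), fun c hc => ?_⟩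
  rw [hV]
  unfold ucf
  exact uout_run' hPO V c.1 E W (hE c.1) (hW c.1) c.2 _

private theorem uout_tot_set {A : Type} (s : Sta m A) (k : Ix m) (l : List A) :
    (s.set k l).tot + (s.get k).length = s.tot + l.length := by
  cases k with
  | a =>
    simp only [Sta.tot, Sta.set, Sta.get]
    omega
  | b =>
    simp only [Sta.tot, Sta.set, Sta.get]
    omega
  | c =>
    simp only [Sta.tot, Sta.set, Sta.get]
    omega
  | d =>
    simp only [Sta.tot, Sta.set, Sta.get]
    omega
  | x i =>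
    simp only [Sta.tot, Sta.set, Sta.get]
    have h1 := Finset.add_sum_erase Finset.univ (fun j => (s.x j).length) (Finset.mem_univ i)
    have h2 := Finset.add_sum_erase Finset.univ (fun j => (Function.update s.x i l j).length)
      (Finset.mem_univ i)
    have h3 : ∑ j ∈ Finset.univ.erase i, (Function.update s.x i l j).length =
        ∑ j ∈ Finset.univ.erase i, (s.x j).length := by
      refine Finset.sum_congr rfl fun j hj => ?_
      rw [Function.update_of_ne (Finset.ne_of_mem_erase hj)]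
    rw [h3, Function.update_self] at h2
    omega

/-- the number of symbols grows by at most one in every step -/
theorem tot_step_le (V : NM m) (c : NC V) : (V.step c).2.tot ≤ c.2.tot + 1 := by
  unfold NM.step
  split
  · rename_i k g q' _
    have h := uout_tot_set c.2 k (g :: c.2.get k)
    rw [List.length_cons] at h
    show (c.2.set k (g :: c.2.get k)).tot ≤ _
    omega
  · rename_i k f _
    have h := uout_tot_set c.2 k (c.2.get k).tail
    rw [List.length_tail] at h
    show (c.2.set k (c.2.get k).tail).tot ≤ _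
    omega
  · exact Nat.le_succ _
  · exact Nat.le_succ _

end Pool.Agent.Lib.MP_33f9c4_lc.TT
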