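import Pool.Agent.Lib.MP_33f9c4_lc.T.UIn
import Pool.Agent.Lib.MP_33f9c4_lc.T.UOut
import Pool.Agent.Lib.MP_33f9c4_lc.T.ULen
import Pool.Agent.Lib.MP_33f9c4_lc.T.Mach

set_option autoImplicit false

/-!
MODULE UFin. There is a universal machine with at most `m + 4` stacks and with linear-time simulation of all machines
with at most `m + 4` stacks.

Choose `N` larger than the four bounds of `few_ptc` (for `locF m`, `inpF`, `outF`, `finF`), one polynomial (sum). The universal program is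
`uin`, main loop, `uout`; `lp_machine` gives the machine `U`. For a machine `M` in the class: `nm_of_machine` (`ko = b`), `s = c (t + 1)`:
total time at most `C (|d| + s + 1)`, `|d| ≤ C' t` (ULen), `|x| ≤ s`, `1 ≤ t`. Description: `dbl (code ([], udV V V.q0)) ++ d`. `Outputs.mono` (Kt.lean).
-/

namespace Pool.Agent.Lib.MP_33f9c4_lc.TT

open Pool.Agent.Lib.PolyTime

variable {m : ℕ}

/-- `U` is universal for the class, with linear-time simulation. -/
def LinUnivT (m : ℕ) (U : Machine) : Prop :=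
  ∀ M : Machine, Cls m M → ∃ c : ℕ, ∀ (d x : List Bool) (t : ℕ), Outputs M d x t →
    ∃ d' : List Bool, d'.length ≤ d.length + c ∧ Outputs U d' x (c * t)

private theorem ufin_mono {M : Machine} {d x : List Bool} {t t' : ℕ} (h : Outputs M d x t)
    (ht : t ≤ t') : Outputs M d x t' := by
  obtain ⟨h⟩ := h
  exact ⟨{ steps := h.steps, evals_in_steps := h.evals_in_steps
           steps_le_m := h.steps_le_m.trans ht }⟩

private theorem ufin_tot (V : NM m) (c : NC V) (s : ℕ) :
    (V.step^[s] c).2.tot ≤ c.2.tot + s := by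
  induction s with
  | zero => exact le_rfl
  | succ s ih =>
    rw [Function.iterate_succ_apply']
    exact (tot_step_le V _).trans (by omega)

private theorem ufin_init (V : NM m) (d : List Bool) : (V.init d).2.tot = d.length := by
  unfold NM.init Sta.tot
  simp

private theorem ufin_get {A : Type} (s : Sta m A) (k : Ix m) : (s.get k).length ≤ s.tot := by
  unfold Sta.tot
  cases k with
  | a => show s.a.length ≤ _; omega
  | b => show s.b.length ≤ _; omega
  | c => show s.c.length ≤ _; omega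
  | d => show s.d.length ≤ _; omega
  | x i =>
    have h := Finset.single_le_sum (f := fun i => (s.x i).length) (fun _ _ => Nat.zero_le _)
      (Finset.mem_univ i)
    show (s.x i).length ≤ _
    have h' : (s.x i).length ≤ ∑ i, (s.x i).length := h
    omega

theorem exists_linUnivT (m : ℕ) : ∃ U : Machine, Cls m U ∧ LinUnivT m U := by
  obtain ⟨N1, h1⟩ := few_ptc (m := m) (pt_locF m)
  obtain ⟨N2, h2⟩ := few_ptc (m := m) pt_inpF
  obtain ⟨N3, h3⟩ := few_ptc (m := m) pt_outF
  obtain ⟨N4, h4⟩ := few_ptc (m := m) pt_finF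
  obtain ⟨N, hN⟩ : ∃ N, N = N1 + N2 + N3 + N4 := ⟨_, rfl⟩
  obtain ⟨PL, QL, hL⟩ := h1 N (by omega)
  obtain ⟨PI, QI, hI⟩ := h2 N (by omega)
  obtain ⟨PO, QO, hO⟩ := h3 N (by omega)
  obtain ⟨PF, QF, hF⟩ := h4 N (by omega)
  obtain ⟨P1, hP1⟩ := uin_run (PI := PI) (PF := PF) (Q := QI + QF)
    (fun z A B C D ξ => (hI z A B C D ξ).mono (by
      rw [Polynomial.eval_add]
      exact Nat.le_add_right _ _))
    (fun z A B C D ξ => (hF z A B C D ξ).mono (by
      rw [Polynomial.eval_add]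
      exact Nat.le_add_left _ _))
  obtain ⟨P3, hP3⟩ := uout_run (PO := PO) (Q := QO) hO
  obtain ⟨U, Cu, hU, hUo⟩ := lp_machine (.seq P1 (.seq (.loop .a (· == .re) (ubody PL)) P3))
  refine ⟨U, hU, fun M hM => ?_⟩
  obtain ⟨V, c0, hko, hV⟩ := nm_of_machine M hM.1
  obtain ⟨C1, hC1⟩ := hP1 V
  obtain ⟨C2, hC2⟩ := uloop_run hL V
  obtain ⟨C3, hC3⟩ := hP3 V (hko hM.2)
  obtain ⟨CL, hCL⟩ := outputs_length M hM.2
  obtain ⟨L0, hL0⟩ : ∃ L0, L0 = (dbl (code (([], udV V V.q0) : Ctl))).length := ⟨_, rfl⟩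
  refine ⟨L0 + Cu * (C1 * (CL + 1) + C2 * (2 * c0 + 1) + C3 * (CL + 2 * c0 + 1) + L0 + CL +
    (CL + 2 * c0) + 1), fun d x t hd => ?_⟩
  obtain ⟨s, hs⟩ : ∃ s, s = c0 * (t + 1) := ⟨_, rfl⟩
  obtain ⟨hhal, hval⟩ := hV d x t hd s hs.ge
  have ht := outputs_pos M hd
  have hdl := hCL d x t hd
  have hst : s ≤ 2 * c0 * t := by
    rw [hs]
    calc c0 * (t + 1) ≤ c0 * (2 * t) := Nat.mul_le_mul_left _ (by omega)
      _ = 2 * c0 * t := by ring
  have htot : (V.step^[s] (V.init d)).2.tot ≤ d.length + s := by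
    rw [← ufin_init V d]
    exact ufin_tot V _ s
  have k1 := hC1 d
  have k2 := hC2 (V.init d) s hhal
  have k3 := hC3 (V.step^[s] (V.init d)) hhal
  have hx : ((V.step^[s] (V.init d)).2.get V.ko).map V.out = x := hval
  rw [hx] at k3
  have hxl : x.length ≤ d.length + s := by
    rw [← hx, List.length_map]
    exact (ufin_get _ _).trans htot
  obtain ⟨r, hr, hrun⟩ := k1.seq (k2.seq k3)
  refine ⟨dbl (code (([], udV V V.q0) : Ctl)) ++ d, ?_, ?_⟩
  · rw [List.length_append, ← hL0]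
    exact (Nat.add_comm _ _).le.trans (Nat.add_le_add_left (Nat.le_add_right _ _) _)
  · refine ufin_mono (hUo _ x r hrun) ?_
    rw [List.length_append, ← hL0]
    have e1 : r ≤ C1 * ((CL + 1) * t) + (C2 * ((2 * c0 + 1) * t) +
        C3 * ((CL + 2 * c0 + 1) * t)) := by
      refine hr.trans (Nat.add_le_add (Nat.mul_le_mul_left _ ?_) (Nat.add_le_add
        (Nat.mul_le_mul_left _ ?_) (Nat.mul_le_mul_left _ ?_)))
      · rw [add_mul]; omega
      · rw [add_mul]; omega
      · rw [add_mul, add_mul]; omega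
    have e2 : L0 ≤ L0 * t := Nat.le_mul_of_pos_right _ ht
    have e3 : r + (L0 + d.length) + x.length + 1 ≤ (C1 * (CL + 1) + C2 * (2 * c0 + 1) +
        C3 * (CL + 2 * c0 + 1) + L0 + CL + (CL + 2 * c0) + 1) * t := by
      have e4 : (C1 * (CL + 1) + C2 * (2 * c0 + 1) + C3 * (CL + 2 * c0 + 1) + L0 + CL +
          (CL + 2 * c0) + 1) * t = (C1 * ((CL + 1) * t) + (C2 * ((2 * c0 + 1) * t) +
          C3 * ((CL + 2 * c0 + 1) * t))) + L0 * t + CL * t + (CL * t + 2 * c0 * t) + t := by ring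
      rw [e4]
      omega
    calc Cu * (r + (L0 + d.length) + x.length + 1) ≤ Cu * ((C1 * (CL + 1) + C2 * (2 * c0 + 1) +
        C3 * (CL + 2 * c0 + 1) + L0 + CL + (CL + 2 * c0) + 1) * t) := Nat.mul_le_mul_left _ e3
      _ ≤ (L0 + Cu * (C1 * (CL + 1) + C2 * (2 * c0 + 1) + C3 * (CL + 2 * c0 + 1) + L0 + CL +
        (CL + 2 * c0) + 1)) * t := by
        rw [add_mul L0, mul_assoc Cu]
        exact Nat.le_add_left _ _

end Pool.Agent.Lib.MP_33f9c4_lc.TT
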