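import Pool.Agent.Lib.MP_33f9c4_lc.T.FinG
import Pool.Agent.Lib.MP_33f9c4_lc.T.UFin
import Pool.Agent.Lib.MP_33f9c4_lc.Kt

set_option autoImplicit false

/-!
# The set of Levin-random strings is not in P (Turing machines, general form)
-/

namespace Pool.Agent.Lib.MP_33f9c4_lc.TT

open Pool.Agent.Lib.PolyTime

variable {m : ℕ}

/-- `Kt U x` is at most the value given by any description. -/
theorem kt_le_of_outputs {U : Machine} {d x : List Bool} {t : ℕ} (h : Outputs U d x t) :
    Kt U x ≤ d.length + Real.logb 2 t := by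
  refine csInf_le ⟨0, ?_⟩ ⟨d, t, h, rfl⟩
  rintro v ⟨d, t, -, rfl⟩
  have h1 : 0 ≤ Real.logb 2 (t : ℝ) := by
    rcases Nat.eq_zero_or_pos t with rfl | ht
    · simp
    · exact Real.logb_nonneg (by norm_num) (by exact_mod_cast ht)
  positivity

/-- A universal machine with linear-time simulation is optimal. -/
theorem optimalT_of_linUnivT {U : Machine} (hU : LinUnivT m U) : OptimalT m U := by
  intro M hM
  obtain ⟨c, hc⟩ := hU M hM
  refine ⟨c + Real.logb 2 (c + 1), fun d x t h => ?_⟩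
  obtain ⟨d', h1, h2⟩ := hc d x t h
  refine ⟨⟨d', _, h2⟩, (kt_le_of_outputs h2).trans ?_⟩
  have h3 : Real.logb 2 ((c * t : ℕ) : ℝ) ≤ Real.logb 2 t + Real.logb 2 (c + 1) := by
    rcases Nat.eq_zero_or_pos (c * t) with h0 | h0
    · rw [h0]
      have e1 : 0 ≤ Real.logb 2 (t : ℝ) := by
        rcases Nat.eq_zero_or_pos t with rfl | ht
        · simp
        · exact Real.logb_nonneg (by norm_num) (by exact_mod_cast ht)
      have e2 : 0 ≤ Real.logb 2 ((c : ℝ) + 1) := Real.logb_nonneg (by norm_num) (by simp)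
      simp only [Nat.cast_zero, Real.logb_zero]
      linarith
    · have ht : 0 < t := Nat.pos_of_mul_pos_left h0
      have hc0 : 0 < c := Nat.pos_of_mul_pos_right h0
      have ht' : (0 : ℝ) < t := by exact_mod_cast ht
      have hc' : (0 : ℝ) < c := by exact_mod_cast hc0
      push_cast
      rw [Real.logb_mul hc'.ne' ht'.ne', add_comm]
      have := Real.logb_le_logb_of_le (b := 2) (by norm_num) hc' (by linarith : (c : ℝ) ≤ c + 1)
      linarith
  have h4 : (d'.length : ℝ) ≤ d.length + c := by exact_mod_cast h1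
  have h5 : 0 ≤ Real.logb 2 ((x.length : ℝ) + 1) / 50 := by
    refine div_nonneg (Real.logb_nonneg (by norm_num) ?_) (by norm_num)
    have : (0 : ℝ) ≤ x.length := by positivity
    linarith
  linarith

/-- A polynomial in `2 ^ (132 g)` is less than `2 ^ 2 ^ g`. -/
theorem poly_lt (Q : Polynomial ℕ) : ∃ g₁ : ℕ, ∀ g, g₁ ≤ g →
    Q.eval (2 ^ (132 * g)) ≤ 2 ^ 2 ^ g := by
  obtain ⟨C, hC⟩ := LK.VCost_poly Q
  -- `C + (132 g + 1) C ≤ 2 ^ g`
  have key : ∀ k : ℕ, C + (132 * (k + (C + 20)) + 1) * C ≤ 2 ^ (k + (C + 20)) := by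
    intro k
    have h1 : C < 2 ^ C := Nat.lt_two_pow_self
    induction k with
    | zero =>
      have e : 2 ^ (0 + (C + 20)) = 2 ^ C * 2 ^ 20 := by rw [← pow_add]; congr 1; omega
      rw [e]
      have h2 : C + (132 * (0 + (C + 20)) + 1) * C ≤ (132 * C + 2642) * C := by nlinarith
      refine h2.trans ?_
      -- `(132 C + 2642) C ≤ 2 ^ C * 2 ^ 20`
      have h3 : (132 * C + 2642) * C ≤ 2774 * C ^ 2 := by
        rcases Nat.eq_zero_or_pos C with h0 | h0
        · rw [h0]; norm_num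
        · nlinarith
      have h4 : ∀ j : ℕ, j ^ 2 ≤ 4 * 2 ^ j := by
        intro j
        induction j with
        | zero => norm_num
        | succ j ih =>
          rw [pow_succ 2 j]
          rcases Nat.lt_or_ge j 3 with hj | hj
          · interval_cases j <;> norm_num
          · nlinarith
      have h5 := h4 C
      have h6 : (2 : ℕ) ^ 20 = 1048576 := by norm_num
      rw [h6]
      nlinarith
    | succ k ih =>
      have e : 2 ^ (k + 1 + (C + 20)) = 2 ^ (k + (C + 20)) + 2 ^ (k + (C + 20)) := by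
        rw [show k + 1 + (C + 20) = (k + (C + 20)) + 1 by omega, pow_succ]
        ring
      rw [e]
      have h2 : 132 * C ≤ 2 ^ (k + (C + 20)) := by
        calc 132 * C ≤ 2 ^ 20 * 2 ^ C := Nat.mul_le_mul (by norm_num) h1.le
          _ = 2 ^ (20 + C) := by rw [← pow_add]
          _ ≤ _ := Nat.pow_le_pow_right (by norm_num) (by omega)
      have h3 : C + (132 * (k + 1 + (C + 20)) + 1) * C =
          C + (132 * (k + (C + 20)) + 1) * C + 132 * C := by ring
      rw [h3]
      omega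
  refine ⟨C + 20, fun g hg => (hC _).trans ?_⟩
  have h1 : 2 ^ (132 * g) + 2 ≤ 2 ^ (132 * g + 1) := by
    rw [pow_succ]
    have : 2 ^ 1 ≤ 2 ^ (132 * g) := Nat.pow_le_pow_right (by norm_num) (by omega)
    omega
  calc 2 ^ C * (2 ^ (132 * g) + 2) ^ C ≤ 2 ^ C * (2 ^ (132 * g + 1)) ^ C :=
        Nat.mul_le_mul_left _ (Nat.pow_le_pow_left h1 C)
    _ = 2 ^ (C + (132 * g + 1) * C) := by rw [← pow_mul, ← pow_add]
    _ ≤ 2 ^ 2 ^ g := by
        refine Nat.pow_le_pow_right (by norm_num) ?_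
        have h2 := key (g - (C + 20))
        have e : g - (C + 20) + (C + 20) = g := by omega
        rwa [e] at h2

/-- From the quantitative form to `P`. -/
theorem not_inP_of {U : Machine} (h : ∀ M : Machine, ∃ g₀ : ℕ, ∀ g, g₀ ≤ g → ∃ x : List Bool,
    x.length = 2 ^ (132 * g) ∧
      ∀ b : Bool, (b = true ↔ x ∈ RKt U) → ¬ Outputs M x [b] (2 ^ 2 ^ g)) :
    ¬ InP (RKt U) := by
  classical
  rintro ⟨F⟩
  obtain ⟨g₀, hg₀⟩ := h F.toTM2ComputableAux
  obtain ⟨g₁, hg₁⟩ := poly_lt F.time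
  obtain ⟨x, hx, hn⟩ := hg₀ (g₀ + g₁) (by omega)
  refine hn (decide (x ∈ RKt U)) (by simp) ?_
  have h1 : Outputs F.toTM2ComputableAux x [decide (x ∈ RKt U)] (F.time.eval x.length) :=
    ⟨F.outputsFun x⟩
  refine h1.mono ?_
  rw [hx]
  exact hg₁ _ (by omega)

end Pool.Agent.Lib.MP_33f9c4_lc.TT
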