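import Pool.Agent.Lib.MP_33f9c4_lc.T.Mac

set_option autoImplicit false

/-!
MODULE Pow. Powers of two in unary; unpacking of words of three-bit codes.

POW: `1^e hs α` on `a`: move `1^e` to `c` (push `hs` on `c` first), push `i` on `a` (above `hs`: `1^1`); loop on `c` while top = `i`: pop it; double: push `hs` on `b`, move
`1^k` from `a` to `b`, move back each letter as two letters (`mv2` needs different targets; write the loop `pop .b (fun _ => seq (push .a i)
(push .a i))`), pop `hs` of `b`. In the end pop `hs` of `c`. Cost `∑ 2^i`.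
UNP: loop on `a` while the top is a bit: pop three letters `u v w`, push the letter `let3 (vb u) (vb v) (vb w)` on `d`. In the end pop `hs`.
-/

namespace Pool.Agent.Lib.MP_33f9c4_lc.TT

variable {m N : ℕ}

private def powI : Lt N → Bool
  | .i => true
  | _ => false

private def powD : LP m (Lt N) :=
  .seq (.push .b .hs) (.seq (mv .a .b powI id) (.seq
    (.loop .b powI (.pop .b fun _ => .seq (.push .a .i) (.push .a .i))) (pop1 .b)))

private theorem pow_rep (n : ℕ) (a : List (Lt N)) :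
    List.replicate (n + 1) Lt.i ++ a = List.replicate n Lt.i ++ .i :: a := by
  rw [List.replicate_succ', List.append_assoc]
  rfl

private theorem powD_loop (β γ δ : List (Lt N)) (ξ : Fin m → List (Lt N)) :
    ∀ (k : ℕ) (a : List (Lt N)),
    LL .b powI (.pop .b fun _ => .seq (.push .a .i) (.push .a .i))
      (⟨a, List.replicate k Lt.i ++ .hs :: β, γ, δ, ξ⟩ : Sta m (Lt N))
      ⟨List.replicate (2 * k) Lt.i ++ a, .hs :: β, γ, δ, ξ⟩ (4 * k) := by
  intro k
  induction k with
  | zero =>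
    intro a
    exact LL.refl _
  | succ k ih =>
    intro a
    have h1 : LL .b powI (.pop .b fun _ => .seq (.push .a .i) (.push .a .i))
        (⟨a, List.replicate (k + 1) Lt.i ++ .hs :: β, γ, δ, ξ⟩ : Sta m (Lt N))
        ⟨.i :: .i :: a, List.replicate k Lt.i ++ .hs :: β, γ, δ, ξ⟩ (1 + 1 + 1 + 1) :=
      LL.step (v := .i) (l := List.replicate k Lt.i ++ .hs :: β) rfl rfl
        (LR.pop (v := .i) (l := List.replicate k Lt.i ++ .hs :: β) rfl
          (LR.seq (LR.push _ _ _) (LR.push _ _ _)))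
    have h2 := ih (.i :: .i :: a)
    rw [← pow_rep, ← pow_rep] at h2
    exact (h1.trans h2).mono (by omega)

private theorem powD_run (k : ℕ) (α β γ δ : List (Lt N)) (ξ : Fin m → List (Lt N)) :
    LR powD (⟨List.replicate k Lt.i ++ .hs :: α, β, γ, δ, ξ⟩ : Sta m (Lt N))
      ⟨List.replicate (2 * k) Lt.i ++ .hs :: α, β, γ, δ, ξ⟩ (7 * k + 5) := by
  have h1 : LR (.push .b .hs) (⟨List.replicate k Lt.i ++ .hs :: α, β, γ, δ, ξ⟩ : Sta m (Lt N))
      ⟨List.replicate k Lt.i ++ .hs :: α, .hs :: β, γ, δ, ξ⟩ 1 := LR.push _ _ _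
  have h2 : LR (mv .a .b powI id)
      (⟨List.replicate k Lt.i ++ .hs :: α, .hs :: β, γ, δ, ξ⟩ : Sta m (Lt N))
      ⟨.hs :: α, List.replicate k Lt.i ++ .hs :: β, γ, δ, ξ⟩ (3 * k + 1) := by
    have h := mv_run (k := .a) (k' := .b) (by intro h; cases h) (p := powI) id
      (s := (⟨List.replicate k Lt.i ++ .hs :: α, .hs :: β, γ, δ, ξ⟩ : Sta m (Lt N)))
      (l := List.replicate k Lt.i) (v := .hs) (r := α) rfl
      (fun u hu => by rw [List.eq_of_mem_replicate hu]; rfl) rfl
    rw [List.length_replicate, List.map_id, List.reverse_replicate] at h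
    exact h
  have h3 : LR (.loop .b powI (.pop .b fun _ => .seq (.push .a .i) (.push .a .i)))
      (⟨.hs :: α, List.replicate k Lt.i ++ .hs :: β, γ, δ, ξ⟩ : Sta m (Lt N))
      ⟨List.replicate (2 * k) Lt.i ++ .hs :: α, .hs :: β, γ, δ, ξ⟩ (4 * k + 1) :=
    (powD_loop β γ δ ξ k (.hs :: α)).finish (v := .hs) (l := β) rfl rfl
  have h4 : LR (pop1 .b)
      (⟨List.replicate (2 * k) Lt.i ++ .hs :: α, .hs :: β, γ, δ, ξ⟩ : Sta m (Lt N))
      ⟨List.replicate (2 * k) Lt.i ++ .hs :: α, β, γ, δ, ξ⟩ 2 := pop1_run (v := .hs) rfl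
  exact (h1.seq (h2.seq (h3.seq h4))).mono (by omega)

private theorem pow_loop (α β γ δ : List (Lt N)) (ξ : Fin m → List (Lt N)) :
    ∀ (j k : ℕ), 1 ≤ k →
    LL .c powI (.pop .c fun _ => powD)
      (⟨List.replicate k Lt.i ++ .hs :: α, β, List.replicate j Lt.i ++ .hs :: γ, δ, ξ⟩ : Sta m (Lt N))
      ⟨List.replicate (k * 2 ^ j) Lt.i ++ .hs :: α, β, .hs :: γ, δ, ξ⟩ (14 * (k * 2 ^ j) - 14 * k) := by
  intro j
  induction j with
  | zero =>
    intro k hk
    rw [pow_zero, mul_one]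
    exact (LL.refl _).mono (Nat.zero_le _)
  | succ j ih =>
    intro k hk
    have h1 : LL .c powI (.pop .c fun _ => powD)
        (⟨List.replicate k Lt.i ++ .hs :: α, β, List.replicate (j + 1) Lt.i ++ .hs :: γ, δ, ξ⟩ :
          Sta m (Lt N))
        ⟨List.replicate (2 * k) Lt.i ++ .hs :: α, β, List.replicate j Lt.i ++ .hs :: γ, δ, ξ⟩
        (7 * k + 5 + 1 + 1) :=
      LL.step (v := .i) (l := List.replicate j Lt.i ++ .hs :: γ) rfl rfl
        (LR.pop (v := .i) (l := List.replicate j Lt.i ++ .hs :: γ) rfl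
          (powD_run k α β (List.replicate j Lt.i ++ .hs :: γ) δ ξ))
    have h2 := ih (2 * k) (by omega)
    have e : 2 * k * 2 ^ j = k * 2 ^ (j + 1) := by ring
    rw [e] at h2
    have h3 : k ≤ k * 2 ^ j := Nat.le_mul_of_pos_right _ (by positivity)
    have h4 : k * 2 ^ (j + 1) = 2 * (k * 2 ^ j) := by ring
    exact (h1.trans h2).mono (by omega)

theorem pow_run : ∃ (P : LP m (Lt N)) (C : ℕ), ∀ (e : ℕ) (α β γ δ : List (Lt N))
    (ξ : Fin m → List (Lt N)),
      LR P ⟨List.replicate e .i ++ .hs :: α, β, γ, δ, ξ⟩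
        ⟨List.replicate (2 ^ e) .i ++ .hs :: α, β, γ, δ, ξ⟩ (C * 2 ^ e) := by
  refine ⟨.seq (.push .c .hs) (.seq (mv .a .c powI id) (.seq (.push .a .i) (.seq
    (.loop .c powI (.pop .c fun _ => powD)) (pop1 .c)))), 23, fun e α β γ δ ξ => ?_⟩
  have h1 : LR (.push .c .hs) (⟨List.replicate e Lt.i ++ .hs :: α, β, γ, δ, ξ⟩ : Sta m (Lt N))
      ⟨List.replicate e Lt.i ++ .hs :: α, β, .hs :: γ, δ, ξ⟩ 1 := LR.push _ _ _
  have h2 : LR (mv .a .c powI id)
      (⟨List.replicate e Lt.i ++ .hs :: α, β, .hs :: γ, δ, ξ⟩ : Sta m (Lt N))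
      ⟨.hs :: α, β, List.replicate e Lt.i ++ .hs :: γ, δ, ξ⟩ (3 * e + 1) := by
    have h := mv_run (k := .a) (k' := .c) (by intro h; cases h) (p := powI) id
      (s := (⟨List.replicate e Lt.i ++ .hs :: α, β, .hs :: γ, δ, ξ⟩ : Sta m (Lt N)))
      (l := List.replicate e Lt.i) (v := .hs) (r := α) rfl
      (fun u hu => by rw [List.eq_of_mem_replicate hu]; rfl) rfl
    rw [List.length_replicate, List.map_id, List.reverse_replicate] at h
    exact h
  have h3 : LR (.push .a .i) (⟨.hs :: α, β, List.replicate e Lt.i ++ .hs :: γ, δ, ξ⟩ : Sta m (Lt N))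
      ⟨.i :: .hs :: α, β, List.replicate e Lt.i ++ .hs :: γ, δ, ξ⟩ 1 := LR.push _ _ _
  have h4 : LR (.loop .c powI (.pop .c fun _ => powD))
      (⟨.i :: .hs :: α, β, List.replicate e Lt.i ++ .hs :: γ, δ, ξ⟩ : Sta m (Lt N))
      ⟨List.replicate (2 ^ e) Lt.i ++ .hs :: α, β, .hs :: γ, δ, ξ⟩ (14 * 2 ^ e + 1) := by
    have h := (pow_loop α β γ δ ξ e 1 le_rfl).finish (v := .hs) (l := γ) rfl rfl
    rw [one_mul] at h
    exact h.mono (by omega)
  have h5 : LR (pop1 .c)
      (⟨List.replicate (2 ^ e) Lt.i ++ .hs :: α, β, .hs :: γ, δ, ξ⟩ : Sta m (Lt N))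
      ⟨List.replicate (2 ^ e) Lt.i ++ .hs :: α, β, γ, δ, ξ⟩ 2 := pop1_run (v := .hs) rfl
  have h6 : e < 2 ^ e := Nat.lt_two_pow_self
  exact (h1.seq (h2.seq (h3.seq (h4.seq h5)))).mono (by omega)

/-- the letter with a given three-bit code -/
def let3 : Bool → Bool → Bool → Lt N
  | false, false, false => .o
  | false, false, true => .i
  | false, true, false => .hs
  | false, true, true => .mk
  | true, false, false => .f0
  | true, false, true => .f1
  | true, true, false => .g0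
  | true, true, true => .g1

/-- the word coded by a bit string -/
def unp : List Bool → List (Lt N)
  | u :: v :: w :: l => let3 u v w :: unp l
  | _ => []

private theorem unp_loop (β γ : List (Lt N)) (α : List (Lt N)) (ξ : Fin m → List (Lt N)) :
    ∀ (n : ℕ) (z : List Bool), z.length = 3 * n → ∀ δ : List (Lt N),
    LL .a isB (.pop .a fun u => .pop .a fun v => .pop .a fun w => .push .d (let3 (vb u) (vb v) (vb w)))
      (⟨bw z ++ .hs :: α, β, γ, δ, ξ⟩ : Sta m (Lt N))
      ⟨.hs :: α, β, γ, (unp z).reverse ++ δ, ξ⟩ (5 * n) := by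
  intro n
  induction n with
  | zero =>
    intro z hz δ
    have h0 : z = [] := List.length_eq_zero_iff.1 (by omega)
    subst h0
    exact LL.refl _
  | succ n ih =>
    intro z hz δ
    match z, hz with
    | u :: v :: w :: z', hz =>
      have hz' : z'.length = 3 * n := by
        simp only [List.length_cons] at hz
        omega
      have h1 : LL .a isB (.pop .a fun u => .pop .a fun v => .pop .a fun w =>
          .push .d (let3 (vb u) (vb v) (vb w)))
          (⟨bw (u :: v :: w :: z') ++ .hs :: α, β, γ, δ, ξ⟩ : Sta m (Lt N))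
          ⟨bw z' ++ .hs :: α, β, γ, let3 u v w :: δ, ξ⟩ (1 + 1 + 1 + 1 + 1) := by
        refine LL.step (v := bt u) (l := bw (v :: w :: z') ++ .hs :: α) rfl (isB_bt u) ?_
        refine LR.pop (v := bt u) (l := bw (v :: w :: z') ++ .hs :: α) rfl ?_
        refine LR.pop (v := bt v) (l := bw (w :: z') ++ .hs :: α) rfl ?_
        refine LR.pop (v := bt w) (l := bw z' ++ .hs :: α) rfl ?_
        rw [vb_bt, vb_bt, vb_bt]
        exact LR.push _ _ _
      have h2 := ih z' hz' (let3 u v w :: δ)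
      have e : (unp (u :: v :: w :: z') : List (Lt N)).reverse ++ δ =
          (unp z').reverse ++ let3 u v w :: δ := by
        show (let3 u v w :: unp z').reverse ++ δ = _
        rw [List.reverse_cons, List.append_assoc]
        rfl
      rw [e]
      exact (h1.trans h2).mono (by omega)
    | [], hz => simp at hz
    | [_], hz => simp at hz; omega
    | [_, _], hz => simp at hz; omega

theorem unp_run : ∃ (P : LP m (Lt N)) (C : ℕ), ∀ (z : List Bool) (α β γ δ : List (Lt N))
    (ξ : Fin m → List (Lt N)), 3 ∣ z.length →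
      LR P ⟨bw z ++ .hs :: α, β, γ, δ, ξ⟩ ⟨α, β, γ, (unp z).reverse ++ δ, ξ⟩
        (C * (z.length + 1)) := by
  refine ⟨.seq (.loop .a isB (.pop .a fun u => .pop .a fun v => .pop .a fun w =>
    .push .d (let3 (vb u) (vb v) (vb w)))) (pop1 .a), 5, fun z α β γ δ ξ hz => ?_⟩
  obtain ⟨n, hn⟩ := hz
  have h1 := (unp_loop β γ α ξ n z hn δ).finish (v := .hs) (l := α) rfl rfl
  have h2 : LR (pop1 .a) (⟨.hs :: α, β, γ, (unp z).reverse ++ δ, ξ⟩ : Sta m (Lt N))
      ⟨α, β, γ, (unp z).reverse ++ δ, ξ⟩ 2 := pop1_run (v := .hs) rfl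
  exact (h1.seq h2).mono (by omega)

end Pool.Agent.Lib.MP_33f9c4_lc.TT
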