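import Pool.Agent.Lib.MP_33f9c4_lc.T.Enum
import Pool.Agent.Lib.MP_33f9c4_lc.T.Ext

set_option autoImplicit false

/-!
MODULE Sen. The sentinels: one item `(false, y)` for each key `y` of length `K`.

`ord K`: all bit lists of length `K`, the LAST bit most significant. PROGRAM: push `hs` on `d`; push `hs` on `c`; move `1^K` from `a` to `c` and `d`
at the same time (`mv2`, on `d` as letters `f0`); move it back from `c` to `a`; pop `hs` of `c`. Then `enum_run` with the body: push `hs` on `c`... build the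
item on `b`: with auxiliary stack `c`: push `hs` on `b`; move `τ` from `d` to `b` and `c` (`mv2`: on `b` as bits, on `c` as letters; until `hs`), move it back from `c`
to `d` (push `mk` on `c` first, until `mk`), push `se` on `b`. So the item is `(false, ebits τ')`. In the end delete the template on `d`
and `hs`. The list of the keys is `((all (replicate K f0)).reverse).map ebits`, a permutation of `ord K`.
-/

namespace Pool.Agent.Lib.MP_33f9c4_lc.TT

variable {m N : ℕ}

/-- all bit lists of length `K`, ordered so that the last bit is the most significant one -/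
def ord : ℕ → List (List Bool)
  | 0 => [[]]
  | K + 1 => (ord K).map (· ++ [false]) ++ (ord K).map (· ++ [true])

theorem mem_ord {K : ℕ} {y : List Bool} : y ∈ ord K ↔ y.length = K := by
  induction K generalizing y with
  | zero => simp [ord]
  | succ K ih =>
    rw [ord, List.mem_append, List.mem_map, List.mem_map]
    constructor
    · rintro (⟨z, hz, rfl⟩ | ⟨z, hz, rfl⟩)
      · rw [List.length_append, ih.1 hz]; rfl
      · rw [List.length_append, ih.1 hz]; rfl
    · intro hy
      rcases List.eq_nil_or_concat y with h | ⟨z, b, h⟩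
      · rw [h] at hy
        simp at hy
      · rw [List.concat_eq_append] at h
        rw [h, List.length_append, List.length_singleton] at hy
        have hz : z ∈ ord K := ih.2 (by omega)
        cases b
        · exact Or.inl ⟨z, hz, h.symm⟩
        · exact Or.inr ⟨z, hz, h.symm⟩

theorem nodup_ord (K : ℕ) : (ord K).Nodup := by
  induction K with
  | zero => simp [ord]
  | succ K ih =>
    have hinj : ∀ b : Bool, Function.Injective (fun z : List Bool => z ++ [b]) :=
      fun b x y h => List.append_cancel_right h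
    rw [ord]
    refine List.Nodup.append (ih.map (hinj false)) (ih.map (hinj true)) ?_
    intro z h1 h2
    obtain ⟨x, -, hx⟩ := List.mem_map.1 h1
    obtain ⟨y, -, hy⟩ := List.mem_map.1 h2
    have h3 := congrArg List.getLast? (hx.trans hy.symm)
    simp at h3

theorem length_ord (K : ℕ) : (ord K).length = 2 ^ K := by
  induction K with
  | zero => rfl
  | succ K ih =>
    rw [ord, List.length_append, List.length_map, List.length_map, ih, pow_succ]
    ring

private theorem sen_mem_all (K : ℕ) (y : List Bool) (hy : y.length = K) :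
    ∃ τ ∈ all (List.replicate K (Lt.f0 : Lt N)), τ.map vb = y := by
  induction K generalizing y with
  | zero =>
    have h0 : y = [] := List.length_eq_zero_iff.1 hy
    exact ⟨[], by simp [all], by simp [h0]⟩
  | succ K ih =>
    match y, hy with
    | b :: y', hy =>
      obtain ⟨τ, h1, h2⟩ := ih y' (by simpa using hy)
      rw [List.replicate_succ, all]
      cases b
      · exact ⟨.f0 :: τ, List.mem_flatMap.2 ⟨τ, h1, by simp⟩, by simp [h2, vb]⟩
      · exact ⟨.f1 :: τ, List.mem_flatMap.2 ⟨τ, h1, by simp⟩, by simp [h2, vb]⟩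

private theorem sen_fr (K : ℕ) : fr (List.replicate K (Lt.f0 : Lt N)) = K := by
  unfold fr
  rw [List.count_replicate_self]

private theorem sen_fresh (K : ℕ) : fresh (List.replicate K (Lt.f0 : Lt N)) :=
  fun _ hv => Or.inl (List.eq_of_mem_replicate hv)

private theorem sen_perm (K : ℕ) :
    (((all (List.replicate K (Lt.f0 : Lt N))).reverse).map ebits).Perm (ord K) := by
  have h1 : (ord K) ⊆ ((all (List.replicate K (Lt.f0 : Lt N))).reverse).map ebits := by
    intro y hy
    have h2 := mem_ord.1 hy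
    obtain ⟨τ, h3, h4⟩ := sen_mem_all (N := N) K y.reverse (by rw [List.length_reverse, h2])
    refine List.mem_map.2 ⟨τ, List.mem_reverse.2 h3, ?_⟩
    unfold ebits
    rw [h4, List.reverse_reverse]
  have h2 := (nodup_ord K).subperm h1
  refine (h2.perm_of_length_le ?_).symm
  rw [List.length_map, List.length_reverse, length_all, sen_fr, length_ord]

private def senI : Lt N → Bool
  | .i => true
  | _ => false

private def senB : LP m (Lt N) :=
  .seq (.push .b .hs) (.seq (.push .c .mk) (.seq (mv2 .d .b .c isT (fun v => bt (vb v)) id)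
    (.seq (mv .c .d isT id) (.seq (pop1 .c) (.push .b .se)))))

private theorem senB_run (τ : List (Lt N)) (hτ : ∀ v ∈ τ, isT v = true) (a b c d : List (Lt N))
    (ξ : Fin m → List (Lt N)) :
    LR senB (⟨a, b, c, τ ++ .hs :: d, ξ⟩ : Sta m (Lt N))
      ⟨a, itm (false, ebits τ) ++ b, c, τ ++ .hs :: d, ξ⟩ (7 * τ.length + 7) := by
  have h1 : LR (.push .b .hs) (⟨a, b, c, τ ++ .hs :: d, ξ⟩ : Sta m (Lt N))
      ⟨a, .hs :: b, c, τ ++ .hs :: d, ξ⟩ 1 := LR.push _ _ _
  have h2 : LR (.push .c .mk) (⟨a, .hs :: b, c, τ ++ .hs :: d, ξ⟩ : Sta m (Lt N))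
      ⟨a, .hs :: b, .mk :: c, τ ++ .hs :: d, ξ⟩ 1 := LR.push _ _ _
  have h3 : LR (mv2 .d .b .c isT (fun v => bt (vb v)) id)
      (⟨a, .hs :: b, .mk :: c, τ ++ .hs :: d, ξ⟩ : Sta m (Lt N))
      ⟨a, (τ.map fun v => bt (vb v)).reverse ++ .hs :: b, τ.reverse ++ .mk :: c, .hs :: d, ξ⟩
      (4 * τ.length + 1) := by
    have h := mv2_run (k := .d) (k' := .b) (k'' := .c) (by intro h; cases h) (by intro h; cases h)
      (by intro h; cases h) (p := isT) (fun v => bt (vb v)) id
      (s := (⟨a, .hs :: b, .mk :: c, τ ++ .hs :: d, ξ⟩ : Sta m (Lt N)))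
      (l := τ) (v := .hs) (r := d) rfl hτ rfl
    rw [List.map_id] at h
    exact h
  have h4 : LR (mv .c .d isT id)
      (⟨a, (τ.map fun v => bt (vb v)).reverse ++ .hs :: b, τ.reverse ++ .mk :: c, .hs :: d, ξ⟩ :
        Sta m (Lt N))
      ⟨a, (τ.map fun v => bt (vb v)).reverse ++ .hs :: b, .mk :: c, τ ++ .hs :: d, ξ⟩
      (3 * τ.length + 1) := by
    have h := mv_run (k := .c) (k' := .d) (by intro h; cases h) (p := isT) id
      (s := (⟨a, (τ.map fun v => bt (vb v)).reverse ++ .hs :: b, τ.reverse ++ .mk :: c,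
        .hs :: d, ξ⟩ : Sta m (Lt N)))
      (l := τ.reverse) (v := .mk) (r := c) rfl (fun u hu => hτ u (List.mem_reverse.1 hu)) rfl
    rw [List.map_id, List.reverse_reverse, List.length_reverse] at h
    exact h
  have h5 : LR (pop1 .c)
      (⟨a, (τ.map fun v => bt (vb v)).reverse ++ .hs :: b, .mk :: c, τ ++ .hs :: d, ξ⟩ :
        Sta m (Lt N))
      ⟨a, (τ.map fun v => bt (vb v)).reverse ++ .hs :: b, c, τ ++ .hs :: d, ξ⟩ 2 :=
    pop1_run (v := .mk) rfl
  have h6 : LR (.push .b .se)
      (⟨a, (τ.map fun v => bt (vb v)).reverse ++ .hs :: b, c, τ ++ .hs :: d, ξ⟩ : Sta m (Lt N))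
      ⟨a, .se :: ((τ.map fun v => bt (vb v)).reverse ++ .hs :: b), c, τ ++ .hs :: d, ξ⟩ 1 :=
    LR.push _ _ _
  have e : (itm (false, ebits τ) ++ b : List (Lt N)) =
      .se :: ((τ.map fun v => bt (vb v)).reverse ++ .hs :: b) := by
    unfold itm ebits bw
    rw [List.map_reverse, List.map_map]
    simp [Function.comp_def]
  rw [e]
  exact (h1.seq (h2.seq (h3.seq (h4.seq (h5.seq h6))))).mono (by omega)

theorem sen_run : ∃ (P : LP m (Lt N)) (C : ℕ), ∀ (K : ℕ) (α β γ δ : List (Lt N))
    (ξ : Fin m → List (Lt N)), ∃ l : List (List Bool), l.Perm (ord K) ∧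
      LR P ⟨List.replicate K .i ++ .hs :: α, β, γ, δ, ξ⟩
        ⟨List.replicate K .i ++ .hs :: α, items (l.map fun y => (false, y)) ++ β, γ, δ, ξ⟩
        (C * (2 ^ K * (K + 1))) := by
  obtain ⟨E, C, hE⟩ := enum_run (m := m) (N := N) senB
  refine ⟨.seq (.push .d .hs) (.seq (.push .c .hs) (.seq (mv2 .a .c .d senI id (fun _ => .f0))
    (.seq (mv .c .a senI id) (.seq (pop1 .c) (.seq E (.seq (del .d isT) (pop1 .d))))))),
    8 * C + 10, fun K α β γ δ ξ => ⟨((all (List.replicate K (Lt.f0 : Lt N))).reverse).map ebits,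
      sen_perm K, ?_⟩⟩
  have h1 : LR (.push .d .hs) (⟨List.replicate K Lt.i ++ .hs :: α, β, γ, δ, ξ⟩ : Sta m (Lt N))
      ⟨List.replicate K Lt.i ++ .hs :: α, β, γ, .hs :: δ, ξ⟩ 1 := LR.push _ _ _
  have h2 : LR (.push .c .hs)
      (⟨List.replicate K Lt.i ++ .hs :: α, β, γ, .hs :: δ, ξ⟩ : Sta m (Lt N))
      ⟨List.replicate K Lt.i ++ .hs :: α, β, .hs :: γ, .hs :: δ, ξ⟩ 1 := LR.push _ _ _
  have h3 : LR (mv2 .a .c .d senI id (fun _ => .f0))
      (⟨List.replicate K Lt.i ++ .hs :: α, β, .hs :: γ, .hs :: δ, ξ⟩ : Sta m (Lt N))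
      ⟨.hs :: α, β, List.replicate K Lt.i ++ .hs :: γ, List.replicate K Lt.f0 ++ .hs :: δ, ξ⟩
      (4 * K + 1) := by
    have h := mv2_run (k := .a) (k' := .c) (k'' := .d) (by intro h; cases h)
      (by intro h; cases h) (by intro h; cases h) (p := senI) id (fun _ => Lt.f0)
      (s := (⟨List.replicate K Lt.i ++ .hs :: α, β, .hs :: γ, .hs :: δ, ξ⟩ : Sta m (Lt N)))
      (l := List.replicate K Lt.i) (v := .hs) (r := α) rfl
      (fun u hu => by rw [List.eq_of_mem_replicate hu]; rfl) rfl
    rw [List.map_id, List.map_replicate, List.reverse_replicate, List.reverse_replicate,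
      List.length_replicate] at h
    exact h
  have h4 : LR (mv .c .a senI id)
      (⟨.hs :: α, β, List.replicate K Lt.i ++ .hs :: γ, List.replicate K Lt.f0 ++ .hs :: δ, ξ⟩ :
        Sta m (Lt N))
      ⟨List.replicate K Lt.i ++ .hs :: α, β, .hs :: γ, List.replicate K Lt.f0 ++ .hs :: δ, ξ⟩
      (3 * K + 1) := by
    have h := mv_run (k := .c) (k' := .a) (by intro h; cases h) (p := senI) id
      (s := (⟨.hs :: α, β, List.replicate K Lt.i ++ .hs :: γ,
        List.replicate K Lt.f0 ++ .hs :: δ, ξ⟩ : Sta m (Lt N)))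
      (l := List.replicate K Lt.i) (v := .hs) (r := γ) rfl
      (fun u hu => by rw [List.eq_of_mem_replicate hu]; rfl) rfl
    rw [List.map_id, List.reverse_replicate, List.length_replicate] at h
    exact h
  have h5 : LR (pop1 .c)
      (⟨List.replicate K Lt.i ++ .hs :: α, β, .hs :: γ, List.replicate K Lt.f0 ++ .hs :: δ, ξ⟩ :
        Sta m (Lt N))
      ⟨List.replicate K Lt.i ++ .hs :: α, β, γ, List.replicate K Lt.f0 ++ .hs :: δ, ξ⟩ 2 :=
    pop1_run (v := .hs) rfl
  have h6 := hE (List.replicate K Lt.f0) δ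
    (fun l => ⟨List.replicate K Lt.i ++ .hs :: α,
      items ((l.map ebits).map fun y => (false, y)) ++ β, γ, [], ξ⟩) (7 * K + 7) (sen_fresh K)
    (fun τ hτ l => by
      have h := senB_run τ (isT_of_mem_all (sen_fresh K) hτ) (List.replicate K Lt.i ++ .hs :: α)
        (items ((l.map ebits).map fun y => (false, y)) ++ β) γ δ ξ
      rw [length_of_mem_all hτ, List.length_replicate, ← List.append_assoc] at h
      exact h)
  rw [sen_fr, List.length_replicate] at h6
  have h7 : LR (del .d isT)
      (⟨List.replicate K Lt.i ++ .hs :: α, items ((((all (List.replicate K (Lt.f0 : Lt N))).reverse).map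
        ebits).map fun y => (false, y)) ++ β, γ, List.replicate K Lt.f0 ++ .hs :: δ, ξ⟩ :
        Sta m (Lt N))
      ⟨List.replicate K Lt.i ++ .hs :: α, items ((((all (List.replicate K (Lt.f0 : Lt N))).reverse).map
        ebits).map fun y => (false, y)) ++ β, γ, .hs :: δ, ξ⟩ (3 * K + 1) := by
    have h := del_run (k := .d) (p := isT)
      (s := (⟨List.replicate K Lt.i ++ .hs :: α, items ((((all (List.replicate K
        (Lt.f0 : Lt N))).reverse).map ebits).map fun y => (false, y)) ++ β, γ,
        List.replicate K Lt.f0 ++ .hs :: δ, ξ⟩ : Sta m (Lt N)))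
      (l := List.replicate K Lt.f0) (v := .hs) (r := δ) rfl
      (fun u hu => by rw [List.eq_of_mem_replicate hu]; rfl) rfl
    rw [List.length_replicate] at h
    exact h
  have h8 : LR (pop1 .d)
      (⟨List.replicate K Lt.i ++ .hs :: α, items ((((all (List.replicate K (Lt.f0 : Lt N))).reverse).map
        ebits).map fun y => (false, y)) ++ β, γ, .hs :: δ, ξ⟩ : Sta m (Lt N))
      ⟨List.replicate K Lt.i ++ .hs :: α, items ((((all (List.replicate K (Lt.f0 : Lt N))).reverse).map
        ebits).map fun y => (false, y)) ++ β, γ, δ, ξ⟩ 2 :=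
    pop1_run (v := .hs) rfl
  refine (h1.seq (h2.seq (h3.seq (h4.seq (h5.seq (h6.seq (h7.seq h8))))))).mono ?_
  have e1 : 1 ≤ 2 ^ K := Nat.one_le_two_pow
  have e2 : K + 1 ≤ 2 ^ K * (K + 1) := Nat.le_mul_of_pos_left _ (by positivity)
  have e3 : C * (2 ^ K * (7 * K + 7 + K + 1)) = 8 * C * (2 ^ K * (K + 1)) := by ring
  rw [e3, add_mul (8 * C) 10]
  omega

end Pool.Agent.Lib.MP_33f9c4_lc.TT
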