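import Pool.Agent.Lib.MP_33f9c4_lc.T.Tab
import Pool.Agent.Lib.MP_33f9c4_lc.T.Sen
import Pool.Agent.Lib.MP_33f9c4_lc.T.Pow
import Pool.Agent.Lib.MP_33f9c4_lc.K.RDef

set_option autoImplicit false

/-!
MODULE Fmt. Formats of the words exchanged with the PT functions; pure lemmas.

Templates for the PT functions are lists of `Option Bool` (`none`: free, `some b`: fixed), reversed: the head is the last
bit. `K.ents τ []` (file K/RDef.lean) = all bit lists matching `τ`; `all (τ.map tl)` is the same up to the order.
-/

namespace Pool.Agent.Lib.MP_33f9c4_lc.TT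

variable {m N : ℕ}

/-- the letter of a position of a template -/
def tl : Option Bool → Lt N
  | none => .f0
  | some false => .g0
  | some true => .g1

/-- the three-bit code of a position of a template -/
def ct : Option Bool → List Bool
  | none => [true, false, false]
  | some b => [true, true, b]

/-- the format of the parameters: number of tables, clock, `K`, template -/
def fmt2 (mm : ℕ) (κ : List Bool) (K : ℕ) (τ : List (Option Bool)) : List Bool :=
  [false, true, false] ++ τ.reverse.flatMap ct ++ [false, true, false] ++
    (List.replicate K [false, false, true]).flatten ++ [false, true, false] ++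
    κ.flatMap (fun b => [false, false, b]) ++ [false, true, false] ++
    (List.replicate mm [false, false, true]).flatten

/-- the format of the list of templates to be tested -/
def fmt3 (τs : List (List (Option Bool))) : List Bool :=
  [false, true, true] ++ τs.reverse.flatMap fun τ => [false, true, false] ++ τ.reverse.flatMap ct

private theorem fmt_length_ct (o : Option Bool) : (ct o).length = 3 := by
  rcases o with _ | b <;> rfl

private theorem fmt_length_flatMap {α : Type} (f : α → List Bool) (hf : ∀ x, (f x).length = 3)
    (l : List α) : (l.flatMap f).length = 3 * l.length := by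
  induction l with
  | nil => rfl
  | cons x l ih =>
    rw [List.flatMap_cons, List.length_append, hf, ih, List.length_cons]
    ring

private theorem fmt_flatten_eq (K : ℕ) (u : List Bool) :
    (List.replicate K u).flatten = (List.replicate K ()).flatMap fun _ => u := by
  induction K with
  | zero => rfl
  | succ K ih =>
    rw [List.replicate_succ, List.replicate_succ, List.flatten_cons, List.flatMap_cons, ih]

private theorem fmt_length_flatten (K : ℕ) (a b c : Bool) :
    ((List.replicate K [a, b, c]).flatten).length = 3 * K := by
  rw [fmt_flatten_eq, fmt_length_flatMap _ (fun _ => rfl), List.length_replicate]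

private theorem fmt_unp_cons (a b c : Bool) (v : List Bool) :
    (unp ([a, b, c] ++ v) : List (Lt N)) = let3 a b c :: unp v := rfl

private theorem fmt_unp_append (k : ℕ) : ∀ (u v : List Bool), u.length = 3 * k →
    (unp (u ++ v) : List (Lt N)) = unp u ++ unp v := by
  induction k with
  | zero =>
    intro u v hu
    have : u = [] := List.length_eq_zero_iff.mp (by omega)
    subst this
    rfl
  | succ k ih =>
    intro u v hu
    match u, hu with
    | a :: b :: c :: u', hu =>
      have h1 : u'.length = 3 * k := by
        simp only [List.length_cons] at hu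
        omega
      show let3 a b c :: unp (u' ++ v) = let3 a b c :: unp u' ++ unp v
      rw [ih u' v h1]
      rfl
    | [], hu => simp at hu
    | [_], hu => simp at hu; omega
    | [_, _], hu => simp at hu; omega

private theorem fmt_unp_flatMap {α : Type} (f : α → List Bool) (g : α → Lt N)
    (hf : ∀ x, ∃ a b c, f x = [a, b, c] ∧ let3 a b c = g x) (l : List α) (v : List Bool) :
    (unp (l.flatMap f ++ v) : List (Lt N)) = l.map g ++ unp v := by
  induction l with
  | nil => rfl
  | cons x l ih =>
    obtain ⟨a, b, c, h1, h2⟩ := hf x
    rw [List.flatMap_cons, List.append_assoc, h1, fmt_unp_cons, ih, h2]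
    rfl

private theorem fmt_unp_ct (l : List (Option Bool)) (v : List Bool) :
    (unp (l.flatMap ct ++ v) : List (Lt N)) = l.map tl ++ unp v := by
  refine fmt_unp_flatMap ct tl (fun x => ?_) l v
  rcases x with _ | b
  · exact ⟨true, false, false, rfl, rfl⟩
  · refine ⟨true, true, b, rfl, ?_⟩
    cases b <;> rfl

private theorem fmt_unp_bits (l : List Bool) (v : List Bool) :
    (unp (l.flatMap (fun b => [false, false, b]) ++ v) : List (Lt N)) = bw l ++ unp v := by
  refine fmt_unp_flatMap _ bt (fun x => ⟨false, false, x, rfl, ?_⟩) l v
  cases x <;> rfl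

private theorem fmt_unp_rep (K : ℕ) (v : List Bool) :
    (unp ((List.replicate K [false, false, true]).flatten ++ v) : List (Lt N)) =
      List.replicate K .i ++ unp v := by
  rw [fmt_flatten_eq, fmt_unp_flatMap _ (fun _ => .i) (fun _ => ⟨false, false, true, rfl, rfl⟩)]
  rw [List.map_replicate]

theorem length_fmt2 (mm : ℕ) (κ : List Bool) (K : ℕ) (τ : List (Option Bool)) :
    (fmt2 mm κ K τ).length = 3 * (mm + κ.length + K + τ.length + 4) := by
  unfold fmt2
  simp only [List.length_append, fmt_length_flatMap ct fmt_length_ct, fmt_length_flatten,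
    fmt_length_flatMap (fun b => [false, false, b]) (fun _ => rfl), List.length_reverse,
    List.length_cons, List.length_nil]
  ring

theorem unp_fmt2 (mm : ℕ) (κ : List Bool) (K : ℕ) (τ : List (Option Bool)) :
    (unp (fmt2 mm κ K τ) : List (Lt N)).reverse =
      List.replicate mm .i ++ .hs :: ((bw κ).reverse ++ .hs :: (List.replicate K .i ++
        .hs :: (τ.map tl ++ [.hs]))) := by
  have h : (unp (fmt2 mm κ K τ) : List (Lt N)) =
      .hs :: (τ.reverse.map tl ++ .hs :: (List.replicate K .i ++ .hs :: (bw κ ++ .hs ::
        (List.replicate mm .i ++ [])))) := by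
    unfold fmt2
    simp only [List.append_assoc]
    rw [fmt_unp_cons, fmt_unp_ct, fmt_unp_cons, fmt_unp_rep, fmt_unp_cons, fmt_unp_bits,
      fmt_unp_cons]
    have h2 := fmt_unp_rep (N := N) mm []
    rw [List.append_nil] at h2
    rw [h2]
    rfl
  rw [h]
  simp only [List.reverse_cons, List.reverse_append, List.reverse_replicate, List.append_nil,
    List.append_assoc, List.map_reverse, List.reverse_reverse, List.cons_append, List.nil_append,
    List.singleton_append]

theorem dvd_length_fmt3 (τs : List (List (Option Bool))) : 3 ∣ (fmt3 τs).length := by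
  unfold fmt3
  rw [List.length_append]
  refine (Nat.dvd_add_right ⟨1, rfl⟩).mpr ?_
  induction τs.reverse with
  | nil => exact ⟨0, rfl⟩
  | cons τ l ih =>
    rw [List.flatMap_cons, List.length_append]
    refine (Nat.dvd_add_left ih).mpr ?_
    rw [List.length_append, fmt_length_flatMap ct fmt_length_ct]
    exact ⟨1 + τ.reverse.length, by simp only [List.length_cons, List.length_nil]; ring⟩

theorem unp_fmt3 (τs : List (List (Option Bool))) :
    (unp (fmt3 τs) : List (Lt N)).reverse =
      (τs.map fun τ => τ.map tl).flatMap (· ++ [.hs]) ++ [.mk] := by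
  have h : ∀ l : List (List (Option Bool)),
      (unp (l.flatMap fun τ => [false, true, false] ++ τ.reverse.flatMap ct) : List (Lt N)) =
        l.flatMap fun τ => .hs :: τ.reverse.map tl := by
    intro l
    induction l with
    | nil => rfl
    | cons τ l ih =>
      rw [List.flatMap_cons, List.flatMap_cons, List.append_assoc, fmt_unp_cons, fmt_unp_ct, ih]
      rfl
  unfold fmt3
  rw [fmt_unp_cons, h]
  show (Lt.mk :: _).reverse = _
  rw [List.reverse_cons, List.reverse_flatMap, List.reverse_reverse, List.flatMap_map]
  congr 1
  refine List.flatMap_congr fun τ _ => ?_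
  simp only [Function.comp, List.reverse_cons, List.map_reverse, List.reverse_reverse]

theorem fresh_map_tl (τ : List (Option Bool)) : fresh (τ.map tl : List (Lt N)) := by
  intro v hv
  obtain ⟨o, _, rfl⟩ := List.mem_map.mp hv
  rcases o with _ | (_ | _)
  · exact Or.inl rfl
  · exact Or.inr (Or.inl rfl)
  · exact Or.inr (Or.inr rfl)

theorem fr_map_tl (τ : List (Option Bool)) : fr (τ.map tl : List (Lt N)) = MP_33f9c4_lc.K.free τ := by
  unfold fr MP_33f9c4_lc.K.free
  induction τ with
  | nil => rfl
  | cons o τ ih =>
    rw [List.map_cons, List.count_cons, List.count_cons, ih]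
    rcases o with _ | (_ | _) <;> rfl

private theorem fmt_all (τ : List (Option Bool)) : ∀ z : List Bool,
    ((all (τ.map tl : List (Lt N))).map fun τ' => ebits τ' ++ z).Perm
      (MP_33f9c4_lc.K.ents τ z) := by
  induction τ with
  | nil => exact fun z => List.Perm.refl _
  | cons o τ ih =>
    intro z
    rcases o with _ | b
    · have h1 : (all ((none :: τ).map tl : List (Lt N))).map (fun τ' => ebits τ' ++ z) =
          (all (τ.map tl : List (Lt N))).flatMap fun l' =>
            [ebits l' ++ (false :: z)] ++ [ebits l' ++ (true :: z)] := by
        show ((all (τ.map tl : List (Lt N))).flatMap fun l' => [.f0 :: l', .f1 :: l']).map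
          (fun τ' => ebits τ' ++ z) = _
        rw [List.map_flatMap]
        refine List.flatMap_congr fun l' _ => ?_
        simp only [ebits, List.map_cons, List.map_nil, List.reverse_cons, List.append_assoc, vb]
        rfl
      rw [h1]
      refine (List.flatMap_append_perm _ _ _).symm.trans ?_
      rw [← List.map_eq_flatMap, ← List.map_eq_flatMap]
      exact (ih (false :: z)).append (ih (true :: z))
    · have h1 : (all ((some b :: τ).map tl : List (Lt N))).map (fun τ' => ebits τ' ++ z) =
          (all (τ.map tl : List (Lt N))).map fun l' => ebits l' ++ (b :: z) := by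
        cases b
        · show ((all (τ.map tl : List (Lt N))).map fun l' => .g0 :: l').map
            (fun τ' => ebits τ' ++ z) = _
          rw [List.map_map]
          refine List.map_congr_left fun l' _ => ?_
          simp only [Function.comp, ebits, List.map_cons, List.reverse_cons, List.append_assoc, vb]
          rfl
        · show ((all (τ.map tl : List (Lt N))).map fun l' => .g1 :: l').map
            (fun τ' => ebits τ' ++ z) = _
          rw [List.map_map]
          refine List.map_congr_left fun l' _ => ?_
          simp only [Function.comp, ebits, List.map_cons, List.reverse_cons, List.append_assoc, vb]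
          rfl
      rw [h1]
      exact ih (b :: z)

theorem all_map_tl (τ : List (Option Bool)) :
    ((all (τ.map tl : List (Lt N))).map ebits).Perm (MP_33f9c4_lc.K.ents τ []) := by
  have h := fmt_all (N := N) τ []
  simp only [List.append_nil] at h
  exact h

/-- all prefixes read in `mm` tables (independent of the alphabet) -/
def rdsO (V : NM m) (K : ℕ) : ℕ → List Bool → List (Option Bool) → List (List Bool)
  | 0, _, _ => []
  | mm + 1, κ, τ => (MP_33f9c4_lc.K.ents τ []).map (fun e => pfx K (V.val (lval κ) (stp e))) ++
      rdsO V K mm (false :: κ) τ.tail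

/-- the cost of reading `mm` tables -/
def rcostO (K : ℕ) : ℕ → List Bool → List (Option Bool) → ℕ
  | 0, _, _ => 0
  | mm + 1, κ, τ => 2 ^ MP_33f9c4_lc.K.free τ * ((κ.length + 1) * (lval κ + 1) + K + τ.length + 1) +
      rcostO K mm (false :: κ) τ.tail

theorem rds_map_tl (V : NM m) (K mm : ℕ) (κ : List Bool) (τ : List (Option Bool)) :
    (rds V K mm κ (τ.map tl : List (Lt N))).Perm (rdsO V K mm κ τ) := by
  induction mm generalizing κ τ with
  | zero => exact List.Perm.refl _
  | succ mm ih =>
    show ((all (τ.map tl : List (Lt N))).map (fun τ' => pfx K (V.val (lval κ) (stp (ebits τ')))) ++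
      rds V K mm (false :: κ) (τ.map tl : List (Lt N)).tail).Perm
      ((MP_33f9c4_lc.K.ents τ []).map (fun e => pfx K (V.val (lval κ) (stp e))) ++
        rdsO V K mm (false :: κ) τ.tail)
    refine List.Perm.append ?_ ?_
    · have h := (all_map_tl (N := N) τ).map (fun e => pfx K (V.val (lval κ) (stp e)))
      rw [List.map_map] at h
      exact h
    · rw [← List.map_tail]
      exact ih (false :: κ) τ.tail

theorem rcost_map_tl (K mm : ℕ) (κ : List Bool) (τ : List (Option Bool)) :
    rcost K mm κ (τ.map tl : List (Lt N)) = rcostO K mm κ τ := by
  induction mm generalizing κ τ with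
  | zero => rfl
  | succ mm ih =>
    show 2 ^ fr (τ.map tl : List (Lt N)) * ((κ.length + 1) * (lval κ + 1) + K +
      (τ.map tl : List (Lt N)).length + 1) + rcost K mm (false :: κ) (τ.map tl : List (Lt N)).tail =
      2 ^ MP_33f9c4_lc.K.free τ * ((κ.length + 1) * (lval κ + 1) + K + τ.length + 1) +
      rcostO K mm (false :: κ) τ.tail
    rw [fr_map_tl, List.length_map, ← List.map_tail, ih (false :: κ) τ.tail]

theorem length_of_mem_rdsO (V : NM m) {K mm : ℕ} {κ : List Bool} {τ : List (Option Bool)}
    {y : List Bool} (h : y ∈ rdsO V K mm κ τ) : y.length = K := by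
  induction mm generalizing κ τ with
  | zero => exact absurd h List.not_mem_nil
  | succ mm ih =>
    rcases List.mem_append.mp h with h1 | h1
    · obtain ⟨e, _, rfl⟩ := List.mem_map.mp h1
      unfold pfx
      rw [List.length_take, List.length_append, List.length_replicate]
      omega
    · exact ih h1

theorem length_rdsO_le (V : NM m) (K mm : ℕ) (κ : List Bool) (τ : List (Option Bool)) :
    (rdsO V K mm κ τ).length ≤ rcostO K mm κ τ := by
  induction mm generalizing κ τ with
  | zero => exact le_refl 0
  | succ mm ih =>
    show ((MP_33f9c4_lc.K.ents τ []).map (fun e => pfx K (V.val (lval κ) (stp e))) ++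
        rdsO V K mm (false :: κ) τ.tail).length ≤
      2 ^ MP_33f9c4_lc.K.free τ * ((κ.length + 1) * (lval κ + 1) + K + τ.length + 1) +
      rcostO K mm (false :: κ) τ.tail
    rw [List.length_append, List.length_map]
    refine Nat.add_le_add ?_ (ih (false :: κ) τ.tail)
    have h1 : (MP_33f9c4_lc.K.ents τ []).length = 2 ^ MP_33f9c4_lc.K.free τ := by
      rw [← (all_map_tl (N := 0) τ).length_eq, List.length_map, length_all, fr_map_tl]
    rw [h1]
    exact Nat.le_mul_of_pos_right _ (by omega)

private theorem fmt_filter (c : Bool) (l : List (List Bool)) (y : List Bool) :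
    ((l.map fun y => (c, y)).filter fun x => x.2 == y) = List.replicate (l.count y) (c, y) := by
  rw [List.filter_map]
  have h : ((fun x : Bool × List Bool => x.2 == y) ∘ fun y => (c, y)) = fun z => z == y := rfl
  rw [h, List.filter_beq, List.map_replicate]

/-- the sorted list of items and sentinels -/
theorem sorted_items (K : ℕ) (l s : List (List Bool)) (hs : s.Perm (ord K))
    (hl : ∀ y ∈ l, y.length = K) :
    ((ord K).flatMap fun y => ((l.map fun y => (true, y)) ++ s.map fun y => (false, y)).filter
      fun x => x.2 == y) =
      (ord K).flatMap fun y => List.replicate (l.count y) (true, y) ++ [(false, y)] := by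
  refine List.flatMap_congr fun y hy => ?_
  rw [List.filter_append, fmt_filter, fmt_filter]
  have h1 : s.count y = 1 := by
    rw [hs.count_eq]
    exact List.count_eq_one_of_mem (nodup_ord K) hy
  rw [h1]
  rfl

end Pool.Agent.Lib.MP_33f9c4_lc.TT
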