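import Pool.Agent.Lib.MP_33f9c4_lc.T.View
import Pool.Agent.Lib.MP_33f9c4_lc.T.NMof
import Pool.Agent.Lib.MP_33f9c4_lc.K.VFin

set_option autoImplicit false

/-!
# Strings which are not Levin-random are values of the tables
-/

namespace Pool.Agent.Lib.MP_33f9c4_lc.TT

variable {m : ℕ}

theorem stp_pad (k : ℕ) (d : List Bool) : stp (List.replicate k false ++ true :: d) = d := by
  induction k with
  | zero => rfl
  | succ k ih => rw [List.replicate_succ, List.cons_append, stp, ih]

/-- A string which is not Levin-random is the value of an entry of one of the tables. -/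
theorem host {U : Machine} {V : NM m} {c c4 ln n : ℕ} (hko : V.ko = .b)
    (hV : ∀ (d x : List Bool) (t : ℕ), Outputs U d x t → ∀ s, c * (t + 1) ≤ s →
      V.hal (V.step^[s] (V.init d)) ∧ V.val s d = x) (hc : 2 * c ≤ 2 ^ c4) {x : List Bool}
    (hx : x.length = n) (hn : n = 2 ^ ln) (hne : ∃ (d : List Bool) (t : ℕ), Outputs U d x t)
    (h : Kt U x < n) :
    ∃ (j : ℕ) (e : List Bool), ln - c4 ≤ j ∧ j ≤ n ∧ e.length = n - j + 1 ∧
      vtab V c4 n j e = some x := by
  obtain ⟨d0, t0, h0⟩ := hne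
  obtain ⟨v, ⟨d, t', hout, rfl⟩, hv⟩ := exists_lt_of_csInf_lt
    (s := {v : ℝ | ∃ (d : List Bool) (t : ℕ), Outputs U d x t ∧ v = d.length + Real.logb 2 t})
    ⟨_, d0, t0, h0, rfl⟩ h
  have hn1 : 1 ≤ n := by rw [hn]; exact Nat.one_le_two_pow
  -- replace the time by a positive one
  obtain ⟨t, ht1, htt, hlog⟩ : ∃ t, 1 ≤ t ∧ t' ≤ t ∧ Real.logb 2 t = Real.logb 2 t' := by
    rcases Nat.eq_zero_or_pos t' with h1 | h1
    · exact ⟨1, le_rfl, by omega, by simp [h1]⟩
    · exact ⟨t', h1, le_rfl, rfl⟩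
  rw [← hlog] at hv
  have hval : ∀ s, c * (t + 1) ≤ s → V.val s d = x := fun s hs =>
    (hV d x t' hout s ((Nat.mul_le_mul_left _ (by omega)).trans hs)).2
  have h1 : t ≤ 2 ^ Nat.clog 2 t := Nat.le_pow_clog (by norm_num) t
  have h2 : d.length + Nat.clog 2 t ≤ n := by
    rcases Nat.lt_or_ge 1 t with h3 | h3
    · have h4 : 2 ^ (Nat.clog 2 t - 1) < t := by
        have := Nat.pow_pred_clog_lt_self (b := 2) (by norm_num) h3
        simpa using this
      have h5 : ((Nat.clog 2 t - 1 : ℕ) : ℝ) < Real.logb 2 t := by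
        rw [Real.lt_logb_iff_rpow_lt (by norm_num) (by exact_mod_cast ht1), Real.rpow_natCast]
        exact_mod_cast h4
      have h6 : ((d.length + (Nat.clog 2 t - 1) : ℕ) : ℝ) < n := by
        push_cast
        linarith
      have h7 : d.length + (Nat.clog 2 t - 1) < n := by exact_mod_cast h6
      omega
    · have h4 : t = 1 := by omega
      subst h4
      rw [Nat.clog_one_right]
      have h5 : ((d.length : ℕ) : ℝ) < n := by
        simpa using hv
      have h6 : d.length < n := by exact_mod_cast h5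
      omega
  have h8 : c * (t + 1) ≤ 2 ^ (Nat.clog 2 t + c4) := by
    calc c * (t + 1) ≤ c * (t + t) := Nat.mul_le_mul_left _ (by omega)
      _ = t * (2 * c) := by ring
      _ ≤ 2 ^ Nat.clog 2 t * 2 ^ c4 := Nat.mul_le_mul h1 hc
      _ = _ := by rw [pow_add]
  refine ⟨Nat.clog 2 t, List.replicate (n - Nat.clog 2 t - d.length) false ++ true :: d, ?_,
    by omega, ?_, ?_⟩
  · have h3 : n ≤ c * (t + 1) := by
      have := NM.length_val_le V hko (c * (t + 1)) d
      rwa [hval _ le_rfl, hx] at this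
    have h4 : 2 ^ ln ≤ 2 ^ (Nat.clog 2 t + c4) := by
      rw [← hn]
      exact h3.trans h8
    have := (Nat.pow_le_pow_iff_right (by norm_num)).mp h4
    omega
  · rw [List.length_append, List.length_replicate, List.length_cons]
    omega
  · rw [vtab, stp_pad, hval _ h8, List.take_append_of_le_length (by omega),
      List.take_of_length_le (by omega)]

end Pool.Agent.Lib.MP_33f9c4_lc.TT
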