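import Pool.Agent.Lib.PolyTime
import Pool.Agent.Lib.MP_33f9c4_lc.Defs

set_option autoImplicit false

/-!
# Structured programs on `m + 4` stacks over a finite alphabet

`Ix m`: the names of the stacks; `Sta m A`: the contents; `LP m A`: programs; `LE P s s' t`: the program
`P` leads from `s` to `s'` in exactly `t` steps; `LR P s s' t`: within `t` steps. Stacks are never
popped when they are empty (the programs use markers).
-/

namespace Pool.Agent.Lib.MP_33f9c4_lc.TT

/-- The stacks. -/
inductive Ix (m : ℕ) : Type
  | a | b | c | d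
  | x (i : Fin m)
  deriving DecidableEq, Fintype

/-- The contents of the stacks (the head of the list is the top). -/
structure Sta (m : ℕ) (A : Type) : Type where
  a : List A
  b : List A
  c : List A
  d : List A
  x : Fin m → List A

variable {m : ℕ} {A B : Type}

namespace Sta

/-- the content of stack `k` -/
def get (s : Sta m A) : Ix m → List A
  | .a => s.a
  | .b => s.b
  | .c => s.c
  | .d => s.d
  | .x i => s.x i

/-- replace the content of stack `k` -/
def set (s : Sta m A) (k : Ix m) (l : List A) : Sta m A :=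
  match k with
  | .a => ⟨l, s.b, s.c, s.d, s.x⟩
  | .b => ⟨s.a, l, s.c, s.d, s.x⟩
  | .c => ⟨s.a, s.b, l, s.d, s.x⟩
  | .d => ⟨s.a, s.b, s.c, l, s.x⟩
  | .x i => ⟨s.a, s.b, s.c, s.d, Function.update s.x i l⟩

@[simp] theorem get_set_self (s : Sta m A) (k : Ix m) (l : List A) : (s.set k l).get k = l := by
  cases k <;> simp [get, set]

theorem get_set_of_ne (s : Sta m A) {k k' : Ix m} (h : k' ≠ k) (l : List A) :
    (s.set k l).get k' = s.get k' := by
  cases k <;> cases k' <;> simp_all [get, set]

@[ext] theorem ext' {s s' : Sta m A} (h : ∀ k, s.get k = s'.get k) : s = s' := by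
  obtain ⟨a, b, c, d, x⟩ := s
  obtain ⟨a', b', c', d', x'⟩ := s'
  have ha := h .a
  have hb := h .b
  have hc := h .c
  have hd := h .d
  have hx : x = x' := funext fun i => h (.x i)
  simp only [get] at ha hb hc hd
  subst ha hb hc hd hx
  rfl

@[simp] theorem set_get (s : Sta m A) (k : Ix m) : s.set k (s.get k) = s := by
  ext k' : 1
  by_cases h : k' = k
  · subst h; simp
  · rw [get_set_of_ne _ h]

@[simp] theorem set_set (s : Sta m A) (k : Ix m) (l l' : List A) :
    (s.set k l).set k l' = s.set k l' := by
  ext k' : 1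
  by_cases h : k' = k
  · subst h; simp
  · rw [get_set_of_ne _ h, get_set_of_ne _ h, get_set_of_ne _ h]

theorem set_comm (s : Sta m A) {k k' : Ix m} (h : k ≠ k') (l l' : List A) :
    (s.set k l).set k' l' = (s.set k' l').set k l := by
  ext j : 1
  by_cases h1 : j = k
  · subst h1
    rw [get_set_of_ne _ h]; simp
  · rw [get_set_of_ne _ h1]
    by_cases h2 : j = k'
    · subst h2; simp
    · rw [get_set_of_ne _ h2, get_set_of_ne _ h2, get_set_of_ne _ h1]

/-- apply a function to all letters -/
def map (f : A → B) (s : Sta m A) : Sta m B :=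
  ⟨s.a.map f, s.b.map f, s.c.map f, s.d.map f, fun i => (s.x i).map f⟩

@[simp] theorem get_map (f : A → B) (s : Sta m A) (k : Ix m) : (s.map f).get k = (s.get k).map f := by
  cases k <;> rfl

/-- stack by stack concatenation -/
def app (s s' : Sta m A) : Sta m A :=
  ⟨s.a ++ s'.a, s.b ++ s'.b, s.c ++ s'.c, s.d ++ s'.d, fun i => s.x i ++ s'.x i⟩

@[simp] theorem get_app (s s' : Sta m A) (k : Ix m) : (s.app s').get k = s.get k ++ s'.get k := by
  cases k <;> rfl

/-- push the same letter on all stacks -/
def mark (v : A) (s : Sta m A) : Sta m A := ⟨v :: s.a, v :: s.b, v :: s.c, v :: s.d, fun i => v :: s.x i⟩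

@[simp] theorem get_mark (v : A) (s : Sta m A) (k : Ix m) : (s.mark v).get k = v :: s.get k := by
  cases k <;> rfl

end Sta

/-- Programs. -/
inductive LP (m : ℕ) (A : Type) : Type
  /-- do nothing -/
  | skip : LP m A
  /-- push the letter `v` on stack `k` -/
  | push (k : Ix m) (v : A) : LP m A
  /-- pop the letter `v` of stack `k` and continue with `f v` -/
  | pop (k : Ix m) (f : A → LP m A) : LP m A
  /-- first `P`, then `Q` -/
  | seq (P Q : LP m A) : LP m A
  /-- while the top letter of stack `k` satisfies `p` do `P` -/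
  | loop (k : Ix m) (p : A → Bool) (P : LP m A) : LP m A

/-- Semantics with the exact number of steps. -/
inductive LE : LP m A → Sta m A → Sta m A → ℕ → Prop
  | skip (s : Sta m A) : LE .skip s s 1
  | push (k : Ix m) (v : A) (s : Sta m A) : LE (.push k v) s (s.set k (v :: s.get k)) 1
  | pop {k : Ix m} {f : A → LP m A} {s s' : Sta m A} {v : A} {l : List A} {t : ℕ}
      (hs : s.get k = v :: l) (h : LE (f v) (s.set k l) s' t) : LE (.pop k f) s s' (t + 1)
  | seq {P Q : LP m A} {s s' s'' : Sta m A} {t t' : ℕ} (h : LE P s s' t) (h' : LE Q s' s'' t') :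
      LE (.seq P Q) s s'' (t + t')
  | loopT {k : Ix m} {p : A → Bool} {P : LP m A} {s s' s'' : Sta m A} {v : A} {l : List A}
      {t t' : ℕ} (hs : s.get k = v :: l) (hp : p v = true) (h : LE P s s' t)
      (h' : LE (.loop k p P) s' s'' t') : LE (.loop k p P) s s'' (t + t' + 1)
  | loopF {k : Ix m} {p : A → Bool} {P : LP m A} {s : Sta m A} {v : A} {l : List A}
      (hs : s.get k = v :: l) (hp : p v = false) : LE (.loop k p P) s s 1

/-- `P` leads from `s` to `s'` within `t` steps. -/
def LR (P : LP m A) (s s' : Sta m A) (t : ℕ) : Prop := ∃ r, r ≤ t ∧ LE P s s' r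

theorem LR.mono {P : LP m A} {s s' : Sta m A} {t t' : ℕ} (h : LR P s s' t) (ht : t ≤ t') :
    LR P s s' t' := by
  obtain ⟨r, hr, h⟩ := h
  exact ⟨r, hr.trans ht, h⟩

theorem LR.skip (s : Sta m A) : LR .skip s s 1 := ⟨1, le_rfl, .skip s⟩

theorem LR.push (k : Ix m) (v : A) (s : Sta m A) : LR (.push k v) s (s.set k (v :: s.get k)) 1 :=
  ⟨1, le_rfl, .push k v s⟩

theorem LR.pop {k : Ix m} {f : A → LP m A} {s s' : Sta m A} {v : A} {l : List A} {t : ℕ}
    (hs : s.get k = v :: l) (h : LR (f v) (s.set k l) s' t) : LR (.pop k f) s s' (t + 1) := by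
  obtain ⟨r, hr, h⟩ := h
  exact ⟨r + 1, by omega, .pop hs h⟩

theorem LR.seq {P Q : LP m A} {s s' s'' : Sta m A} {t t' : ℕ} (h : LR P s s' t)
    (h' : LR Q s' s'' t') : LR (.seq P Q) s s'' (t + t') := by
  obtain ⟨r, hr, h⟩ := h
  obtain ⟨q, hq, h'⟩ := h'
  exact ⟨r + q, by omega, .seq h h'⟩

theorem LR.loopT {k : Ix m} {p : A → Bool} {P : LP m A} {s s' s'' : Sta m A} {v : A} {l : List A}
    {t t' : ℕ} (hs : s.get k = v :: l) (hp : p v = true) (h : LR P s s' t)
    (h' : LR (.loop k p P) s' s'' t') : LR (.loop k p P) s s'' (t + t' + 1) := by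
  obtain ⟨r, hr, h⟩ := h
  obtain ⟨q, hq, h'⟩ := h'
  exact ⟨r + q + 1, by omega, .loopT hs hp h h'⟩

theorem LR.loopF {k : Ix m} {p : A → Bool} {P : LP m A} {s : Sta m A} {v : A} {l : List A}
    (hs : s.get k = v :: l) (hp : p v = false) : LR (.loop k p P) s s 1 :=
  ⟨1, le_rfl, .loopF hs hp⟩

/-! ### Partial runs of a loop -/

/-- The loop with body `P` leads from `s` to `s'` within time `t`. -/
def LL (k : Ix m) (p : A → Bool) (P : LP m A) (s s' : Sta m A) (t : ℕ) : Prop :=
  ∀ z u, LR (.loop k p P) s' z u → LR (.loop k p P) s z (t + u)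

section
variable {k : Ix m} {p : A → Bool} {P : LP m A}

theorem LL.refl (s : Sta m A) : LL k p P s s 0 := fun z u h => h.mono (by omega)

theorem LL.step {s s' : Sta m A} {v : A} {l : List A} {c : ℕ} (hs : s.get k = v :: l)
    (hp : p v = true) (h : LR P s s' c) : LL k p P s s' (c + 1) :=
  fun z u hz => (LR.loopT hs hp h hz).mono (by omega)

theorem LL.trans {x y z : Sta m A} {s t : ℕ} (h : LL k p P x y s) (h' : LL k p P y z t) :
    LL k p P x z (s + t) := fun w u hw => (h w (t + u) (h' w u hw)).mono (by omega)

theorem LL.mono {x y : Sta m A} {s t : ℕ} (h : LL k p P x y s) (hst : s ≤ t) :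
    LL k p P x y t := fun z u hz => (h z u hz).mono (by omega)

theorem LL.finish {x y : Sta m A} {v : A} {l : List A} {t : ℕ} (h : LL k p P x y t)
    (hs : y.get k = v :: l) (hp : p v = false) : LR (.loop k p P) x y (t + 1) :=
  h y 1 (.loopF hs hp)
end

/-! ### Letters -/

/-- The letters of the programs: the bits `o` (false) and `i` (true), an end letter `hs`, a marker
`mk`, free positions of a template with the values 0, 1 (`f0`, `f1`), fixed ones (`g0`, `g1`), two
flags and `N` extra letters. -/
inductive Lt (N : ℕ) : Type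
  | o | i | hs | mk | f0 | f1 | g0 | g1 | re | se
  | e (n : Fin N)
  deriving DecidableEq, Fintype

variable {N : ℕ}

/-- the letter of a bit -/
def bt (b : Bool) : Lt N := if b then .i else .o

/-- the word of a bit string -/
def bw (l : List Bool) : List (Lt N) := l.map bt

/-- the letter is a bit -/
def isB : Lt N → Bool
  | .o => true
  | .i => true
  | _ => false

@[simp] theorem isB_bt (b : Bool) : isB (bt b : Lt N) = true := by cases b <;> rfl

/-- the bit of a letter (of a bit or of a template) -/
def vb : Lt N → Bool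
  | .i => true
  | .f1 => true
  | .g1 => true
  | _ => false

@[simp] theorem vb_bt (b : Bool) : vb (bt b : Lt N) = b := by cases b <;> rfl

/-- the letter is a letter of a template -/
def isT : Lt N → Bool
  | .f0 => true
  | .f1 => true
  | .g0 => true
  | .g1 => true
  | _ => false

/-- value of a bit string, least significant bit first -/
def lval : List Bool → ℕ
  | [] => 0
  | b :: l => b.toNat + 2 * lval l

/-! ### Normalised machines -/

/-- Instructions of normalised machines. -/
inductive NI (m : ℕ) (S Q : Type) : Type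
  | push (k : Ix m) (g : S) (q : Q) : NI m S Q
  | pop (k : Ix m) (f : Option S → Q) : NI m S Q
  | peek (k : Ix m) (f : Option S → Q) : NI m S Q
  | halt : NI m S Q

/-- Normalised machines with `m + 4` stacks: symbols `Fin S`, states `Fin Q`; the input is on
stack `a`, the output on stack `ko`. -/
structure NM (m : ℕ) : Type where
  S : ℕ
  Q : ℕ
  q0 : Fin Q
  ins : Fin Q → NI m (Fin S) (Fin Q)
  inp : Bool → Fin S
  out : Fin S → Bool
  ko : Ix m

/-- Configurations of normalised machines. -/
abbrev NC (V : NM m) : Type := Fin V.Q × Sta m (Fin V.S)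

/-- One step (a halting configuration does not change). -/
def NM.step (V : NM m) (c : NC V) : NC V :=
  match V.ins c.1 with
  | .push k g q => (q, c.2.set k (g :: c.2.get k))
  | .pop k f => (f (c.2.get k).head?, c.2.set k (c.2.get k).tail)
  | .peek k f => (f (c.2.get k).head?, c.2)
  | .halt => c

/-- the configuration is final -/
def NM.hal (V : NM m) (c : NC V) : Prop := V.ins c.1 = .halt

/-- the initial configuration with input `d` -/
def NM.init (V : NM m) (d : List Bool) : NC V := (V.q0, ⟨d.map V.inp, [], [], [], fun _ => []⟩)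

/-- the output after `s` steps -/
def NM.val (V : NM m) (s : ℕ) (d : List Bool) : List Bool :=
  ((V.step^[s] (V.init d)).2.get V.ko).map V.out

/-- The class of machines: Turing machines (Mathlib's multi-stack machines) with binary input and
output, at most `m + 4` stacks, and different stacks for input and output. -/
def Cls (m : ℕ) (M : Machine) : Prop :=
  @Fintype.card M.tm.K M.tm.kFin ≤ m + 4 ∧ M.tm.k₀ ≠ M.tm.k₁

end Pool.Agent.Lib.MP_33f9c4_lc.TT
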