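import Pool.Agent.Lib.MP_33f9c4_lc.T.Fmt
import Pool.Agent.Lib.MP_33f9c4_lc.T.FewPT
import Pool.Agent.Lib.MP_33f9c4_lc.T.Mach

set_option autoImplicit false

/-!
MODULE Main1. First phase: from the input to the layout for the reading phase.

From `sIn w` (`a = bw w ++ [mk]`, all other stacks `[mk]`):
(1) move `bw w` from `a` to `b` (until `mk`: reversed), push `hs` on `a`, move it from `b` to `a` and `c` at the same time (`mv2`, until `mk`); push
`o`, `o` on `a`... (order: the word at the bottom of `a` must be `o o bw w hs mk`); then two further copies above it: from `c` (reversed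
word) to `a` and `b`, etc. Result: `a = bw w ++ hs :: (bw w ++ hs :: (o :: o :: (bw w ++ hs :: [mk])))`.
(2) `few_pt h1`: `a = 1^e hs w hs o o w hs mk`. (3) `pow_run`: `1^(2^e)`. (4) replace the first `hs` by `o`: move `1^(2^e)` to `c`
(until `hs`), pop `hs`, push `o`, move back (until `mk`). (5) `few_pt h2`; (6) `unp_run`: `d = 1^mm hs κ.reverse hs 1^K hs τ hs mk` (`unp_fmt2`),
`a = o o w hs mk`. (7) distribute: push `hs` on `c`, move `1^mm` from `d` to `c`, pop `hs` of `d`, push `hs` on `c`, move the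
clock from `d` to `c`, pop `hs` of `d`; push `hs` on `a`, move `1^K` from `d` to `a`, pop `hs` of `d`.
The cost is polynomial: the lengths of `p1 w` and of `fmt2 ..` (so `mm`, `κ.length`, `K`, `τ.length`) are bounded
by polynomials by `PT.size_le` (or by the cost of `few_pt`).
-/

namespace Pool.Agent.Lib.MP_33f9c4_lc.TT

open Pool.Agent.Lib.PolyTime

variable {m : ℕ}

private theorem main1_mv {N : ℕ} {k k' : Ix m} (hk : k ≠ k') {p : Lt N → Bool}
    {s s' : Sta m (Lt N)} {l : List (Lt N)} {v : Lt N} {r : List (Lt N)} (hs : s.get k = l ++ v :: r)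
    (hl : ∀ u ∈ l, p u = true) (hv : p v = false)
    (e : (s.set k (v :: r)).set k' (l.reverse ++ s.get k') = s') :
    LR (mv k k' p id) s s' (3 * l.length + 1) := by
  have h := mv_run hk (p := p) id hs hl hv
  rw [List.map_id, e] at h
  exact h

private theorem main1_mv2 {N : ℕ} {k k' k'' : Ix m} (hk : k ≠ k') (hk' : k ≠ k'') (hk'' : k' ≠ k'')
    {p : Lt N → Bool} {s s' : Sta m (Lt N)} {l : List (Lt N)} {v : Lt N} {r : List (Lt N)}
    (hs : s.get k = l ++ v :: r) (hl : ∀ u ∈ l, p u = true) (hv : p v = false)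
    (e : ((s.set k (v :: r)).set k' (l.reverse ++ s.get k')).set k'' (l.reverse ++ s.get k'') = s') :
    LR (mv2 k k' k'' p id id) s s' (4 * l.length + 1) := by
  have h := mv2_run hk hk' hk'' (p := p) id id hs hl hv
  rw [List.map_id, e] at h
  exact h

private theorem main1_bw {N : ℕ} (w : List Bool) : ∀ u ∈ (bw w : List (Lt N)), isB u = true := by
  intro u hu
  obtain ⟨b, _, rfl⟩ := List.mem_map.mp hu
  exact isB_bt b

private theorem main1_bwr {N : ℕ} (w : List Bool) :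
    ∀ u ∈ (bw w : List (Lt N)).reverse, isB u = true := by
  intro u hu
  exact main1_bw w u (List.mem_reverse.mp hu)

private theorem main1_rep {N : ℕ} (n : ℕ) :
    ∀ u ∈ (List.replicate n .i : List (Lt N)), isB u = true := by
  intro u hu
  rw [List.eq_of_mem_replicate hu]
  rfl

private theorem main1_bw_rep {N : ℕ} (n : ℕ) :
    (bw (List.replicate n true) : List (Lt N)) = List.replicate n .i := by
  unfold bw
  rw [List.map_replicate]
  rfl

private theorem main1_size (z : List Bool) : size z ≤ 4 * z.length + 1 := by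
  induction z with
  | nil => exact le_of_eq rfl
  | cons b z ih =>
    have hb : size b ≤ 3 := by cases b <;> decide
    rw [size_cons, List.length_cons]
    omega

section steps

variable {N : ℕ}

/-- copies of the input -/
private def main1_A : LP m (Lt N) :=
  .seq (mv .a .b isB id) (.seq (.push .a Lt.hs) (.seq (mv2 .b .a .c isB id id) (.seq (.push .a Lt.o)
    (.seq (.push .a Lt.o) (.seq (.push .a Lt.hs) (.seq (mv .c .b isB id) (.seq (mv2 .b .a .c isB id id)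
      (.seq (.push .a Lt.hs) (.seq (mv .c .b isB id) (mv .b .a isB id))))))))))

private theorem main1_A_run (w : List Bool) : LR (main1_A : LP m (Lt N)) (sIn w)
    ⟨bw w ++ Lt.hs :: (bw w ++ Lt.hs :: (Lt.o :: Lt.o :: (bw w ++ [Lt.hs, Lt.mk]))), [Lt.mk], [Lt.mk], [Lt.mk],
      fun _ => [Lt.mk]⟩ (20 * w.length + 11) := by
  have hlen : (bw w : List (Lt N)).length = w.length := List.length_map _
  have hlenr : (bw w : List (Lt N)).reverse.length = w.length := by rw [List.length_reverse, hlen]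
  obtain ⟨X, hX⟩ : ∃ X : Fin m → List (Lt N), X = fun _ => [Lt.mk] := ⟨_, rfl⟩
  have h1 : LR (mv .a .b isB id) (sIn w : Sta m (Lt N))
      ⟨[Lt.mk], (bw w).reverse ++ [Lt.mk], [Lt.mk], [Lt.mk], X⟩ (3 * (bw w : List (Lt N)).length + 1) :=
    main1_mv (k := .a) (k' := .b) (l := bw w) (v := Lt.mk) (r := []) (by intro h; cases h) rfl
      (main1_bw w) rfl (by rw [hX]; rfl)
  have h2 : LR (.push .a Lt.hs) (⟨[Lt.mk], (bw w).reverse ++ [Lt.mk], [Lt.mk], [Lt.mk], X⟩ : Sta m (Lt N))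
      ⟨[Lt.hs, Lt.mk], (bw w).reverse ++ [Lt.mk], [Lt.mk], [Lt.mk], X⟩ 1 := LR.push _ _ _
  have h3 : LR (mv2 .b .a .c isB id id)
      (⟨[Lt.hs, Lt.mk], (bw w).reverse ++ [Lt.mk], [Lt.mk], [Lt.mk], X⟩ : Sta m (Lt N))
      ⟨bw w ++ [Lt.hs, Lt.mk], [Lt.mk], bw w ++ [Lt.mk], [Lt.mk], X⟩
      (4 * (bw w : List (Lt N)).reverse.length + 1) :=
    main1_mv2 (k := .b) (k' := .a) (k'' := .c) (l := (bw w).reverse) (v := Lt.mk) (r := [])
      (by intro h; cases h) (by intro h; cases h) (by intro h; cases h) rfl (main1_bwr w) rfl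
      (by rw [List.reverse_reverse]; rfl)
  have h4 : LR (.push .a Lt.o) (⟨bw w ++ [Lt.hs, Lt.mk], [Lt.mk], bw w ++ [Lt.mk], [Lt.mk], X⟩ : Sta m (Lt N))
      ⟨Lt.o :: (bw w ++ [Lt.hs, Lt.mk]), [Lt.mk], bw w ++ [Lt.mk], [Lt.mk], X⟩ 1 := LR.push _ _ _
  have h5 : LR (.push .a Lt.o)
      (⟨Lt.o :: (bw w ++ [Lt.hs, Lt.mk]), [Lt.mk], bw w ++ [Lt.mk], [Lt.mk], X⟩ : Sta m (Lt N))
      ⟨Lt.o :: Lt.o :: (bw w ++ [Lt.hs, Lt.mk]), [Lt.mk], bw w ++ [Lt.mk], [Lt.mk], X⟩ 1 := LR.push _ _ _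
  have h6 : LR (.push .a Lt.hs)
      (⟨Lt.o :: Lt.o :: (bw w ++ [Lt.hs, Lt.mk]), [Lt.mk], bw w ++ [Lt.mk], [Lt.mk], X⟩ : Sta m (Lt N))
      ⟨Lt.hs :: Lt.o :: Lt.o :: (bw w ++ [Lt.hs, Lt.mk]), [Lt.mk], bw w ++ [Lt.mk], [Lt.mk], X⟩ 1 := LR.push _ _ _
  have h7 : LR (mv .c .b isB id)
      (⟨Lt.hs :: Lt.o :: Lt.o :: (bw w ++ [Lt.hs, Lt.mk]), [Lt.mk], bw w ++ [Lt.mk], [Lt.mk], X⟩ : Sta m (Lt N))
      ⟨Lt.hs :: Lt.o :: Lt.o :: (bw w ++ [Lt.hs, Lt.mk]), (bw w).reverse ++ [Lt.mk], [Lt.mk], [Lt.mk], X⟩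
      (3 * (bw w : List (Lt N)).length + 1) :=
    main1_mv (k := .c) (k' := .b) (l := bw w) (v := Lt.mk) (r := []) (by intro h; cases h) rfl
      (main1_bw w) rfl rfl
  have h8 : LR (mv2 .b .a .c isB id id)
      (⟨Lt.hs :: Lt.o :: Lt.o :: (bw w ++ [Lt.hs, Lt.mk]), (bw w).reverse ++ [Lt.mk], [Lt.mk], [Lt.mk], X⟩ :
        Sta m (Lt N))
      ⟨bw w ++ Lt.hs :: Lt.o :: Lt.o :: (bw w ++ [Lt.hs, Lt.mk]), [Lt.mk], bw w ++ [Lt.mk], [Lt.mk], X⟩
      (4 * (bw w : List (Lt N)).reverse.length + 1) :=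
    main1_mv2 (k := .b) (k' := .a) (k'' := .c) (l := (bw w).reverse) (v := Lt.mk) (r := [])
      (by intro h; cases h) (by intro h; cases h) (by intro h; cases h) rfl (main1_bwr w) rfl
      (by rw [List.reverse_reverse]; rfl)
  have h9 : LR (.push .a Lt.hs)
      (⟨bw w ++ Lt.hs :: Lt.o :: Lt.o :: (bw w ++ [Lt.hs, Lt.mk]), [Lt.mk], bw w ++ [Lt.mk], [Lt.mk], X⟩ :
        Sta m (Lt N))
      ⟨Lt.hs :: (bw w ++ Lt.hs :: Lt.o :: Lt.o :: (bw w ++ [Lt.hs, Lt.mk])), [Lt.mk], bw w ++ [Lt.mk], [Lt.mk], X⟩ 1 :=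
    LR.push _ _ _
  have h10 : LR (mv .c .b isB id)
      (⟨Lt.hs :: (bw w ++ Lt.hs :: Lt.o :: Lt.o :: (bw w ++ [Lt.hs, Lt.mk])), [Lt.mk], bw w ++ [Lt.mk], [Lt.mk], X⟩ :
        Sta m (Lt N))
      ⟨Lt.hs :: (bw w ++ Lt.hs :: Lt.o :: Lt.o :: (bw w ++ [Lt.hs, Lt.mk])), (bw w).reverse ++ [Lt.mk], [Lt.mk],
        [Lt.mk], X⟩ (3 * (bw w : List (Lt N)).length + 1) :=
    main1_mv (k := .c) (k' := .b) (l := bw w) (v := Lt.mk) (r := []) (by intro h; cases h) rfl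
      (main1_bw w) rfl rfl
  have h11 : LR (mv .b .a isB id)
      (⟨Lt.hs :: (bw w ++ Lt.hs :: Lt.o :: Lt.o :: (bw w ++ [Lt.hs, Lt.mk])), (bw w).reverse ++ [Lt.mk], [Lt.mk],
        [Lt.mk], X⟩ : Sta m (Lt N))
      ⟨bw w ++ Lt.hs :: (bw w ++ Lt.hs :: Lt.o :: Lt.o :: (bw w ++ [Lt.hs, Lt.mk])), [Lt.mk], [Lt.mk],
        [Lt.mk], X⟩ (3 * (bw w : List (Lt N)).reverse.length + 1) :=
    main1_mv (k := .b) (k' := .a) (l := (bw w).reverse) (v := Lt.mk) (r := [])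
      (by intro h; cases h) rfl (main1_bwr w) rfl (by rw [List.reverse_reverse]; rfl)
  rw [← hX]
  refine (LR.seq h1 (LR.seq h2 (LR.seq h3 (LR.seq h4 (LR.seq h5 (LR.seq h6 (LR.seq h7 (LR.seq h8
    (LR.seq h9 (LR.seq h10 h11)))))))))).mono ?_
  rw [hlen, hlenr]
  omega

/-- replace the first `hs` by `o` -/
private def main1_B : LP m (Lt N) :=
  .seq (mv .a .c isB id) (.seq (pop1 .a) (.seq (.push .a Lt.o) (mv .c .a isB id)))

private theorem main1_B_run (n : ℕ) (α β δ : List (Lt N)) (ξ : Fin m → List (Lt N)) :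
    LR (main1_B : LP m (Lt N)) ⟨List.replicate n Lt.i ++ Lt.hs :: α, β, [Lt.mk], δ, ξ⟩
      ⟨List.replicate n Lt.i ++ Lt.o :: α, β, [Lt.mk], δ, ξ⟩ (6 * n + 5) := by
  have h1 : LR (mv .a .c isB id)
      (⟨List.replicate n Lt.i ++ Lt.hs :: α, β, [Lt.mk], δ, ξ⟩ : Sta m (Lt N))
      ⟨Lt.hs :: α, β, List.replicate n Lt.i ++ [Lt.mk], δ, ξ⟩
      (3 * (List.replicate n (Lt.i : Lt N)).length + 1) :=
    main1_mv (k := .a) (k' := .c) (l := List.replicate n Lt.i) (v := Lt.hs) (r := α)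
      (by intro h; cases h) rfl (main1_rep n) rfl (by rw [List.reverse_replicate]; rfl)
  have h2 : LR (pop1 .a) (⟨Lt.hs :: α, β, List.replicate n Lt.i ++ [Lt.mk], δ, ξ⟩ : Sta m (Lt N))
      ⟨α, β, List.replicate n Lt.i ++ [Lt.mk], δ, ξ⟩ 2 := pop1_run (v := Lt.hs) rfl
  have h3 : LR (.push .a Lt.o) (⟨α, β, List.replicate n Lt.i ++ [Lt.mk], δ, ξ⟩ : Sta m (Lt N))
      ⟨Lt.o :: α, β, List.replicate n Lt.i ++ [Lt.mk], δ, ξ⟩ 1 := LR.push _ _ _
  have h4 : LR (mv .c .a isB id)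
      (⟨Lt.o :: α, β, List.replicate n Lt.i ++ [Lt.mk], δ, ξ⟩ : Sta m (Lt N))
      ⟨List.replicate n Lt.i ++ Lt.o :: α, β, [Lt.mk], δ, ξ⟩
      (3 * (List.replicate n (Lt.i : Lt N)).length + 1) :=
    main1_mv (k := .c) (k' := .a) (l := List.replicate n Lt.i) (v := Lt.mk) (r := [])
      (by intro h; cases h) rfl (main1_rep n) rfl (by rw [List.reverse_replicate]; rfl)
  refine (LR.seq h1 (LR.seq h2 (LR.seq h3 h4))).mono ?_
  rw [List.length_replicate]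
  omega

/-- distribute the parameters -/
private def main1_C : LP m (Lt N) :=
  .seq (.push .c Lt.hs) (.seq (mv .d .c isB id) (.seq (pop1 .d) (.seq (.push .c Lt.hs)
    (.seq (mv .d .c isB id) (.seq (pop1 .d) (.seq (.push .a Lt.hs) (.seq (mv .d .a isB id)
      (pop1 .d))))))))

private theorem main1_C_run (mm K : ℕ) (κ : List Bool) (α β δ : List (Lt N))
    (ξ : Fin m → List (Lt N)) :
    LR (main1_C : LP m (Lt N)) ⟨α, β, [Lt.mk], List.replicate mm Lt.i ++ Lt.hs :: ((bw κ).reverse ++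
        Lt.hs :: (List.replicate K Lt.i ++ Lt.hs :: δ)), ξ⟩
      ⟨List.replicate K Lt.i ++ Lt.hs :: α, β, bw κ ++ Lt.hs :: (List.replicate mm Lt.i ++ [Lt.hs, Lt.mk]), δ, ξ⟩
      (3 * (mm + κ.length + K) + 12) := by
  have hlenr : (bw κ : List (Lt N)).reverse.length = κ.length := by
    rw [List.length_reverse]; exact List.length_map _
  have h1 : LR (.push .c Lt.hs) (⟨α, β, [Lt.mk], List.replicate mm Lt.i ++ Lt.hs :: ((bw κ).reverse ++
        Lt.hs :: (List.replicate K Lt.i ++ Lt.hs :: δ)), ξ⟩ : Sta m (Lt N))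
      ⟨α, β, [Lt.hs, Lt.mk], List.replicate mm Lt.i ++ Lt.hs :: ((bw κ).reverse ++
        Lt.hs :: (List.replicate K Lt.i ++ Lt.hs :: δ)), ξ⟩ 1 := LR.push _ _ _
  have h2 : LR (mv .d .c isB id)
      (⟨α, β, [Lt.hs, Lt.mk], List.replicate mm Lt.i ++ Lt.hs :: ((bw κ).reverse ++
        Lt.hs :: (List.replicate K Lt.i ++ Lt.hs :: δ)), ξ⟩ : Sta m (Lt N))
      ⟨α, β, List.replicate mm Lt.i ++ [Lt.hs, Lt.mk], Lt.hs :: ((bw κ).reverse ++
        Lt.hs :: (List.replicate K Lt.i ++ Lt.hs :: δ)), ξ⟩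
      (3 * (List.replicate mm (Lt.i : Lt N)).length + 1) :=
    main1_mv (k := .d) (k' := .c) (l := List.replicate mm Lt.i) (v := Lt.hs)
      (r := (bw κ).reverse ++ Lt.hs :: (List.replicate K Lt.i ++ Lt.hs :: δ))
      (by intro h; cases h) rfl (main1_rep mm) rfl (by rw [List.reverse_replicate]; rfl)
  have h3 : LR (pop1 .d) (⟨α, β, List.replicate mm Lt.i ++ [Lt.hs, Lt.mk], Lt.hs :: ((bw κ).reverse ++
        Lt.hs :: (List.replicate K Lt.i ++ Lt.hs :: δ)), ξ⟩ : Sta m (Lt N))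
      ⟨α, β, List.replicate mm Lt.i ++ [Lt.hs, Lt.mk], (bw κ).reverse ++
        Lt.hs :: (List.replicate K Lt.i ++ Lt.hs :: δ), ξ⟩ 2 := pop1_run (v := Lt.hs) rfl
  have h4 : LR (.push .c Lt.hs) (⟨α, β, List.replicate mm Lt.i ++ [Lt.hs, Lt.mk], (bw κ).reverse ++
        Lt.hs :: (List.replicate K Lt.i ++ Lt.hs :: δ), ξ⟩ : Sta m (Lt N))
      ⟨α, β, Lt.hs :: (List.replicate mm Lt.i ++ [Lt.hs, Lt.mk]), (bw κ).reverse ++
        Lt.hs :: (List.replicate K Lt.i ++ Lt.hs :: δ), ξ⟩ 1 := LR.push _ _ _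
  have h5 : LR (mv .d .c isB id)
      (⟨α, β, Lt.hs :: (List.replicate mm Lt.i ++ [Lt.hs, Lt.mk]), (bw κ).reverse ++
        Lt.hs :: (List.replicate K Lt.i ++ Lt.hs :: δ), ξ⟩ : Sta m (Lt N))
      ⟨α, β, bw κ ++ Lt.hs :: (List.replicate mm Lt.i ++ [Lt.hs, Lt.mk]),
        Lt.hs :: (List.replicate K Lt.i ++ Lt.hs :: δ), ξ⟩
      (3 * (bw κ : List (Lt N)).reverse.length + 1) :=
    main1_mv (k := .d) (k' := .c) (l := (bw κ).reverse) (v := Lt.hs)
      (r := List.replicate K Lt.i ++ Lt.hs :: δ) (by intro h; cases h) rfl (main1_bwr κ) rfl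
      (by rw [List.reverse_reverse]; rfl)
  have h6 : LR (pop1 .d) (⟨α, β, bw κ ++ Lt.hs :: (List.replicate mm Lt.i ++ [Lt.hs, Lt.mk]),
        Lt.hs :: (List.replicate K Lt.i ++ Lt.hs :: δ), ξ⟩ : Sta m (Lt N))
      ⟨α, β, bw κ ++ Lt.hs :: (List.replicate mm Lt.i ++ [Lt.hs, Lt.mk]),
        List.replicate K Lt.i ++ Lt.hs :: δ, ξ⟩ 2 := pop1_run (v := Lt.hs) rfl
  have h7 : LR (.push .a Lt.hs) (⟨α, β, bw κ ++ Lt.hs :: (List.replicate mm Lt.i ++ [Lt.hs, Lt.mk]),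
        List.replicate K Lt.i ++ Lt.hs :: δ, ξ⟩ : Sta m (Lt N))
      ⟨Lt.hs :: α, β, bw κ ++ Lt.hs :: (List.replicate mm Lt.i ++ [Lt.hs, Lt.mk]),
        List.replicate K Lt.i ++ Lt.hs :: δ, ξ⟩ 1 := LR.push _ _ _
  have h8 : LR (mv .d .a isB id)
      (⟨Lt.hs :: α, β, bw κ ++ Lt.hs :: (List.replicate mm Lt.i ++ [Lt.hs, Lt.mk]),
        List.replicate K Lt.i ++ Lt.hs :: δ, ξ⟩ : Sta m (Lt N))
      ⟨List.replicate K Lt.i ++ Lt.hs :: α, β, bw κ ++ Lt.hs :: (List.replicate mm Lt.i ++ [Lt.hs, Lt.mk]),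
        Lt.hs :: δ, ξ⟩
      (3 * (List.replicate K (Lt.i : Lt N)).length + 1) :=
    main1_mv (k := .d) (k' := .a) (l := List.replicate K Lt.i) (v := Lt.hs) (r := δ)
      (by intro h; cases h) rfl (main1_rep K) rfl (by rw [List.reverse_replicate]; rfl)
  have h9 : LR (pop1 .d) (⟨List.replicate K Lt.i ++ Lt.hs :: α, β,
        bw κ ++ Lt.hs :: (List.replicate mm Lt.i ++ [Lt.hs, Lt.mk]), Lt.hs :: δ, ξ⟩ : Sta m (Lt N))
      ⟨List.replicate K Lt.i ++ Lt.hs :: α, β, bw κ ++ Lt.hs :: (List.replicate mm Lt.i ++ [Lt.hs, Lt.mk]),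
        δ, ξ⟩ 2 := pop1_run (v := Lt.hs) rfl
  refine (LR.seq h1 (LR.seq h2 (LR.seq h3 (LR.seq h4 (LR.seq h5 (LR.seq h6 (LR.seq h7 (LR.seq h8
    h9)))))))).mono ?_
  rw [List.length_replicate, List.length_replicate, hlenr]
  omega

end steps

theorem phase1 {p1 p2 : List Bool → List Bool} (h1 : PT p1) (h2 : PT p2) : ∃ N₀ : ℕ, ∀ N, N₀ ≤ N →
    ∃ (P : LP m (Lt N)) (Q : Polynomial ℕ), ∀ (w : List Bool) (e mm K : ℕ) (κ : List Bool)
      (τ : List (Option Bool)), p1 w = List.replicate e true →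
      p2 (List.replicate (2 ^ e) true ++ false :: w) = fmt2 mm κ K τ →
      LR P (sIn w) ⟨List.replicate K .i ++ .hs :: (.o :: .o :: (bw w ++ [.hs, .mk])), [.mk],
        bw κ ++ .hs :: (List.replicate mm .i ++ [.hs, .mk]), τ.map tl ++ [.hs, .mk],
        fun _ => [.mk]⟩ (Q.eval (w.length + 2 ^ e)) ∧
      mm + K + κ.length + τ.length ≤ Q.eval (w.length + 2 ^ e) := by
  obtain ⟨N1, hN1⟩ := few_pt (m := m) h1
  obtain ⟨N2, hN2⟩ := few_pt (m := m) h2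
  obtain ⟨r, hr⟩ := h2.size_le
  refine ⟨max N1 N2, fun N hN => ?_⟩
  obtain ⟨P1, Q1, hP1⟩ := hN1 N ((le_max_left _ _).trans hN)
  obtain ⟨P2, Q2, hP2⟩ := hN2 N ((le_max_right _ _).trans hN)
  obtain ⟨P3, C3, hP3⟩ := pow_run (m := m) (N := N)
  obtain ⟨P4, C4, hP4⟩ := unp_run (m := m) (N := N)
  refine ⟨.seq main1_A (.seq P1 (.seq P3 (.seq main1_B (.seq P2 (.seq P4 main1_C))))),
    (Polynomial.C 20 * Polynomial.X + Polynomial.C 28) + Q1 + Polynomial.C C3 * Polynomial.X +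
      Polynomial.C 6 * Polynomial.X + Q2.comp (Polynomial.X + Polynomial.C 1) +
      (Polynomial.C C4 + Polynomial.C 3) * (r.comp (Polynomial.C 4 * Polynomial.X + Polynomial.C 5) +
        Polynomial.C 1),
    fun w e mm K κ τ hp1 hp2 => ?_⟩
  obtain ⟨n, hn⟩ : ∃ n, n = w.length + 2 ^ e := ⟨_, rfl⟩
  obtain ⟨R, hR⟩ : ∃ R, R = r.eval (4 * n + 5) := ⟨_, rfl⟩
  have hQ : ((Polynomial.C 20 * Polynomial.X + Polynomial.C 28) + Q1 + Polynomial.C C3 * Polynomial.X +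
      Polynomial.C 6 * Polynomial.X + Q2.comp (Polynomial.X + Polynomial.C 1) +
      (Polynomial.C C4 + Polynomial.C 3) * (r.comp (Polynomial.C 4 * Polynomial.X + Polynomial.C 5) +
        Polynomial.C 1) : Polynomial ℕ).eval n =
      (20 * n + 28) + Q1.eval n + C3 * n + 6 * n + Q2.eval (n + 1) + (C4 + 3) * (R + 1) := by
    simp only [Polynomial.eval_add, Polynomial.eval_mul, Polynomial.eval_C, Polynomial.eval_X,
      Polynomial.eval_comp]
    rw [← hR]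
  rw [← hn, hQ]
  have hz : (List.replicate (2 ^ e) true ++ false :: w).length = n + 1 := by
    rw [List.length_append, List.length_replicate, List.length_cons, hn]
    ring
  have hlen : (fmt2 mm κ K τ).length ≤ R := by
    rw [← hp2]
    refine (length_le_size _).trans ((hr _).trans ?_)
    rw [hR]
    refine eval_mono r ((main1_size _).trans ?_)
    rw [hz]
    omega
  have hlen2 := length_fmt2 mm κ K τ
  have hdvd : 3 ∣ (fmt2 mm κ K τ).length := by rw [hlen2]; exact Nat.dvd_mul_right _ _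
  have hK : mm + K + κ.length + τ.length ≤ R := by omega
  refine ⟨?_, ?_⟩
  swap
  · nlinarith
  obtain ⟨X, hX⟩ : ∃ X : Fin m → List (Lt N), X = fun _ => [Lt.mk] := ⟨_, rfl⟩
  have e1 := main1_A_run (m := m) (N := N) w
  have e2 := hP1 w (bw w ++ Lt.hs :: (Lt.o :: Lt.o :: (bw w ++ [Lt.hs, Lt.mk]))) [Lt.mk] [Lt.mk] [Lt.mk] X
  rw [hp1, main1_bw_rep] at e2
  have e3 := hP3 e (bw w ++ Lt.hs :: (Lt.o :: Lt.o :: (bw w ++ [Lt.hs, Lt.mk]))) [Lt.mk] [Lt.mk] [Lt.mk] X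
  have e4 := main1_B_run (m := m) (2 ^ e) (bw w ++ Lt.hs :: (Lt.o :: Lt.o :: (bw w ++ [Lt.hs, Lt.mk]))) [Lt.mk]
    [Lt.mk] X
  have e5 := hP2 (List.replicate (2 ^ e) true ++ false :: w) (Lt.o :: Lt.o :: (bw w ++ [Lt.hs, Lt.mk]))
    [Lt.mk] [Lt.mk] [Lt.mk] X
  have hb : (bw (List.replicate (2 ^ e) true ++ false :: w) : List (Lt N)) ++
      Lt.hs :: (Lt.o :: Lt.o :: (bw w ++ [Lt.hs, Lt.mk])) =
      List.replicate (2 ^ e) Lt.i ++ Lt.o :: (bw w ++ Lt.hs :: (Lt.o :: Lt.o :: (bw w ++ [Lt.hs, Lt.mk]))) := by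
    have h3 : (bw (List.replicate (2 ^ e) true ++ false :: w) : List (Lt N)) =
        bw (List.replicate (2 ^ e) true) ++ Lt.o :: bw w := by
      unfold bw
      rw [List.map_append, List.map_cons]
      rfl
    rw [h3, main1_bw_rep, List.append_assoc]
    rfl
  rw [hb, hz, hp2] at e5
  have e6 := hP4 (fmt2 mm κ K τ) (Lt.o :: Lt.o :: (bw w ++ [Lt.hs, Lt.mk])) [Lt.mk] [Lt.mk] [Lt.mk] X hdvd
  rw [unp_fmt2] at e6
  have e7 := main1_C_run (m := m) mm K κ (Lt.o :: Lt.o :: (bw w ++ [Lt.hs, Lt.mk])) [Lt.mk]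
    (τ.map tl ++ [Lt.hs, Lt.mk]) X
  have hd : (List.replicate mm (Lt.i : Lt N) ++ Lt.hs :: ((bw κ).reverse ++ Lt.hs :: (List.replicate K Lt.i ++
        Lt.hs :: (τ.map tl ++ [Lt.hs])))) ++ [Lt.mk] =
      List.replicate mm Lt.i ++ Lt.hs :: ((bw κ).reverse ++
        Lt.hs :: (List.replicate K Lt.i ++ Lt.hs :: (τ.map tl ++ [Lt.hs, Lt.mk]))) := by
    simp only [List.append_assoc, List.cons_append, List.nil_append]
  rw [hd] at e6
  rw [← hX] at e1 ⊢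
  refine (LR.seq e1 (LR.seq e2 (LR.seq e3 (LR.seq e4 (LR.seq e5 (LR.seq e6 e7)))))).mono ?_
  have hw : w.length ≤ n := by rw [hn]; exact Nat.le_add_right _ _
  have he : 2 ^ e ≤ n := by rw [hn]; exact Nat.le_add_left _ _
  have g1 : Q1.eval w.length ≤ Q1.eval n := eval_mono Q1 hw
  have g3 : C3 * 2 ^ e ≤ C3 * n := Nat.mul_le_mul_left _ he
  have g6 : C4 * ((fmt2 mm κ K τ).length + 1) ≤ C4 * (R + 1) :=
    Nat.mul_le_mul_left _ (by omega)
  have g7 : (C4 + 3) * (R + 1) = C4 * (R + 1) + 3 * (R + 1) := Nat.add_mul _ _ _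
  rw [g7]
  omega

end Pool.Agent.Lib.MP_33f9c4_lc.TT
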