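import Pool.Agent.Lib.MP_33f9c4_lc.K.MsgC
import Pool.Agent.Lib.MP_33f9c4_lc.T.FinG

set_option autoImplicit false

/-!
# MODULE SpA. The first two parameter functions of the diagonalising Turing machine
-/

namespace Pool.Agent.Lib.MP_33f9c4_lc.TT

open Pool.Agent.Lib.PolyTime
open Pool.Agent.Lib.MP_33f9c4_lc.LK (Par PPT gOf uOf nprC nprC_eq npr npr_le npr_prime pw pt_nprC
  pt_pw pt_tmpl pt_jhi hh hh_pos parT parT_R parT_n jhi tmpl gOf_mk uOf_mk pt_gOf pt_uOf rt)
open Pool.Agent.Lib.MP_33f9c4_lc.K (pt_replicate pt_powC)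

variable {α : Type} [Enc α]

/-- the parameters as functions of `g`, `H = hh g` and the large number `N` -/
def parOfT (c4 g H N : ℕ) : Par where
  n := H ^ 66
  l := 132 * g - c4
  s := 2 * H
  r := 8 * g
  R := H ^ 4
  w := 20 * g
  q := H ^ 15
  W := 3 * H ^ 15
  p := nprC N (pw N (H ^ 16))
  t := H ^ 16
  b := 4 * H ^ 16
  K := (H ^ 16 + 1) * (4 * H ^ 16) + 3 * H ^ 15
  c := H ^ 16
  a := 4 * H ^ 15
  B := 4 * H ^ 15
  E := 10 * H ^ 15
  N := N

theorem parOfT_n (c4 g N : ℕ) : (parOfT c4 g (hh g) N).n = (parT g c4).n := (parT_n g).symm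

theorem parOfT_R (c4 g N : ℕ) : (parOfT c4 g (hh g) N).R = (parT g c4).R := (parT_R g).symm

theorem parOfT_eq (c4 g : ℕ) : parOfT c4 g (hh g) (2 ^ (8 * hh g ^ 32)) = parT g c4 := by
  have h1 := hh_pos g
  have h2 : hh g ^ 16 ≤ hh g ^ 32 := Nat.pow_le_pow_right h1 (by norm_num)
  have h3 : 1 ≤ hh g ^ 16 := Nat.one_le_pow _ _ h1
  have hN : 2 ^ (hh g ^ 16) ≤ 2 ^ (8 * hh g ^ 32) := Nat.pow_le_pow_right (by norm_num) (by omega)
  have hN' : 2 * 2 ^ (hh g ^ 16) ≤ 2 ^ (8 * hh g ^ 32) := by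
    rw [← pow_succ']
    exact Nat.pow_le_pow_right (by norm_num) (by omega)
  have hpw : pw (2 ^ (8 * hh g ^ 32)) (hh g ^ 16) = 2 ^ (hh g ^ 16) := min_eq_left hN
  have hp : nprC (2 ^ (8 * hh g ^ 32)) (pw (2 ^ (8 * hh g ^ 32)) (hh g ^ 16)) =
      npr (2 ^ (hh g ^ 16)) := by
    rw [hpw]
    exact nprC_eq ((npr_le _ Nat.one_le_two_pow).trans hN')
  have hn := parOfT_n c4 g (2 ^ (8 * hh g ^ 32))
  have hR := parOfT_R c4 g (2 ^ (8 * hh g ^ 32))
  simp only [parOfT, parT] at hn hR ⊢
  rw [hn, hR, hp]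

theorem ppt_parOfT (c4 : ℕ) {g H N : α → ℕ} (hg : PT g) (hH : PT H) (hN : PT N) :
    PPT (fun a => parOfT c4 (g a) (H a) (N a)) where
  n := pt_powC hH 66
  l := PT.sub (PT.mulConst hg 132) (PT.const c4)
  s := PT.mulConst hH 2
  r := PT.mulConst hg 8
  R := pt_powC hH 4
  w := PT.mulConst hg 20
  q := pt_powC hH 15
  W := PT.mulConst (pt_powC hH 15) 3
  p := pt_nprC hN (pt_pw hN (pt_powC hH 16))
  t := pt_powC hH 16
  b := PT.mulConst (pt_powC hH 16) 4
  K := PT.add (PT.mul (PT.succ (pt_powC hH 16)) (PT.mulConst (pt_powC hH 16) 4))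
    (PT.mulConst (pt_powC hH 15) 3)
  c := pt_powC hH 16
  a := PT.mulConst (pt_powC hH 15) 4
  B := PT.mulConst (pt_powC hH 15) 4
  E := PT.mulConst (pt_powC hH 15) 10
  N := hN

/-! ### Formats -/

theorem flatten_replicate_eq (K : ℕ) (v : List Bool) :
    (List.replicate K v).flatten = (List.range K).flatMap fun _ => v := by
  induction K with
  | zero => rfl
  | succ K ih =>
    rw [List.range_succ, List.flatMap_append, ← ih, List.replicate_succ', List.flatten_append]
    simp

theorem pt_flatten_replicate {K : α → ℕ} (hK : PT K) (v : List Bool) :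
    PT (fun a => (List.replicate (K a) v).flatten) :=
  (PT.flatMap (f := fun a => List.range (K a)) (g := fun _ _ => v) (PT.range hK)
    (PT.const v)).congr (fun a => (flatten_replicate_eq _ _).symm)

instance encOptB : Enc (Option Bool) := inferInstance

theorem pt_ct : PT ct := by
  refine (PT.optCases (f := fun o : Option Bool => o) (g := fun _ => [true, false, false])
    (h := fun _ b => [true, true, b]) PT.id (PT.const _)
    (PT.cons (PT.const true) (PT.cons (PT.const true) (PT.list1 PT.snd)))).congr (fun o => ?_)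
  cases o <;> rfl

theorem pt_flatMap_ct {τ : α → List (Option Bool)} (hτ : PT τ) :
    PT (fun a => (τ a).flatMap ct) :=
  PT.flatMap (g := fun _ o => ct o) hτ (pt_ct.comp PT.snd)

theorem pt_fmt2 {mm K : α → ℕ} {κ : α → List Bool} {τ : α → List (Option Bool)} (hmm : PT mm)
    (hκ : PT κ) (hK : PT K) (hτ : PT τ) : PT (fun a => fmt2 (mm a) (κ a) (K a) (τ a)) := by
  unfold fmt2
  refine PT.append (PT.append (PT.append (PT.append (PT.append (PT.append (PT.append
    (PT.const _) (pt_flatMap_ct (PT.reverse hτ))) (PT.const _)) (pt_flatten_replicate hK _))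
    (PT.const _)) ?_) (PT.const _)) (pt_flatten_replicate hmm _)
  exact PT.flatMap (g := fun _ b => [false, false, b]) hκ
    (PT.cons (PT.const false) (PT.cons (PT.const false) (PT.list1 PT.snd)))

/-! ### The first two functions -/

/-- the first function -/
def p1T (w : List Bool) : List Bool := List.replicate (2 * gOf w) true

theorem pt_p1T : PT p1T := pt_replicate (PT.mulConst (pt_gOf PT.id) 2) (PT.const true)

theorem p1T_eq (g : ℕ) (u : List Bool) : p1T (inw g u) = List.replicate (2 * g) true := by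
  rw [p1T, inw, gOf_mk]

/-- the parameters of the second function -/
def P2T (c4 : ℕ) (z : List Bool) : Par := parOfT c4 (gOf (uOf z)) (gOf z) 0

/-- the second function -/
def p2T (c4 : ℕ) (z : List Bool) : List Bool :=
  fmt2 (jhi (P2T c4 z) (uOf (uOf z)) + 1 - (P2T c4 z).l)
    (List.replicate ((P2T c4 z).l + c4) false ++ [true]) (P2T c4 z).K
    (tmpl (P2T c4 z) (uOf (uOf z)) (P2T c4 z).l).reverse

theorem pt_p2T (c4 : ℕ) : PT (p2T c4) := by
  have hg : PT (fun z : List Bool => gOf (uOf z)) := pt_gOf (pt_uOf PT.id)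
  have hu : PT (fun z : List Bool => uOf (uOf z)) := pt_uOf (pt_uOf PT.id)
  have h : PPT (P2T c4) := ppt_parOfT c4 hg (pt_gOf PT.id) (PT.const 0)
  exact pt_fmt2 (PT.sub (PT.addConst (pt_jhi h hu) 1) h.l)
    (PT.append (pt_replicate (PT.addConst h.l c4) (PT.const false)) (PT.const [true])) h.K
    (PT.reverse (pt_tmpl h hu h.l))

theorem p2T_eq (c4 g : ℕ) (u : List Bool) :
    p2T c4 (List.replicate (hh g) true ++ false :: inw g u) =
      fmt2 (LK.mt (parT g c4) u) (kap (parT g c4).l c4) (parT g c4).K (rt (parT g c4) u) := by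
  have hn := parOfT_n c4 g 0
  have hR := parOfT_R c4 g 0
  have h1 : tmpl (parOfT c4 g (hh g) 0) u (parOfT c4 g (hh g) 0).l =
      tmpl (parT g c4) u (parT g c4).l := by
    unfold tmpl
    rw [hn, hR]
    rfl
  have h2 : jhi (parOfT c4 g (hh g) 0) u = jhi (parT g c4) u := by
    unfold jhi Par.jM
    rw [hR]
    rfl
  have e : P2T c4 (List.replicate (hh g) true ++ false :: inw g u) = parOfT c4 g (hh g) 0 := by
    rw [P2T, uOf_mk, gOf_mk, inw, gOf_mk]
  have e2 : uOf (uOf (List.replicate (hh g) true ++ false :: inw g u)) = u := by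
    rw [uOf_mk, inw, uOf_mk]
  rw [p2T, e, e2, h1, h2]
  rfl

end Pool.Agent.Lib.MP_33f9c4_lc.TT
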