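import Pool.Agent.Lib.MP_33f9c4_lc.T.Ent
import Pool.Agent.Lib.MP_33f9c4_lc.T.Enum

set_option autoImplicit false

/-!
MODULE Tab. Reading `mm` tables: clocks `κ`, `false :: κ`, ... (doubled), templates `τ`, `τ.tail`, ...

Loop over the tables: the number `mm` is in unary below the clock on stack `c`. Program: push a flag `re` on `d`; loop on `d` while top
= `re`: pop it; move `bw κ` from `c` to `d` (push `hs` on `d` first; until `hs`), pop `hs` of `c`; pop the top of `c`: if it is `i`: push `hs` on `c`, move the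
clock back, pop `hs` of `d`; run `enum_run (entry_run)`; pop the top of `d` (one template letter), push `o` on `c`; push `re` on
`d`. If it is `hs` (no table left): delete the clock on `d`, pop `hs`, delete the template on `d` (`del isT`), pop `hs`, push
`se` on `d`. After the loop pop `se`. In `enum_run` use `F l = ⟨1^K hs α, items (l.map item) ++ β, bw κ ++ hs :: .., δ', ξ⟩`
with `item τ' = (true, pfx K (V.val (lval κ) (stp (ebits τ'))))`. Induction on `mm`.
-/

namespace Pool.Agent.Lib.MP_33f9c4_lc.TT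

variable {m N : ℕ}

/-- all prefixes read in `mm` tables -/
def rds (V : NM m) (K : ℕ) : ℕ → List Bool → List (Lt N) → List (List Bool)
  | 0, _, _ => []
  | mm + 1, κ, τ => (all τ).map (fun τ' => pfx K (V.val (lval κ) (stp (ebits τ')))) ++
      rds V K mm (false :: κ) τ.tail

/-- the cost of reading `mm` tables -/
def rcost (K : ℕ) : ℕ → List Bool → List (Lt N) → ℕ
  | 0, _, _ => 0
  | mm + 1, κ, τ => 2 ^ fr τ * ((κ.length + 1) * (lval κ + 1) + K + τ.length + 1) +
      rcost K mm (false :: κ) τ.tail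

private def tabRe : Lt N → Bool
  | .re => true
  | _ => false

/-- the body of the loop over the tables, `E` reads one table -/
private def tabB (E : LP m (Lt N)) : LP m (Lt N) :=
  .pop .d fun _ => .seq (.push .d .hs) (.seq (mv .c .d isB id) (.seq (pop1 .c)
    (.pop .c fun v => if v = .i then
      .seq (.push .c .hs) (.seq (mv .d .c isB id) (.seq (pop1 .d) (.seq E (.seq (pop1 .d)
        (.seq (.push .c .o) (.push .d .re))))))
      else .seq (del .d isB) (.seq (pop1 .d) (.seq (del .d isT) (.seq (pop1 .d)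
        (.push .d .se)))))))

private theorem tab_bw (κ : List Bool) (w : Lt N) (hw : w ∈ (bw κ : List (Lt N))) :
    isB w = true := by
  obtain ⟨b, _, rfl⟩ := List.mem_map.1 hw
  exact isB_bt b

private theorem tab_bw_rev (κ : List Bool) (w : Lt N) (hw : w ∈ (bw κ : List (Lt N)).reverse) :
    isB w = true := tab_bw κ w (List.mem_reverse.1 hw)

private theorem tab_fresh {τ : List (Lt N)} (h : fresh τ) : ∀ v ∈ τ, isT v = true := by
  intro v hv
  rcases h v hv with h | h | h <;> rw [h] <;> rfl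

private theorem tab_bwlen (κ : List Bool) : (bw κ : List (Lt N)).length = κ.length :=
  List.length_map _

/-- the common first part of a turn -/
private theorem tab_first (A B R D : List (Lt N)) (ξ : Fin m → List (Lt N)) (κ : List Bool)
    (s' : Sta m (Lt N)) (E : LP m (Lt N)) (v : Lt N) (t : ℕ)
    (h : LR (if v = .i then
      .seq (.push .c .hs) (.seq (mv .d .c isB id) (.seq (pop1 .d) (.seq E (.seq (pop1 .d)
        (.seq (.push .c .o) (.push .d .re))))))
      else .seq (del .d isB) (.seq (pop1 .d) (.seq (del .d isT) (.seq (pop1 .d)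
        (.push .d .se))))) (⟨A, B, R, (bw κ).reverse ++ .hs :: D, ξ⟩ : Sta m (Lt N)) s' t) :
    LR (tabB E) (⟨A, B, bw κ ++ .hs :: (v :: R), .re :: D, ξ⟩ : Sta m (Lt N)) s'
      (t + 3 * κ.length + 6) := by
  have h1 : LR (.push .d .hs) (⟨A, B, bw κ ++ .hs :: (v :: R), D, ξ⟩ : Sta m (Lt N))
      ⟨A, B, bw κ ++ .hs :: (v :: R), .hs :: D, ξ⟩ 1 := LR.push _ _ _
  have h2 : LR (mv .c .d isB id)
      (⟨A, B, bw κ ++ .hs :: (v :: R), .hs :: D, ξ⟩ : Sta m (Lt N))
      ⟨A, B, .hs :: (v :: R), ((bw κ).map id).reverse ++ .hs :: D, ξ⟩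
      (3 * (bw κ : List (Lt N)).length + 1) :=
    mv_run (k := .c) (k' := .d) (by simp) id
      (s := ⟨A, B, bw κ ++ .hs :: (v :: R), .hs :: D, ξ⟩)
      (l := bw κ) (v := .hs) (r := v :: R) rfl (tab_bw κ) rfl
  rw [List.map_id, tab_bwlen] at h2
  have h3 : LR (pop1 .c)
      (⟨A, B, .hs :: (v :: R), (bw κ).reverse ++ .hs :: D, ξ⟩ : Sta m (Lt N))
      ⟨A, B, v :: R, (bw κ).reverse ++ .hs :: D, ξ⟩ 2 :=
    pop1_run (k := .c) (v := .hs) (r := v :: R) rfl
  have h4 := LR.pop (k := .c) (f := fun v => if v = .i then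
      .seq (.push .c .hs) (.seq (mv .d .c isB id) (.seq (pop1 .d) (.seq E (.seq (pop1 .d)
        (.seq (.push .c .o) (.push .d .re))))))
      else .seq (del .d isB) (.seq (pop1 .d) (.seq (del .d isT) (.seq (pop1 .d)
        (.push .d .se)))))
    (s := (⟨A, B, v :: R, (bw κ).reverse ++ .hs :: D, ξ⟩ : Sta m (Lt N))) (v := v) (l := R)
    rfl h
  exact (LR.pop (k := .d) (v := .re) (l := D) rfl (h1.seq (h2.seq (h3.seq h4)))).mono (by omega)

/-- the last turn -/
private theorem tab_last (E : LP m (Lt N)) (A B γ δ : List (Lt N)) (ξ : Fin m → List (Lt N))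
    (κ : List Bool) (τ : List (Lt N)) (hτ : fresh τ) :
    LR (tabB E) (⟨A, B, bw κ ++ .hs :: (.hs :: γ), .re :: (τ ++ .hs :: δ), ξ⟩ : Sta m (Lt N))
      ⟨A, B, γ, .se :: δ, ξ⟩ (6 * κ.length + 3 * τ.length + 20) := by
  have h1 : LR (del .d isB)
      (⟨A, B, γ, (bw κ).reverse ++ .hs :: (τ ++ .hs :: δ), ξ⟩ : Sta m (Lt N))
      ⟨A, B, γ, .hs :: (τ ++ .hs :: δ), ξ⟩ (3 * (bw κ : List (Lt N)).reverse.length + 1) :=
    del_run (k := .d) (s := ⟨A, B, γ, (bw κ).reverse ++ .hs :: (τ ++ .hs :: δ), ξ⟩)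
      (l := (bw κ).reverse) (v := .hs) (r := τ ++ .hs :: δ) rfl (tab_bw_rev κ) rfl
  rw [List.length_reverse, tab_bwlen] at h1
  have h2 : LR (pop1 .d) (⟨A, B, γ, .hs :: (τ ++ .hs :: δ), ξ⟩ : Sta m (Lt N))
      ⟨A, B, γ, τ ++ .hs :: δ, ξ⟩ 2 := pop1_run (k := .d) (v := .hs) (r := τ ++ .hs :: δ) rfl
  have h3 : LR (del .d isT) (⟨A, B, γ, τ ++ .hs :: δ, ξ⟩ : Sta m (Lt N))
      ⟨A, B, γ, .hs :: δ, ξ⟩ (3 * τ.length + 1) :=
    del_run (k := .d) (s := ⟨A, B, γ, τ ++ .hs :: δ, ξ⟩) (l := τ) (v := .hs) (r := δ) rfl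
      (tab_fresh hτ) rfl
  have h4 : LR (pop1 .d) (⟨A, B, γ, .hs :: δ, ξ⟩ : Sta m (Lt N))
      ⟨A, B, γ, δ, ξ⟩ 2 := pop1_run (k := .d) (v := .hs) (r := δ) rfl
  have h5 : LR (.push .d .se) (⟨A, B, γ, δ, ξ⟩ : Sta m (Lt N))
      ⟨A, B, γ, .se :: δ, ξ⟩ 1 := LR.push _ _ _
  refine (tab_first A B γ (τ ++ .hs :: δ) ξ κ ⟨A, B, γ, .se :: δ, ξ⟩ E .hs
    (3 * κ.length + 1 + (2 + (3 * τ.length + 1 + (2 + 1)))) ?_).mono ?_
  · rw [if_neg (by simp)]
    exact h1.seq (h2.seq (h3.seq (h4.seq h5)))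
  · omega

/-- a turn which reads a table -/
private theorem tab_turn (E : LP m (Lt N)) (A B B' R δ : List (Lt N)) (ξ : Fin m → List (Lt N))
    (κ : List Bool) (v : Lt N) (τ : List (Lt N)) (T : ℕ)
    (h : LR E (⟨A, B, bw κ ++ .hs :: R, (v :: τ) ++ .hs :: δ, ξ⟩ : Sta m (Lt N))
      ⟨A, B', bw κ ++ .hs :: R, (v :: τ) ++ .hs :: δ, ξ⟩ T) :
    LR (tabB E) (⟨A, B, bw κ ++ .hs :: (.i :: R), .re :: ((v :: τ) ++ .hs :: δ), ξ⟩ :
        Sta m (Lt N))
      ⟨A, B', bw (false :: κ) ++ .hs :: R, .re :: (τ ++ .hs :: δ), ξ⟩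
      (T + 6 * κ.length + 20) := by
  have h1 : LR (.push .c .hs)
      (⟨A, B, R, (bw κ).reverse ++ .hs :: ((v :: τ) ++ .hs :: δ), ξ⟩ : Sta m (Lt N))
      ⟨A, B, .hs :: R, (bw κ).reverse ++ .hs :: ((v :: τ) ++ .hs :: δ), ξ⟩ 1 := LR.push _ _ _
  have h2 : LR (mv .d .c isB id)
      (⟨A, B, .hs :: R, (bw κ).reverse ++ .hs :: ((v :: τ) ++ .hs :: δ), ξ⟩ : Sta m (Lt N))
      ⟨A, B, (((bw κ).reverse).map id).reverse ++ .hs :: R, .hs :: ((v :: τ) ++ .hs :: δ), ξ⟩
      (3 * (bw κ : List (Lt N)).reverse.length + 1) :=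
    mv_run (k := .d) (k' := .c) (by simp) id
      (s := ⟨A, B, .hs :: R, (bw κ).reverse ++ .hs :: ((v :: τ) ++ .hs :: δ), ξ⟩)
      (l := (bw κ).reverse) (v := .hs) (r := (v :: τ) ++ .hs :: δ) rfl (tab_bw_rev κ) rfl
  rw [List.map_id, List.reverse_reverse, List.length_reverse, tab_bwlen] at h2
  have h3 : LR (pop1 .d)
      (⟨A, B, bw κ ++ .hs :: R, .hs :: ((v :: τ) ++ .hs :: δ), ξ⟩ : Sta m (Lt N))
      ⟨A, B, bw κ ++ .hs :: R, (v :: τ) ++ .hs :: δ, ξ⟩ 2 :=
    pop1_run (k := .d) (v := .hs) (r := (v :: τ) ++ .hs :: δ) rfl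
  have h4 : LR (pop1 .d)
      (⟨A, B', bw κ ++ .hs :: R, (v :: τ) ++ .hs :: δ, ξ⟩ : Sta m (Lt N))
      ⟨A, B', bw κ ++ .hs :: R, τ ++ .hs :: δ, ξ⟩ 2 :=
    pop1_run (k := .d) (v := v) (r := τ ++ .hs :: δ) rfl
  have h5 : LR (.push .c .o) (⟨A, B', bw κ ++ .hs :: R, τ ++ .hs :: δ, ξ⟩ : Sta m (Lt N))
      ⟨A, B', bw (false :: κ) ++ .hs :: R, τ ++ .hs :: δ, ξ⟩ 1 := LR.push _ _ _
  have h6 : LR (.push .d .re)
      (⟨A, B', bw (false :: κ) ++ .hs :: R, τ ++ .hs :: δ, ξ⟩ : Sta m (Lt N))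
      ⟨A, B', bw (false :: κ) ++ .hs :: R, .re :: (τ ++ .hs :: δ), ξ⟩ 1 := LR.push _ _ _
  refine (tab_first A B R ((v :: τ) ++ .hs :: δ) ξ κ
    ⟨A, B', bw (false :: κ) ++ .hs :: R, .re :: (τ ++ .hs :: δ), ξ⟩ E .i
    (1 + (3 * κ.length + 1 + (2 + (T + (2 + (1 + 1)))))) ?_).mono ?_
  · rw [if_pos rfl]
    exact h1.seq (h2.seq (h3.seq (h.seq (h4.seq (h5.seq h6)))))
  · omega

private theorem items_append (l l' : List (Bool × List Bool)) :
    (items (l ++ l') : List (Lt N)) = items l ++ items l' := by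
  unfold items
  exact List.flatMap_append

theorem tab_run (V : NM m) (hko : V.ko = .b) : ∃ N₀ : ℕ, ∀ N, N₀ ≤ N →
    ∃ (P : LP m (Lt N)) (C : ℕ), ∀ (K mm : ℕ) (α β γ δ : List (Lt N)) (ξ : Fin m → List (Lt N))
      (κ : List Bool) (τ : List (Lt N)), fresh τ → mm ≤ τ.length →
      ∃ l : List (List Bool), l.Perm (rds V K mm κ τ) ∧
      LR P ⟨List.replicate K .i ++ .hs :: α, β,
          bw κ ++ .hs :: (List.replicate mm .i ++ .hs :: γ), τ ++ .hs :: δ, ξ⟩
        ⟨List.replicate K .i ++ .hs :: α, items (l.map fun y => (true, y)) ++ β, γ, δ, ξ⟩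
        (C * (rcost K mm κ τ + κ.length + τ.length + mm + 1)) := by
  obtain ⟨N₀, hN₀⟩ := entry_run (m := m) V hko
  refine ⟨N₀, fun N hN => ?_⟩
  obtain ⟨P, C0, hP⟩ := hN₀ N hN
  obtain ⟨E, C1, hE⟩ := enum_run (m := m) (N := N) P
  -- one table
  have table : ∀ (K : ℕ) (α β γ δ : List (Lt N)) (ξ : Fin m → List (Lt N))
      (κ : List Bool) (τ : List (Lt N)), fresh τ →
      LR E (⟨List.replicate K .i ++ .hs :: α, β, bw κ ++ .hs :: γ, τ ++ .hs :: δ, ξ⟩ :
          Sta m (Lt N))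
        ⟨List.replicate K .i ++ .hs :: α,
          items (((all τ).reverse.map fun τ' => pfx K (V.val (lval κ) (stp (ebits τ')))).map
            fun y => (true, y)) ++ β, bw κ ++ .hs :: γ, τ ++ .hs :: δ, ξ⟩
        (C1 * (2 ^ fr τ * (C0 * ((κ.length + 1) * (lval κ + 1) + K + τ.length) +
          τ.length + 1))) := by
    intro K α β γ δ ξ κ τ hτ
    refine hE τ δ (fun l => ⟨List.replicate K .i ++ .hs :: α,
      items ((l.map fun τ' => pfx K (V.val (lval κ) (stp (ebits τ')))).map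
        fun y => (true, y)) ++ β, bw κ ++ .hs :: γ, [], ξ⟩) _ hτ ?_
    intro τ' hτ' l
    have h := hP K α (items ((l.map fun τ' => pfx K (V.val (lval κ) (stp (ebits τ')))).map
        fun y => (true, y)) ++ β) γ δ ξ κ τ' (isT_of_mem_all hτ hτ')
    rw [length_of_mem_all hτ'] at h
    have e : (itm (true, pfx K (V.val (lval κ) (stp (ebits τ')))) ++
        (items ((l.map fun τ' => pfx K (V.val (lval κ) (stp (ebits τ')))).map
          fun y => (true, y)) ++ β) : List (Lt N)) =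
        items (((τ' :: l).map fun τ' => pfx K (V.val (lval κ) (stp (ebits τ')))).map
          fun y => (true, y)) ++ β := by
      rw [List.map_cons, List.map_cons]
      unfold items
      rw [List.flatMap_cons, List.append_assoc]
    rw [e] at h
    exact h
  have key : ∀ (mm K : ℕ) (α β γ δ : List (Lt N)) (ξ : Fin m → List (Lt N))
      (κ : List Bool) (τ : List (Lt N)), fresh τ → mm ≤ τ.length →
      ∃ l : List (List Bool), l.Perm (rds V K mm κ τ) ∧
      LL .d tabRe (tabB E) (⟨List.replicate K .i ++ .hs :: α, β,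
          bw κ ++ .hs :: (List.replicate mm .i ++ .hs :: γ), .re :: (τ ++ .hs :: δ), ξ⟩ :
          Sta m (Lt N))
        ⟨List.replicate K .i ++ .hs :: α, items (l.map fun y => (true, y)) ++ β, γ,
          .se :: δ, ξ⟩
        ((C1 * (C0 + 1) + 30) * (rcost K mm κ τ + κ.length + τ.length + mm + 1)) := by
    intro mm
    induction mm with
    | zero =>
      intro K α β γ δ ξ κ τ hτ _
      refine ⟨[], List.Perm.refl _, ?_⟩
      have h := tab_last E (List.replicate K .i ++ .hs :: α) β γ δ ξ κ τ hτ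
      refine (LL.step (k := .d) (p := tabRe) (v := .re) (l := τ ++ .hs :: δ) rfl rfl h).mono ?_
      have : 30 * (rcost K 0 κ τ + κ.length + τ.length + 0 + 1) ≤
          (C1 * (C0 + 1) + 30) * (rcost K 0 κ τ + κ.length + τ.length + 0 + 1) :=
        Nat.mul_le_mul_right _ (by omega)
      omega
    | succ mm ih =>
      intro K α β γ δ ξ κ τ hτ hmm
      cases τ with
      | nil => simp at hmm
      | cons v τ =>
        have hτ' : fresh τ := fun u hu => hτ u (List.mem_cons_of_mem _ hu)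
        have hmm' : mm ≤ τ.length := by rw [List.length_cons] at hmm; omega
        obtain ⟨l, hl, h2⟩ := ih K α
          (items (((all (v :: τ)).reverse.map fun τ' => pfx K (V.val (lval κ)
            (stp (ebits τ')))).map fun y => (true, y)) ++ β) γ δ ξ (false :: κ) τ hτ' hmm'
        have h1 := tab_turn E (List.replicate K .i ++ .hs :: α) β _
          (List.replicate mm .i ++ .hs :: γ) δ ξ κ v τ _
          (table K α β (List.replicate mm .i ++ .hs :: γ) δ ξ κ (v :: τ) hτ)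
        have h3 := LL.step (k := .d) (p := tabRe) (v := .re)
          (l := (v :: τ) ++ .hs :: δ) rfl rfl h1
        refine ⟨l ++ ((all (v :: τ)).reverse.map fun τ' => pfx K (V.val (lval κ)
            (stp (ebits τ')))), ?_, ?_⟩
        · refine List.perm_append_comm.trans ?_
          exact List.Perm.append ((List.reverse_perm _).map _) hl
        · rw [List.map_append, items_append, List.append_assoc]
          refine (h3.trans h2).mono ?_
          have hX : κ.length + 1 ≤ (κ.length + 1) * (lval κ + 1) :=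
            Nat.le_mul_of_pos_right _ (by omega)
          have hZ : 1 ≤ 2 ^ fr (v :: τ) := Nat.one_le_two_pow
          have hr : rcost K (mm + 1) κ (v :: τ) =
            2 ^ fr (v :: τ) * ((κ.length + 1) * (lval κ + 1) + K + (v :: τ).length + 1) +
              rcost K mm (false :: κ) τ := rfl
          rw [hr]
          simp only [List.length_cons]
          generalize (κ.length + 1) * (lval κ + 1) = X at hX
          generalize 2 ^ fr (v :: τ) = Z at hZ
          generalize rcost K mm (false :: κ) τ = R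
          generalize hn : τ.length = n
          generalize κ.length = k at hX
          have a1 : C0 * (X + K + (n + 1)) + (n + 1) + 1 ≤
              (C0 + 1) * (X + K + (n + 1) + 1) := by
            have : C0 * (X + K + (n + 1)) ≤ C0 * (X + K + (n + 1) + 1) :=
              Nat.mul_le_mul_left _ (by omega)
            rw [Nat.add_mul]
            omega
          have a2 : C1 * (Z * (C0 * (X + K + (n + 1)) + (n + 1) + 1)) ≤
              C1 * (C0 + 1) * (Z * (X + K + (n + 1) + 1)) := by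
            calc C1 * (Z * (C0 * (X + K + (n + 1)) + (n + 1) + 1))
                ≤ C1 * (Z * ((C0 + 1) * (X + K + (n + 1) + 1))) :=
                  Nat.mul_le_mul_left _ (Nat.mul_le_mul_left _ a1)
              _ = _ := by ring
          have a3 : X + K + (n + 1) + 1 ≤ Z * (X + K + (n + 1) + 1) :=
            Nat.le_mul_of_pos_left _ (by omega)
          generalize Z * (X + K + (n + 1) + 1) = W at a2 a3
          have a4 : (C1 * (C0 + 1) + 30) * (W + R + k + (n + 1) + (mm + 1) + 1) =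
              C1 * (C0 + 1) * W + 30 * W + (C1 * (C0 + 1) + 30) * (R + (k + 1) + n + mm + 1) +
              (C1 * (C0 + 1) + 30) := by ring
          rw [a4]
          omega
  refine ⟨.seq (.push .d .re) (.seq (.loop .d tabRe (tabB E)) (pop1 .d)),
    C1 * (C0 + 1) + 34, ?_⟩
  intro K mm α β γ δ ξ κ τ hτ hmm
  obtain ⟨l, hl, h⟩ := key mm K α β γ δ ξ κ τ hτ hmm
  refine ⟨l, hl, ?_⟩
  have h1 : LR (.push .d .re) (⟨List.replicate K .i ++ .hs :: α, β,
      bw κ ++ .hs :: (List.replicate mm .i ++ .hs :: γ), τ ++ .hs :: δ, ξ⟩ : Sta m (Lt N))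
      ⟨List.replicate K .i ++ .hs :: α, β,
      bw κ ++ .hs :: (List.replicate mm .i ++ .hs :: γ), .re :: (τ ++ .hs :: δ), ξ⟩ 1 :=
    LR.push _ _ _
  have h2 := h.finish (v := .se) (l := δ) rfl rfl
  have h3 : LR (pop1 .d) (⟨List.replicate K .i ++ .hs :: α,
      items (l.map fun y => (true, y)) ++ β, γ, .se :: δ, ξ⟩ : Sta m (Lt N))
      ⟨List.replicate K .i ++ .hs :: α,
      items (l.map fun y => (true, y)) ++ β, γ, δ, ξ⟩ 2 :=
    pop1_run (k := .d) (v := .se) (r := δ) rfl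
  refine (h1.seq (h2.seq h3)).mono ?_
  have e1 : (C1 * (C0 + 1) + 34) * (rcost K mm κ τ + κ.length + τ.length + mm + 1) =
    (C1 * (C0 + 1) + 30) * (rcost K mm κ τ + κ.length + τ.length + mm + 1) +
    4 * (rcost K mm κ τ + κ.length + τ.length + mm + 1) := by ring
  rw [e1]
  omega

end Pool.Agent.Lib.MP_33f9c4_lc.TT
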