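import Pool.Agent.Lib.MP_33f9c4_lc.T.Mac
import Pool.Agent.Lib.MP_33f9c4_lc.T.NMof

set_option autoImplicit false

/-!
# The universal Turing machine: data

The universal program simulates a normalised machine `V` on the same stacks `a, b, c, d, x i`. The symbol `g` of `V`
is the block `i^(g+1) hs`; the region of a stack is the list of its blocks above the marker `mk`. The control word
`bw (code (l, (T, io, q))) ++ hs` is on top of stack `a`; `T` is the table of `V`, `io` the list of the input symbols of the
bits and of the output bits of the symbols, `q` the state, `l` a list of numbers (the tops of the stacks, or the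
symbols to be pushed).
-/

namespace Pool.Agent.Lib.MP_33f9c4_lc.TT

open Pool.Agent.Lib.PolyTime

variable {m N : ℕ}

/-- the static data: table, symbols of the bits and output bits, state -/
abbrev UD : Type := List (List ℕ) × List ℕ × ℕ

/-- the control data -/
abbrev Ctl : Type := List ℕ × UD

/-- the block of the number `v`; nothing for `v = 0` -/
def blk (v : ℕ) : List (Lt N) := if v = 0 then [] else List.replicate v .i ++ [.hs]

/-- the region of a stack with the symbols `l` -/
def reg (l : List ℕ) : List (Lt N) := l.flatMap fun g => blk (g + 1)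

/-- the code of the top symbol, `0` for the empty stack -/
def tp : List ℕ → ℕ
  | [] => 0
  | g :: _ => g + 1

/-- push the symbol with the code `v`; nothing for `v = 0` -/
def ocons : ℕ → List ℕ → List ℕ
  | 0, l => l
  | g + 1, l => g :: l

/-- the stacks `y` (lists of symbol numbers) with the control word `w` on top of stack `a` -/
def ust (w : List Bool) (y : Sta m ℕ) : Sta m (Lt N) :=
  ⟨bw w ++ .hs :: (reg y.a ++ [.mk]), reg y.b ++ [.mk], reg y.c ++ [.mk], reg y.d ++ [.mk],
    fun i => reg (y.x i) ++ [.mk]⟩

/-- the codes of the tops of all stacks -/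
def tops (y : Sta m ℕ) : List ℕ :=
  [tp y.a, tp y.b, tp y.c, tp y.d] ++ (List.finRange m).map fun i => tp (y.x i)

/-- all stacks without their top symbols -/
def tls (y : Sta m ℕ) : Sta m ℕ := ⟨y.a.tail, y.b.tail, y.c.tail, y.d.tail, fun i => (y.x i).tail⟩

/-- the list of the numbers to be pushed: `lo k` first, then `up k` -/
def psh (lo up : Ix m → ℕ) : List ℕ :=
  [lo .a, up .a, lo .b, up .b, lo .c, up .c, lo .d, up .d] ++
    (List.finRange m).flatMap fun i => [lo (.x i), up (.x i)]

/-- the stacks after the pushes -/
def pshd (lo up : Ix m → ℕ) (y : Sta m ℕ) : Sta m ℕ :=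
  ⟨ocons (up .a) (ocons (lo .a) y.a), ocons (up .b) (ocons (lo .b) y.b),
    ocons (up .c) (ocons (lo .c) y.c), ocons (up .d) (ocons (lo .d) y.d),
    fun i => ocons (up (.x i)) (ocons (lo (.x i)) (y.x i))⟩

/-- the number of a stack -/
def ixn : Ix m → ℕ
  | .a => 0
  | .b => 1
  | .c => 2
  | .d => 3
  | .x i => i + 4

/-- the row of the table for the state `q` -/
def rowV (V : NM m) (q : Fin V.Q) : List ℕ :=
  match V.ins q with
  | .push k g q' => [0, ixn k, g, q']
  | .pop k f => 1 :: ixn k :: (f none : ℕ) :: List.ofFn fun g => (f (some g) : ℕ)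
  | .peek k f => 2 :: ixn k :: (f none : ℕ) :: List.ofFn fun g => (f (some g) : ℕ)
  | .halt => [3]

/-- the table of `V` -/
def tabV (V : NM m) : List (List ℕ) := List.ofFn (rowV V)

/-- symbols of the bits, output bits of the symbols -/
def ioV (V : NM m) : List ℕ :=
  [(V.inp false : ℕ), (V.inp true : ℕ)] ++ List.ofFn fun g => (V.out g).toNat

/-- the data of `V` in the state `q` -/
def udV (V : NM m) (q : Fin V.Q) : UD := (tabV V, ioV V, (q : ℕ))

/-- the lower symbol to be pushed back on the stack number `j` -/
def loF (row l : List ℕ) (j : ℕ) : ℕ := if row.getD 0 3 = 1 ∧ j = row.getD 1 0 then 0 else l.getD j 0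

/-- the upper symbol to be pushed on the stack number `j` -/
def upF (row : List ℕ) (j : ℕ) : ℕ := if row.getD 0 3 = 0 ∧ j = row.getD 1 0 then row.getD 2 0 + 1 else 0

/-- the next state -/
def nxF (row l : List ℕ) : ℕ :=
  if row.getD 0 3 = 0 then row.getD 3 0 else row.getD (l.getD (row.getD 1 0) 0 + 2) 0

/-- one step on the tops of the stacks; the last number is `0` if the next state is final -/
def locF (m : ℕ) (z : Ctl) : Ctl :=
  ((List.range (m + 4)).flatMap (fun j => [loF (z.2.1.getD z.2.2.2 []) z.1 j,
      upF (z.2.1.getD z.2.2.2 []) j]) ++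
      [if (z.2.1.getD (nxF (z.2.1.getD z.2.2.2 []) z.1) []).getD 0 3 = 3 then 0 else 1],
    (z.2.1, z.2.2.1, nxF (z.2.1.getD z.2.2.2 []) z.1))

/-- from a bit to (the code of) its symbol -/
def inpF (z : Ctl) : Ctl := ([z.2.2.1.getD (z.1.getD 0 0) 0 + 1], z.2)

/-- from the code of a symbol to its output bit -/
def outF (z : Ctl) : Ctl := ([z.2.2.1.getD (z.1.getD 0 0 + 1) 0], z.2)

/-- is the state final -/
def finF (z : Ctl) : Ctl := ([if (z.2.1.getD z.2.2.2 []).getD 0 3 = 3 then 0 else 1], z.2)

open Classical in
/-- the configuration `c` of `V`, with a flag letter -/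
noncomputable def ucf (V : NM m) (c : NC V) : Sta m (Lt N) :=
  (ust (code (([], udV V c.1) : Ctl)) (c.2.map fun g : Fin V.S => (g : ℕ))).set .a
    ((if V.hal c then .se else .re) ::
      (ust (code (([], udV V c.1) : Ctl)) (c.2.map fun g : Fin V.S => (g : ℕ))).a)

theorem code_ctl (l : List ℕ) (r : UD) : code ((l, r) : Ctl) = true :: (code l ++ code r) := rfl

theorem code_natcons (v : ℕ) (l : List ℕ) : code (v :: l) = true :: (code v ++ code l) := rfl

theorem code_nat_zero : code (0 : ℕ) = [false] := rfl

theorem code_nat_succ (v : ℕ) : code (v + 1) = true :: false :: code v := rfl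

theorem reg_nil : (reg [] : List (Lt N)) = [] := rfl

theorem reg_cons (g : ℕ) (l : List ℕ) :
    (reg (g :: l) : List (Lt N)) = List.replicate (g + 1) .i ++ .hs :: reg l := by
  simp [reg, blk]

theorem reg_ocons (v : ℕ) (l : List ℕ) : (reg (ocons v l) : List (Lt N)) = blk v ++ reg l := by
  cases v with
  | zero => simp [ocons, blk]
  | succ g => simp [ocons, reg]

end Pool.Agent.Lib.MP_33f9c4_lc.TT
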