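import Pool.Agent.Lib.MP_33f9c4_lc.T.UTake

set_option autoImplicit false

/-!
MODULE UGath. Take the tops of all stacks into the control word; push the numbers of the control word on the stacks.

`gath`: `take a (x i)` for `i = m-1, ..., 0`, `take a d`, `take a c`, `take a b`, then `cmv a c`, `take c a`, `cmv c a`. `scat`: `cmv a c`, `give c a` twice,
`cmv c a`, `give a b` twice, `give a c`, `give a d`, `give a (x i)` for `i = 0, ..., m-1` (twice each). For the stacks `x i` generalise: an
induction over an arbitrary duplicate-free list of indices (as in `pushX_aux` of Mac.lean). Costs: all numbers and the length of the control word are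
at most `L` during the whole time (`size` is additive), so every operation costs at most `20 * (L + 1)`.
-/

namespace Pool.Agent.Lib.MP_33f9c4_lc.TT

open Pool.Agent.Lib.PolyTime

variable {m N : ℕ}

/-- take all tops -/
def gath : LP m (Lt N) :=
  .seq (seqs ((List.finRange m).reverse.map fun i => take .a (.x i)))
    (.seq (take .a .d) (.seq (take .a .c) (.seq (take .a .b) (.seq (cmv .a .c)
      (.seq (take .c .a) (cmv .c .a))))))

/-- push all numbers -/
def scat : LP m (Lt N) :=
  .seq (cmv .a .c) (.seq (give .c .a) (.seq (give .c .a) (.seq (cmv .c .a)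
    (.seq (give .a .b) (.seq (give .a .b) (.seq (give .a .c) (.seq (give .a .c)
      (.seq (give .a .d) (.seq (give .a .d) (seqs ((List.finRange m).map fun i =>
        .seq (give .a (.x i)) (give .a (.x i)))))))))))))

private theorem ugath_size (r : UD) (l : List ℕ) : size ((l, r) : Ctl) = size l + size r + 1 := by
  rw [size_prod]

private theorem ugath_cons (v : ℕ) (l : List ℕ) : size (v :: l) = 2 * v + 2 + size l := by
  rw [size_cons, size_nat]
  omega

section ops

variable {r : UD} {W : List ℕ → List (Lt N)} (hW : ∀ l, bw (code ((l, r) : Ctl)) = W l)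
include hW

private theorem ugath_tD (l : List ℕ) (α B C : List (Lt N)) (y : List ℕ) (z : Fin m → List (Lt N)) :
    LR (take .a .d) ⟨W l ++ α, B, C, reg y ++ [Lt.mk], z⟩
      ⟨W (tp y :: l) ++ α, B, C, reg y.tail ++ [Lt.mk], z⟩ (20 * (tp y + 1)) := by
  have h := take_run (N := N) (h := .a) (k := .d) (by simp) l r
    (⟨W l ++ α, B, C, reg y ++ [Lt.mk], z⟩ : Sta m (Lt N)) α [] y
    (by simp only [Sta.get, hW]) (by simp only [Sta.get])
  simpa only [Sta.set, hW] using h

private theorem ugath_tC (l : List ℕ) (α B D : List (Lt N)) (y : List ℕ) (z : Fin m → List (Lt N)) :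
    LR (take .a .c) ⟨W l ++ α, B, reg y ++ [Lt.mk], D, z⟩
      ⟨W (tp y :: l) ++ α, B, reg y.tail ++ [Lt.mk], D, z⟩ (20 * (tp y + 1)) := by
  have h := take_run (N := N) (h := .a) (k := .c) (by simp) l r
    (⟨W l ++ α, B, reg y ++ [Lt.mk], D, z⟩ : Sta m (Lt N)) α [] y
    (by simp only [Sta.get, hW]) (by simp only [Sta.get])
  simpa only [Sta.set, hW] using h

private theorem ugath_tB (l : List ℕ) (α C D : List (Lt N)) (y : List ℕ) (z : Fin m → List (Lt N)) :
    LR (take .a .b) ⟨W l ++ α, reg y ++ [Lt.mk], C, D, z⟩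
      ⟨W (tp y :: l) ++ α, reg y.tail ++ [Lt.mk], C, D, z⟩ (20 * (tp y + 1)) := by
  have h := take_run (N := N) (h := .a) (k := .b) (by simp) l r
    (⟨W l ++ α, reg y ++ [Lt.mk], C, D, z⟩ : Sta m (Lt N)) α [] y
    (by simp only [Sta.get, hW]) (by simp only [Sta.get])
  simpa only [Sta.set, hW] using h

private theorem ugath_tA (l : List ℕ) (α B D : List (Lt N)) (y : List ℕ) (z : Fin m → List (Lt N)) :
    LR (take .c .a) ⟨reg y ++ [Lt.mk], B, W l ++ α, D, z⟩
      ⟨reg y.tail ++ [Lt.mk], B, W (tp y :: l) ++ α, D, z⟩ (20 * (tp y + 1)) := by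
  have h := take_run (N := N) (h := .c) (k := .a) (by simp) l r
    (⟨reg y ++ [Lt.mk], B, W l ++ α, D, z⟩ : Sta m (Lt N)) α [] y
    (by simp only [Sta.get, hW]) (by simp only [Sta.get])
  simpa only [Sta.set, hW] using h

private theorem ugath_tX (i : Fin m) (l : List ℕ) (α B C D : List (Lt N)) (y : List ℕ)
    (z : Fin m → List (Lt N)) (hz : z i = reg y ++ [Lt.mk]) :
    LR (take .a (.x i)) ⟨W l ++ α, B, C, D, z⟩
      ⟨W (tp y :: l) ++ α, B, C, D, Function.update z i (reg y.tail ++ [Lt.mk])⟩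
      (20 * (tp y + 1)) := by
  have h := take_run (N := N) (h := .a) (k := .x i) (by simp) l r
    (⟨W l ++ α, B, C, D, z⟩ : Sta m (Lt N)) α [] y
    (by simp only [Sta.get, hW]) (by simp only [Sta.get, hz])
  simpa only [Sta.set, hW] using h

private theorem ugath_gD (v : ℕ) (l : List ℕ) (α B C D : List (Lt N)) (z : Fin m → List (Lt N)) :
    LR (give .a .d) ⟨W (v :: l) ++ α, B, C, D, z⟩ ⟨W l ++ α, B, C, blk v ++ D, z⟩
      (20 * (v + 1)) := by
  have h := give_run (N := N) (h := .a) (k := .d) (by simp) v l r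
    (⟨W (v :: l) ++ α, B, C, D, z⟩ : Sta m (Lt N)) α (by simp only [Sta.get, hW])
  simpa only [Sta.set, Sta.get, hW] using h

private theorem ugath_gC (v : ℕ) (l : List ℕ) (α B C D : List (Lt N)) (z : Fin m → List (Lt N)) :
    LR (give .a .c) ⟨W (v :: l) ++ α, B, C, D, z⟩ ⟨W l ++ α, B, blk v ++ C, D, z⟩
      (20 * (v + 1)) := by
  have h := give_run (N := N) (h := .a) (k := .c) (by simp) v l r
    (⟨W (v :: l) ++ α, B, C, D, z⟩ : Sta m (Lt N)) α (by simp only [Sta.get, hW])
  simpa only [Sta.set, Sta.get, hW] using h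

private theorem ugath_gB (v : ℕ) (l : List ℕ) (α B C D : List (Lt N)) (z : Fin m → List (Lt N)) :
    LR (give .a .b) ⟨W (v :: l) ++ α, B, C, D, z⟩ ⟨W l ++ α, blk v ++ B, C, D, z⟩
      (20 * (v + 1)) := by
  have h := give_run (N := N) (h := .a) (k := .b) (by simp) v l r
    (⟨W (v :: l) ++ α, B, C, D, z⟩ : Sta m (Lt N)) α (by simp only [Sta.get, hW])
  simpa only [Sta.set, Sta.get, hW] using h

private theorem ugath_gA (v : ℕ) (l : List ℕ) (α A B D : List (Lt N)) (z : Fin m → List (Lt N)) :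
    LR (give .c .a) ⟨A, B, W (v :: l) ++ α, D, z⟩ ⟨blk v ++ A, B, W l ++ α, D, z⟩
      (20 * (v + 1)) := by
  have h := give_run (N := N) (h := .c) (k := .a) (by simp) v l r
    (⟨A, B, W (v :: l) ++ α, D, z⟩ : Sta m (Lt N)) α (by simp only [Sta.get, hW])
  simpa only [Sta.set, Sta.get, hW] using h

private theorem ugath_gX (i : Fin m) (v : ℕ) (l : List ℕ) (α B C D : List (Lt N))
    (z : Fin m → List (Lt N)) :
    LR (give .a (.x i)) ⟨W (v :: l) ++ α, B, C, D, z⟩
      ⟨W l ++ α, B, C, D, Function.update z i (blk v ++ z i)⟩ (20 * (v + 1)) := by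
  have h := give_run (N := N) (h := .a) (k := .x i) (by simp) v l r
    (⟨W (v :: l) ++ α, B, C, D, z⟩ : Sta m (Lt N)) α (by simp only [Sta.get, hW])
  simpa only [Sta.set, Sta.get, hW] using h

private theorem ugath_mAC (l : List ℕ) (α B C D : List (Lt N)) (z : Fin m → List (Lt N)) :
    LR (cmv .a .c) ⟨W l ++ .hs :: α, B, C, D, z⟩ ⟨α, B, W l ++ .hs :: C, D, z⟩
      (20 * (size ((l, r) : Ctl) + 1)) := by
  have h := cmv_run (N := N) (m := m) (h := .a) (k := .c) (by simp) (by simp) (by simp)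
    (code ((l, r) : Ctl)) ⟨W l ++ .hs :: α, B, C, D, z⟩ α (by simp only [Sta.get, hW])
  simpa only [Sta.set, Sta.get, hW, length_code] using h

private theorem ugath_mCA (l : List ℕ) (α A B D : List (Lt N)) (z : Fin m → List (Lt N)) :
    LR (cmv .c .a) ⟨A, B, W l ++ .hs :: α, D, z⟩ ⟨W l ++ .hs :: A, B, α, D, z⟩
      (20 * (size ((l, r) : Ctl) + 1)) := by
  have h := cmv_run (N := N) (m := m) (h := .c) (k := .a) (by simp) (by simp) (by simp)
    (code ((l, r) : Ctl)) ⟨A, B, W l ++ .hs :: α, D, z⟩ α (by simp only [Sta.get, hW])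
  simpa only [Sta.set, Sta.get, hW, length_code] using h

/-- take the tops of the stacks `x i`, `i ∈ L` -/
private theorem ugath_takeX (α B C D : List (Lt N)) (w : Fin m → List ℕ) :
    ∀ (L : List (Fin m)), L.Nodup → ∀ (l : List ℕ) (z : Fin m → List (Lt N)),
    (∀ i ∈ L, z i = reg (w i) ++ [Lt.mk]) →
    LR (seqs (L.map fun i => take .a (.x i))) ⟨W l ++ α, B, C, D, z⟩
      ⟨W (L.reverse.map (fun i => tp (w i)) ++ l) ++ α, B, C, D,
        fun j => if j ∈ L then reg (w j).tail ++ [Lt.mk] else z j⟩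
      (10 * size (L.map fun i => tp (w i)) + 1) := by
  intro L
  induction L with
  | nil =>
    intro _ l z _
    have e : (fun j => if j ∈ ([] : List (Fin m)) then reg (w j).tail ++ [Lt.mk] else z j) = z := by
      funext j; simp
    rw [e]
    exact (LR.skip _).mono (by omega)
  | cons i L ih =>
    intro hnd l z hz
    rw [List.nodup_cons] at hnd
    have h1 := ugath_tX hW i l α B C D (w i) z (hz i (by simp))
    have h2 := ih hnd.2 (tp (w i) :: l) (Function.update z i (reg (w i).tail ++ [Lt.mk])) (fun j hj => by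
      have hji : j ≠ i := fun h => hnd.1 (h ▸ hj)
      rw [Function.update_of_ne hji]
      exact hz j (by simp [hj]))
    have e : (fun j => if j ∈ L then reg (w j).tail ++ [Lt.mk] else
        Function.update z i (reg (w i).tail ++ [Lt.mk]) j) =
        (fun j => if j ∈ i :: L then reg (w j).tail ++ [Lt.mk] else z j) := by
      funext j
      by_cases hj : j = i
      · subst hj
        simp
      · simp [hj]
    have e2 : L.reverse.map (fun i => tp (w i)) ++ tp (w i) :: l =
        (i :: L).reverse.map (fun i => tp (w i)) ++ l := by simp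
    rw [e, e2] at h2
    refine (LR.seq h1 h2).mono ?_
    rw [List.map_cons, ugath_cons]
    omega

/-- push the numbers of the stacks `x i`, `i ∈ L` -/
private theorem ugath_giveX (α B C D : List (Lt N)) (lo up : Ix m → ℕ) (l : List ℕ) :
    ∀ (L : List (Fin m)), L.Nodup → ∀ (z : Fin m → List (Lt N)),
    LR (seqs (L.map fun i => .seq (give .a (.x i)) (give .a (.x i))))
      ⟨W ((L.flatMap fun i => [lo (.x i), up (.x i)]) ++ l) ++ α, B, C, D, z⟩
      ⟨W l ++ α, B, C, D,
        fun j => if j ∈ L then blk (up (.x j)) ++ (blk (lo (.x j)) ++ z j) else z j⟩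
      (10 * size ((L.flatMap fun i => [lo (.x i), up (.x i)]) ++ l) + 1) := by
  intro L
  induction L with
  | nil =>
    intro _ z
    have e : (fun j => if j ∈ ([] : List (Fin m)) then blk (up (.x j)) ++ (blk (lo (.x j)) ++ z j)
        else z j) = z := by
      funext j; simp
    rw [e]
    exact (LR.skip _).mono (by omega)
  | cons i L ih =>
    intro hnd z
    rw [List.nodup_cons] at hnd
    have e0 : ((i :: L).flatMap fun i => [lo (.x i), up (.x i)]) ++ l =
        lo (.x i) :: up (.x i) :: ((L.flatMap fun i => [lo (.x i), up (.x i)]) ++ l) := by simp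
    rw [e0]
    have h1 := ugath_gX hW i (lo (.x i))
      (up (.x i) :: ((L.flatMap fun i => [lo (.x i), up (.x i)]) ++ l)) α B C D z
    have h1' := ugath_gX hW i (up (.x i))
      ((L.flatMap fun i => [lo (.x i), up (.x i)]) ++ l) α B C D
      (Function.update z i (blk (lo (.x i)) ++ z i))
    have h2 := ih hnd.2 (Function.update (Function.update z i (blk (lo (.x i)) ++ z i)) i
      (blk (up (.x i)) ++ (Function.update z i (blk (lo (.x i)) ++ z i)) i))
    have e : (fun j => if j ∈ L then blk (up (.x j)) ++ (blk (lo (.x j)) ++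
        (Function.update (Function.update z i (blk (lo (.x i)) ++ z i)) i
      (blk (up (.x i)) ++ (Function.update z i (blk (lo (.x i)) ++ z i)) i)) j) else
        (Function.update (Function.update z i (blk (lo (.x i)) ++ z i)) i
      (blk (up (.x i)) ++ (Function.update z i (blk (lo (.x i)) ++ z i)) i)) j) =
        (fun j => if j ∈ i :: L then blk (up (.x j)) ++ (blk (lo (.x j)) ++ z j) else z j) := by
      funext j
      by_cases hj : j = i
      · subst hj
        simp [hnd.1]
      · simp [hj]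
    rw [e] at h2
    refine (LR.seq (LR.seq h1 h1') h2).mono ?_
    rw [ugath_cons, ugath_cons]
    omega

end ops

theorem gath_run (r : UD) (y : Sta m ℕ) :
    LR (gath : LP m (Lt N)) (ust (code (([], r) : Ctl)) y) (ust (code ((tops y, r) : Ctl)) (tls y))
      (100 * (m + 5) * (size ((tops y, r) : Ctl) + 1)) := by
  obtain ⟨W, hW⟩ : ∃ W : List ℕ → List (Lt N), ∀ l, bw (code ((l, r) : Ctl)) = W l :=
    ⟨_, fun _ => rfl⟩
  obtain ⟨X, hX⟩ : ∃ X, X = (List.finRange m).map fun i => tp (y.x i) := ⟨_, rfl⟩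
  have ht : tops y = tp y.a :: tp y.b :: tp y.c :: tp y.d :: X := by
    rw [hX, tops]
    simp only [List.cons_append, List.nil_append]
  obtain ⟨z, hz⟩ : ∃ z : Fin m → List (Lt N), z = fun i => reg (y.x i) ++ [Lt.mk] :=
    ⟨_, rfl⟩
  obtain ⟨z', hz'⟩ : ∃ z : Fin m → List (Lt N), z = fun i => reg (y.x i).tail ++ [Lt.mk] :=
    ⟨_, rfl⟩
  have h1 : ∀ α B C D : List (Lt N), LR (seqs ((List.finRange m).reverse.map fun i =>
      take .a (.x i))) ⟨W [] ++ α, B, C, D, z⟩ ⟨W X ++ α, B, C, D, z'⟩ (10 * size X + 1) := by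
    intro α B C D
    have h1 := ugath_takeX hW α B C D y.x (List.finRange m).reverse
      (by rw [List.nodup_reverse]; exact List.nodup_finRange m) [] z
      (fun i _ => by rw [hz])
    have e1 : (fun j => if j ∈ (List.finRange m).reverse then reg (y.x j).tail ++ [Lt.mk] else
        z j) = z' := by
      funext j; simp [hz']
    have e2 : (List.finRange m).reverse.reverse.map (fun i => tp (y.x i)) ++ [] = X := by
      rw [List.reverse_reverse, List.append_nil, hX]
    have e3 : size ((List.finRange m).reverse.map fun i => tp (y.x i)) = size X := by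
      rw [hX, List.map_reverse, size_reverse]
    rw [e1, e2, e3] at h1
    exact h1
  rw [ht]
  unfold ust tls gath
  rw [hW, hW, ← hz, ← hz']
  refine LR.mono (LR.seq (h1 _ _ _ _) (LR.seq (ugath_tD hW _ _ _ _ _ _) (LR.seq
    (ugath_tC hW _ _ _ _ _ _) (LR.seq (ugath_tB hW _ _ _ _ _ _) (LR.seq
    (ugath_mAC hW _ _ _ _ _ _) (LR.seq (ugath_tA hW _ _ _ _ _ _)
    (ugath_mCA hW _ _ _ _ _ _))))))) ?_
  rw [ugath_size, ugath_size]
  simp only [ugath_cons]
  have h12 : ∀ n : ℕ, 100 * 1 * n ≤ 100 * (m + 5) * n := fun n => by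
    apply Nat.mul_le_mul_right
    omega
  refine le_trans ?_ (h12 _)
  omega

theorem scat_run (l : List ℕ) (r : UD) (lo up : Ix m → ℕ) (y : Sta m ℕ) :
    LR (scat : LP m (Lt N)) (ust (code ((psh lo up ++ l, r) : Ctl)) y)
      (ust (code ((l, r) : Ctl)) (pshd lo up y))
      (100 * (m + 5) * (size ((psh lo up ++ l, r) : Ctl) + 1)) := by
  obtain ⟨W, hW⟩ : ∃ W : List ℕ → List (Lt N), ∀ l, bw (code ((l, r) : Ctl)) = W l :=
    ⟨_, fun _ => rfl⟩
  obtain ⟨X, hX⟩ : ∃ X, X = ((List.finRange m).flatMap fun i => [lo (.x i), up (.x i)]) ++ l :=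
    ⟨_, rfl⟩
  have ht : psh lo up ++ l = lo .a :: up .a :: lo .b :: up .b :: lo .c :: up .c :: lo .d ::
      up .d :: X := by
    rw [hX, psh]
    simp only [List.cons_append, List.nil_append]
  obtain ⟨z, hz⟩ : ∃ z : Fin m → List (Lt N), z = fun i => reg (y.x i) ++ [Lt.mk] :=
    ⟨_, rfl⟩
  obtain ⟨z', hz'⟩ : ∃ z : Fin m → List (Lt N), z = fun i => blk (up (.x i)) ++
    (blk (lo (.x i)) ++ (reg (y.x i) ++ [Lt.mk])) := ⟨_, rfl⟩
  have h11 : ∀ α B C D : List (Lt N), LR (seqs ((List.finRange m).map fun i =>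
      .seq (give .a (.x i)) (give .a (.x i)))) ⟨W X ++ α, B, C, D, z⟩ ⟨W l ++ α, B, C, D, z'⟩
      (10 * size X + 1) := by
    intro α B C D
    have h11 := ugath_giveX hW α B C D lo up l (List.finRange m) (List.nodup_finRange m) z
    have e1 : (fun j => if j ∈ List.finRange m then blk (up (.x j)) ++ (blk (lo (.x j)) ++ z j)
        else z j) = z' := by
      funext j; simp [hz, hz']
    rw [← hX, e1] at h11
    exact h11
  rw [ht]
  unfold ust pshd scat
  simp only [reg_ocons, List.append_assoc, hW]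
  rw [← hz, ← hz']
  refine LR.mono (LR.seq (ugath_mAC hW _ _ _ _ _ _) (LR.seq (ugath_gA hW _ _ _ _ _ _ _) (LR.seq
    (ugath_gA hW _ _ _ _ _ _ _) (LR.seq (ugath_mCA hW _ _ _ _ _ _) (LR.seq
    (ugath_gB hW _ _ _ _ _ _ _) (LR.seq (ugath_gB hW _ _ _ _ _ _ _) (LR.seq
    (ugath_gC hW _ _ _ _ _ _ _) (LR.seq (ugath_gC hW _ _ _ _ _ _ _) (LR.seq
    (ugath_gD hW _ _ _ _ _ _ _) (LR.seq (ugath_gD hW _ _ _ _ _ _ _)
    (h11 _ _ _ _))))))))))) ?_
  rw [ugath_size, ugath_size]
  simp only [ugath_cons]
  have h12 : ∀ n : ℕ, 100 * 1 * n ≤ 100 * (m + 5) * n := fun n => by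
    apply Nat.mul_le_mul_right
    omega
  refine le_trans ?_ (h12 _)
  omega

end Pool.Agent.Lib.MP_33f9c4_lc.TT
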