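import Pool.Agent.Lib.MP_33f9c4_lc.T.UStep
import Pool.Agent.Lib.MP_33f9c4_lc.T.Mach

set_option autoImplicit false

/-!
MODULE UIn. The beginning of the universal program.

The input is `dbl z ++ d` with `z = code ([], udV V q₀)`, `dbl z = i z₀ i z₁ ... o` (every bit of `z` preceded by `true`, at the end `false`).
PROGRAM. (1) push `hs` on `b`; loop on `a` while the top is `i`: pop it, pop the next letter and push it on `b`; pop `o` of `a`. (2) `mv a d`
(the bits of `d`, reversed, above `mk`). (3) push `hs` on `a`, `mv b a` (bits), pop `hs` of `b`: control word on `a`, all regions empty except that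
stack `d` contains the bits of the input. (4) loop on `d` while the top is a bit: pop it; change the control word
`code ([], r) = i o (code r)` into `code ([v], r) = i i (code v) o (code r)`, `v = 0, 1` the bit (`code 0 = o`, `code 1 = i o o`): pop `i` of `a`, push
`code v` reversed, push `i`, `i`; the program `PI` of `inpF`; `cmv a c`, `give c a`, `cmv c a` (the symbol is pushed on the region of `a`). The last bit comes first,
so in the end the region of `a` is `reg (d.map inp)`. (5) the program `PF` of `finF`, then `flg`.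
-/

namespace Pool.Agent.Lib.MP_33f9c4_lc.TT

open Pool.Agent.Lib.PolyTime

variable {m N : ℕ}

/-- the doubled word with end mark -/
def dbl (z : List Bool) : List Bool := (z.flatMap fun b => [true, b]) ++ [false]

private theorem uin_l1 {A D : List (Lt N)} {C : List (Lt N)} {ξ : Fin m → List (Lt N)} :
    ∀ (z : List Bool) (B : List (Lt N)),
    LL .a (· == .i) (.pop .a fun _ => .pop .a fun u => .push .b u)
      (⟨bw (z.flatMap fun b => [true, b]) ++ A, B, C, D, ξ⟩ : Sta m (Lt N))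
      ⟨A, (bw z).reverse ++ B, C, D, ξ⟩ (4 * z.length) := by
  intro z
  induction z with
  | nil =>
    intro B
    exact LL.refl _
  | cons b z ih =>
    intro B
    have h1 : LL .a (· == .i) (.pop .a fun _ => .pop .a fun u => .push .b u)
        (⟨bw ((b :: z).flatMap fun b => [true, b]) ++ A, B, C, D, ξ⟩ : Sta m (Lt N))
        ⟨bw (z.flatMap fun b => [true, b]) ++ A, bt b :: B, C, D, ξ⟩ (1 + 1 + 1 + 1) := by
      refine LL.step (v := .i) (l := bt b :: (bw (z.flatMap fun b => [true, b]) ++ A)) rfl rfl ?_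
      refine LR.pop (v := .i) (l := bt b :: (bw (z.flatMap fun b => [true, b]) ++ A)) rfl ?_
      refine LR.pop (v := bt b) (l := bw (z.flatMap fun b => [true, b]) ++ A) rfl ?_
      exact LR.push .b (bt b) _
    have h2 := h1.trans (ih (bt b :: B))
    have e : (bw z : List (Lt N)).reverse ++ bt b :: B = (bw (b :: z) : List (Lt N)).reverse ++ B := by
      simp [bw]
    rw [e] at h2
    exact h2.mono (by simp only [List.length_cons]; omega)

/-- change the control word `code ([], r)` into `code ([v], r)` -/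
private def uchg (u : Lt N) : LP m (Lt N) :=
  .pop .a fun _ => .seq (if u = .i then .seq (.push .a .o) (.seq (.push .a .o) (.push .a .i)) else .push .a .o)
    (.seq (.push .a .i) (.push .a .i))

private theorem uchg_run (b : Bool) (r : UD) (α B C D : List (Lt N)) (ξ : Fin m → List (Lt N)) :
    LR (uchg (bt b)) (⟨bw (code (([], r) : Ctl)) ++ α, B, C, D, ξ⟩ : Sta m (Lt N))
      ⟨bw (code (([b.toNat], r) : Ctl)) ++ α, B, C, D, ξ⟩ 6 := by
  have e0 : code (([], r) : Ctl) = true :: false :: code r := rfl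
  unfold uchg
  rw [e0]
  cases b with
  | false =>
    have e1 : code (([false.toNat], r) : Ctl) = true :: true :: false :: false :: code r := rfl
    rw [e1]
    refine (LR.pop (v := .i) (l := bw (false :: code r) ++ α) rfl ?_).mono (t := 3 + 1) (by omega)
    rw [if_neg (by simp [bt])]
    exact LR.seq (LR.push .a (Lt.o : Lt N) _) (LR.seq (LR.push .a (Lt.i : Lt N) _) (LR.push .a (Lt.i : Lt N) _))
  | true =>
    have e1 : code (([true.toNat], r) : Ctl) = true :: true :: true :: false :: false :: false :: code r := rfl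
    rw [e1]
    refine (LR.pop (v := .i) (l := bw (false :: code r) ++ α) rfl ?_).mono (t := 5 + 1) (by omega)
    rw [if_pos (by simp [bt])]
    exact LR.seq (LR.seq (LR.push .a (Lt.o : Lt N) _) (LR.seq (LR.push .a (Lt.o : Lt N) _) (LR.push .a (Lt.i : Lt N) _)))
      (LR.seq (LR.push .a (Lt.i : Lt N) _) (LR.push .a (Lt.i : Lt N) _))

/-- the body of the loop which translates the input -/
private def ubod (PI : LP m (Lt N)) : LP m (Lt N) :=
  .pop .d fun u => .seq (uchg u) (.seq PI (.seq (cmv .a .c) (.seq (give .c .a) (cmv .c .a))))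

/-- cost of the body -/
private noncomputable def ucst (Q : Polynomial ℕ) (V : NM m) (b : Bool) : ℕ :=
  6 + (Q.eval (size (([b.toNat], udV V V.q0) : Ctl)) +
    (20 * ((code (([(V.inp b : ℕ) + 1], udV V V.q0) : Ctl)).length + 1) +
      (20 * ((V.inp b : ℕ) + 1 + 1) + 20 * ((code (([], udV V V.q0) : Ctl)).length + 1)))) + 1

private theorem ubod_run {PI : LP m (Lt N)} {Q : Polynomial ℕ}
    (hPI : ∀ (z : Ctl) (A B C D : List (Lt N)) (ξ : Fin m → List (Lt N)),
      LR PI ⟨bw (code z) ++ .hs :: A, B, C, D, ξ⟩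
        ⟨bw (code (inpF z)) ++ .hs :: A, B, C, D, ξ⟩ (Q.eval (size z)))
    (V : NM m) (b : Bool) (y : List ℕ) (A B C D : List (Lt N)) (ξ : Fin m → List (Lt N)) :
    LR (ubod PI) (⟨bw (code (([], udV V V.q0) : Ctl)) ++ .hs :: (reg y ++ A), B, C, bt b :: D, ξ⟩ : Sta m (Lt N))
      ⟨bw (code (([], udV V V.q0) : Ctl)) ++ .hs :: (reg ((V.inp b : ℕ) :: y) ++ A), B, C, D, ξ⟩
      (ucst Q V b) := by
  unfold ubod ucst
  refine LR.pop (v := bt b) (l := D) rfl ?_
  have h1 := uchg_run b (udV V V.q0) (.hs :: (reg y ++ A)) B C D ξ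
  have h2 := hPI ([b.toNat], udV V V.q0) (reg y ++ A) B C D ξ
  rw [inpF_eq] at h2
  have h3 := cmv_run (m := m) (N := N) (h := .a) (k := .c) (by simp) (by simp) (by simp)
    (code (([(V.inp b : ℕ) + 1], udV V V.q0) : Ctl))
    ⟨bw (code (([(V.inp b : ℕ) + 1], udV V V.q0) : Ctl)) ++ .hs :: (reg y ++ A), B, C, D, ξ⟩
    (reg y ++ A) rfl
  have h4 := give_run (m := m) (N := N) (h := .c) (k := .a) (by simp) ((V.inp b : ℕ) + 1) []
    (udV V V.q0) ⟨reg y ++ A, B, bw (code (([(V.inp b : ℕ) + 1], udV V V.q0) : Ctl)) ++ .hs :: C, D, ξ⟩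
    (.hs :: C) rfl
  have h5 := cmv_run (m := m) (N := N) (h := .c) (k := .a) (by simp) (by simp) (by simp)
    (code (([], udV V V.q0) : Ctl))
    ⟨blk ((V.inp b : ℕ) + 1) ++ (reg y ++ A), B, bw (code (([], udV V V.q0) : Ctl)) ++ .hs :: C, D, ξ⟩
    C rfl
  have e : (blk ((V.inp b : ℕ) + 1) ++ (reg y ++ A) : List (Lt N)) = reg ((V.inp b : ℕ) :: y) ++ A := by
    rw [← List.append_assoc]
    rfl
  have e2 : (reg ((V.inp b : ℕ) :: y) ++ A : List (Lt N)) = blk ((V.inp b : ℕ) + 1) ++ (reg y ++ A) := e.symm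
  rw [e2]
  exact LR.seq h1 (LR.seq h2 (LR.seq h3 (LR.seq h4 h5)))

private theorem uin_l4 {PI : LP m (Lt N)} {Q : Polynomial ℕ}
    (hPI : ∀ (z : Ctl) (A B C D : List (Lt N)) (ξ : Fin m → List (Lt N)),
      LR PI ⟨bw (code z) ++ .hs :: A, B, C, D, ξ⟩
        ⟨bw (code (inpF z)) ++ .hs :: A, B, C, D, ξ⟩ (Q.eval (size z)))
    (V : NM m) (A B C D : List (Lt N)) (ξ : Fin m → List (Lt N)) :
    ∀ (l : List Bool) (y : List ℕ),
    LL .d isB (ubod PI)
      (⟨bw (code (([], udV V V.q0) : Ctl)) ++ .hs :: (reg y ++ A), B, C, bw l ++ D, ξ⟩ : Sta m (Lt N))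
      ⟨bw (code (([], udV V V.q0) : Ctl)) ++ .hs :: (reg ((l.map fun b => (V.inp b : ℕ)).reverse ++ y) ++ A), B, C, D, ξ⟩
      ((ucst Q V false + ucst Q V true + 1) * l.length) := by
  intro l
  induction l with
  | nil =>
    intro y
    exact LL.refl _
  | cons b l ih =>
    intro y
    have h1 : LL .d isB (ubod PI)
        (⟨bw (code (([], udV V V.q0) : Ctl)) ++ .hs :: (reg y ++ A), B, C, bw (b :: l) ++ D, ξ⟩ : Sta m (Lt N))
        ⟨bw (code (([], udV V V.q0) : Ctl)) ++ .hs :: (reg ((V.inp b : ℕ) :: y) ++ A), B, C, bw l ++ D, ξ⟩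
        (ucst Q V b + 1) := by
      have e : (bw (b :: l) ++ D : List (Lt N)) = bt b :: (bw l ++ D) := rfl
      rw [e]
      exact LL.step (v := bt b) (l := bw l ++ D) rfl (isB_bt b) (ubod_run hPI V b y A B C (bw l ++ D) ξ)
    have h2 := h1.trans (ih ((V.inp b : ℕ) :: y))
    have e : (l.map fun b => (V.inp b : ℕ)).reverse ++ (V.inp b : ℕ) :: y =
        ((b :: l).map fun b => (V.inp b : ℕ)).reverse ++ y := by
      simp
    rw [e] at h2
    refine h2.mono ?_
    have h3 : ucst Q V b ≤ ucst Q V false + ucst Q V true := by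
      cases b
      · exact Nat.le_add_right _ _
      · exact Nat.le_add_left _ _
    rw [List.length_cons, Nat.mul_add]
    omega

theorem uin_run {PI PF : LP m (Lt N)} {Q : Polynomial ℕ}
    (hPI : ∀ (z : Ctl) (A B C D : List (Lt N)) (ξ : Fin m → List (Lt N)),
      LR PI ⟨bw (code z) ++ .hs :: A, B, C, D, ξ⟩
        ⟨bw (code (inpF z)) ++ .hs :: A, B, C, D, ξ⟩ (Q.eval (size z)))
    (hPF : ∀ (z : Ctl) (A B C D : List (Lt N)) (ξ : Fin m → List (Lt N)),
      LR PF ⟨bw (code z) ++ .hs :: A, B, C, D, ξ⟩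
        ⟨bw (code (finF z)) ++ .hs :: A, B, C, D, ξ⟩ (Q.eval (size z))) :
    ∃ P : LP m (Lt N), ∀ V : NM m, ∃ C : ℕ, ∀ d : List Bool,
      LR P (sIn (dbl (code (([], udV V V.q0) : Ctl)) ++ d)) (ucf V (V.init d))
        (C * (d.length + 1)) := by
  classical
  refine ⟨.seq (.push .b .hs) (.seq (.loop .a (· == .i) (.pop .a fun _ => .pop .a fun u => .push .b u))
    (.seq (pop1 .a) (.seq (mv .a .d isB id) (.seq (.push .a .hs) (.seq (mv .b .a isB id) (.seq (pop1 .b)
      (.seq (.loop .d isB (ubod PI)) (.seq PF flg)))))))), fun V => ?_⟩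
  obtain ⟨K, hK⟩ : ∃ K, K = ucst Q V false + ucst Q V true + 1 := ⟨_, rfl⟩
  obtain ⟨z, hz⟩ : ∃ z, z = code (([], udV V V.q0) : Ctl) := ⟨_, rfl⟩
  obtain ⟨E, hE⟩ : ∃ E, E = Q.eval (size (([], udV V V.q0) : Ctl)) := ⟨_, rfl⟩
  refine ⟨3 + K + (1 + (4 * z.length + 1 + (2 + (1 + (1 + (3 * z.length + 1 + (2 + (1 + (E + 20))))))))),
    fun d => ?_⟩
  rw [← hz]
  have s1 : LR (.push .b .hs) (sIn (dbl z ++ d) : Sta m (Lt N))
      ⟨bw (z.flatMap fun b => [true, b]) ++ (.o :: (bw d ++ [.mk])), [.hs, .mk], [.mk], [.mk], fun _ => [.mk]⟩ 1 := by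
    have h := LR.push .b Lt.hs (sIn (dbl z ++ d) : Sta m (Lt N))
    have e : (sIn (dbl z ++ d) : Sta m (Lt N)).set .b (.hs :: (sIn (dbl z ++ d) : Sta m (Lt N)).get .b) =
        ⟨bw (z.flatMap fun b => [true, b]) ++ (.o :: (bw d ++ [.mk])), [.hs, .mk], [.mk], [.mk], fun _ => [.mk]⟩ := by
      have e1 : (bw (dbl z ++ d) ++ [.mk] : List (Lt N)) =
          bw (z.flatMap fun b => [true, b]) ++ (.o :: (bw d ++ [.mk])) := by
        simp [bw, dbl, bt]
      show (⟨bw (dbl z ++ d) ++ [.mk], _, _, _, _⟩ : Sta m (Lt N)) = _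
      rw [e1]
      rfl
    rw [e] at h
    exact h
  have s2 := (uin_l1 (m := m) (N := N) (A := .o :: (bw d ++ [.mk])) (D := [.mk]) (C := [.mk])
    (ξ := fun _ => [.mk]) z [.hs, .mk]).finish (v := .o) (l := bw d ++ [.mk]) rfl rfl
  have s3 := pop1_run (k := .a) (s := (⟨.o :: (bw d ++ [.mk]), (bw z).reverse ++ [.hs, .mk], [.mk], [.mk],
    fun _ => [.mk]⟩ : Sta m (Lt N))) (v := .o) (r := bw d ++ [.mk]) rfl
  have hbw : ∀ l : List Bool, ∀ u ∈ (bw l : List (Lt N)), isB u = true := by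
    intro l u hu
    rw [bw, List.mem_map] at hu
    obtain ⟨b, -, rfl⟩ := hu
    exact isB_bt b
  have ed : ((((bw d).map id).reverse ++ [.mk]) : List (Lt N)) = bw d.reverse ++ [.mk] := by
    simp [bw]
  have s4 : LR (mv .a .d isB id)
      (⟨bw d ++ [.mk], (bw z).reverse ++ [.hs, .mk], [.mk], [.mk], fun _ => [.mk]⟩ : Sta m (Lt N))
      ⟨[.mk], (bw z).reverse ++ [.hs, .mk], [.mk], bw d.reverse ++ [.mk], fun _ => [.mk]⟩
      (3 * (bw d : List (Lt N)).length + 1) := by
    rw [← ed]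
    exact mv_run (k := .a) (k' := .d) (by simp) (p := isB) id
      (s := (⟨bw d ++ [.mk], (bw z).reverse ++ [.hs, .mk], [.mk], [.mk], fun _ => [.mk]⟩ : Sta m (Lt N)))
      (l := bw d) (v := .mk) (r := []) rfl (hbw d) rfl
  have s5 := LR.push .a Lt.hs (⟨[.mk], (bw z).reverse ++ [.hs, .mk], [.mk],
    bw d.reverse ++ [.mk], fun _ => [.mk]⟩ : Sta m (Lt N))
  have s6 := mv_run (k := .b) (k' := .a) (by simp) (p := isB) id
    (s := (⟨[.hs, .mk], (bw z).reverse ++ [.hs, .mk], [.mk],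
      bw d.reverse ++ [.mk], fun _ => [.mk]⟩ : Sta m (Lt N)))
    (l := (bw z).reverse) (v := .hs) (r := [.mk]) rfl
    (fun u hu => hbw z u (List.mem_reverse.mp hu)) rfl
  have ea : ((((bw z).reverse.map id).reverse ++ [.hs, .mk]) : List (Lt N)) =
      bw z ++ .hs :: (reg [] ++ [.mk]) := by
    simp [reg]
  have s7 : LR (pop1 .b) (⟨(((bw z).reverse.map id).reverse ++ [.hs, .mk] : List (Lt N)),
      [.hs, .mk], [.mk], bw d.reverse ++ [.mk], fun _ => [.mk]⟩ : Sta m (Lt N))
      ⟨bw z ++ .hs :: (reg [] ++ [.mk]), [.mk], [.mk], bw d.reverse ++ [.mk], fun _ => [.mk]⟩ 2 := by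
    rw [← ea]
    exact pop1_run (k := .b) (s := (⟨(((bw z).reverse.map id).reverse ++ [.hs, .mk] : List (Lt N)),
      [.hs, .mk], [.mk], bw d.reverse ++ [.mk], fun _ => [.mk]⟩ : Sta m (Lt N)))
      (v := .hs) (r := [.mk]) rfl
  have s8 := (uin_l4 hPI V [.mk] [.mk] [.mk] [.mk] (fun _ => [.mk]) d.reverse []).finish
    (v := .mk) (l := []) rfl rfl
  rw [← hz, ← hK] at s8
  have er : (((d.reverse.map fun b => (V.inp b : ℕ)).reverse ++ []) : List ℕ) =
      d.map fun b => (V.inp b : ℕ) := by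
    simp
  rw [er] at s8
  have s9 := hPF ([], udV V V.q0) (reg (d.map fun b => (V.inp b : ℕ)) ++ [.mk]) [.mk] [.mk] [.mk]
    (fun _ => [.mk])
  rw [← hz, ← hE] at s9
  have hfin : finF ([], udV V V.q0) = ([(!decide (V.hal (V.init d))).toNat], udV V V.q0) := by
    have h1 : finF ([], udV V V.q0) =
        ([if ((tabV V).getD (V.q0 : ℕ) []).getD 0 3 = 3 then 0 else 1], udV V V.q0) := rfl
    rw [h1, tabV_getD]
    by_cases hh : V.hal (V.init d)
    · have h2 := (hal_iff V (V.init d)).mp hh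
      have h3 : (rowV V V.q0).getD 0 3 = 3 := h2
      rw [if_pos h3]
      simp [hh]
    · have h3 : ¬ (rowV V V.q0).getD 0 3 = 3 := fun h => hh ((hal_iff V (V.init d)).mpr h)
      rw [if_neg h3]
      simp [hh]
  rw [hfin] at s9
  have s10 := flg_run (m := m) (N := N) (!decide (V.hal (V.init d))) (udV V V.q0)
    ⟨d.map fun b => (V.inp b : ℕ), [], [], [], fun _ => []⟩
  have ef : (ust (code (([], udV V V.q0) : Ctl)) ⟨d.map fun b => (V.inp b : ℕ), [], [], [], fun _ => []⟩).set .a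
      ((if (!decide (V.hal (V.init d))) = true then .re else .se) ::
        (ust (code (([], udV V V.q0) : Ctl)) (⟨d.map fun b => (V.inp b : ℕ), [], [], [], fun _ => []⟩ : Sta m ℕ)).a) =
      (ucf V (V.init d) : Sta m (Lt N)) := by
    have e1 : (V.init d).2.map (fun g : Fin V.S => (g : ℕ)) =
        ⟨d.map fun b => (V.inp b : ℕ), [], [], [], fun _ => []⟩ := by
      show (⟨(d.map V.inp).map _, [], [], [], fun _ => []⟩ : Sta m ℕ) = _
      rw [List.map_map]
      rfl
    have e2 : (V.init d).1 = V.q0 := rfl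
    unfold ucf
    rw [e1, e2]
    by_cases hh : V.hal (V.init d)
    · simp [hh]
    · simp [hh]
  rw [ef] at s10
  have H := LR.seq s1 (LR.seq s2 (LR.seq s3 (LR.seq s4 (LR.seq s5 (LR.seq s6 (LR.seq s7
    (LR.seq s8 (LR.seq s9 s10))))))))
  refine H.mono ?_
  have hl1 : (bw d : List (Lt N)).length = d.length := by simp [bw]
  have hl2 : (bw z : List (Lt N)).reverse.length = z.length := by simp [bw]
  rw [hl1, hl2, List.length_reverse]
  obtain ⟨n, hn⟩ : ∃ n, n = d.length := ⟨_, rfl⟩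
  obtain ⟨L, hL⟩ : ∃ L, L = z.length := ⟨_, rfl⟩
  rw [← hn, ← hL]
  nlinarith [Nat.zero_le (n * L), Nat.zero_le (n * E), Nat.zero_le n, Nat.zero_le L, Nat.zero_le E,
    Nat.zero_le K, Nat.zero_le (n * K)]

end Pool.Agent.Lib.MP_33f9c4_lc.TT
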