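import Pool.Agent.Lib.MP_33f9c4_lc.T.UDef
import Pool.Agent.Lib.PolyTime.Lists

set_option autoImplicit false

/-!
MODULE UPt. The local functions are in PT; correctness of the local step.

PT: `PT.getD`, `PT.flatMap`, `PT.append`, `PT.cons`, `PT.list1`, `PT.ite`, `PT.and`, `PT.eq`, `PT.addConst`, `PT.pair`, `PT.fst'`,
`PT.snd'`. `locF_eq`: with `lo k = loF row (tops y) (ixn k)`, `up k = upF row (ixn k)` the list is
`psh lo up ++ [flag]` (`List.range (m + 4)` = `[0, 1, 2, 3]` and the numbers `i + 4`, `i < m`), `(tops y).getD (ixn k) 0 = tp (y.get k)`.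
`step_eq`: case distinction on `V.ins q`; for a halting state nothing is claimed. `tabV.getD q [] = rowV V q`.
`pshd lo up (tls y)`: on the stack of the instruction `push g`: `ocons (g+1) (ocons (tp l) l.tail) = g :: l`; `pop`: `l.tail`;
on all others `ocons (tp l) l.tail = l`.
-/

namespace Pool.Agent.Lib.MP_33f9c4_lc.TT

open Pool.Agent.Lib.PolyTime

variable {m : ℕ}

section
variable {α β : Type} [Enc α] [Enc β]

private theorem upt_getD {f : α → List β} {g : α → ℕ} (hf : PT f) (hg : PT g) (b : β) :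
    PT (fun a => (f a).getD (g a) b) := by
  refine (PT.optCases (f := fun a => (f a)[g a]?) (g := fun _ => b) (h := fun _ c => c)
    (PT.getElem? hg hf) (PT.const b) PT.snd).congr (fun a => ?_)
  rw [List.getD_eq_getElem?_getD]
  cases (f a)[g a]? <;> rfl

private theorem upt_row {f : α → Ctl} (hf : PT f) :
    PT (fun a => (f a).2.1.getD (f a).2.2.2 []) :=
  upt_getD hf.snd'.fst' hf.snd'.snd'.snd' []

private theorem upt_lo {r l : α → List ℕ} {j : α → ℕ} (hr : PT r) (hl : PT l) (hj : PT j) :
    PT (fun a => loF (r a) (l a) (j a)) := by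
  unfold loF
  refine PT.ite (c := fun a => (r a).getD 0 3 = 1 ∧ j a = (r a).getD 1 0) ?_ (PT.const 0)
    (upt_getD hl hj 0)
  exact (PT.and (PT.eq (PT.getD hr 0 3) (PT.const 1)) (PT.eq hj (PT.getD hr 1 0))).congr
    (fun a => (Bool.decide_and _ _).symm)

private theorem upt_up {r : α → List ℕ} {j : α → ℕ} (hr : PT r) (hj : PT j) :
    PT (fun a => upF (r a) (j a)) := by
  unfold upF
  refine PT.ite (c := fun a => (r a).getD 0 3 = 0 ∧ j a = (r a).getD 1 0) ?_
    (PT.addConst (PT.getD hr 2 0) 1) (PT.const 0)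
  exact (PT.and (PT.eq (PT.getD hr 0 3) (PT.const 0)) (PT.eq hj (PT.getD hr 1 0))).congr
    (fun a => (Bool.decide_and _ _).symm)

private theorem upt_nx {r l : α → List ℕ} (hr : PT r) (hl : PT l) :
    PT (fun a => nxF (r a) (l a)) := by
  unfold nxF
  exact PT.ite (c := fun a => (r a).getD 0 3 = 0) (PT.eq (PT.getD hr 0 3) (PT.const 0))
    (PT.getD hr 3 0) (upt_getD hr (PT.addConst (upt_getD hl (PT.getD hr 1 0) 0) 2) 0)

end

theorem pt_locF (m : ℕ) : PT (locF m) := by
  have hz : PT (fun z : Ctl => z) := PT.id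
  have hr := upt_row hz
  have hn : PT (fun z : Ctl => nxF (z.2.1.getD z.2.2.2 []) z.1) := upt_nx hr hz.fst'
  have hy : PT (fun x : Ctl × ℕ => x.1) := PT.fst
  have hry := upt_row hy
  have h1 : PT (fun z : Ctl => (List.range (m + 4)).flatMap
      (fun j => [loF (z.2.1.getD z.2.2.2 []) z.1 j, upF (z.2.1.getD z.2.2.2 []) j])) :=
    PT.flatMap (f := fun _ : Ctl => List.range (m + 4))
      (g := fun (z : Ctl) j => [loF (z.2.1.getD z.2.2.2 []) z.1 j,
        upF (z.2.1.getD z.2.2.2 []) j]) (PT.const _)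
      (PT.cons (upt_lo hry hy.fst' PT.snd) (PT.list1 (upt_up hry PT.snd)))
  have h2 : PT (fun z : Ctl => if (z.2.1.getD (nxF (z.2.1.getD z.2.2.2 []) z.1) []).getD 0 3 = 3
      then 0 else 1) :=
    PT.ite (c := fun z : Ctl => (z.2.1.getD (nxF (z.2.1.getD z.2.2.2 []) z.1) []).getD 0 3 = 3)
      (PT.eq (PT.getD (upt_getD hz.snd'.fst' hn []) 0 3) (PT.const 3)) (PT.const 0) (PT.const 1)
  exact PT.pair (PT.append h1 (PT.list1 h2)) (PT.pair hz.snd'.fst' (PT.pair hz.snd'.snd'.fst' hn))

theorem pt_inpF : PT inpF := by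
  have hz : PT (fun z : Ctl => z) := PT.id
  exact PT.pair (PT.list1 (PT.addConst (upt_getD hz.snd'.snd'.fst' (PT.getD hz.fst' 0 0) 0) 1))
    hz.snd'

theorem pt_outF : PT outF := by
  have hz : PT (fun z : Ctl => z) := PT.id
  exact PT.pair (PT.list1 (upt_getD hz.snd'.snd'.fst' (PT.addConst (PT.getD hz.fst' 0 0) 1) 0))
    hz.snd'

theorem pt_finF : PT finF := by
  have hz : PT (fun z : Ctl => z) := PT.id
  exact PT.pair (PT.list1 (PT.ite (c := fun z : Ctl => (z.2.1.getD z.2.2.2 []).getD 0 3 = 3)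
    (PT.eq (PT.getD (upt_row hz) 0 3) (PT.const 3)) (PT.const 0) (PT.const 1))) hz.snd'

private theorem upt_ofFn {A : Type} {n : ℕ} (f : Fin n → A) (i : Fin n) (d : A) :
    (List.ofFn f).getD i d = f i := by
  rw [List.getD_eq_getElem?_getD, List.getElem?_ofFn]
  simp

theorem tabV_getD (V : NM m) (q : Fin V.Q) : (tabV V).getD q [] = rowV V q :=
  upt_ofFn _ _ _

theorem hal_iff (V : NM m) (c : NC V) : V.hal c ↔ (rowV V c.1).getD 0 3 = 3 := by
  unfold NM.hal rowV
  cases h : V.ins c.1 <;> simp

theorem tops_getD (y : Sta m ℕ) (k : Ix m) : (tops y).getD (ixn k) 0 = tp (y.get k) := by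
  cases k with
  | a => rfl
  | b => rfl
  | c => rfl
  | d => rfl
  | x i =>
    show ((List.finRange m).map fun i => tp (y.x i)).getD i 0 = tp (y.x i)
    rw [List.getD_eq_getElem?_getD]
    simp

private theorem upt_nxF (V : NM m) (c : NC V) (hc : ¬ V.hal c) :
    nxF (rowV V c.1) (tops (c.2.map fun g : Fin V.S => (g : ℕ))) = ((V.step c).1 : ℕ) := by
  unfold NM.hal at hc
  unfold nxF rowV NM.step
  cases h : V.ins c.1 with
  | push k g q' => simp
  | pop k f =>
    simp only [List.getD_cons_zero, List.getD_cons_succ]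
    rw [tops_getD, Sta.get_map]
    cases hl : c.2.get k with
    | nil => simp [tp]
    | cons g l => simp [tp]
  | peek k f =>
    simp only [List.getD_cons_zero, List.getD_cons_succ]
    rw [tops_getD, Sta.get_map]
    cases hl : c.2.get k with
    | nil => simp [tp]
    | cons g l => simp [tp]
  | halt => exact absurd h hc

private theorem upt_locF (m : ℕ) (l : List ℕ) (T : List (List ℕ)) (io : List ℕ) (q : ℕ)
    (row : List ℕ) (n : ℕ) (row' : List ℕ) (h1 : T.getD q [] = row) (h2 : nxF row l = n)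
    (h3 : T.getD n [] = row') : locF m (l, (T, io, q)) =
      ((List.range (m + 4)).flatMap (fun j => [loF row l j, upF row j]) ++
        [if row'.getD 0 3 = 3 then 0 else 1], (T, io, n)) := by
  subst h1 h2 h3
  rfl

open Classical in
/-- the local step computes the numbers to be pushed -/
theorem locF_eq (V : NM m) (c : NC V) (hc : ¬ V.hal c) :
    locF m (tops (c.2.map fun g : Fin V.S => (g : ℕ)), udV V c.1) =
      (psh (fun k : Ix m => loF (rowV V c.1) (tops (c.2.map fun g : Fin V.S => (g : ℕ))) (ixn k))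
          (fun k : Ix m => upF (rowV V c.1) (ixn k)) ++ [if V.hal (V.step c) then 0 else 1],
        udV V (V.step c).1) := by
  have h1 : (tabV V).getD (c.1 : ℕ) [] = rowV V c.1 := tabV_getD V c.1
  have h2 := upt_nxF V c hc
  have h3 : (tabV V).getD ((V.step c).1 : ℕ) [] = rowV V (V.step c).1 := tabV_getD V _
  have h4 : (if (rowV V (V.step c).1).getD 0 3 = 3 then 0 else 1) =
      if V.hal (V.step c) then 0 else 1 := by
    by_cases h : V.hal (V.step c)
    · rw [if_pos h, if_pos ((hal_iff V _).1 h)]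
    · rw [if_neg h, if_neg fun h' => h ((hal_iff V _).2 h')]
  have h5 : (List.range (m + 4)).flatMap (fun j => [loF (rowV V c.1)
      (tops (c.2.map fun g : Fin V.S => (g : ℕ))) j, upF (rowV V c.1) j]) =
      psh (fun k : Ix m => loF (rowV V c.1) (tops (c.2.map fun g : Fin V.S => (g : ℕ))) (ixn k))
          (fun k : Ix m => upF (rowV V c.1) (ixn k)) := by
    rw [show m + 4 = 4 + m by omega, List.range_add, List.flatMap_append,
      show List.range 4 = [0, 1, 2, 3] by rfl]
    unfold psh
    refine congrArg₂ (· ++ ·) rfl ?_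
    rw [← List.map_coe_finRange_eq_range, List.map_map, List.flatMap_map]
    refine List.flatMap_congr fun i _ => ?_
    show _ = [loF _ _ ((i : ℕ) + 4), upF _ ((i : ℕ) + 4)]
    rw [Nat.add_comm (i : ℕ) 4]
    rfl
  have h6 := upt_locF m (tops (c.2.map fun g : Fin V.S => (g : ℕ))) (tabV V) (ioV V) c.1 _ _ _
    h1 h2 h3
  rw [h4, h5] at h6
  exact h6

private theorem upt_ocons (l : List ℕ) : ocons (tp l) l.tail = l := by
  cases l <;> rfl

private theorem upt_ixn {k k' : Ix m} (h : ixn k = ixn k') : k = k' := by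
  cases k <;> cases k' <;> simp_all [ixn, Fin.ext_iff]

private theorem upt_get_pshd (lo up : Ix m → ℕ) (y : Sta m ℕ) (k : Ix m) :
    (pshd lo up y).get k = ocons (up k) (ocons (lo k) (y.get k)) := by
  cases k <;> rfl

private theorem upt_get_tls (y : Sta m ℕ) (k : Ix m) : (tls y).get k = (y.get k).tail := by
  cases k <;> rfl

theorem step_eq (V : NM m) (c : NC V) (hc : ¬ V.hal c) :
    pshd (fun k : Ix m => loF (rowV V c.1) (tops (c.2.map fun g : Fin V.S => (g : ℕ))) (ixn k))
      (fun k : Ix m => upF (rowV V c.1) (ixn k)) (tls (c.2.map fun g : Fin V.S => (g : ℕ))) =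
      (V.step c).2.map fun g : Fin V.S => (g : ℕ) := by
  apply Sta.ext'
  intro j
  rw [upt_get_pshd, upt_get_tls, Sta.get_map]
  unfold NM.hal at hc
  cases h : V.ins c.1 with
  | push k g q' =>
    have hr : rowV V c.1 = [0, ixn k, (g : ℕ), (q' : ℕ)] := by
      unfold rowV
      rw [h]
    have hs : (V.step c).2 = c.2.set k (g :: c.2.get k) := by
      unfold NM.step
      rw [h]
    rw [hr, hs]
    by_cases hj : j = k
    · subst hj
      have e1 : loF [0, ixn j, (g : ℕ), (q' : ℕ)] (tops (c.2.map fun g : Fin V.S => (g : ℕ)))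
          (ixn j) = tp ((c.2.map fun g : Fin V.S => (g : ℕ)).get j) := by
        unfold loF
        rw [if_neg (by simp), tops_getD]
      have e2 : upF [0, ixn j, (g : ℕ), (q' : ℕ)] (ixn j) = (g : ℕ) + 1 := by
        unfold upF
        rw [if_pos (by simp)]
        rfl
      rw [e1, e2, Sta.get_map, Sta.get_map, upt_ocons, Sta.get_set_self]
      rfl
    · have e1 : loF [0, ixn k, (g : ℕ), (q' : ℕ)] (tops (c.2.map fun g : Fin V.S => (g : ℕ)))
          (ixn j) = tp ((c.2.map fun g : Fin V.S => (g : ℕ)).get j) := by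
        unfold loF
        rw [if_neg (by simp), tops_getD]
      have e2 : upF [0, ixn k, (g : ℕ), (q' : ℕ)] (ixn j) = 0 := by
        unfold upF
        rw [if_neg (fun h' => hj (upt_ixn h'.2))]
      rw [e1, e2, Sta.get_map, Sta.get_map, upt_ocons, Sta.get_set_of_ne _ hj]
      rfl
  | pop k f =>
    have hr : rowV V c.1 = 1 :: ixn k :: (f none : ℕ) ::
        List.ofFn fun g => (f (some g) : ℕ) := by
      unfold rowV
      rw [h]
    have hs : (V.step c).2 = c.2.set k (c.2.get k).tail := by
      unfold NM.step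
      rw [h]
    rw [hr, hs]
    have e2 : upF (1 :: ixn k :: (f none : ℕ) :: List.ofFn fun g => (f (some g) : ℕ)) (ixn j)
        = 0 := by
      unfold upF
      rw [if_neg (by simp)]
    rw [e2]
    by_cases hj : j = k
    · subst hj
      have e1 : loF (1 :: ixn j :: (f none : ℕ) :: List.ofFn fun g => (f (some g) : ℕ))
          (tops (c.2.map fun g : Fin V.S => (g : ℕ))) (ixn j) = 0 := by
        unfold loF
        rw [if_pos (by simp)]
      rw [e1, Sta.get_map, Sta.get_set_self, List.map_tail]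
      rfl
    · have e1 : loF (1 :: ixn k :: (f none : ℕ) :: List.ofFn fun g => (f (some g) : ℕ))
          (tops (c.2.map fun g : Fin V.S => (g : ℕ))) (ixn j) =
          tp ((c.2.map fun g : Fin V.S => (g : ℕ)).get j) := by
        unfold loF
        rw [if_neg (fun h' => hj (upt_ixn h'.2)), tops_getD]
      rw [e1, Sta.get_map, Sta.get_map, upt_ocons, Sta.get_set_of_ne _ hj]
      rfl
  | peek k f =>
    have hr : rowV V c.1 = 2 :: ixn k :: (f none : ℕ) ::
        List.ofFn fun g => (f (some g) : ℕ) := by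
      unfold rowV
      rw [h]
    have hs : (V.step c).2 = c.2 := by
      unfold NM.step
      rw [h]
    rw [hr, hs]
    have e2 : upF (2 :: ixn k :: (f none : ℕ) :: List.ofFn fun g => (f (some g) : ℕ)) (ixn j)
        = 0 := by
      unfold upF
      rw [if_neg (by simp)]
    have e1 : loF (2 :: ixn k :: (f none : ℕ) :: List.ofFn fun g => (f (some g) : ℕ))
        (tops (c.2.map fun g : Fin V.S => (g : ℕ))) (ixn j) =
        tp ((c.2.map fun g : Fin V.S => (g : ℕ)).get j) := by
      unfold loF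
      rw [if_neg (by simp), tops_getD]
    rw [e1, e2, Sta.get_map, upt_ocons]
    rfl
  | halt => exact absurd h hc

theorem inpF_eq (V : NM m) (q : Fin V.Q) (b : Bool) :
    inpF ([b.toNat], udV V q) = ([(V.inp b : ℕ) + 1], udV V q) := by
  cases b <;> rfl

theorem outF_eq (V : NM m) (q : Fin V.Q) (g : Fin V.S) :
    outF ([(g : ℕ) + 1], udV V q) = ([(V.out g).toNat], udV V q) := by
  have h := upt_ofFn (fun g : Fin V.S => (V.out g).toNat) g 0
  show ([(List.ofFn fun g : Fin V.S => (V.out g).toNat).getD g 0], udV V q) = _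
  rw [h]

end Pool.Agent.Lib.MP_33f9c4_lc.TT
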