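import Pool.Agent.Lib.MP_33f9c4_lc.T.UGath
import Pool.Agent.Lib.MP_33f9c4_lc.T.UPt
import Pool.Agent.Lib.MP_33f9c4_lc.T.FewC

set_option autoImplicit false

/-!
MODULE UStep. One step of the simulated machine, and the main loop.

`flg`: read the only number `0` or `1` of the list and push the letter `se` (`0`: final) or `re`: `code ([f], r) = i i (code f) o (code r)`
with `code 0 = o`, `code 1 = i o o`, result `code ([], r) = i o (code r)`: pop `i`, pop `i`, pop `u`: if `u = o`: push `i`, push `se`; else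
pop, pop, push `i`, push `re`.
Body of the loop on `a` (top letter `re`): pop `re`, `gath`, the program of `locF m` (`few_ptc`), `scat`, `flg`. All sizes are bounded by a
constant depending on `V`: `size` of the control data: the numbers of the tops are `≤ V.S`, the table and `io` are fixed, the state is `< V.Q`;
`Q.eval` of a bounded number is bounded (`eval_mono`).
-/

namespace Pool.Agent.Lib.MP_33f9c4_lc.TT

open Pool.Agent.Lib.PolyTime

variable {m N : ℕ}

/-- turn the only number of the list into a flag letter -/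
def flg : LP m (Lt N) :=
  .pop .a fun _ => .pop .a fun _ => .pop .a fun u =>
    if u = .o then .seq (.push .a .i) (.push .a .se)
    else .pop .a fun _ => .pop .a fun _ => .seq (.push .a .i) (.push .a .re)

theorem flg_run (f : Bool) (r : UD) (y : Sta m ℕ) :
    LR (flg : LP m (Lt N)) (ust (code (([f.toNat], r) : Ctl)) y)
      ((ust (code (([], r) : Ctl)) y).set .a ((if f then .re else .se) ::
        (ust (code (([], r) : Ctl)) y).a)) 20 := by
  cases f with
  | false =>
    refine LR.mono (t := 5) ?_ (by omega)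
    refine LR.pop (v := .i) (l := .i :: .o :: .o :: (bw (code r) ++ .hs :: (reg y.a ++ [.mk]))) ?_ ?_
    · rfl
    refine LR.pop (v := .i) (l := .o :: .o :: (bw (code r) ++ .hs :: (reg y.a ++ [.mk]))) ?_ ?_
    · rfl
    refine LR.pop (v := .o) (l := .o :: (bw (code r) ++ .hs :: (reg y.a ++ [.mk]))) ?_ ?_
    · rfl
    exact LR.seq (LR.push _ _ _) (LR.push _ _ _)
  | true =>
    refine LR.mono (t := 7) ?_ (by omega)
    refine LR.pop (v := .i) (l := .i :: .i :: .o :: .o :: .o :: (bw (code r) ++ .hs :: (reg y.a ++ [.mk]))) ?_ ?_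
    · rfl
    refine LR.pop (v := .i) (l := .i :: .o :: .o :: .o :: (bw (code r) ++ .hs :: (reg y.a ++ [.mk]))) ?_ ?_
    · rfl
    refine LR.pop (v := .i) (l := .o :: .o :: .o :: (bw (code r) ++ .hs :: (reg y.a ++ [.mk]))) ?_ ?_
    · rfl
    refine LR.pop (v := .o) (l := .o :: .o :: (bw (code r) ++ .hs :: (reg y.a ++ [.mk]))) ?_ ?_
    · rfl
    refine LR.pop (v := .o) (l := .o :: (bw (code r) ++ .hs :: (reg y.a ++ [.mk]))) ?_ ?_
    · rfl
    exact LR.seq (LR.push _ _ _) (LR.push _ _ _)

/-- the body of the main loop, `PL` is the program of the local step -/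
def ubody (PL : LP m (Lt N)) : LP m (Lt N) := .seq (pop1 .a) (.seq gath (.seq PL (.seq scat flg)))

/-- the sizes are bounded -/
private theorem size_bound (V : NM m) : ∃ L : ℕ, (∀ c : NC V,
    size ((tops (c.2.map fun g : Fin V.S => (g : ℕ)), udV V c.1) : Ctl) ≤ L) ∧
    ∀ c : NC V, size (locF m (tops (c.2.map fun g : Fin V.S => (g : ℕ)), udV V c.1)) ≤ L := by
  obtain ⟨p, hp⟩ := (pt_locF m).size_le
  have h1 : ∀ (l : List ℕ) (S : ℕ), (∀ v ∈ l, v ≤ S) → size l ≤ l.length * (2 * S + 2) + 1 := by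
    intro l S
    induction l with
    | nil => intro _; simp
    | cons v l ih =>
      intro h
      have h2 := ih (fun w hw => h w (by simp [hw]))
      have h3 := h v (by simp)
      rw [size_cons, size_nat, List.length_cons, Nat.add_mul, one_mul]
      omega
  have htp : ∀ l : List (Fin V.S), tp (l.map fun g : Fin V.S => (g : ℕ)) ≤ V.S := by
    intro l
    cases l with
    | nil => exact Nat.zero_le _
    | cons g l => exact g.2
  have hlen : ∀ y : Sta m ℕ, (tops y).length = m + 4 := by
    intro y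
    simp [tops]
  have hmem : ∀ (c : NC V), ∀ v ∈ tops (c.2.map fun g : Fin V.S => (g : ℕ)), v ≤ V.S := by
    intro c v hv
    simp only [tops, List.mem_append, List.mem_cons, List.not_mem_nil, or_false, List.mem_map] at hv
    rcases hv with (rfl | rfl | rfl | rfl) | ⟨i, -, rfl⟩
    · exact htp _
    · exact htp _
    · exact htp _
    · exact htp _
    · exact htp _
  have hL : ∀ c : NC V, size ((tops (c.2.map fun g : Fin V.S => (g : ℕ)), udV V c.1) : Ctl) ≤
      (m + 4) * (2 * V.S + 2) + 1 + (size (tabV V) + (size (ioV V) + (2 * V.Q + 1) + 1) + 1) + 1 := by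
    intro c
    have h2 := h1 _ V.S (hmem c)
    rw [hlen] at h2
    have h3 : (c.1 : ℕ) < V.Q := c.1.2
    simp only [size_prod, udV, size_nat]
    omega
  exact ⟨_, fun c => (hL c).trans (Nat.le_add_right _ _), fun c => (hp _).trans
    ((eval_mono p (hL c)).trans (Nat.le_add_left _ _))⟩

open Classical in
theorem ustep_run {PL : LP m (Lt N)} {Q : Polynomial ℕ}
    (hPL : ∀ (z : Ctl) (A B C D : List (Lt N)) (ξ : Fin m → List (Lt N)),
      LR PL ⟨bw (code z) ++ .hs :: A, B, C, D, ξ⟩
        ⟨bw (code (locF m z)) ++ .hs :: A, B, C, D, ξ⟩ (Q.eval (size z))) (V : NM m) :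
    ∃ C : ℕ, ∀ c : NC V, ¬ V.hal c → LR (ubody PL) (ucf V c) (ucf V (V.step c)) C := by
  obtain ⟨L, hL1, hL2⟩ := size_bound V
  refine ⟨2 + (100 * (m + 5) * (L + 1) + (Q.eval L + (100 * (m + 5) * (L + 1) + 20))),
    fun c hc => ?_⟩
  have e1 : (ucf V c : Sta m (Lt N)) =
      (ust (code (([], udV V c.1) : Ctl)) (c.2.map fun g : Fin V.S => (g : ℕ))).set .a
        (.re :: (ust (code (([], udV V c.1) : Ctl)) (c.2.map fun g : Fin V.S => (g : ℕ))).a) := by
    unfold ucf
    rw [if_neg hc]
  rw [e1]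
  refine LR.seq (pop1_run (v := .re) rfl) ?_
  refine LR.seq (s' := ust (code ((tops (c.2.map fun g : Fin V.S => (g : ℕ)), udV V c.1) : Ctl))
    (tls (c.2.map fun g : Fin V.S => (g : ℕ)))) ?_ ?_
  · refine (gath_run (udV V c.1) (c.2.map fun g : Fin V.S => (g : ℕ))).mono ?_
    exact Nat.mul_le_mul_left _ (Nat.add_le_add_right (hL1 c) 1)
  refine LR.seq (s' := ust (code (locF m (tops (c.2.map fun g : Fin V.S => (g : ℕ)), udV V c.1)))
    (tls (c.2.map fun g : Fin V.S => (g : ℕ)))) ?_ ?_
  · exact (hPL _ _ _ _ _ _).mono (eval_mono Q (hL1 c))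
  have h2 := hL2 c
  rw [locF_eq V c hc] at h2 ⊢
  have h3 := scat_run (N := N) [if V.hal (V.step c) then 0 else 1] (udV V (V.step c).1)
    (fun k : Ix m => loF (rowV V c.1) (tops (c.2.map fun g : Fin V.S => (g : ℕ))) (ixn k))
    (fun k : Ix m => upF (rowV V c.1) (ixn k)) (tls (c.2.map fun g : Fin V.S => (g : ℕ)))
  rw [step_eq V c hc] at h3
  refine LR.seq (h3.mono (Nat.mul_le_mul_left _ (Nat.add_le_add_right h2 1))) ?_
  unfold ucf
  by_cases h : V.hal (V.step c)
  · rw [if_pos h, if_pos h]
    exact flg_run false _ _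
  · rw [if_neg h, if_neg h]
    exact flg_run true _ _

theorem uloop_run {PL : LP m (Lt N)} {Q : Polynomial ℕ}
    (hPL : ∀ (z : Ctl) (A B C D : List (Lt N)) (ξ : Fin m → List (Lt N)),
      LR PL ⟨bw (code z) ++ .hs :: A, B, C, D, ξ⟩
        ⟨bw (code (locF m z)) ++ .hs :: A, B, C, D, ξ⟩ (Q.eval (size z))) (V : NM m) :
    ∃ C : ℕ, ∀ (c : NC V) (s : ℕ), V.hal (V.step^[s] c) →
      LR (.loop .a (· == .re) (ubody PL)) (ucf V c) (ucf V (V.step^[s] c)) (C * (s + 1)) := by
  obtain ⟨C, hC⟩ := ustep_run hPL V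
  refine ⟨C + 1, fun c s => ?_⟩
  induction s generalizing c with
  | zero =>
    intro h
    have h' : V.hal c := h
    refine LR.mono (t := 1) ?_ (by omega)
    refine LR.loopF (v := .se) (l := (ust (code (([], udV V c.1) : Ctl))
      (c.2.map fun g : Fin V.S => (g : ℕ))).a) ?_ rfl
    unfold ucf
    rw [if_pos h']
    rfl
  | succ s ih =>
    intro h
    by_cases hc : V.hal c
    · have e : V.step^[s + 1] c = c := NM.step_iter_of_hal V hc (s + 1)
      rw [e]
      refine LR.mono (t := 1) ?_ (by nlinarith)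
      refine LR.loopF (v := .se) (l := (ust (code (([], udV V c.1) : Ctl))
        (c.2.map fun g : Fin V.S => (g : ℕ))).a) ?_ rfl
      unfold ucf
      rw [if_pos hc]
      rfl
    · rw [Function.iterate_succ_apply] at h ⊢
      refine (LR.loopT (v := .re) (l := (ust (code (([], udV V c.1) : Ctl))
        (c.2.map fun g : Fin V.S => (g : ℕ))).a) ?_ rfl (hC c hc) (ih (V.step c) h)).mono ?_
      · unfold ucf
        rw [if_neg hc]
        rfl
      · ring_nf
        omega

end Pool.Agent.Lib.MP_33f9c4_lc.TT
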