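import Pool.Agent.Lib.MP_33f9c4_lc.T.UDef

set_option autoImplicit false

/-!
MODULE UTake. Elementary operations of the universal program: take the top symbol of stack `k` into the list of the
control word on stack `h`; push the first number of the list on stack `k`; move the control word from `a` to `c` (with
scratch stack `b`) and back.

`take h k`: `code (l, r) = i (code l) (code r)`: pop `i` of `h`, push `o` on `h`, loop on `k` while the top is `i`: pop it, push `o`, `i` on `h`
(so `h` gets `code v = (i o)^v o`), then pop the top of `k` and push it back if it is not `hs` (it is `hs` or `mk`), push `i`, `i` on `h`.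
Result: `code (v :: l, r) = i i (code v) (code l) (code r)`.
`give h k`: pop `i`, `i` of `h`, pop the next letter `u`: if `u = o` (`v = 0`) nothing, if `u = i`: push `hs` on `k`, pop `o` of `h`, push `i` on
`k`, loop on `h` while the top is `i`: pop `i`, pop `o`, push `i` on `k`; then pop `o` of `h`. At the end push `i` on `h`.
`toC`: push `hs` on `b`, `mv a b`, pop `hs` of `a`, push `hs` on `c`, `mv b c`, pop `hs` of `b`. `toA` is the same with `a`, `c` exchanged.
-/

namespace Pool.Agent.Lib.MP_33f9c4_lc.TT

open Pool.Agent.Lib.PolyTime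

variable {m N : ℕ}

/-- take the top symbol of `k` into the control word on `h` -/
def take (h k : Ix m) : LP m (Lt N) :=
  .pop h fun _ => .seq (.push h .o) (.seq (.loop k (· == .i) (.pop k fun _ =>
    .seq (.push h .o) (.push h .i))) (.seq (.pop k fun v => if v = .hs then .skip else .push k v)
      (.seq (.push h .i) (.push h .i))))

/-- push the first number of the list of the control word on `h` on stack `k` -/
def give (h k : Ix m) : LP m (Lt N) :=
  .seq (.pop h fun _ => .pop h fun _ => .pop h fun u => if u = .o then .skip else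
    .seq (.push k .hs) (.pop h fun _ => .seq (.push k .i) (.seq (.loop h (· == .i)
      (.pop h fun _ => .pop h fun _ => .push k .i)) (pop1 h)))) (.push h .i)

/-- move the control word from `h` to `k` with the scratch stack `b` -/
def cmv (h k : Ix m) : LP m (Lt N) :=
  .seq (.push .b .hs) (.seq (mv h .b isB id) (.seq (pop1 h) (.seq (.push k .hs)
    (.seq (mv .b k isB id) (pop1 .b)))))

private theorem gs {A : Type} (s : Sta m A) (k k' : Ix m) (l : List A) :
    (s.set k l).get k' = if k' = k then l else s.get k' := by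
  by_cases h : k' = k
  · subst h; simp
  · rw [if_neg h, Sta.get_set_of_ne _ h]

private theorem bw_cons (b : Bool) (l : List Bool) : (bw (b :: l) : List (Lt N)) = bt b :: bw l := rfl

private theorem bw_append (l l' : List Bool) : (bw (l ++ l') : List (Lt N)) = bw l ++ bw l' := by
  simp [bw]

private theorem bt_true : (bt true : Lt N) = .i := rfl

private theorem bt_false : (bt false : Lt N) = .o := rfl

private theorem take_loop {h k : Ix m} (hk : h ≠ k) (γ rest : List (Lt N)) (x : Lt N) :
    ∀ (n v0 : ℕ) (s : Sta m (Lt N)), s.get h = bw (code v0) ++ γ →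
      s.get k = List.replicate n .i ++ x :: rest →
      LL k (· == .i) (.pop k fun _ => .seq (.push h .o) (.push h .i)) s
        ((s.set h (bw (code (v0 + n)) ++ γ)).set k (x :: rest)) (4 * n) := by
  intro n
  induction n with
  | zero =>
    intro v0 s h1 h2
    have e : (s.set h (bw (code (v0 + 0)) ++ γ)).set k (x :: rest) = s := by
      ext j : 1
      rw [gs, gs]
      split_ifs with c1 c2
      · rw [c1, h2]; rfl
      · rw [c2, h1, Nat.add_zero]
      · rfl
    rw [e]
    exact LL.refl s
  | succ n ih =>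
    intro v0 s h1 h2
    set s1 := s.set k (List.replicate n .i ++ x :: rest) with hs1
    set s2 := s1.set h (.o :: s1.get h) with hs2
    set s3 := s2.set h (.i :: s2.get h) with hs3
    have a1 : LL k (· == .i) (.pop k fun _ => .seq (.push h .o) (.push h .i)) s s3 (1 + 1 + 1 + 1) := by
      refine LL.step (v := .i) (l := List.replicate n .i ++ x :: rest) ?_ rfl (LR.pop (v := .i)
        (l := List.replicate n .i ++ x :: rest) ?_ ?_)
      · rw [h2, List.replicate_succ]; rfl
      · rw [h2, List.replicate_succ]; rfl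
      · exact LR.seq (LR.push h .o s1) (LR.push h .i s2)
    have b1 : s3.get h = bw (code (v0 + 1)) ++ γ := by
      rw [hs3, gs, if_pos rfl, hs2, gs, if_pos rfl, hs1, gs, if_neg hk, h1, code_nat_succ, bw_cons, bw_cons]
      rfl
    have b2 : s3.get k = List.replicate n .i ++ x :: rest := by
      rw [hs3, gs, if_neg hk.symm, hs2, gs, if_neg hk.symm, hs1, gs, if_pos rfl]
    have a2 := ih (v0 + 1) s3 b1 b2
    clear_value s3 s2 s1
    have e : (s3.set h (bw (code (v0 + 1 + n)) ++ γ)).set k (x :: rest) =
        (s.set h (bw (code (v0 + (n + 1))) ++ γ)).set k (x :: rest) := by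
      ext j : 1
      simp only [gs]
      split_ifs with c1 c2
      · rfl
      · rw [show v0 + 1 + n = v0 + (n + 1) by omega]
      · rw [hs3, gs, if_neg c2, hs2, gs, if_neg c2, hs1, gs, if_neg c1]
    rw [e] at a2
    exact (a1.trans a2).mono (by omega)

private theorem take_aux {h k : Ix m} (hk : h ≠ k) (v : ℕ) (l : List ℕ) (r : UD) (s : Sta m (Lt N))
    (α rest : List (Lt N)) (x : Lt N) (hx : x ≠ .i) (h1 : s.get h = bw (code ((l, r) : Ctl)) ++ α)
    (h2 : s.get k = List.replicate v .i ++ x :: rest) :
    LR (take h k) s ((s.set h (bw (code ((v :: l, r) : Ctl)) ++ α)).set k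
      (if x = .hs then rest else x :: rest)) (20 * (v + 1)) := by
  set γ : List (Lt N) := bw (code l ++ code r) ++ α with hγ
  have h1' : s.get h = .i :: γ := by
    rw [h1, code_ctl, bw_cons, bt_true]
    rfl
  set s1 := s.set h γ with hs1
  set s2 := s1.set h (.o :: s1.get h) with hs2
  have b1 : s2.get h = bw (code 0) ++ γ := by
    rw [hs2, gs, if_pos rfl, hs1, gs, if_pos rfl, code_nat_zero]
    rfl
  have b2 : s2.get k = List.replicate v .i ++ x :: rest := by
    rw [hs2, gs, if_neg hk.symm, hs1, gs, if_neg hk.symm, h2]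
  have a1 := take_loop hk γ rest x v 0 s2 b1 b2
  set s3 := (s2.set h (bw (code (0 + v)) ++ γ)).set k (x :: rest) with hs3
  have a2 := a1.finish (v := x) (l := rest) (by rw [hs3, gs, if_pos rfl]) (by
    show (x == Lt.i) = false
    exact beq_false_of_ne hx)
  set s4 := s3.set k (if x = .hs then rest else x :: rest) with hs4
  have a3 : LR (.pop k fun v => if v = .hs then .skip else .push k v) s3 s4 (1 + 1) := by
    refine LR.pop (v := x) (l := rest) (by rw [hs3, gs, if_pos rfl]) ?_
    by_cases hx2 : x = .hs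
    · rw [if_pos hx2]
      have e : s4 = s3.set k rest := by rw [hs4, if_pos hx2]
      rw [e]
      exact LR.skip _
    · rw [if_neg hx2]
      have e : s4 = (s3.set k rest).set k (x :: (s3.set k rest).get k) := by
        rw [hs4, if_neg hx2, Sta.get_set_self, Sta.set_set s3 k rest]
      rw [e]
      exact LR.push k x _
  set s5 := s4.set h (.i :: s4.get h) with hs5
  set s6 := s5.set h (.i :: s5.get h) with hs6
  have a4 : LR (.seq (.push h .i) (.push h .i)) s4 s6 (1 + 1) := LR.seq (LR.push h .i s4) (LR.push h .i s5)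
  have fin : LR (take h k) s s6 (20 * (v + 1)) := by
    refine (LR.pop (v := .i) (l := γ) h1' (LR.seq (LR.push h .o s1) (LR.seq a2 (LR.seq a3 a4)))).mono ?_
    omega
  clear_value s6 s5 s4 s3 s2 s1
  have e : s6 = (s.set h (bw (code ((v :: l, r) : Ctl)) ++ α)).set k (if x = .hs then rest else x :: rest) := by
    ext j : 1
    rw [gs _ k, gs _ h]
    by_cases c1 : j = k
    · rw [if_pos c1, c1, hs6, gs, if_neg hk.symm, hs5, gs, if_neg hk.symm, hs4, gs, if_pos rfl]
    · rw [if_neg c1]
      by_cases c2 : j = h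
      · rw [if_pos c2, c2, hs6, gs, if_pos rfl, hs5, gs, if_pos rfl, hs4, gs, if_neg hk, hs3, gs, if_neg hk,
          gs, if_pos rfl, Nat.zero_add, code_ctl, code_natcons, hγ]
        simp only [bw_cons, bw_append, bt_true, List.cons_append, List.append_assoc]
      · rw [if_neg c2, hs6, gs, if_neg c2, hs5, gs, if_neg c2, hs4, gs, if_neg c1, hs3, gs, if_neg c1, gs,
          if_neg c2, hs2, gs, if_neg c2, hs1, gs, if_neg c2]
  rw [← e]
  exact fin

theorem take_run {h k : Ix m} (hk : h ≠ k) (l : List ℕ) (r : UD) (s : Sta m (Lt N))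
    (α β : List (Lt N)) (y : List ℕ) (h1 : s.get h = bw (code ((l, r) : Ctl)) ++ α)
    (h2 : s.get k = reg y ++ .mk :: β) :
    LR (take h k) s ((s.set h (bw (code ((tp y :: l, r) : Ctl)) ++ α)).set k
      (reg y.tail ++ .mk :: β)) (20 * (tp y + 1)) := by
  cases y with
  | nil =>
    have h := take_aux hk 0 l r s α β .mk (by simp) h1 (by rw [h2]; rfl)
    simpa [tp, reg_nil] using h
  | cons g y =>
    have h := take_aux hk (g + 1) l r s α (reg y ++ .mk :: β) .hs (by simp) h1 (by
      rw [h2, reg_cons]
      simp)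
    simpa [tp] using h

private theorem give_loop {h k : Ix m} (hk : h ≠ k) (γ : List (Lt N)) :
    ∀ (w : ℕ) (s : Sta m (Lt N)), s.get h = bw (code w) ++ γ →
      LL h (· == .i) (.pop h fun _ => .pop h fun _ => .push k .i) s
        ((s.set h (.o :: γ)).set k (List.replicate w .i ++ s.get k)) (4 * w) := by
  intro w
  induction w with
  | zero =>
    intro s h1
    have e : (s.set h (.o :: γ)).set k (List.replicate 0 .i ++ s.get k) = s := by
      ext j : 1
      rw [gs, gs]
      split_ifs with c1 c2
      · rw [c1]; rfl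
      · rw [c2, h1, code_nat_zero]; rfl
      · rfl
    rw [e]
    exact LL.refl s
  | succ w ih =>
    intro s h1
    have h1' : s.get h = .i :: .o :: (bw (code w) ++ γ) := by
      rw [h1, code_nat_succ, bw_cons, bw_cons]
      rfl
    set s1 := s.set h (.o :: (bw (code w) ++ γ)) with hs1
    set s2 := s1.set h (bw (code w) ++ γ) with hs2
    set s3 := s2.set k (.i :: s2.get k) with hs3
    have a1 : LL h (· == .i) (.pop h fun _ => .pop h fun _ => .push k .i) s s3 (1 + 1 + 1 + 1) := by
      refine LL.step h1' rfl (LR.pop h1' (LR.pop (v := .o) (l := bw (code w) ++ γ) ?_ ?_))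
      · rw [gs, if_pos rfl]
      · exact LR.push k .i s2
    have b1 : s3.get h = bw (code w) ++ γ := by
      rw [hs3, gs, if_neg hk, hs2, gs, if_pos rfl]
    have b2 : s3.get k = .i :: s.get k := by
      rw [hs3, gs, if_pos rfl, hs2, gs, if_neg hk.symm, hs1, gs, if_neg hk.symm]
    have a2 := ih s3 b1
    clear_value s3 s2 s1
    have e : (s3.set h (.o :: γ)).set k (List.replicate w .i ++ s3.get k) =
        (s.set h (.o :: γ)).set k (List.replicate (w + 1) .i ++ s.get k) := by
      rw [b2]
      ext j : 1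
      simp only [gs]
      split_ifs with c1 c2
      · rw [List.replicate_succ']
        simp
      · rfl
      · rw [hs3, gs, if_neg c1, hs2, gs, if_neg c2, hs1, gs, if_neg c2]
    rw [e] at a2
    exact (a1.trans a2).mono (by omega)

theorem give_run {h k : Ix m} (hk : h ≠ k) (v : ℕ) (l : List ℕ) (r : UD) (s : Sta m (Lt N))
    (α : List (Lt N)) (h1 : s.get h = bw (code ((v :: l, r) : Ctl)) ++ α) :
    LR (give h k) s ((s.set h (bw (code ((l, r) : Ctl)) ++ α)).set k (blk v ++ s.get k))
      (20 * (v + 1)) := by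
  set γ : List (Lt N) := bw (code l ++ code r) ++ α with hγ
  have h1' : s.get h = .i :: .i :: (bw (code v) ++ γ) := by
    rw [h1, code_ctl, code_natcons, hγ]
    simp only [bw_cons, bw_append, bt_true, List.cons_append, List.append_assoc]
  have hout : (.i :: γ : List (Lt N)) = bw (code ((l, r) : Ctl)) ++ α := by
    rw [code_ctl, bw_cons, bt_true]
    rfl
  cases v with
  | zero =>
    have h2 : s.get h = .i :: .i :: .o :: γ := by rw [h1', code_nat_zero]; rfl
    set s1 := s.set h (.i :: .o :: γ) with hs1
    set s2 := s1.set h (.o :: γ) with hs2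
    set s3 := s2.set h γ with hs3
    set s4 := s3.set h (.i :: s3.get h) with hs4
    have fin : LR (give h k) s s4 (20 * (0 + 1)) := by
      refine (LR.seq (LR.pop h2 (LR.pop (v := .i) (l := .o :: γ) ?_ (LR.pop (v := .o) (l := γ) ?_ ?_)))
        (LR.push h .i s3)).mono (t := 1 + 1 + 1 + 1 + 1) (by omega)
      · rw [gs, if_pos rfl]
      · rw [gs, if_pos rfl]
      · rw [if_pos rfl]
        exact LR.skip _
    clear_value s4 s3 s2 s1
    have e : s4 = (s.set h (bw (code ((l, r) : Ctl)) ++ α)).set k (blk 0 ++ s.get k) := by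
      rw [← hout]
      ext j : 1
      rw [gs _ k, gs _ h]
      by_cases c1 : j = k
      · rw [if_pos c1, c1, hs4, gs, if_neg hk.symm, hs3, gs, if_neg hk.symm, hs2, gs, if_neg hk.symm, hs1, gs,
          if_neg hk.symm]
        rfl
      · rw [if_neg c1]
        by_cases c2 : j = h
        · rw [if_pos c2, c2, hs4, gs, if_pos rfl, hs3, gs, if_pos rfl]
        · rw [if_neg c2, hs4, gs, if_neg c2, hs3, gs, if_neg c2, hs2, gs, if_neg c2, hs1, gs, if_neg c2]
    rw [← e]
    exact fin
  | succ w =>
    have h2 : s.get h = .i :: .i :: .i :: .o :: (bw (code w) ++ γ) := by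
      rw [h1', code_nat_succ, bw_cons, bw_cons]; rfl
    set s1 := s.set h (.i :: .i :: .o :: (bw (code w) ++ γ)) with hs1
    set s2 := s1.set h (.i :: .o :: (bw (code w) ++ γ)) with hs2
    set s3 := s2.set h (.o :: (bw (code w) ++ γ)) with hs3
    set s4 := s3.set k (.hs :: s3.get k) with hs4
    set s5 := s4.set h (bw (code w) ++ γ) with hs5
    set s6 := s5.set k (.i :: s5.get k) with hs6
    have b1 : s6.get h = bw (code w) ++ γ := by
      rw [hs6, gs, if_neg hk, hs5, gs, if_pos rfl]
    have b2 : s6.get k = .i :: .hs :: s.get k := by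
      rw [hs6, gs, if_pos rfl, hs5, gs, if_neg hk.symm, hs4, gs, if_pos rfl, hs3, gs, if_neg hk.symm, hs2, gs,
        if_neg hk.symm, hs1, gs, if_neg hk.symm]
    have a1 := give_loop hk γ w s6 b1
    set s7 := (s6.set h (.o :: γ)).set k (List.replicate w .i ++ s6.get k) with hs7
    have b3 : s7.get h = .o :: γ := by rw [hs7, gs, if_neg hk, gs, if_pos rfl]
    have a2 := a1.finish (v := .o) (l := γ) b3 rfl
    set s8 := s7.set h γ with hs8
    have a3 : LR (pop1 h) s7 s8 2 := pop1_run b3
    set s9 := s8.set h (.i :: s8.get h) with hs9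
    have fin : LR (give h k) s s9 (20 * (w + 1 + 1)) := by
      refine (LR.seq (LR.pop h2 (LR.pop (v := .i) (l := .i :: .o :: (bw (code w) ++ γ)) ?_
        (LR.pop (v := .i) (l := .o :: (bw (code w) ++ γ)) ?_ ?_)))
        (LR.push h .i s8)).mono (t := 1 + ((1 + (4 * w + 1 + 2)) + 1) + 1 + 1 + 1 + 1) (by omega)
      · rw [gs, if_pos rfl]
      · rw [gs, if_pos rfl]
      · rw [if_neg (by simp)]
        refine LR.seq (LR.push k .hs s3) (LR.pop (v := .o) (l := bw (code w) ++ γ) ?_
          (LR.seq (LR.push k .i s5) (LR.seq a2 a3)))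
        rw [gs, if_neg hk, gs, if_pos rfl]
    clear_value s9 s8 s7 s6 s5 s4 s3 s2 s1
    have e : s9 = (s.set h (bw (code ((l, r) : Ctl)) ++ α)).set k (blk (w + 1) ++ s.get k) := by
      rw [← hout]
      ext j : 1
      rw [gs _ k, gs _ h]
      by_cases c1 : j = k
      · rw [if_pos c1, c1, hs9, gs, if_neg hk.symm, hs8, gs, if_neg hk.symm, hs7, gs, if_pos rfl, b2]
        unfold blk
        rw [if_neg (Nat.succ_ne_zero w), List.replicate_succ']
        simp
      · rw [if_neg c1]
        by_cases c2 : j = h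
        · rw [if_pos c2, c2, hs9, gs, if_pos rfl, hs8, gs, if_pos rfl]
        · rw [if_neg c2, hs9, gs, if_neg c2, hs8, gs, if_neg c2, hs7, gs, if_neg c1, gs, if_neg c2, hs6, gs,
            if_neg c1, hs5, gs, if_neg c2, hs4, gs, if_neg c1, hs3, gs, if_neg c2, hs2, gs, if_neg c2, hs1, gs,
            if_neg c2]
    rw [← e]
    exact fin

private theorem isB_bw (w : List Bool) : ∀ u ∈ (bw w : List (Lt N)), isB u = true := by
  intro u hu
  unfold bw at hu
  rw [List.mem_map] at hu
  obtain ⟨b, _, rfl⟩ := hu
  exact isB_bt b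

theorem cmv_run {h k : Ix m} (hb : h ≠ .b) (kb : k ≠ .b) (hk : h ≠ k) (w : List Bool)
    (s : Sta m (Lt N)) (α : List (Lt N)) (h1 : s.get h = bw w ++ .hs :: α) :
    LR (cmv h k) s ((s.set h α).set k (bw w ++ .hs :: s.get k)) (20 * (w.length + 1)) := by
  have hlen : (bw w : List (Lt N)).length = w.length := by simp [bw]
  set s1 := s.set .b (.hs :: s.get .b) with hs1
  have a1 : LR (.push .b .hs) s s1 1 := LR.push .b .hs s
  have b1 : s1.get h = bw w ++ .hs :: α := by rw [hs1, gs, if_neg hb, h1]
  have a2 := mv_run (k := h) (k' := .b) hb (p := isB) id b1 (isB_bw w) rfl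
  set s2 := (s1.set h (.hs :: α)).set .b (((bw w : List (Lt N)).map id).reverse ++ s1.get .b) with hs2
  have b2 : s2.get h = .hs :: α := by rw [hs2, gs, if_neg hb, gs, if_pos rfl]
  set s3 := s2.set h α with hs3
  have a3 : LR (pop1 h) s2 s3 2 := pop1_run b2
  set s4 := s3.set k (.hs :: s3.get k) with hs4
  have a4 : LR (.push k .hs) s3 s4 1 := LR.push k .hs s3
  have b4 : s4.get .b = (bw w : List (Lt N)).reverse ++ .hs :: s.get .b := by
    rw [hs4, gs, if_neg kb.symm, hs3, gs, if_neg hb.symm, hs2, gs, if_pos rfl, hs1, gs, if_pos rfl, List.map_id]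
  have a5 := mv_run (k := .b) (k' := k) kb.symm (p := isB) id b4 (fun u hu => isB_bw w u (by simpa using hu)) rfl
  set s5 := (s4.set .b (.hs :: s.get .b)).set k ((((bw w : List (Lt N)).reverse).map id).reverse ++ s4.get k) with hs5
  have b5 : s5.get .b = .hs :: s.get .b := by rw [hs5, gs, if_neg kb.symm, gs, if_pos rfl]
  set s6 := s5.set .b (s.get .b) with hs6
  have a6 : LR (pop1 .b) s5 s6 2 := pop1_run b5
  clear_value s6 s5 s4 s3 s2 s1
  have e : s6 = (s.set h α).set k (bw w ++ .hs :: s.get k) := by
    ext j : 1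
    rw [gs _ k, gs _ h]
    by_cases c1 : j = k
    · rw [if_pos c1, c1, hs6, gs, if_neg kb, hs5, gs, if_pos rfl, hs4, gs, if_pos rfl, hs3, gs, if_neg hk.symm, hs2,
        gs, if_neg kb, gs, if_neg hk.symm, hs1, gs, if_neg kb]
      simp
    · rw [if_neg c1]
      by_cases c2 : j = h
      · rw [if_pos c2, c2, hs6, gs, if_neg hb, hs5, gs, if_neg hk, gs, if_neg hb, hs4, gs, if_neg hk, hs3, gs,
          if_pos rfl]
      · rw [if_neg c2]
        by_cases c3 : j = .b
        · rw [hs6, c3, gs, if_pos rfl]
        · rw [hs6, gs, if_neg c3, hs5, gs, if_neg c1, gs, if_neg c3, hs4, gs, if_neg c1, hs3, gs, if_neg c2, hs2,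
            gs, if_neg c3, gs, if_neg c2, hs1, gs, if_neg c3]
  rw [← e]
  refine (LR.seq a1 (LR.seq a2 (LR.seq a3 (LR.seq a4 (LR.seq a5 a6))))).mono ?_
  simp only [List.length_reverse, hlen]
  omega

end Pool.Agent.Lib.MP_33f9c4_lc.TT
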