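import Pool.Agent.Lib.MP_33f9c4_lc.T.Fmt
import Pool.Agent.Lib.MP_33f9c4_lc.K.VView

set_option autoImplicit false

/-!
# The view of the core and the histogram of the Turing machine
-/

namespace Pool.Agent.Lib.MP_33f9c4_lc.TT

open Pool.Agent.Lib.MP_33f9c4_lc.LK (Par Tab rt mt jhi tmpl allL view reads)

variable {m N : ℕ}

/-- The table function: the output of the normalised machine `V` after `2 ^ (j + c)` steps, padded
with zeros to the length `n`. -/
def vtab (V : NM m) (c n : ℕ) : Tab := fun j e =>
  some ((V.val (2 ^ (j + c)) (stp e) ++ List.replicate n false).take n)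

theorem length_vtab {V : NM m} {c n j : ℕ} {e x : List Bool} (h : vtab V c n j e = some x) :
    x.length = n := by
  simp only [vtab, Option.some.injEq] at h
  rw [← h, List.length_take, List.length_append, List.length_replicate]
  omega

/-- the clock of the first table -/
def kap (l c : ℕ) : List Bool := List.replicate (l + c) false ++ [true]

theorem lval_replicate (k : ℕ) (κ : List Bool) :
    lval (List.replicate k false ++ κ) = 2 ^ k * lval κ := by
  induction k with
  | zero => simp
  | succ k ih =>
    rw [List.replicate_succ, List.cons_append, lval, ih, pow_succ]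
    simp only [Bool.toNat_false]
    ring

theorem lval_kap (i l c : ℕ) : lval (List.replicate i false ++ kap l c) = 2 ^ (l + i + c) := by
  rw [kap, ← List.append_assoc, ← List.replicate_add, lval_replicate]
  simp only [lval, Bool.toNat_true]
  rw [show i + (l + c) = l + i + c by omega]
  ring

/-- the counts of a list of prefixes -/
theorem isPrefixOf_pad {K n : ℕ} (hK : K ≤ n) {y : List Bool} (hy : y.length = K)
    (x : List Bool) :
    y.isPrefixOf ((x ++ List.replicate n false).take n) = decide (pfx K x = y) := by
  rw [Bool.eq_iff_iff, List.isPrefixOf_iff_prefix, decide_eq_true_eq]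
  have h1 : pfx K x = ((x ++ List.replicate n false).take n).take K := by
    rw [List.take_take, min_eq_left hK, pfx]
    obtain ⟨k, rfl⟩ := Nat.exists_eq_add_of_le hK
    rw [List.replicate_add, ← List.append_assoc, List.take_append_of_le_length
      (l₂ := List.replicate k false)]
    rw [List.length_append, List.length_replicate]
    omega
  rw [h1, List.prefix_iff_eq_take, hy]
  exact eq_comm

theorem count_rdsO (V : NM m) (K : ℕ) (y : List Bool) : ∀ (mm : ℕ) (κ : List Bool)
    (τ : List (Option Bool)), (rdsO V K mm κ τ).count y = ∑ i ∈ Finset.range mm,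
      (MP_33f9c4_lc.K.ents (τ.drop i) []).countP fun e =>
        decide (pfx K (V.val (lval (List.replicate i false ++ κ)) (stp e)) = y) := by
  intro mm
  induction mm with
  | zero => intro κ τ; simp [rdsO]
  | succ mm ih =>
    intro κ τ
    rw [rdsO, List.count_append, ih, Finset.sum_range_succ', add_comm]
    congr 1
    · refine Finset.sum_congr rfl fun i _ => ?_
      have e1 : τ.tail.drop i = τ.drop (i + 1) := by
        rw [List.drop_tail]
      have e2 : List.replicate i false ++ false :: κ = List.replicate (i + 1) false ++ κ := by
        rw [List.replicate_succ', List.append_assoc]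
        rfl
      rw [e1, e2]
    · rw [List.count, List.countP_map]
      refine List.countP_congr fun e _ => ?_
      simp [Function.comp]

theorem cnt_eq {P : Par} (hP : P.Good) (V : NM m) (c : ℕ) {u : List Bool} (hu : 1 ≤ u.length)
    (hu' : u.length ≤ P.R + P.q) {y : List Bool} (hy : y.length = P.K) :
    LK.cnt P (vtab V c P.n) u y =
      (rdsO V P.K (mt P u) (kap P.l c) (rt P u)).count y := by
  have hKn : P.K ≤ P.n := by
    have := hP.h15
    omega
  rw [count_rdsO]
  unfold LK.cnt reads
  rw [List.countP_flatMap]
  have h0 : ∀ k, (List.range' P.l k) = (List.range k).map (P.l + ·) := by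
    intro k
    rw [List.range'_eq_map_range]
  rw [h0, List.map_map]
  have hsum : ∀ (k : ℕ) (f : ℕ → ℕ), ((List.range k).map f).sum = ∑ i ∈ Finset.range k, f i := by
    intro k f
    induction k with
    | zero => simp
    | succ k ih => rw [List.range_succ, List.map_append, List.sum_append, ih,
        Finset.sum_range_succ]; simp
  rw [hsum]
  refine Finset.sum_congr rfl fun i hi => ?_
  rw [Finset.mem_range] at hi
  have hij : P.l + i ≤ jhi P u := by
    unfold LK.mt at hi
    omega
  simp only [Function.comp]
  rw [List.countP_map]
  have hlen := LK.VView_length_tmpl hP hu hu' hij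
  have hperm := LK.VView_perm (tmpl P u (P.l + i))
  rw [hlen] at hperm
  rw [hperm.countP_eq, ← LK.VView_drop hP hu hu' hij, List.reverse_reverse]
  refine List.countP_congr fun e _ => ?_
  simp only [Function.comp, vtab, Option.map_some, Option.getD_some]
  rw [isPrefixOf_pad hKn hy, lval_kap]

theorem view_eq {P : Par} (hP : P.Good) (V : NM m) (c : ℕ) {u : List Bool} (hu : 1 ≤ u.length)
    (hu' : u.length ≤ P.R + P.q) :
    view P (vtab V c P.n) u = (allL P.K).map fun y => (y, min (2 ^ P.c)
      ((rdsO V P.K (mt P u) (kap P.l c) (rt P u)).count y / 2 ^ (P.n - P.K - P.c))) := by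
  unfold view
  refine List.map_congr_left fun y hy => ?_
  rw [LK.VView_mem_allL] at hy
  rw [cnt_eq hP V c hu hu' hy]

end Pool.Agent.Lib.MP_33f9c4_lc.TT
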